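import Mathlib
import Pool.Agent.Worm.Defs
import Pool.Agent.Worm.B2.Conv

/-!
# Steep caps, all angles: definitions (problem MP_3c4b73_an)
-/

open MeasureTheory Set
open scoped Real ENNReal

namespace Pool.Agent.Worm.SB

/-- The data of the Borel transform with the sharp exponent `a > 1/2`. -/
structure BorelA (b : ℝ) (Ψ : ℂ → ℂ) (γ : ℕ → ℂ) : Prop where
  borel : Borel b Ψ γ
  large : ∀ a : ℝ, 1 / 2 < a → ∃ n : ℝ → ℝ, (∀ t, 0 ≤ n t) ∧ Measurable n ∧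
    IntegrableOn (fun t => n t ^ 2) (Ioo (-b) b) ∧
    ∀ᵐ (t : ℝ) ∂(volume.restrict (Ioo (-b) b)), ∀ l : ℝ,
      ‖Ψ (l + t * Complex.I)‖ ≤ Real.exp (a * Real.exp l) * n t

/-- `Φ(x) = ∑ γ_j x^j`. -/
noncomputable def Phi (γ : ℕ → ℂ) (x : ℂ) : ℂ := ∑' j : ℕ, γ j * x ^ j

/-- `Ψ(log x) / x`. -/
noncomputable def PhiL (Ψ : ℂ → ℂ) (x : ℂ) : ℂ := Ψ (Complex.log x) / x

/-- `a_j = γ_j j!` -/
noncomputable def aa (γ : ℕ → ℂ) (j : ℕ) : ℂ := γ j * (j.factorial : ℂ)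

/-- The Laplace transform of `Φ` near infinity. -/
noncomputable def f0 (γ : ℕ → ℂ) (P : ℂ) : ℂ := ∑' j : ℕ, aa γ j / P ^ (j + 1)

/-- The linear functional with `X^j ↦ a_j`. -/
noncomputable def Lin (γ : ℕ → ℂ) : Polynomial ℂ →ₗ[ℂ] ℂ :=
  Polynomial.lsum (fun j => aa γ j • (LinearMap.id : ℂ →ₗ[ℂ] ℂ))

/-- The radial integral: `v = e^τ`, `τ = l + iβ`, `l ≤ 0`. -/
noncomputable def Rad (β : ℝ) (h : ℂ → ℂ) : ℂ :=
  ∫ l in Iic (0 : ℝ), Complex.exp ((2 - Complex.I) * (l + β * Complex.I)) *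
    h (l + β * Complex.I)

/-- The relation for a polynomial `p`, at the point `v = e^τ`. -/
noncomputable def polyF (γ : ℕ → ℂ) (p : Polynomial ℂ) (τ : ℂ) : ℂ :=
  Lin γ (p.comp (Polynomial.C (Complex.exp (2 * τ)) * Polynomial.X -
    Polynomial.C (Complex.exp τ))) + τ * p.eval (-Complex.exp τ)

/-- The integrand of the relation for `Φ`. -/
noncomputable def phiF (Φ : ℂ → ℂ) (y τ : ℂ) : ℂ :=
  (Φ (Complex.exp (2 * τ) * y) + τ) * Complex.exp (-(Complex.exp τ * y))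

/-- The relation for `Φ` at the point `y`. -/
def EqR (b : ℝ) (Φ : ℂ → ℂ) (y : ℂ) : Prop := Rad b (phiF Φ y) = Rad (-b) (phiF Φ y)

/-! ### The curves and the kernels -/

/-- `ε = e^{-iβ}` -/
noncomputable def ep (β : ℝ) : ℂ := Complex.exp (-(β * Complex.I))

/-- The curve `φ_x(P)`, from `P` (at `x = 0`) to infinity. -/
noncomputable def phi (β x : ℝ) (P : ℂ) : ℂ :=
  (Real.exp x : ℂ) ^ 2 * P - ep β * ((Real.exp x : ℂ) * ((Real.exp x : ℂ) - 1))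

/-- `∂_x φ_x = e^x σ_x`. -/
noncomputable def sg (β x : ℝ) (P : ℂ) : ℂ :=
  2 * (Real.exp x : ℂ) * P - ep β * (2 * (Real.exp x : ℂ) - 1)

/-- `e^{ix}` -/
noncomputable def kx (x : ℝ) : ℂ := Complex.exp (Complex.I * x)

/-- The kernel of the Volterra operator. -/
noncomputable def KK (β x : ℝ) (P : ℂ) : ℂ :=
  sg β 0 P * ((Real.exp x : ℂ) * kx x) * (Complex.I / sg β x P + ep β / (sg β x P) ^ 2)

/-- The Volterra operator. -/
noncomputable def LL (β : ℝ) (f : ℂ → ℂ) (P : ℂ) : ℂ :=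
  f P + ∫ x in Ioi (0 : ℝ), KK β x P * f (phi β x P)

/-- The source. -/
noncomputable def src (β : ℝ) (P : ℂ) : ℂ :=
  ∫ x in Ioi (0 : ℝ), (Real.exp x : ℂ) ^ 2 * kx x * ((β * Complex.I - x) / (phi β x P) ^ 2)

/-- The motion `P₊ ↦ P₋`. -/
noncomputable def Tm (b : ℝ) (P : ℂ) : ℂ :=
  Complex.exp (4 * b * Complex.I) * P - Complex.exp (3 * b * Complex.I) + Complex.exp (b * Complex.I)

/-- The functional equation at the point `P = P₊`; `f` is used at `P₊` and `g` at `P₋`. -/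
def Eqn (b : ℝ) (f g : ℂ → ℂ) (P : ℂ) : Prop :=
  Complex.exp (b - 2 * b * Complex.I) * (LL b f P / sg b 0 P + src b P) =
    Complex.exp (-b + 2 * b * Complex.I) *
      (LL (-b) g (Tm b P) / sg (-b) 0 (Tm b P) + src (-b) (Tm b P))

/-- The height of `P` in the direction `ψ`. -/
noncomputable def ht (ψ : ℝ) (P : ℂ) : ℝ := (Complex.exp (ψ * Complex.I) * P).re

/-- The half-plane of height `> H`. -/
def hp (ψ H : ℝ) : Set ℂ := {P | H < ht ψ P}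

/-- `f = O(1/height)` on the half-plane. -/
def HB (ψ h : ℝ) (f : ℂ → ℂ) : Prop := ∃ M : ℝ, ∀ P ∈ hp ψ h, ‖f P‖ * (1 + |ht ψ P|) ≤ M

/-- The half-plane contains neither `ε` nor `ε/2`. -/
def Ok (β ψ h : ℝ) : Prop := ht ψ (ep β) ≤ h ∧ ht ψ (ep β) / 2 ≤ h

/-- The Laplace transform along the ray of argument `α`. -/
noncomputable def Lap (Φ : ℂ → ℂ) (α : ℝ) (P : ℂ) : ℂ :=
  ∫ s in Ioi (0 : ℝ), Complex.exp (α * Complex.I) * Φ (s * Complex.exp (α * Complex.I)) *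
    Complex.exp (-(P * (s * Complex.exp (α * Complex.I))))

/-- Minus the derivative of `Lap`. -/
noncomputable def DLap (Φ : ℂ → ℂ) (α : ℝ) (P : ℂ) : ℂ :=
  ∫ s in Ioi (0 : ℝ), Complex.exp (α * Complex.I) * (s * Complex.exp (α * Complex.I)) *
    Φ (s * Complex.exp (α * Complex.I)) *
    Complex.exp (-(P * (s * Complex.exp (α * Complex.I))))

/-- `Φ` is continuous and of exponential type `≤ a` on the ray of argument `α`. -/
structure Ray (Φ : ℂ → ℂ) (α a : ℝ) : Prop where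
  cont : ContinuousOn (fun s : ℝ => Φ (s * Complex.exp (α * Complex.I))) (Ioi 0)
  bound : ∃ C : ℝ, ∀ s : ℝ, 0 < s → ‖Φ (s * Complex.exp (α * Complex.I))‖ ≤ C * Real.exp (a * s)

/-- One side of the relation in the Laplace picture, before the integration by parts. -/
noncomputable def Side (β : ℝ) (g : ℂ → ℂ) (P : ℂ) : ℂ :=
  ∫ x in Ioi (0 : ℝ), (Real.exp x : ℂ) ^ 2 * kx x *
    (g (phi β x P) + (β * Complex.I - x) / (phi β x P) ^ 2)

/-! ### The compact case `cos b ≠ 0`, `0 < |b| < π` -/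

/-- `f` extends to the half-plane of height `> H` in the direction `ψ`. -/
def Reg (f : ℂ → ℂ) (R ψ H : ℝ) : Prop :=
  ∃ g : ℂ → ℂ, DifferentiableOn ℂ g (hp ψ H) ∧ EqOn g f (hp ψ R)

/-- The convex hull of the singularities of `f`. -/
def CC (f : ℂ → ℂ) (R : ℝ) : Set ℂ := {P | ∀ ψ H, Reg f R ψ H → ht ψ P ≤ H}

/-- The data of the compact case. -/
structure Dat (b : ℝ) (f : ℂ → ℂ) (R : ℝ) : Prop where
  hb : b ≠ 0
  hb1 : |b| < π
  hb2 : Real.cos b ≠ 0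
  hR : 1 < R
  hol : DifferentiableOn ℂ f {P | R < ‖P‖}
  bd : ∃ M : ℝ, ∀ P : ℂ, R < ‖P‖ → ‖f P‖ * ‖P‖ ≤ M
  reg : ∀ α : ℝ, |α| < |b| → ∀ H : ℝ, 1 / 2 < H → Reg f R α H
  eqn : ∀ P : ℂ, R < ‖P‖ → R < ‖Tm b P‖ → Eqn b f f P

/-- The centre `κ = 1 / (2 cos b)` of the rotation `Tm b`. -/
noncomputable def kap (b : ℝ) : ℝ := 1 / (2 * Real.cos b)

end Pool.Agent.Worm.SB
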