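import Mathlib
import Pool.Agent.WormS.Defs

/-!
# Elementary estimates for the curves and the kernels (problem MP_3c4b73_an)
-/

open MeasureTheory Set
open scoped Real ENNReal

namespace Pool.Agent.Worm.SB

theorem norm_dir (ψ : ℝ) : ‖Complex.exp (ψ * Complex.I)‖ = 1 := Complex.norm_exp_ofReal_mul_I ψ

theorem norm_ep (β : ℝ) : ‖ep β‖ = 1 := by
  unfold ep
  rw [Complex.norm_exp]
  simp

theorem ep_ne_zero (β : ℝ) : ep β ≠ 0 := Complex.exp_ne_zero _

theorem norm_kx (x : ℝ) : ‖kx x‖ = 1 := by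
  unfold kx
  rw [Complex.norm_exp]
  simp

theorem ht_add (ψ : ℝ) (P Q : ℂ) : ht ψ (P + Q) = ht ψ P + ht ψ Q := by
  simp [ht, mul_add]

theorem ht_sub (ψ : ℝ) (P Q : ℂ) : ht ψ (P - Q) = ht ψ P - ht ψ Q := by
  simp [ht, mul_sub]

theorem ht_real_mul (ψ r : ℝ) (P : ℂ) : ht ψ ((r : ℂ) * P) = r * ht ψ P := by
  unfold ht
  rw [mul_left_comm, Complex.re_ofReal_mul]

theorem abs_ht_le (ψ : ℝ) (P : ℂ) : |ht ψ P| ≤ ‖P‖ := by
  unfold ht
  refine (Complex.abs_re_le_norm _).trans ?_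
  rw [norm_mul, norm_dir, one_mul]

theorem ht_le (ψ : ℝ) (P : ℂ) : ht ψ P ≤ ‖P‖ := (le_abs_self _).trans (abs_ht_le ψ P)

theorem continuous_ht (ψ : ℝ) : Continuous (ht ψ) := by
  unfold ht
  fun_prop

theorem isOpen_hp (ψ H : ℝ) : IsOpen (hp ψ H) := isOpen_lt continuous_const (continuous_ht ψ)

theorem convex_hp (ψ H : ℝ) : Convex ℝ (hp ψ H) := by
  have : IsLinearMap ℝ (ht ψ) :=
    ⟨ht_add ψ, fun c P => by rw [Complex.real_smul, ht_real_mul, smul_eq_mul]⟩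
  exact convex_halfSpace_gt this H

theorem hp_mono {ψ H H' : ℝ} (h : H ≤ H') : hp ψ H' ⊆ hp ψ H := fun _ hP => lt_of_le_of_lt h hP

/-- A point at the height `H`. -/
theorem exists_ht (ψ H : ℝ) : ∃ P : ℂ, ht ψ P = H := by
  refine ⟨(H : ℂ) * Complex.exp (-(ψ * Complex.I)), ?_⟩
  unfold ht
  rw [mul_left_comm, ← Complex.exp_add]
  simp

theorem nonempty_hp (ψ H : ℝ) : (hp ψ H).Nonempty := by
  obtain ⟨P, hP⟩ := exists_ht ψ (H + 1)
  exact ⟨P, by show H < ht ψ P; rw [hP]; linarith⟩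

theorem phi_zero (β : ℝ) (P : ℂ) : phi β 0 P = P := by simp [phi]

theorem one_le_exp {x : ℝ} (hx : 0 ≤ x) : 1 ≤ Real.exp x := Real.one_le_exp hx

theorem ht_phi (β ψ x : ℝ) (P : ℂ) : ht ψ (phi β x P) =
    Real.exp x ^ 2 * ht ψ P - Real.exp x * (Real.exp x - 1) * ht ψ (ep β) := by
  have h : phi β x P = ((Real.exp x ^ 2 : ℝ) : ℂ) * P -
      ((Real.exp x * (Real.exp x - 1) : ℝ) : ℂ) * ep β := by
    unfold phi
    push_cast
    ring
  rw [h, ht_sub, ht_real_mul, ht_real_mul]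

theorem ht_sg (β ψ x : ℝ) (P : ℂ) : ht ψ (sg β x P) =
    2 * Real.exp x * ht ψ P - (2 * Real.exp x - 1) * ht ψ (ep β) := by
  have h : sg β x P = ((2 * Real.exp x : ℝ) : ℂ) * P -
      ((2 * Real.exp x - 1 : ℝ) : ℂ) * ep β := by
    unfold sg
    push_cast
    ring
  rw [h, ht_sub, ht_real_mul, ht_real_mul]

/-- The curve rises. -/
theorem ht_phi_ge {β ψ h : ℝ} (hok : Ok β ψ h) {x : ℝ} (hx : 0 ≤ x) (P : ℂ) :
    Real.exp x ^ 2 * (ht ψ P - h) ≤ ht ψ (phi β x P) - h := by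
  obtain ⟨h1, h2⟩ := hok
  rw [ht_phi]
  have hT := one_le_exp hx
  set T := Real.exp x
  set c := ht ψ (ep β)
  rcases le_total 0 h with h3 | h3
  · nlinarith [mul_nonneg (mul_nonneg (by linarith : (0:ℝ) ≤ T) (sub_nonneg.2 hT))
      (sub_nonneg.2 h1), mul_nonneg (sub_nonneg.2 hT) h3]
  · nlinarith [mul_nonneg (mul_nonneg (by linarith : (0:ℝ) ≤ T) (sub_nonneg.2 hT))
      (by linarith : 0 ≤ 2 * h - c), mul_nonneg (sq_nonneg (T - 1)) (neg_nonneg.2 h3)]

theorem ht_sg_ge {β ψ h : ℝ} (hok : Ok β ψ h) {x : ℝ} (hx : 0 ≤ x) (P : ℂ) :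
    2 * Real.exp x * (ht ψ P - h) ≤ ht ψ (sg β x P) := by
  obtain ⟨h1, h2⟩ := hok
  rw [ht_sg]
  have hT := one_le_exp hx
  set T := Real.exp x
  set c := ht ψ (ep β)
  rcases le_total 0 h with h3 | h3
  · nlinarith [mul_nonneg (by linarith : (0:ℝ) ≤ 2 * T - 1) (sub_nonneg.2 h1)]
  · nlinarith [mul_nonneg (by linarith : (0:ℝ) ≤ 2 * T - 1) (by linarith : 0 ≤ 2 * h - c),
      mul_nonneg (sub_nonneg.2 hT) (neg_nonneg.2 h3)]

theorem norm_sg_ge {β ψ h : ℝ} (hok : Ok β ψ h) {x : ℝ} (hx : 0 ≤ x) (P : ℂ) :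
    2 * Real.exp x * (ht ψ P - h) ≤ ‖sg β x P‖ := (ht_sg_ge hok hx P).trans (ht_le ψ _)

theorem sg_ne_zero {β ψ h : ℝ} (hok : Ok β ψ h) {x : ℝ} (hx : 0 ≤ x) {P : ℂ} (hP : P ∈ hp ψ h) :
    sg β x P ≠ 0 := by
  have h1 := norm_sg_ge hok hx P
  have h2 : 0 < ht ψ P - h := sub_pos.2 hP
  have h3 : 0 < 2 * Real.exp x * (ht ψ P - h) := by positivity
  exact norm_pos_iff.1 (h3.trans_le h1)

theorem phi_mem {β ψ h : ℝ} (hok : Ok β ψ h) {x : ℝ} (hx : 0 ≤ x) {P : ℂ} {h' : ℝ} (hh : h ≤ h')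
    (hP : P ∈ hp ψ h') : phi β x P ∈ hp ψ h' := by
  have h1 := ht_phi_ge hok hx P
  have hT := one_le_exp hx
  have h2 : h' < ht ψ P := hP
  show h' < ht ψ (phi β x P)
  nlinarith [mul_nonneg (by nlinarith : (0:ℝ) ≤ Real.exp x ^ 2 - 1) (by linarith : 0 ≤ ht ψ P - h)]

theorem ht_le_ht_phi {β ψ h : ℝ} (hok : Ok β ψ h) {x : ℝ} (hx : 0 ≤ x) {P : ℂ} (hP : h ≤ ht ψ P) :
    ht ψ P ≤ ht ψ (phi β x P) := by
  have h1 := ht_phi_ge hok hx P
  have hT := one_le_exp hx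
  nlinarith [mul_nonneg (by nlinarith : (0:ℝ) ≤ Real.exp x ^ 2 - 1) (by linarith : 0 ≤ ht ψ P - h)]

theorem sg_eq (β x : ℝ) (P : ℂ) :
    (Real.exp x : ℂ) * sg β 0 P = sg β x P + ep β * ((Real.exp x : ℂ) - 1) := by
  unfold sg
  simp only [Real.exp_zero, Complex.ofReal_one]
  ring

/-- The bound of the kernel. -/
theorem norm_KK_le {β ψ h δ : ℝ} (hδ : 0 < δ) (hok : Ok β ψ h) {x : ℝ} (hx : 0 ≤ x) {P : ℂ}
    (hP : h + δ ≤ ht ψ P) : ‖KK β x P‖ ≤ (1 + 1 / (2 * δ)) ^ 2 := by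
  have hT := one_le_exp hx
  have hs := norm_sg_ge hok hx P
  have hmem : P ∈ hp ψ h := by show h < ht ψ P; linarith
  have hne := sg_ne_zero hok hx hmem
  set T := Real.exp x with hTdef
  have hs1 : 2 * T * δ ≤ ‖sg β x P‖ := by
    refine le_trans ?_ hs
    have : δ ≤ ht ψ P - h := by linarith
    gcongr
  have hspos : 0 < ‖sg β x P‖ := norm_pos_iff.2 hne
  have hT0 : 0 < T := by linarith
  have e1 : KK β x P = kx x * (((T : ℂ) * sg β 0 P) / sg β x P) * (Complex.I + ep β / sg β x P) := by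
    unfold KK
    rw [← hTdef]
    field_simp
  have h2 : ‖((T : ℂ) * sg β 0 P) / sg β x P‖ ≤ 1 + 1 / (2 * δ) := by
    rw [sg_eq, add_div, div_self hne]
    refine (norm_add_le _ _).trans ?_
    rw [norm_one]
    gcongr
    rw [norm_div, norm_mul, norm_ep, one_mul, show (((T : ℝ) : ℂ) - 1) = ((T - 1 : ℝ) : ℂ) by
      push_cast; ring, Complex.norm_real, Real.norm_of_nonneg (by linarith), div_le_div_iff₀
      hspos (by positivity)]
    nlinarith
  have h3 : ‖Complex.I + ep β / sg β x P‖ ≤ 1 + 1 / (2 * δ) := by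
    refine (norm_add_le _ _).trans ?_
    rw [Complex.norm_I, norm_div, norm_ep]
    gcongr
    nlinarith
  rw [e1, norm_mul, norm_mul, norm_kx, one_mul, sq]
  exact mul_le_mul h2 h3 (norm_nonneg _) (by positivity)

theorem hasDerivAt_phi_x (β x : ℝ) (P : ℂ) :
    HasDerivAt (fun x : ℝ => phi β x P) ((Real.exp x : ℂ) * sg β x P) x := by
  have h : HasDerivAt (fun x : ℝ => ((Real.exp x : ℝ) : ℂ)) ((Real.exp x : ℝ) : ℂ) x :=
    (Real.hasDerivAt_exp x).ofReal_comp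
  have h1 := ((h.pow 2).mul_const P).sub ((h.mul (h.sub_const 1)).const_mul (ep β))
  refine h1.congr_deriv ?_
  unfold sg
  push_cast
  ring

theorem hasDerivAt_sg_x (β x : ℝ) (P : ℂ) :
    HasDerivAt (fun x : ℝ => sg β x P) (sg β x P - ep β) x := by
  have h : HasDerivAt (fun x : ℝ => ((Real.exp x : ℝ) : ℂ)) ((Real.exp x : ℝ) : ℂ) x :=
    (Real.hasDerivAt_exp x).ofReal_comp
  have h1 := ((h.const_mul 2).mul_const P).sub (((h.const_mul 2).sub_const 1).const_mul (ep β))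
  refine h1.congr_deriv ?_
  unfold sg
  ring

theorem hasDerivAt_kx (x : ℝ) : HasDerivAt kx (Complex.I * kx x) x := by
  unfold kx
  have h : HasDerivAt (fun x : ℝ => Complex.I * (x : ℂ)) (Complex.I * 1) x :=
    (Complex.ofRealCLM.hasDerivAt (x := x)).const_mul Complex.I
  refine h.cexp.congr_deriv ?_
  ring

theorem hasDerivAt_kern {β x : ℝ} {P : ℂ} (hne : sg β x P ≠ 0) :
    HasDerivAt (fun x : ℝ => (Real.exp x : ℂ) * kx x / sg β x P)
      ((Real.exp x : ℂ) * kx x * (Complex.I / sg β x P + ep β / (sg β x P) ^ 2)) x := by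
  have h : HasDerivAt (fun x : ℝ => ((Real.exp x : ℝ) : ℂ)) ((Real.exp x : ℝ) : ℂ) x :=
    (Real.hasDerivAt_exp x).ofReal_comp
  have h1 := (h.mul (hasDerivAt_kx x)).div (hasDerivAt_sg_x β x P) hne
  refine h1.congr_deriv ?_
  simp only [Pi.mul_apply]
  field_simp
  ring

theorem hasDerivAt_phi (β x : ℝ) (P : ℂ) : HasDerivAt (phi β x) ((Real.exp x : ℂ) ^ 2) P := by
  unfold phi
  have h1 := ((hasDerivAt_id P).const_mul ((Real.exp x : ℂ) ^ 2)).sub_const
    (ep β * ((Real.exp x : ℂ) * ((Real.exp x : ℂ) - 1)))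
  simpa using h1

theorem differentiable_phi (β x : ℝ) : Differentiable ℂ (phi β x) := fun P =>
  (hasDerivAt_phi β x P).differentiableAt

theorem differentiable_sg (β x : ℝ) : Differentiable ℂ (sg β x) := by
  unfold sg
  fun_prop

theorem differentiableOn_KK {β ψ h x : ℝ} (hok : Ok β ψ h) (hx : 0 ≤ x) :
    DifferentiableOn ℂ (KK β x) (hp ψ h) := by
  unfold KK
  have h1 := (differentiable_sg β x).differentiableOn (s := hp ψ h)
  have h0 := (differentiable_sg β 0).differentiableOn (s := hp ψ h)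
  have hne : ∀ P ∈ hp ψ h, sg β x P ≠ 0 := fun P hP => sg_ne_zero hok hx hP
  refine (h0.mul_const _).mul (DifferentiableOn.add ?_ ?_)
  · exact (differentiableOn_const _).div h1 hne
  · exact (differentiableOn_const _).div (h1.pow 2) fun P hP => pow_ne_zero 2 (hne P hP)

theorem continuous_phi : Continuous fun p : ℝ × (ℝ × ℂ) => phi p.1 p.2.1 p.2.2 := by
  unfold phi ep
  fun_prop

theorem continuous_sg : Continuous fun p : ℝ × (ℝ × ℂ) => sg p.1 p.2.1 p.2.2 := by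
  unfold sg ep
  fun_prop

/-- `|φ_x(P)| ≥ e^{2x} (|P| - 1)`. -/
theorem norm_phi_ge (β : ℝ) {x : ℝ} (hx : 0 ≤ x) (P : ℂ) :
    Real.exp x ^ 2 * (‖P‖ - 1) ≤ ‖phi β x P‖ := by
  have hT := one_le_exp hx
  unfold phi
  refine le_trans ?_ (norm_sub_norm_le _ _)
  rw [norm_mul, norm_mul, norm_mul, norm_pow, norm_ep, Complex.norm_real, Real.norm_of_nonneg
    (Real.exp_pos x).le, show (((Real.exp x : ℝ) : ℂ) - 1) = ((Real.exp x - 1 : ℝ) : ℂ) by
      push_cast; ring, Complex.norm_real, Real.norm_of_nonneg (by linarith)]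
  nlinarith

theorem ep_mul_dir (β ψ : ℝ) : ht ψ (ep β) = Real.cos (ψ - β) := by
  unfold ht ep
  rw [← Complex.exp_add, show (ψ : ℂ) * Complex.I + -(β * Complex.I) =
    ((ψ - β : ℝ) : ℂ) * Complex.I by push_cast; ring, Complex.exp_ofReal_mul_I_re]

theorem norm_Tm_ge (b : ℝ) (P : ℂ) : ‖P‖ - 2 ≤ ‖Tm b P‖ := by
  unfold Tm
  have h1 : ‖Complex.exp (4 * b * Complex.I) * P‖ = ‖P‖ := by
    rw [norm_mul, show (4 : ℂ) * b * Complex.I = ((4 * b : ℝ) : ℂ) * Complex.I by push_cast; ring,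
      norm_dir, one_mul]
  have h2 : ‖Complex.exp (3 * b * Complex.I)‖ = 1 := by
    rw [show (3 : ℂ) * b * Complex.I = ((3 * b : ℝ) : ℂ) * Complex.I by push_cast; ring, norm_dir]
  have h3 := norm_sub_norm_le (Complex.exp (4 * b * Complex.I) * P)
    (Complex.exp (3 * b * Complex.I) - Complex.exp (b * Complex.I))
  have h4 := norm_sub_le (Complex.exp (3 * b * Complex.I)) (Complex.exp (b * Complex.I))
  rw [h2, norm_dir] at h4
  rw [h1] at h3
  have h5 : Complex.exp (4 * b * Complex.I) * P - (Complex.exp (3 * b * Complex.I) -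
      Complex.exp (b * Complex.I)) = Complex.exp (4 * b * Complex.I) * P -
      Complex.exp (3 * b * Complex.I) + Complex.exp (b * Complex.I) := by ring
  rw [h5] at h3
  linarith

theorem Tm_Tm (b : ℝ) (P : ℂ) : Tm (-b) (Tm b P) = P := by
  unfold Tm
  have e1 : Complex.exp (4 * ((-b : ℝ) : ℂ) * Complex.I) * Complex.exp (4 * b * Complex.I) = 1 := by
    rw [← Complex.exp_add]; push_cast; ring_nf; simp
  have e2 : Complex.exp (4 * ((-b : ℝ) : ℂ) * Complex.I) * Complex.exp (3 * b * Complex.I) =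
      Complex.exp (((-b : ℝ) : ℂ) * Complex.I) := by
    rw [← Complex.exp_add]; push_cast; congr 1; ring
  have e3 : Complex.exp (4 * ((-b : ℝ) : ℂ) * Complex.I) * Complex.exp (b * Complex.I) =
      Complex.exp (3 * ((-b : ℝ) : ℂ) * Complex.I) := by
    rw [← Complex.exp_add]; push_cast; congr 1; ring
  linear_combination P * e1 - e2 + e3

theorem Eqn.symm {b : ℝ} {f g : ℂ → ℂ} {P : ℂ} (h : Eqn b f g P) : Eqn (-b) g f (Tm b P) := by
  unfold Eqn at h ⊢
  rw [Tm_Tm]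
  have e : -(-b) = b := neg_neg b
  rw [e]
  push_cast
  rw [show -(b : ℂ) - 2 * -(b : ℂ) * Complex.I = -b + 2 * b * Complex.I by ring,
    show - -(b : ℂ) + 2 * -(b : ℂ) * Complex.I = b - 2 * b * Complex.I by ring]
  exact h.symm

/-- The height of `Tm b P` in the direction `ψ - 4b`. -/
theorem ht_Tm (b ψ : ℝ) (P : ℂ) : ht (ψ - 4 * b) (Tm b P) =
    ht ψ P + (Real.cos (ψ - 3 * b) - Real.cos (ψ - b)) := by
  have h : Complex.exp (((ψ - 4 * b : ℝ) : ℂ) * Complex.I) * Tm b P =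
      Complex.exp (ψ * Complex.I) * P - Complex.exp (((ψ - b : ℝ) : ℂ) * Complex.I) +
        Complex.exp (((ψ - 3 * b : ℝ) : ℂ) * Complex.I) := by
    unfold Tm
    have e1 : Complex.exp (((ψ - 4 * b : ℝ) : ℂ) * Complex.I) * Complex.exp (4 * b * Complex.I) =
        Complex.exp (ψ * Complex.I) := by
      rw [← Complex.exp_add]; push_cast; congr 1; ring
    have e2 : Complex.exp (((ψ - 4 * b : ℝ) : ℂ) * Complex.I) * Complex.exp (3 * b * Complex.I) =
        Complex.exp (((ψ - b : ℝ) : ℂ) * Complex.I) := by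
      rw [← Complex.exp_add]; push_cast; congr 1; ring
    have e3 : Complex.exp (((ψ - 4 * b : ℝ) : ℂ) * Complex.I) * Complex.exp (b * Complex.I) =
        Complex.exp (((ψ - 3 * b : ℝ) : ℂ) * Complex.I) := by
      rw [← Complex.exp_add]; push_cast; congr 1; ring
    linear_combination P * e1 - e2 + e3
  unfold ht
  rw [h, Complex.add_re, Complex.sub_re, Complex.exp_ofReal_mul_I_re, Complex.exp_ofReal_mul_I_re]
  ring

/-- `Tm b` is the rotation by `4b` about `κ`. -/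
theorem Tm_kap {b : ℝ} (hb : Real.cos b ≠ 0) (P : ℂ) :
    Tm b P - kap b = Complex.exp (4 * b * Complex.I) * (P - kap b) := by
  have hc : (Real.cos b : ℂ) ≠ 0 := by exact_mod_cast hb
  set v : ℂ := Complex.exp (b * Complex.I) with hv
  have hv0 : v ≠ 0 := Complex.exp_ne_zero _
  have e4 : Complex.exp (4 * b * Complex.I) = v ^ 4 := by
    rw [hv, ← Complex.exp_nat_mul]; congr 1; push_cast; ring
  have e3 : Complex.exp (3 * b * Complex.I) = v ^ 3 := by
    rw [hv, ← Complex.exp_nat_mul]; congr 1; push_cast; ring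
  have ec : (Real.cos b : ℂ) = (v + v⁻¹) / 2 := by
    rw [Complex.ofReal_cos, Complex.cos, hv, ← Complex.exp_neg]
    ring_nf
  have hs : v + v⁻¹ ≠ 0 := by
    intro h
    rw [h] at ec
    apply hc
    rw [ec]
    simp
  have hs2 : v ^ 2 + 1 ≠ 0 := by
    intro h
    apply hs
    field_simp
    rw [h]
    simp
  have hk : ((kap b : ℝ) : ℂ) = v / (v ^ 2 + 1) := by
    unfold kap
    push_cast
    rw [← Complex.ofReal_cos, ec]
    field_simp
  unfold Tm
  rw [e4, e3, hk]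
  field_simp
  ring

end Pool.Agent.Worm.SB
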