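import Mathlib
import Pool.Agent.WormS.Kern

/-!
# Coefficients of short exponential sums (problem MP_3c4b73_an)
-/

open MeasureTheory Set Filter Topology Metric
open scoped Real ENNReal Interval ComplexConjugate

namespace Pool.Agent.Worm.SB

/-- Finite dimensional norm equivalence: the coefficients of `∑_{k<N} d_k e^{iky}` are bounded by the
supremum over any interval. -/
theorem trig_coef {y₀ : ℝ} (hy : 0 < y₀) (N : ℕ) : ∃ C : ℝ, 0 < C ∧ ∀ (d : ℕ → ℂ) (B : ℝ),
    (∀ y ∈ Icc (-y₀) y₀, ‖∑ k ∈ Finset.range N, d k * Complex.exp (k * (y * Complex.I))‖ ≤ B) →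
    ∀ j < N, ‖d j‖ ≤ C * B := by
  have hpi := Real.pi_gt_three
  set c : ℝ := min y₀ 1 with hc
  have hc0 : 0 < c := lt_min hy one_pos
  have hc1 : c ≤ 1 := min_le_right _ _
  have hcy : c ≤ y₀ := min_le_left _ _
  set y : Fin N → ℝ := fun i => c * i / (N + 1) with hydef
  have hN : (0 : ℝ) < N + 1 := by positivity
  have hy0 : ∀ i, 0 ≤ y i := fun i => by simp only [hydef]; positivity
  have hyc : ∀ i, y i ≤ c := fun i => by
    simp only [hydef]
    rw [div_le_iff₀ hN]
    have h1 : ((i : ℕ) : ℝ) ≤ N := by exact_mod_cast i.2.le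
    have h2 : (0 : ℝ) ≤ (i : ℕ) := Nat.cast_nonneg _
    nlinarith
  set v : Fin N → ℂ := fun i => Complex.exp (y i * Complex.I) with hv
  have hinj : Function.Injective v := by
    intro i j hij
    simp only [hv] at hij
    rw [Complex.exp_eq_exp_iff_exists_int] at hij
    obtain ⟨n, hn⟩ := hij
    have h1 : y i = y j + n * (2 * π) := by
      have h2 := congrArg Complex.im hn
      simpa using h2
    have h3 : n = 0 := by
      have h4 : |(n : ℝ) * (2 * π)| ≤ 1 := by
        rw [show (n : ℝ) * (2 * π) = y i - y j by linarith, abs_le]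
        constructor <;> linarith [hy0 i, hy0 j, hyc i, hyc j]
      by_contra h5
      have h6 : (1 : ℝ) ≤ |(n : ℝ)| := by
        have : (1 : ℤ) ≤ |n| := Int.one_le_abs h5
        exact_mod_cast this
      rw [abs_mul, abs_of_pos (by positivity : (0 : ℝ) < 2 * π)] at h4
      nlinarith
    rw [h3] at h1
    simp only [Int.cast_zero, zero_mul, add_zero, hydef] at h1
    rw [div_left_inj' hN.ne', mul_right_inj' hc0.ne'] at h1
    exact Fin.ext (by exact_mod_cast h1)
  set V : Matrix (Fin N) (Fin N) ℂ := Matrix.vandermonde v with hV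
  have hdet : IsUnit V.det := by
    rw [isUnit_iff_ne_zero]
    exact Matrix.det_vandermonde_ne_zero_iff.2 hinj
  refine ⟨(∑ i, ∑ j, ‖V⁻¹ i j‖) + 1, by positivity, ?_⟩
  intro d B hB j hj
  have hB0 : 0 ≤ B := (norm_nonneg _).trans (hB 0 ⟨by linarith, hy.le⟩)
  set d' : Fin N → ℂ := fun k => d k with hd'
  have h1 : ∀ i, (V.mulVec d') i = ∑ k ∈ Finset.range N, d k * Complex.exp (k * (y i * Complex.I)) := by
    intro i
    rw [Matrix.mulVec, dotProduct, Finset.sum_range]
    apply Finset.sum_congr rfl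
    intro k _
    rw [hV, Matrix.vandermonde_apply]
    simp only [hv, hd']
    rw [← Complex.exp_nat_mul, mul_comm]
  have h2 : V⁻¹.mulVec (V.mulVec d') = d' := by
    rw [Matrix.mulVec_mulVec, Matrix.nonsing_inv_mul _ hdet, Matrix.one_mulVec]
  have h3 : d j = ∑ i, V⁻¹ ⟨j, hj⟩ i * (V.mulVec d') i := by
    have h4 := congrFun h2 ⟨j, hj⟩
    rw [Matrix.mulVec, dotProduct] at h4
    exact h4.symm
  rw [h3]
  have h5 : ∀ i, ‖(V.mulVec d') i‖ ≤ B := fun i => by
    rw [h1]
    exact hB (y i) ⟨by linarith [hy0 i], (hyc i).trans hcy⟩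
  calc ‖∑ i, V⁻¹ ⟨j, hj⟩ i * (V.mulVec d') i‖ ≤ ∑ i, ‖V⁻¹ ⟨j, hj⟩ i‖ * B := by
        refine (norm_sum_le _ _).trans (Finset.sum_le_sum fun i _ => ?_)
        rw [norm_mul]
        exact mul_le_mul_of_nonneg_left (h5 i) (norm_nonneg _)
    _ = (∑ i, ‖V⁻¹ ⟨j, hj⟩ i‖) * B := by rw [Finset.sum_mul]
    _ ≤ (∑ i, ∑ j, ‖V⁻¹ i j‖) * B := by
        apply mul_le_mul_of_nonneg_right _ hB0
        exact Finset.single_le_sum (f := fun i => ∑ j, ‖V⁻¹ i j‖)
          (fun i _ => Finset.sum_nonneg fun _ _ => norm_nonneg _) (Finset.mem_univ _)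
    _ ≤ _ := by nlinarith

end Pool.Agent.Worm.SB
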