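import Mathlib
import Pool.Agent.WormS.Kern

/-!
# The relation between the coefficients (problem MP_3c4b73_an)
-/

open MeasureTheory Set Filter Topology Metric
open scoped Real ENNReal Interval ComplexConjugate

namespace Pool.Agent.Worm.SB

namespace CoeAux

theorem frac_le (n : ℤ) (e : ℝ) : ‖(Complex.I * e) / ((n : ℂ) + Complex.I * e)‖ ≤ 1 := by
  rw [norm_div]
  apply div_le_one_of_le₀ _ (norm_nonneg _)
  have h1 := Complex.abs_im_le_norm ((n : ℂ) + Complex.I * e)
  simpa using h1

theorem frac_tendsto (n : ℤ) :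
    Tendsto (fun e : ℝ => (Complex.I * e) / ((n : ℂ) + Complex.I * e)) (𝓝[≠] 0)
      (𝓝 (if n = 0 then 1 else 0)) := by
  by_cases hn : n = 0
  · subst hn
    rw [if_pos rfl]
    refine tendsto_const_nhds.congr' ?_
    filter_upwards [self_mem_nhdsWithin] with e he
    have he' : (e : ℂ) ≠ 0 := Complex.ofReal_ne_zero.2 he
    have : Complex.I * (e : ℂ) ≠ 0 := mul_ne_zero Complex.I_ne_zero he'
    rw [Int.cast_zero, zero_add, div_self this]
  · rw [if_neg hn]
    have h1 : ContinuousAt (fun e : ℝ => (Complex.I * e) / ((n : ℂ) + Complex.I * e)) 0 := by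
      apply ContinuousAt.div
      · fun_prop
      · fun_prop
      · simpa using hn
    have h2 := h1.tendsto
    simp only [Complex.ofReal_zero, mul_zero, add_zero, zero_div] at h2
    exact h2.mono_left nhdsWithin_le_nhds

/-- The point `-(m+1) + i e`. -/
noncomputable def sig (m : ℕ) (e : ℝ) : ℂ := -((m : ℂ) + 1) + Complex.I * e

theorem sig_re (m : ℕ) (e : ℝ) : (sig m e).re = -((m : ℝ) + 1) := by simp [sig]

theorem sig_im (m : ℕ) (e : ℝ) : (sig m e).im = e := by simp [sig]

theorem continuous_sig (m : ℕ) : Continuous (sig m) := by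
  unfold sig
  fun_prop

theorem int_eq (m k j : ℕ) (e : ℝ) :
    sig m e + k + j + 1 = (((k : ℤ) + j - m : ℤ) : ℂ) + Complex.I * e := by
  unfold sig
  push_cast
  ring

theorem int_eq' (m k : ℕ) (e : ℝ) :
    sig m e + 1 + k = (((k : ℤ) - m : ℤ) : ℂ) + Complex.I * e := by
  unfold sig
  push_cast
  ring

end CoeAux

open CoeAux in
/-- The residue of the continued relation at `σ = -m-1`. -/
theorem coef_rel {b : ℝ} (hb : 0 < b) {Ψ : ℂ → ℂ} {γ : ℕ → ℂ} (h : Borel b Ψ γ) (m : ℕ) :
    (∑ j ∈ Finset.range (m + 1), (B2.ek (m - j) : ℂ) * γ j *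
      B2.mm b (1 + Complex.I * ((m : ℂ) + j + 2))) +
    (B2.ek m : ℂ) * B2.Lf b (1 + Complex.I * ((m : ℂ) + 2)) = 0 := by
  have D : B2.Data b (-1) Ψ γ := B2.Data.of_borel hb (by norm_num) h
  set q : ℝ := -1 with hq
  -- the exponential factor
  have hexp : ∀ (n : ℤ) (e : ℝ), -(m : ℤ) ≤ n →
      ‖Complex.exp (((n : ℂ) + Complex.I * e) * q)‖ ≤ Real.exp m := by
    intro n e hn
    rw [Complex.norm_exp]
    apply Real.exp_le_exp.2
    have : (((n : ℂ) + Complex.I * e) * (q : ℂ)).re = -(n : ℝ) := by
      rw [hq]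
      simp
    rw [this]
    have : ((-(m : ℤ) : ℤ) : ℝ) ≤ n := by exact_mod_cast hn
    push_cast at this
    linarith
  have hexpt : ∀ (n : ℤ), Tendsto (fun e : ℝ => Complex.exp (((n : ℂ) + Complex.I * e) * q) *
      ((Complex.I * e) / ((n : ℂ) + Complex.I * e))) (𝓝[≠] 0) (𝓝 (if n = 0 then 1 else 0)) := by
    intro n
    have h1 : Tendsto (fun e : ℝ => Complex.exp (((n : ℂ) + Complex.I * e) * q)) (𝓝[≠] 0)
        (𝓝 (Complex.exp ((n : ℂ) * q))) := by
      have hc : Continuous (fun e : ℝ => Complex.exp (((n : ℂ) + Complex.I * e) * q)) := by fun_prop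
      have := hc.tendsto 0
      simp only [Complex.ofReal_zero, mul_zero, add_zero] at this
      exact this.mono_left nhdsWithin_le_nhds
    have h2 := h1.mul (frac_tendsto n)
    by_cases hn : n = 0
    · subst hn
      simpa using h2
    · simpa [hn] using h2
  -- the sum `Sg`
  have hSg : Tendsto (fun e : ℝ => (Complex.I * e) * B2.Sg q (sig m e + 1)) (𝓝[≠] 0)
      (𝓝 (B2.ek m : ℂ)) := by
    have h1 : Tendsto (fun e : ℝ => ∑' k : ℕ, (B2.ek k : ℂ) *
        (Complex.exp (((((k : ℤ) - m : ℤ) : ℂ) + Complex.I * e) * q) *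
          ((Complex.I * e) / ((((k : ℤ) - m : ℤ) : ℂ) + Complex.I * e)))) (𝓝[≠] 0)
        (𝓝 (∑' k : ℕ, (B2.ek k : ℂ) * (if ((k : ℤ) - m) = 0 then 1 else 0))) := by
      apply tendsto_tsum_of_dominated_convergence
        (bound := fun k : ℕ => ((k.factorial : ℝ))⁻¹ * Real.exp m)
      · exact B2.summable_inv_factorial.mul_right _
      · intro k
        exact (hexpt _).const_mul _
      · refine Eventually.of_forall fun e k => ?_
        rw [norm_mul, B2.norm_ek, norm_mul]
        apply mul_le_mul_of_nonneg_left _ (by positivity)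
        have h2 := hexp ((k : ℤ) - m) e (by omega)
        calc _ ≤ Real.exp m * 1 := mul_le_mul h2 (frac_le _ _) (norm_nonneg _) (Real.exp_pos _).le
          _ = _ := mul_one _
    have e1 : ∑' k : ℕ, (B2.ek k : ℂ) * (if ((k : ℤ) - m) = 0 then 1 else 0) = (B2.ek m : ℂ) := by
      rw [tsum_eq_single m]
      · simp
      · intro k hk
        have : ((k : ℤ) - m) ≠ 0 := by
          intro h3
          apply hk
          omega
        simp [this]
    rw [e1] at h1
    refine h1.congr fun e => ?_
    rw [B2.Sg, ← tsum_mul_left]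
    apply tsum_congr
    intro k
    rw [int_eq']
    ring
  -- the sum `E1`
  have hE1 : Tendsto (fun e : ℝ => (Complex.I * e) * B2.E1 b q Ψ γ (m + 1) (sig m e)) (𝓝[≠] 0)
      (𝓝 (∑' k : ℕ, (B2.ek k : ℂ) * (B2.mm b (1 + Complex.I * (2 * m + 2 - k)) *
        ∑ j ∈ Finset.range (m + 1), γ j * (if ((k : ℤ) + j - m) = 0 then 1 else 0)))) := by
    have hIN : ∀ (k : ℕ) (e : ℝ), ‖B2.IN q Ψ γ (m + 1) (sig m e + k)‖ ≤
        ∫ x in Iic q, ‖B2.Psub Ψ γ (m + 1) (x : ℝ)‖ * Real.exp (-((m : ℝ) + 1) * x) := by
      intro k e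
      have h1 := B2.norm_IN_le D (m + 1) (s := sig m e) (by
        rw [sig_re]
        push_cast
        linarith) k
      refine h1.trans (le_of_eq ?_)
      congr 1
      funext x
      rw [norm_mul, Complex.norm_exp]
      congr 2
      rw [Complex.re_mul_ofReal, sig_re]
    set K : ℝ := ∫ x in Iic q, ‖B2.Psub Ψ γ (m + 1) (x : ℝ)‖ * Real.exp (-((m : ℝ) + 1) * x)
      with hK
    have hK0 : 0 ≤ K := (norm_nonneg _).trans (hIN 0 0)
    have hMN : ∀ (k : ℕ) (e : ℝ), (Complex.I * e) * B2.MN q Ψ γ (m + 1) (sig m e + k) =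
        (Complex.I * e) * B2.IN q Ψ γ (m + 1) (sig m e + k) + ∑ j ∈ Finset.range (m + 1),
          γ j * (Complex.exp (((((k : ℤ) + j - m : ℤ) : ℂ) + Complex.I * e) * q) *
          ((Complex.I * e) / ((((k : ℤ) + j - m : ℤ) : ℂ) + Complex.I * e))) := by
      intro k e
      unfold B2.MN B2.IN
      rw [mul_add, Finset.mul_sum]
      congr 1
      apply Finset.sum_congr rfl
      intro j _
      rw [int_eq]
      ring
    have h1 : Tendsto (fun e : ℝ => ∑' k : ℕ, (B2.ek k : ℂ) *
        (B2.mm b (1 - 2 * Complex.I * sig m e - Complex.I * k) *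
          ((Complex.I * e) * B2.MN q Ψ γ (m + 1) (sig m e + k)))) (𝓝[≠] 0)
        (𝓝 (∑' k : ℕ, (B2.ek k : ℂ) * (B2.mm b (1 + Complex.I * (2 * m + 2 - k)) *
        ∑ j ∈ Finset.range (m + 1), γ j * (if ((k : ℤ) + j - m) = 0 then 1 else 0)))) := by
      apply tendsto_tsum_of_dominated_convergence
        (bound := fun k : ℕ => ((k.factorial : ℝ))⁻¹ * (2 * b * Real.exp (b * 3) *
          (K + ∑ j ∈ Finset.range (m + 1), ‖γ j‖ * Real.exp m)))
      · exact B2.summable_inv_factorial.mul_right _
      · intro k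
        apply Tendsto.const_mul
        apply Tendsto.mul
        · have hc : Continuous (fun e : ℝ =>
              B2.mm b (1 - 2 * Complex.I * sig m e - Complex.I * k)) := by
            have := (B2.differentiable_mm b).continuous
            have h2 := continuous_sig m
            exact this.comp (by fun_prop)
          have h3 := (hc.tendsto 0).mono_left (nhdsWithin_le_nhds (s := {(0 : ℝ)}ᶜ))
          have e1 : (1 - 2 * Complex.I * sig m 0 - Complex.I * k : ℂ) =
              1 + Complex.I * (2 * m + 2 - k) := by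
            unfold sig
            simp only [Complex.ofReal_zero]
            ring
          rwa [e1] at h3
        · simp_rw [hMN]
          have h4 : Tendsto (fun e : ℝ => (Complex.I * e) *
              B2.IN q Ψ γ (m + 1) (sig m e + k)) (𝓝[≠] 0) (𝓝 0) := by
            rw [tendsto_zero_iff_norm_tendsto_zero]
            have h5 : Tendsto (fun e : ℝ => |e| * K) (𝓝[≠] 0) (𝓝 0) := by
              have hc : Continuous (fun e : ℝ => |e| * K) := by fun_prop
              have := hc.tendsto 0
              simp only [abs_zero, zero_mul] at this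
              exact this.mono_left nhdsWithin_le_nhds
            refine squeeze_zero (fun e => norm_nonneg _) (fun e => ?_) h5
            rw [norm_mul, norm_mul, Complex.norm_I, one_mul, Complex.norm_real, Real.norm_eq_abs]
            exact mul_le_mul_of_nonneg_left (hIN k e) (abs_nonneg _)
          have h6 : Tendsto (fun e : ℝ => ∑ j ∈ Finset.range (m + 1),
              γ j * (Complex.exp (((((k : ℤ) + j - m : ℤ) : ℂ) + Complex.I * e) * q) *
              ((Complex.I * e) / ((((k : ℤ) + j - m : ℤ) : ℂ) + Complex.I * e)))) (𝓝[≠] 0)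
              (𝓝 (∑ j ∈ Finset.range (m + 1), γ j *
                (if ((k : ℤ) + j - m) = 0 then 1 else 0))) :=
            tendsto_finsetSum _ fun j _ => (hexpt _).const_mul _
          have h7 := h4.add h6
          rwa [zero_add] at h7
      · have hev : ∀ᶠ e : ℝ in 𝓝[≠] 0, |e| ≤ 1 := by
          apply mem_nhdsWithin_of_mem_nhds
          have : Metric.closedBall (0 : ℝ) 1 ∈ 𝓝 (0 : ℝ) := Metric.closedBall_mem_nhds _ one_pos
          filter_upwards [this] with e he
          rw [mem_closedBall, Real.dist_eq, sub_zero] at he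
          exact he
        filter_upwards [hev] with e he k
        rw [norm_mul, B2.norm_ek, norm_mul]
        apply mul_le_mul_of_nonneg_left _ (by positivity)
        have h2 : ‖B2.mm b (1 - 2 * Complex.I * sig m e - Complex.I * k)‖ ≤
            2 * b * Real.exp (b * 3) := by
          refine (B2.norm_mm_le hb.le _).trans ?_
          have e1 : (1 - 2 * Complex.I * sig m e - Complex.I * k).re = 1 + 2 * e := by
            unfold sig
            simp
          rw [e1]
          have h3 : |1 + 2 * e| ≤ 3 := by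
            rw [abs_le] at he ⊢
            constructor <;> linarith [he.1, he.2]
          have h4 : b * |1 + 2 * e| ≤ b * 3 := mul_le_mul_of_nonneg_left h3 hb.le
          exact mul_le_mul_of_nonneg_left (Real.exp_le_exp.2 h4) (by positivity)
        have h3 : ‖(Complex.I * e) * B2.MN q Ψ γ (m + 1) (sig m e + k)‖ ≤
            K + ∑ j ∈ Finset.range (m + 1), ‖γ j‖ * Real.exp m := by
          rw [hMN]
          refine (norm_add_le _ _).trans (add_le_add ?_ ?_)
          · rw [norm_mul, norm_mul, Complex.norm_I, one_mul, Complex.norm_real, Real.norm_eq_abs]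
            calc |e| * ‖B2.IN q Ψ γ (m + 1) (sig m e + k)‖ ≤ 1 * K :=
                  mul_le_mul he (hIN k e) (norm_nonneg _) zero_le_one
              _ = K := one_mul _
          · refine (norm_sum_le _ _).trans (Finset.sum_le_sum fun j _ => ?_)
            rw [norm_mul, norm_mul]
            apply mul_le_mul_of_nonneg_left _ (norm_nonneg _)
            have h2 := hexp ((k : ℤ) + j - m) e (by omega)
            calc _ ≤ Real.exp m * 1 :=
                  mul_le_mul h2 (frac_le _ _) (norm_nonneg _) (Real.exp_pos _).le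
              _ = _ := mul_one _
        exact mul_le_mul h2 h3 (norm_nonneg _) (by positivity)
    refine h1.congr fun e => ?_
    rw [B2.E1, ← tsum_mul_left]
    apply tsum_congr
    intro k
    ring
  -- the entire parts
  have hT : Tendsto (fun e : ℝ => (Complex.I * e) * (B2.T2 b q Ψ (sig m e) +
      B2.T3 b q Ψ (sig m e))) (𝓝[≠] 0) (𝓝 0) := by
    have h2 : Continuous (B2.T2 b q Ψ) := by
      rw [← continuousOn_univ]
      exact (B2.differentiable_T2 D univ).continuousOn
    have h3 : Continuous (B2.T3 b q Ψ) := by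
      rw [← continuousOn_univ]
      exact (B2.differentiable_T3 D univ).continuousOn
    have h4 := continuous_sig m
    have hc : Continuous (fun e : ℝ => (Complex.I * e) * (B2.T2 b q Ψ (sig m e) +
        B2.T3 b q Ψ (sig m e))) := by fun_prop
    have := hc.tendsto 0
    simp only [Complex.ofReal_zero, mul_zero, zero_mul] at this
    exact this.mono_left nhdsWithin_le_nhds
  have hLf : Tendsto (fun e : ℝ => B2.Lf b (1 - Complex.I * sig m e + Complex.I)) (𝓝[≠] 0)
      (𝓝 (B2.Lf b (1 + Complex.I * ((m : ℂ) + 2)))) := by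
    have h2 := (B2.differentiable_Lf b).continuous
    have h4 := continuous_sig m
    have hc : Continuous (fun e : ℝ => B2.Lf b (1 - Complex.I * sig m e + Complex.I)) :=
      h2.comp (by fun_prop)
    have h3 := (hc.tendsto 0).mono_left (nhdsWithin_le_nhds (s := {(0 : ℝ)}ᶜ))
    have e1 : (1 - Complex.I * sig m 0 + Complex.I : ℂ) = 1 + Complex.I * ((m : ℂ) + 2) := by
      unfold sig
      simp only [Complex.ofReal_zero]
      ring
    rwa [e1] at h3
  have hall := (hE1.add (hSg.mul hLf)).add hT
  rw [add_zero] at hall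
  have hzero : (fun e : ℝ => (Complex.I * e) * B2.E1 b q Ψ γ (m + 1) (sig m e) +
      (Complex.I * e) * B2.Sg q (sig m e + 1) * B2.Lf b (1 - Complex.I * sig m e + Complex.I) +
      (Complex.I * e) * (B2.T2 b q Ψ (sig m e) + B2.T3 b q Ψ (sig m e))) =ᶠ[𝓝[≠] 0]
      fun _ => 0 := by
    filter_upwards [self_mem_nhdsWithin] with e he
    have hmem : sig m e ∈ B2.VN (m + 1) := by
      refine ⟨?_, ?_⟩
      · rw [sig_re]
        push_cast
        linarith
      · rw [sig_im]
        exact he
    have h1 := B2.RR_zero D (m + 1) hmem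
    unfold B2.RR at h1
    linear_combination (Complex.I * e) * h1
  have h0 := tendsto_nhds_unique (hall.congr' hzero) tendsto_const_nhds
  rw [← h0]
  congr 1
  rw [tsum_eq_sum (s := Finset.range (m + 1))]
  · rw [← Finset.sum_range_reflect]
    apply Finset.sum_congr rfl
    intro k hk
    have hk' : k ≤ m := Nat.lt_succ_iff.1 (Finset.mem_range.1 hk)
    have e1 : m + 1 - 1 - k = m - k := by omega
    have e2 : m - (m - k) = k := by omega
    rw [e1, e2]
    have e3 : ∑ j ∈ Finset.range (m + 1), γ j * (if ((k : ℤ) + j - m) = 0 then 1 else 0) =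
        γ (m - k) := by
      rw [Finset.sum_eq_single (m - k)]
      · have : ((k : ℤ) + ((m - k : ℕ) : ℤ) - m) = 0 := by omega
        rw [if_pos this, mul_one]
      · intro j _ hj
        have : ¬ ((k : ℤ) + j - m) = 0 := by omega
        rw [if_neg this, mul_zero]
      · intro h5
        exfalso
        apply h5
        rw [Finset.mem_range]
        omega
    rw [e3, Nat.cast_sub hk']
    have e4 : (1 + Complex.I * ((m : ℂ) + ((m : ℂ) - (k : ℂ)) + 2)) =
        1 + Complex.I * (2 * m + 2 - k) := by ring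
    rw [e4]
    ring
  · intro k hk
    have hk' : m < k := by
      rw [Finset.mem_range] at hk
      omega
    rw [Finset.sum_eq_zero, mul_zero, mul_zero]
    intro j _
    have : ¬ ((k : ℤ) + j - m) = 0 := by omega
    simp [this]

end Pool.Agent.Worm.SB
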