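import Mathlib
import Pool.Agent.WormS.Kern

/-!
# The exponents R_N for all b > 0 (problem MP_3c4b73_an)
-/

open MeasureTheory Set Filter Topology Metric
open scoped Real ENNReal Interval ComplexConjugate

namespace Pool.Agent.Worm.SB

/-- Exponents away from the integers at which `sin (2 R b)` is bounded below.

Proof: `ε = min (1/4) (π / (4 b))`, `δ = 2 b ε ∈ (0, π/2]`, `κ = min (1/4) (sin δ / 3)`; take
`R N = N + 1/2` if `|sin (2 (N + 1/2) b)| ≥ κ` and `R N = N + 1/2 + ε` otherwise: in that case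
`|sin θ| < sin δ / 3 ≤ 1/3` for `θ = 2 (N + 1/2) b`, hence `|cos θ| ≥ 2/3` and
`|sin (θ + δ)| ≥ |cos θ| sin δ - |sin θ| ≥ (2/3) sin δ - (1/3) sin δ ≥ κ`. -/
theorem exists_R' {b : ℝ} (hb : 0 < b) : ∃ κ : ℝ, 0 < κ ∧ ∃ R : ℕ → ℝ, ∀ N : ℕ,
    (N : ℝ) + κ ≤ R N ∧ R N ≤ N + 1 - κ ∧ κ ≤ |Real.sin (2 * R N * b)| := by
  classical
  set ε : ℝ := min (1 / 4) (π / (4 * b)) with hε
  have hε0 : 0 < ε := lt_min (by norm_num) (by positivity)
  have hε1 : ε ≤ 1 / 4 := min_le_left _ _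
  have hε2 : ε ≤ π / (4 * b) := min_le_right _ _
  set δ : ℝ := 2 * b * ε with hδ
  have hδ0 : 0 < δ := by positivity
  have hδ1 : δ ≤ π / 2 := by
    have h1 : 2 * b * ε ≤ 2 * b * (π / (4 * b)) := mul_le_mul_of_nonneg_left hε2 (by positivity)
    have h2 : 2 * b * (π / (4 * b)) = π / 2 := by field_simp; norm_num
    rw [hδ]; linarith
  have hs0 : 0 < Real.sin δ := Real.sin_pos_of_pos_of_lt_pi hδ0 (by linarith [Real.pi_pos])
  have hs1 : Real.sin δ ≤ 1 := Real.sin_le_one δ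
  set κ : ℝ := min (1 / 4) (Real.sin δ / 3) with hκ
  have hκ0 : 0 < κ := lt_min (by norm_num) (by positivity)
  have hκ1 : κ ≤ 1 / 4 := min_le_left _ _
  have hκ2 : κ ≤ Real.sin δ / 3 := min_le_right _ _
  refine ⟨κ, hκ0, fun N => if κ ≤ |Real.sin (2 * ((N : ℝ) + 1 / 2) * b)| then (N : ℝ) + 1 / 2
    else (N : ℝ) + 1 / 2 + ε, fun N => ?_⟩
  by_cases h : κ ≤ |Real.sin (2 * ((N : ℝ) + 1 / 2) * b)|
  · simp only [if_pos h]
    exact ⟨by linarith, by linarith, h⟩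
  · simp only [if_neg h]
    refine ⟨by linarith, by linarith, ?_⟩
    rw [not_le] at h
    set θ : ℝ := 2 * ((N : ℝ) + 1 / 2) * b with hθ
    have e : 2 * ((N : ℝ) + 1 / 2 + ε) * b = θ + δ := by rw [hθ, hδ]; ring
    rw [e, Real.sin_add]
    have h1 : |Real.sin θ * Real.cos δ| ≤ κ := by
      rw [abs_mul]
      calc |Real.sin θ| * |Real.cos δ| ≤ |Real.sin θ| * 1 :=
            mul_le_mul_of_nonneg_left (Real.abs_cos_le_one δ) (abs_nonneg _)
        _ ≤ κ := by linarith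
    have h2 : 2 / 3 ≤ |Real.cos θ| := by
      have h3 : Real.sin θ ^ 2 + Real.cos θ ^ 2 = 1 := Real.sin_sq_add_cos_sq θ
      have h4 : |Real.sin θ| ^ 2 ≤ (1 / 4) ^ 2 :=
        pow_le_pow_left₀ (abs_nonneg _) (by linarith) 2
      rw [sq_abs] at h4
      refine abs_le_of_sq_le_sq' ?_ (abs_nonneg _) |>.2
      rw [sq_abs]
      nlinarith
    have h5 : |Real.cos θ * Real.sin δ| = |Real.cos θ| * Real.sin δ := by
      rw [abs_mul, abs_of_pos hs0]
    have h6 : |Real.cos θ * Real.sin δ| - |Real.sin θ * Real.cos δ| ≤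
        |Real.sin θ * Real.cos δ + Real.cos θ * Real.sin δ| := by
      have h7 := abs_sub_abs_le_abs_sub (Real.cos θ * Real.sin δ) (-(Real.sin θ * Real.cos δ))
      rw [abs_neg, sub_neg_eq_add, add_comm (Real.cos θ * Real.sin δ)] at h7
      exact h7
    have h8 : 2 / 3 * Real.sin δ ≤ |Real.cos θ| * Real.sin δ :=
      mul_le_mul_of_nonneg_right h2 hs0.le
    rw [h5] at h6
    linarith

end Pool.Agent.Worm.SB
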