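import Mathlib
import Pool.Agent.WormS.Kern
import Pool.Agent.WormS.ExR

/-!
# The Borel transform is the sum of its series near minus infinity (problem MP_3c4b73_an)
-/

open MeasureTheory Set Filter Topology Metric
open scoped Real ENNReal Interval ComplexConjugate

namespace Pool.Agent.Worm.SB

namespace SerAux

theorem SS_eq (γ : ℕ → ℂ) (τ : ℂ) :
    B2.SS γ τ = Complex.exp τ * Phi γ (Complex.exp τ) := by
  unfold B2.SS Phi
  rw [← tsum_mul_left]
  apply tsum_congr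
  intro j
  have e : ((j : ℂ) + 1) * τ = (j : ℂ) * τ + τ := by ring
  rw [e, Complex.exp_add, Complex.exp_nat_mul]
  ring

/-- From the real half line to the strip. -/
theorem eqOn_of_eq {b q2 : ℝ} {Ψ S : ℂ → ℂ} (hb : 0 < b)
    (hΨ : DifferentiableOn ℂ Ψ {τ | |τ.im| < b})
    (hS : DifferentiableOn ℂ S {τ | τ.re < q2})
    (heq : ∀ x : ℝ, x < q2 → Ψ (x : ℝ) = S (x : ℝ)) :
    EqOn (fun τ => Ψ τ - S τ) 0 ({τ : ℂ | |τ.im| < b} ∩ {τ : ℂ | τ.re < q2}) := by
  have hstrip : IsOpen {τ : ℂ | |τ.im| < b} :=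
    isOpen_lt Complex.continuous_im.abs continuous_const
  have hconv : Convex ℝ {τ : ℂ | |τ.im| < b} := by
    have : {τ : ℂ | |τ.im| < b} = Complex.imLm ⁻¹' (Ioo (-b) b) := by
      ext τ
      simp [abs_lt]
    rw [this]
    exact (convex_Ioo _ _).linear_preimage _
  have hhalf : Convex ℝ {τ : ℂ | τ.re < q2} := convex_halfSpace_re_lt q2
  have hhalfo : IsOpen {τ : ℂ | τ.re < q2} := isOpen_lt Complex.continuous_re continuous_const
  have hana : AnalyticOnNhd ℂ (fun τ => Ψ τ - S τ)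
      ({τ : ℂ | |τ.im| < b} ∩ {τ : ℂ | τ.re < q2}) := by
    apply DifferentiableOn.analyticOnNhd
    · exact (hΨ.mono inter_subset_left).sub (hS.mono inter_subset_right)
    · exact hstrip.inter hhalfo
  have hz0 : (((q2 - 1 : ℝ)) : ℂ) ∈ ({τ : ℂ | |τ.im| < b} ∩ {τ : ℂ | τ.re < q2}) := by
    refine ⟨?_, ?_⟩
    · show |(((q2 - 1 : ℝ)) : ℂ).im| < b
      rw [Complex.ofReal_im, abs_zero]
      linarith
    · show (((q2 - 1 : ℝ)) : ℂ).re < q2
      rw [Complex.ofReal_re]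
      linarith
  refine hana.eqOn_zero_of_preconnected_of_frequently_eq_zero
    (hconv.inter hhalf).isPreconnected hz0 ?_
  have htend : Tendsto (fun x : ℝ => (x : ℂ)) (𝓝[≠] (q2 - 1)) (𝓝[≠] (((q2 - 1 : ℝ)) : ℂ)) := by
    apply tendsto_nhdsWithin_of_tendsto_nhds_of_eventually_within
    · exact (Complex.continuous_ofReal.tendsto _).mono_left nhdsWithin_le_nhds
    · filter_upwards [self_mem_nhdsWithin] with x hx
      intro hc
      apply hx
      have : (x : ℂ) = ((q2 - 1 : ℝ) : ℂ) := hc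
      exact_mod_cast this
  apply htend.frequently
  apply Eventually.frequently
  have : Iio q2 ∈ 𝓝[≠] (q2 - 1) := mem_nhdsWithin_of_mem_nhds (Iio_mem_nhds (by linarith))
  filter_upwards [this] with x hx
  rw [heq x hx, sub_self]

end SerAux

/-- The Borel transform is given by its series for `Re τ < q`. -/
theorem series_exists {b : ℝ} (hb : 0 < b) {Ψ : ℂ → ℂ} {γ : ℕ → ℂ} (h : Borel b Ψ γ) :
    ∃ q Λ : ℝ, q ≤ 0 ∧ 1 ≤ Λ ∧ Real.exp q * Λ ≤ 1 / 2 ∧ (∀ j : ℕ, ‖γ j‖ ≤ Λ ^ (j + 1)) ∧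
      ∀ τ : ℂ, |τ.im| < b → τ.re < q →
        Ψ τ = Complex.exp τ * Phi γ (Complex.exp τ) := by
  obtain ⟨κ, hκ, R, hR⟩ := exists_R' hb
  have hR1 : ∀ N : ℕ, N + κ ≤ R N := fun N => (hR N).1
  have hR2 : ∀ N : ℕ, R N ≤ N + 1 - κ := fun N => (hR N).2.1
  have hR3 : ∀ N : ℕ, κ ≤ |Real.sin (2 * R N * b)| := fun N => (hR N).2.2
  have hκ2 : κ ≤ 1 / 2 := by
    have h1 := hR1 0
    have h2 := hR2 0
    push_cast at h1 h2
    linarith
  set q : ℝ := Real.log (κ / (12 * (1 + b))) with hq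
  have harg : 0 < κ / (12 * (1 + b)) := by positivity
  have harg1 : κ / (12 * (1 + b)) < 1 := by
    rw [div_lt_one (by positivity)]
    nlinarith
  have hq0 : q < 0 := Real.log_neg harg harg1
  have hq2 : Real.exp q ≤ κ / (12 * (1 + b)) := by
    rw [hq, Real.exp_log harg]
  have hdata := B2.Data.of_borel hb hq0 h
  obtain ⟨C, hC, hX⟩ := B2.nrm_aN_le hdata hκ hq2
  have hX' : ∀ N : ℕ, B2.nrm (fun x => ‖B2.aN q Ψ γ N (R N) x‖ₑ) ≤
      ENNReal.ofReal (C * Real.exp (-(R N) * q) * B2.sN q γ N) := fun N =>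
    hX N (R N) (hR1 N) (hR2 N) (hR3 N)
  obtain ⟨Λ, hΛ, hs⟩ := B2.growth hdata hκ hC R hR1 hR2 hX'
  have hΛ0 : 0 < Λ := by linarith
  have hlog : 0 ≤ Real.log (2 * Λ) := Real.log_nonneg (by linarith)
  have hexp1 : 1 ≤ Real.exp (-q) := Real.one_le_exp (by linarith)
  refine ⟨q - Real.log (2 * Λ), Λ * Real.exp (-q), by linarith, ?_, ?_, ?_, ?_⟩
  · nlinarith
  · rw [sub_eq_add_neg, Real.exp_add, Real.exp_neg (Real.log _),
      Real.exp_log (show 0 < 2 * Λ by positivity)]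
    have e1 : Real.exp q * Real.exp (-q) = 1 := by
      rw [← Real.exp_add, add_neg_cancel, Real.exp_zero]
    have e2 : Real.exp q * (2 * Λ)⁻¹ * (Λ * Real.exp (-q)) =
        (Real.exp q * Real.exp (-q)) * (1 / 2) := by
      field_simp
    rw [e2, e1, one_mul]
  · intro j
    have h1 : ‖γ j‖ * Real.exp ((j + 1) * q) ≤ Λ ^ (j + 1) := by
      have h2 := hs (j + 1)
      rw [B2.sN_succ] at h2
      have := B2.one_le_sN q γ j
      linarith
    have e1 : Real.exp ((j + 1) * q) * Real.exp (-q) ^ (j + 1) = 1 := by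
      rw [← Real.exp_nat_mul, ← Real.exp_add]
      push_cast
      rw [← Real.exp_zero]
      congr 1
      ring
    calc ‖γ j‖ = ‖γ j‖ * (Real.exp ((j + 1) * q) * Real.exp (-q) ^ (j + 1)) := by
          rw [e1, mul_one]
      _ = (‖γ j‖ * Real.exp ((j + 1) * q)) * Real.exp (-q) ^ (j + 1) := by ring
      _ ≤ Λ ^ (j + 1) * Real.exp (-q) ^ (j + 1) :=
          mul_le_mul_of_nonneg_right h1 (by positivity)
      _ = _ := by rw [mul_pow]
  · intro τ h1 h2
    have h3 := SerAux.eqOn_of_eq hb hdata.hol (B2.differentiableOn_SS hΛ hs)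
      (fun x hx => B2.eq_SS_real hdata hκ hC hΛ R hR1 hR2 hX' hs hx) ⟨h1, h2⟩
    rw [← SerAux.SS_eq]
    exact sub_eq_zero.1 h3

end Pool.Agent.Worm.SB
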