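import Mathlib
import Pool.Agent.WormS.Kern
import Pool.Agent.WormS.Ser
import Pool.Agent.Worm.B2.Mean

/-!
# The Borel transform on rays (problem MP_3c4b73_an)
-/

open MeasureTheory Set Filter Topology Metric
open scoped Real ENNReal Interval ComplexConjugate

namespace Pool.Agent.Worm.SB

theorem strip_mean {b : ℝ} {f : ℂ → ℂ} (hf : DifferentiableOn ℂ f {τ | |τ.im| < b})
    {E n : ℝ → ℝ} (hn0 : ∀ t, 0 ≤ n t) (hnm : Measurable n)
    (hn : IntegrableOn n (Ioo (-b) b))
    (hbd : ∀ᵐ (t : ℝ) ∂(volume.restrict (Ioo (-b) b)), ∀ l : ℝ,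
      ‖f (l + t * Complex.I)‖ ≤ E l * n t) {ρ : ℝ} (hρ : 0 < ρ) {τ : ℂ}
    (him : |τ.im| + ρ < b) {M : ℝ} (hM0 : 0 ≤ M) (hM : ∀ l : ℝ, |l - τ.re| ≤ ρ → E l ≤ M) :
    ‖f τ‖ ≤ (2 * ρ * (M * ∫ t in Ioo (-b) b, n t)) / (π * ρ ^ 2) := by
  set K : ℝ := ∫ t in Ioo (-b) b, n t with hK
  have hK0 : 0 ≤ K := setIntegral_nonneg measurableSet_Ioo fun t _ => hn0 t
  have hball : closedBall τ ρ ⊆ {τ : ℂ | |τ.im| < b} := by
    intro z hz
    rw [mem_closedBall, dist_eq_norm] at hz
    have h1 := (Complex.abs_im_le_norm (z - τ)).trans hz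
    rw [Complex.sub_im] at h1
    have h2 : |z.im| ≤ |τ.im| + |z.im - τ.im| := by
      have := abs_add_le τ.im (z.im - τ.im)
      simpa using this
    show |z.im| < b
    linarith
  have h1 := B2.mean_area hf hρ hball
  have h2 : ∫⁻ z in ball τ ρ, ‖f z‖ₑ ≤ ∫⁻ p : ℝ × ℝ, ENNReal.ofReal (M * n p.2)
      ∂((volume.restrict (Icc (τ.re - ρ) (τ.re + ρ))).prod (volume.restrict (Ioo (-b) b))) := by
    have hmp := Complex.volume_preserving_equiv_real_prod.symm
    rw [← hmp.restrict_preimage_emb Complex.measurableEquivRealProd.symm.measurableEmbedding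
      (ball τ ρ) |>.lintegral_comp_emb Complex.measurableEquivRealProd.symm.measurableEmbedding]
    have hsub : Complex.measurableEquivRealProd.symm ⁻¹' (ball τ ρ) ⊆
        Icc (τ.re - ρ) (τ.re + ρ) ×ˢ Ioo (-b) b := by
      rintro ⟨x, y⟩ hp
      rw [mem_preimage, mem_ball, dist_eq_norm] at hp
      have hx := (Complex.abs_re_le_norm _).trans hp.le
      have hy := (Complex.abs_im_le_norm _).trans hp.le
      simp only [Complex.sub_re, Complex.sub_im, Complex.measurableEquivRealProd_symm_apply]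
        at hx hy
      rw [abs_le] at hx hy
      rw [mem_prod]
      have h5 := abs_le.1 (le_refl |τ.im|)
      refine ⟨⟨by linarith, by linarith⟩, ⟨by linarith, by linarith⟩⟩
    calc _ ≤ ∫⁻ p in Icc (τ.re - ρ) (τ.re + ρ) ×ˢ Ioo (-b) b,
          ‖f (Complex.measurableEquivRealProd.symm p)‖ₑ := lintegral_mono_set hsub
      _ = ∫⁻ p, ‖f (Complex.measurableEquivRealProd.symm p)‖ₑ
          ∂((volume.restrict (Icc (τ.re - ρ) (τ.re + ρ))).prod (volume.restrict (Ioo (-b) b))) := by
          rw [Measure.prod_restrict]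
          rfl
      _ ≤ _ := by
          apply lintegral_mono_ae
          have hb2 := (Measure.quasiMeasurePreserving_snd
            (μ := volume.restrict (Icc (τ.re - ρ) (τ.re + ρ)))
            (ν := volume.restrict (Ioo (-b) b))).ae hbd
          have hb1 := (Measure.quasiMeasurePreserving_fst
            (μ := volume.restrict (Icc (τ.re - ρ) (τ.re + ρ)))
            (ν := volume.restrict (Ioo (-b) b))).ae
            (self_mem_ae_restrict (measurableSet_Icc (a := τ.re - ρ) (b := τ.re + ρ)))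
          filter_upwards [hb1, hb2] with p hp1 hp2
          have h3 := hp2 p.1
          rw [← ofReal_norm]
          apply ENNReal.ofReal_le_ofReal
          have h4 : (Complex.measurableEquivRealProd.symm p : ℂ) = p.1 + p.2 * Complex.I := by
            apply Complex.ext <;> simp
          rw [h4]
          refine h3.trans ?_
          apply mul_le_mul_of_nonneg_right _ (hn0 _)
          apply hM
          rw [abs_le]
          constructor <;> linarith [hp1.1, hp1.2]
  have h3 : ∫⁻ p : ℝ × ℝ, ENNReal.ofReal (M * n p.2)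
      ∂((volume.restrict (Icc (τ.re - ρ) (τ.re + ρ))).prod (volume.restrict (Ioo (-b) b))) =
      ENNReal.ofReal (2 * ρ) * ENNReal.ofReal (M * K) := by
    rw [lintegral_prod _ (by fun_prop)]
    simp only [lintegral_const]
    rw [Measure.restrict_apply_univ, Real.volume_Icc, mul_comm]
    congr 1
    · congr 1
      ring
    · rw [hK, ← integral_const_mul, ofReal_integral_eq_lintegral_ofReal (hn.const_mul _)]
      exact Filter.Eventually.of_forall fun t => mul_nonneg hM0 (hn0 t)
  rw [h3] at h2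
  have h4 := h1.trans h2
  rw [← ofReal_norm, ← ENNReal.ofReal_mul (by positivity), ← ENNReal.ofReal_mul (by positivity),
    ENNReal.ofReal_le_ofReal_iff (by positivity)] at h4
  rw [le_div_iff₀ (by positivity)]
  nlinarith [h4]

/-- The uniform bound on closed substrips, for every exponent `a > 1/2`.

Proof: for `Re τ < q` (`q, Λ` of `series_exists`) `Ψ τ = e^τ Phi γ (e^τ)` and
`‖Phi γ (e^τ)‖ ≤ ∑ Λ^{j+1} (e^q)^j ≤ 2 Λ`. For `Re τ ≥ q`: the mean value inequality over the disc of radius `ρ`
about `τ` (as in `B2.pointwise_bound`, file Worm/B2/Mean, via `B2.mean_area`) and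
`h.large a'` with `a' = (a + 1/2)/2`, `a' e^ρ ≤ a`, `ρ < b - β₀` give `‖Ψ τ‖ ≤ C e^{a e^{Re τ}}`. -/
theorem strip_bound {b : ℝ} (hb : 0 < b) {Ψ : ℂ → ℂ} {γ : ℕ → ℂ} (h : BorelA b Ψ γ) {β₀ : ℝ}
    (h0 : 0 ≤ β₀) (hβ : β₀ < b) {a : ℝ} (ha : 1 / 2 < a) : ∃ C : ℝ, ∀ τ : ℂ, |τ.im| ≤ β₀ →
      ‖Ψ τ‖ ≤ C * Real.exp τ.re * Real.exp (a * Real.exp τ.re) := by
  obtain ⟨q, Λ, hq, hΛ, hqΛ, hγ, hser⟩ := series_exists hb h.borel
  set a' : ℝ := (a + 1 / 2) / 2 with ha'
  have ha1 : 1 / 2 < a' := by rw [ha']; linarith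
  have ha2 : a' < a := by rw [ha']; linarith
  obtain ⟨n, hn0, hnm, hn2, hbd⟩ := h.large a' ha1
  have hn : IntegrableOn n (Ioo (-b) b) := by
    have h1 : IntegrableOn (fun t => 1 + n t ^ 2) (Ioo (-b) b) := by
      apply Integrable.add
      · exact integrableOn_const (by simp)
      · exact hn2
    apply Integrable.mono' h1 hnm.aestronglyMeasurable
    filter_upwards with t
    rw [Real.norm_of_nonneg (hn0 t)]
    nlinarith [sq_nonneg (n t - 1), hn0 t]
  set K : ℝ := ∫ t in Ioo (-b) b, n t with hK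
  have hK0 : 0 ≤ K := setIntegral_nonneg measurableSet_Ioo fun t _ => hn0 t
  -- the radius
  set ρ : ℝ := min ((b - β₀) / 2) (Real.log (a / a')) with hρd
  have hlog : 0 < Real.log (a / a') := Real.log_pos (by rw [one_lt_div (by linarith)]; exact ha2)
  have hρ : 0 < ρ := lt_min (by linarith) hlog
  have hρ1 : ρ ≤ (b - β₀) / 2 := min_le_left _ _
  have hρ2 : a' * Real.exp ρ ≤ a := by
    have h1 : Real.exp ρ ≤ a / a' := by
      calc Real.exp ρ ≤ Real.exp (Real.log (a / a')) := Real.exp_le_exp.2 (min_le_right _ _)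
        _ = a / a' := Real.exp_log (by positivity)
    calc a' * Real.exp ρ ≤ a' * (a / a') := mul_le_mul_of_nonneg_left h1 (by linarith)
      _ = a := by field_simp
  set D : ℝ := (2 * ρ * K) / (π * ρ ^ 2) with hD
  have hD0 : 0 ≤ D := by positivity
  refine ⟨2 * Λ + D * Real.exp (-q), fun τ hτ => ?_⟩
  rcases lt_or_ge τ.re q with hlt | hge
  · rw [hser τ (by linarith) hlt, norm_mul, Complex.norm_exp]
    have hr : ‖Complex.exp τ‖ ≤ Real.exp q := by
      rw [Complex.norm_exp]
      exact Real.exp_le_exp.2 hlt.le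
    have hterm : ∀ j : ℕ, ‖γ j * Complex.exp τ ^ j‖ ≤ Λ * (1 / 2) ^ j := by
      intro j
      rw [norm_mul, norm_pow]
      calc ‖γ j‖ * ‖Complex.exp τ‖ ^ j ≤ Λ ^ (j + 1) * Real.exp q ^ j := by
            apply mul_le_mul (hγ j) (pow_le_pow_left₀ (norm_nonneg _) hr j) (by positivity)
              (by positivity)
        _ = Λ * (Real.exp q * Λ) ^ j := by ring
        _ ≤ Λ * (1 / 2) ^ j := by
            apply mul_le_mul_of_nonneg_left _ (by linarith)
            exact pow_le_pow_left₀ (by positivity) hqΛ j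
    have hsum : Summable fun j : ℕ => Λ * ((1 : ℝ) / 2) ^ j := summable_geometric_two.mul_left _
    have hPhi : ‖Phi γ (Complex.exp τ)‖ ≤ 2 * Λ := by
      unfold Phi
      refine (tsum_of_norm_bounded (hsum.hasSum) hterm).trans ?_
      rw [tsum_mul_left, tsum_geometric_two]
      linarith
    have h1 : 1 ≤ Real.exp (a * Real.exp τ.re) := Real.one_le_exp (by positivity)
    have h2 : 0 < Real.exp τ.re := Real.exp_pos _
    calc Real.exp τ.re * ‖Phi γ (Complex.exp τ)‖ ≤ Real.exp τ.re * (2 * Λ) :=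
          mul_le_mul_of_nonneg_left hPhi h2.le
      _ ≤ (2 * Λ + D * Real.exp (-q)) * Real.exp τ.re := by
          have : 0 ≤ D * Real.exp (-q) * Real.exp τ.re := by positivity
          nlinarith
      _ ≤ _ := by
          apply le_mul_of_one_le_right _ h1
          positivity
  · have him : |τ.im| + ρ < b := by linarith
    have hM : ∀ l : ℝ, |l - τ.re| ≤ ρ →
        Real.exp (a' * Real.exp l) ≤ Real.exp (a * Real.exp τ.re) := by
      intro l hl
      apply Real.exp_le_exp.2
      have h1 : Real.exp l ≤ Real.exp ρ * Real.exp τ.re := by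
        rw [← Real.exp_add]
        apply Real.exp_le_exp.2
        linarith [(abs_le.1 hl).2]
      calc a' * Real.exp l ≤ a' * (Real.exp ρ * Real.exp τ.re) :=
            mul_le_mul_of_nonneg_left h1 (by linarith)
        _ = (a' * Real.exp ρ) * Real.exp τ.re := by ring
        _ ≤ a * Real.exp τ.re := mul_le_mul_of_nonneg_right hρ2 (Real.exp_pos _).le
    have h1 := strip_mean h.borel.hol hn0 hnm hn (E := fun l => Real.exp (a' * Real.exp l)) hbd hρ
      him (Real.exp_pos (a * Real.exp τ.re)).le hM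
    have h2 : (2 * ρ * (Real.exp (a * Real.exp τ.re) * K)) / (π * ρ ^ 2) =
        D * Real.exp (a * Real.exp τ.re) := by
      rw [hD]
      ring
    rw [← hK, h2] at h1
    have h3 : 1 ≤ Real.exp (-q) * Real.exp τ.re := by
      rw [← Real.exp_add]
      exact Real.one_le_exp (by linarith)
    have h4 : 0 < Real.exp (a * Real.exp τ.re) := Real.exp_pos _
    calc ‖Ψ τ‖ ≤ D * Real.exp (a * Real.exp τ.re) := h1
      _ ≤ (D * (Real.exp (-q) * Real.exp τ.re)) * Real.exp (a * Real.exp τ.re) := by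
          apply mul_le_mul_of_nonneg_right _ h4.le
          exact le_mul_of_one_le_right hD0 h3
      _ ≤ _ := by
          apply mul_le_mul_of_nonneg_right _ h4.le
          have : 0 ≤ 2 * Λ * Real.exp τ.re := by positivity
          nlinarith

/-- Exponential type `≤ a` on rays, for every `a > 1/2`. -/
theorem ray_PhiL {b : ℝ} (hb : 0 < b) {Ψ : ℂ → ℂ} {γ : ℕ → ℂ} (h : BorelA b Ψ γ) {α : ℝ}
    (hα : |α| < b) (hαp : |α| < π) {a : ℝ} (ha : 1 / 2 < a) : Ray (PhiL Ψ) α a := by
  have hαm : α ∈ Ioc (-π) π := by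
    rw [abs_lt] at hαp
    exact ⟨hαp.1, hαp.2.le⟩
  have hlog : ∀ s : ℝ, 0 < s → Complex.log (s * Complex.exp (α * Complex.I)) =
      ((Real.log s : ℝ) : ℂ) + α * Complex.I := by
    intro s hs
    have h1 : (s : ℂ) = Complex.exp ((Real.log s : ℝ) : ℂ) := by
      rw [← Complex.ofReal_exp, Real.exp_log hs]
    nth_rewrite 1 [h1]
    rw [← Complex.exp_add, Complex.log_exp]
    · simpa using hαm.1
    · simpa using hαm.2
  have him : ∀ s : ℝ, (((Real.log s : ℝ) : ℂ) + α * Complex.I).im = α := by intro s; simp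
  have hre : ∀ s : ℝ, (((Real.log s : ℝ) : ℂ) + α * Complex.I).re = Real.log s := by
    intro s; simp
  refine ⟨?_, ?_⟩
  · have hc : ContinuousOn (fun s : ℝ => Ψ (((Real.log s : ℝ) : ℂ) + α * Complex.I) /
        (s * Complex.exp (α * Complex.I))) (Ioi 0) := by
      apply ContinuousOn.div
      · refine h.borel.hol.continuousOn.comp ?_ ?_
        · apply ContinuousOn.add _ continuousOn_const
          exact Complex.continuous_ofReal.comp_continuousOn
            (Real.continuousOn_log.mono fun s hs => (ne_of_gt hs : s ≠ 0))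
        · intro s _
          show |(((Real.log s : ℝ) : ℂ) + α * Complex.I).im| < b
          rw [him]
          exact hα
      · exact Continuous.continuousOn (by fun_prop)
      · intro s hs
        exact mul_ne_zero (by exact_mod_cast (ne_of_gt hs : s ≠ 0)) (Complex.exp_ne_zero _)
    refine hc.congr ?_
    intro s hs
    simp only [PhiL]
    rw [hlog s hs]
  · obtain ⟨C, hC⟩ := strip_bound hb h (abs_nonneg α) hα ha
    refine ⟨C, fun s hs => ?_⟩
    have h1 := hC (((Real.log s : ℝ) : ℂ) + α * Complex.I) (by rw [him])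
    rw [hre, Real.exp_log hs] at h1
    simp only [PhiL]
    rw [hlog s hs, norm_div, norm_mul, Complex.norm_real, Real.norm_of_nonneg hs.le, norm_dir,
      mul_one, div_le_iff₀ hs]
    linarith

end Pool.Agent.Worm.SB
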