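import Mathlib
import Pool.Agent.WormS.Kern
import Pool.Agent.WormS.Ray1

/-!
# Entire Φ (problem MP_3c4b73_an)
-/

open MeasureTheory Set Filter Topology Metric
open scoped Real ENNReal Interval ComplexConjugate

namespace Pool.Agent.Worm.SB

theorem norm_gamma_le {γ : ℕ → ℂ} {A Λ : ℝ} (hA : ∀ j : ℕ, ‖aa γ j‖ ≤ A * Λ ^ j) (j : ℕ) :
    ‖γ j‖ ≤ A * (Λ ^ j / j.factorial) := by
  have h := hA j
  unfold aa at h
  rw [norm_mul, Complex.norm_natCast] at h
  have hf : (0 : ℝ) < j.factorial := by exact_mod_cast j.factorial_pos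
  rw [← mul_div_assoc, le_div_iff₀ hf]
  exact h

theorem nonneg_of_aa {γ : ℕ → ℂ} {A Λ : ℝ} (hA : ∀ j : ℕ, ‖aa γ j‖ ≤ A * Λ ^ j) : 0 ≤ A := by
  have h := hA 0
  rw [pow_zero, mul_one] at h
  exact (norm_nonneg _).trans h

theorem term_gamma_le {γ : ℕ → ℂ} {A Λ : ℝ} (hA : ∀ j : ℕ, ‖aa γ j‖ ≤ A * Λ ^ j)
    {r : ℝ} (hr : 0 ≤ r) (j : ℕ) : ‖γ j‖ * r ^ j ≤ A * ((Λ * r) ^ j / j.factorial) := by
  calc ‖γ j‖ * r ^ j ≤ A * (Λ ^ j / j.factorial) * r ^ j :=
        mul_le_mul_of_nonneg_right (norm_gamma_le hA j) (by positivity)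
    _ = A * ((Λ * r) ^ j / j.factorial) := by rw [mul_pow]; ring

/-- absolute convergence everywhere -/
theorem summable_gamma {γ : ℕ → ℂ} {A Λ : ℝ} (hΛ : 1 ≤ Λ) (hA : ∀ j : ℕ, ‖aa γ j‖ ≤ A * Λ ^ j)
    (r : ℝ) (hr : 0 ≤ r) : Summable fun j : ℕ => ‖γ j‖ * r ^ j := by
  have _ := hΛ
  refine Summable.of_nonneg_of_le (fun j => by positivity) (term_gamma_le hA hr) ?_
  exact (Real.summable_pow_div_factorial (Λ * r)).mul_left A

theorem differentiable_Phi {γ : ℕ → ℂ} {A Λ : ℝ} (hΛ : 1 ≤ Λ)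
    (hA : ∀ j : ℕ, ‖aa γ j‖ ≤ A * Λ ^ j) : Differentiable ℂ (Phi γ) := by
  intro x
  have h1 : DifferentiableOn ℂ (Phi γ) (ball 0 (‖x‖ + 1)) := by
    unfold Phi
    apply Complex.differentiableOn_tsum_of_summable_norm
      (summable_gamma hΛ hA (‖x‖ + 1) (by positivity))
    · intro j
      apply Differentiable.differentiableOn
      fun_prop
    · exact isOpen_ball
    · intro j y hy
      rw [mem_ball_zero_iff] at hy
      rw [norm_mul, norm_pow]
      exact mul_le_mul_of_nonneg_left (pow_le_pow_left₀ (norm_nonneg _) hy.le j) (norm_nonneg _)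
  exact h1.differentiableAt (isOpen_ball.mem_nhds (by rw [mem_ball_zero_iff]; linarith))

theorem norm_Phi_le {γ : ℕ → ℂ} {A Λ : ℝ} (hΛ : 1 ≤ Λ) (hA : ∀ j : ℕ, ‖aa γ j‖ ≤ A * Λ ^ j)
    (x : ℂ) : ‖Phi γ x‖ ≤ A * Real.exp (Λ * ‖x‖) := by
  have _ := hΛ
  have h1 : HasSum (fun j : ℕ => A * ((Λ * ‖x‖) ^ j / j.factorial))
      (A * Real.exp (Λ * ‖x‖)) := by
    apply HasSum.mul_left
    rw [Real.exp_eq_exp_ℝ]
    exact NormedSpace.expSeries_div_hasSum_exp (Λ * ‖x‖)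
  unfold Phi
  apply tsum_of_norm_bounded h1
  intro j
  rw [norm_mul, norm_pow]
  exact term_gamma_le hA (norm_nonneg _) j

/-- Every ray is fine for the entire function, with the exponent `Λ`. -/
theorem ray_Phi {γ : ℕ → ℂ} {A Λ : ℝ} (hΛ : 1 ≤ Λ) (hA : ∀ j : ℕ, ‖aa γ j‖ ≤ A * Λ ^ j)
    (α : ℝ) : Ray (Phi γ) α Λ := by
  refine ⟨?_, A, fun s hs => ?_⟩
  · have h1 : Continuous (fun s : ℝ => Phi γ (s * Complex.exp (α * Complex.I))) :=
      (differentiable_Phi hΛ hA).continuous.comp (by fun_prop)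
    exact h1.continuousOn
  · have h1 := norm_Phi_le hΛ hA (s * Complex.exp (α * Complex.I))
    rwa [norm_mul, norm_dir, mul_one, Complex.norm_real, Real.norm_of_nonneg hs.le] at h1

/-- Identity theorem on the strip (convex), starting from `series_exists`. -/
theorem Psi_eq {b : ℝ} (hb : 0 < b) {Ψ : ℂ → ℂ} {γ : ℕ → ℂ} (h : Borel b Ψ γ) {A Λ : ℝ}
    (hΛ : 1 ≤ Λ) (hA : ∀ j : ℕ, ‖aa γ j‖ ≤ A * Λ ^ j) {τ : ℂ} (hτ : |τ.im| < b) :
    Ψ τ = Complex.exp τ * Phi γ (Complex.exp τ) := by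
  obtain ⟨q, Λ', _, _, _, _, hser⟩ := series_exists hb h
  set U : Set ℂ := {τ | |τ.im| < b} with hU
  have hUo : IsOpen U := isOpen_lt (by fun_prop) continuous_const
  have hUc : Convex ℝ U := by
    have h1 : U = Complex.imLm ⁻¹' (Ioo (-b) b) := by
      ext z
      simp [hU, abs_lt]
    rw [h1]
    exact (convex_Ioo (-b) b).linear_preimage Complex.imLm
  have hf : AnalyticOnNhd ℂ Ψ U := h.hol.analyticOnNhd hUo
  have hg : AnalyticOnNhd ℂ (fun τ => Complex.exp τ * Phi γ (Complex.exp τ)) U := by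
    apply DifferentiableOn.analyticOnNhd _ hUo
    apply Differentiable.differentiableOn
    exact Complex.differentiable_exp.mul
      ((differentiable_Phi hΛ hA).comp Complex.differentiable_exp)
  have hz : ((q - 1 : ℝ) : ℂ) ∈ U := by
    show |((q - 1 : ℝ) : ℂ).im| < b
    rw [Complex.ofReal_im, abs_zero]
    exact hb
  have hev : Ψ =ᶠ[𝓝 ((q - 1 : ℝ) : ℂ)] (fun τ => Complex.exp τ * Phi γ (Complex.exp τ)) := by
    have hV : IsOpen (U ∩ {τ : ℂ | τ.re < q}) :=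
      hUo.inter (isOpen_lt Complex.continuous_re continuous_const)
    have hm : ((q - 1 : ℝ) : ℂ) ∈ U ∩ {τ : ℂ | τ.re < q} := by
      refine ⟨hz, ?_⟩
      show (((q - 1 : ℝ) : ℂ)).re < q
      rw [Complex.ofReal_re]
      linarith
    filter_upwards [hV.mem_nhds hm] with z hz'
    exact hser z hz'.1 hz'.2
  exact hf.eqOn_of_preconnected_of_eventuallyEq hg hUc.isPreconnected hz hev hτ

/-- On the rays inside the sector the exponent is every `a > 1/2`
(`PhiL Ψ = Phi γ` there; `ray_PhiL`). -/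
theorem ray_Phi_half {b : ℝ} (hb : 0 < b) {Ψ : ℂ → ℂ} {γ : ℕ → ℂ} (h : BorelA b Ψ γ) {A Λ : ℝ}
    (hΛ : 1 ≤ Λ) (hA : ∀ j : ℕ, ‖aa γ j‖ ≤ A * Λ ^ j) {α : ℝ} (hα : |α| < b) (hαp : |α| < π)
    {a : ℝ} (ha : 1 / 2 < a) : Ray (Phi γ) α a := by
  have hαm : α ∈ Ioc (-π) π := by
    rw [abs_lt] at hαp
    exact ⟨hαp.1, hαp.2.le⟩
  have hkey : ∀ s : ℝ, 0 < s → PhiL Ψ (s * Complex.exp (α * Complex.I)) =
      Phi γ (s * Complex.exp (α * Complex.I)) := by
    intro s hs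
    have h1 : (s : ℂ) = Complex.exp ((Real.log s : ℝ) : ℂ) := by
      rw [← Complex.ofReal_exp, Real.exp_log hs]
    have hlog : Complex.log (s * Complex.exp (α * Complex.I)) =
        ((Real.log s : ℝ) : ℂ) + α * Complex.I := by
      nth_rewrite 1 [h1]
      rw [← Complex.exp_add, Complex.log_exp]
      · simpa using hαm.1
      · simpa using hαm.2
    have hne : (s : ℂ) * Complex.exp (α * Complex.I) ≠ 0 :=
      mul_ne_zero (by exact_mod_cast hs.ne') (Complex.exp_ne_zero _)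
    have him : |(Complex.log (s * Complex.exp (α * Complex.I))).im| < b := by
      rw [hlog]
      simpa using hα
    unfold PhiL
    rw [Psi_eq hb h.borel hΛ hA him, Complex.exp_log hne, mul_div_cancel_left₀ _ hne]
  obtain ⟨hc, C, hC⟩ := ray_PhiL hb h hα hαp ha
  refine ⟨hc.congr fun s hs => (hkey s hs).symm, C, fun s hs => ?_⟩
  rw [← hkey s hs]
  exact hC s hs

end Pool.Agent.Worm.SB
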