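import Mathlib
import Pool.Agent.WormS.Kern

/-!
# The relation for the function Φ (problem MP_3c4b73_an)
-/

open MeasureTheory Set Filter Topology Metric
open scoped Real ENNReal Interval ComplexConjugate

namespace Pool.Agent.Worm.SB

theorem Lin_monomial (γ : ℕ → ℂ) (j : ℕ) (c : ℂ) :
    Lin γ (Polynomial.monomial j c) = aa γ j * c := by
  unfold Lin
  rw [Polynomial.lsum_apply, Polynomial.sum_monomial_index]
  · simp
  · simp

theorem Lin_pow (γ : ℕ → ℂ) (a b : ℂ) (m : ℕ) :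
    Lin γ ((Polynomial.C a * Polynomial.X - Polynomial.C b) ^ m) =
      ∑ j ∈ Finset.range (m + 1), aa γ j * (a ^ j * (-b) ^ (m - j) * (m.choose j : ℂ)) := by
  rw [sub_eq_add_neg, add_pow, map_sum]
  refine Finset.sum_congr rfl fun j _ => ?_
  rw [← Lin_monomial]
  congr 1
  rw [mul_pow, ← Polynomial.C_mul_X_pow_eq_monomial, ← Polynomial.C_neg, ← Polynomial.C_pow,
    ← Polynomial.C_pow, ← Polynomial.C_eq_natCast]
  simp only [Polynomial.C_mul]
  ring

/-- The terms. -/
noncomputable def FT (γ : ℕ → ℂ) (y : ℂ) (m : ℕ) (τ : ℂ) : ℂ :=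
  y ^ m / (m.factorial : ℂ) * polyF γ (Polynomial.X ^ m) τ

theorem FT_eq (γ : ℕ → ℂ) (y : ℂ) (m : ℕ) (τ : ℂ) : FT γ y m τ =
    (∑ j ∈ Finset.range (m + 1), (γ j * (Complex.exp (2 * τ) * y) ^ j) *
      ((-(Complex.exp τ * y)) ^ (m - j) / ((m - j).factorial : ℂ))) +
      τ * ((-(Complex.exp τ * y)) ^ m / (m.factorial : ℂ)) := by
  unfold FT polyF
  rw [Polynomial.pow_comp, Polynomial.X_comp, Lin_pow, mul_add, Finset.mul_sum]
  congr 1
  · refine Finset.sum_congr rfl fun j hj => ?_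
    have hjm : j ≤ m := Nat.lt_succ_iff.1 (Finset.mem_range.1 hj)
    have hc : (m.choose j : ℂ) * (j.factorial : ℂ) * ((m - j).factorial : ℂ) =
        (m.factorial : ℂ) := by
      exact_mod_cast congrArg (Nat.cast : ℕ → ℂ) (Nat.choose_mul_factorial_mul_factorial hjm)
    have hm0 : (m.factorial : ℂ) ≠ 0 := by exact_mod_cast m.factorial_ne_zero
    have hk0 : ((m - j).factorial : ℂ) ≠ 0 := by exact_mod_cast (m - j).factorial_ne_zero
    have hy : y ^ m = y ^ j * y ^ (m - j) := by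
      rw [← pow_add, Nat.add_sub_cancel' hjm]
    unfold aa
    rw [mul_pow, ← neg_mul, mul_pow, hy]
    field_simp
    rw [← hc]
    ring
  · simp only [Polynomial.eval_pow, Polynomial.eval_X]
    rw [← neg_mul, mul_pow]
    ring

theorem summable_exp_norm (z : ℂ) : Summable fun m : ℕ => ‖z ^ m / (m.factorial : ℂ)‖ :=
  NormedSpace.norm_expSeries_div_summable z

theorem hasSum_FT {γ : ℕ → ℂ} {y : ℂ} (hs : Summable fun j : ℕ => ‖γ j‖ * ‖y‖ ^ j) {τ : ℂ}
    (hτ : τ.re ≤ 0) : HasSum (fun m => FT γ y m τ) (phiF (Phi γ) y τ) := by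
  have he : ‖Complex.exp (2 * τ)‖ ≤ 1 := by
    rw [Complex.norm_exp]
    apply Real.exp_le_one_iff.2
    simp
    linarith
  have h1 : Summable fun j : ℕ => ‖γ j * (Complex.exp (2 * τ) * y) ^ j‖ := by
    refine Summable.of_nonneg_of_le (fun _ => norm_nonneg _) (fun j => ?_) hs
    rw [norm_mul, norm_pow, norm_mul]
    gcongr
    calc ‖Complex.exp (2 * τ)‖ * ‖y‖ ≤ 1 * ‖y‖ := by gcongr
      _ = ‖y‖ := one_mul _
  have h2 := summable_exp_norm (-(Complex.exp τ * y))
  have h3 := hasSum_sum_range_mul_of_summable_norm h1 h2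
  have h4 : HasSum (fun m : ℕ => (-(Complex.exp τ * y)) ^ m / (m.factorial : ℂ))
      (Complex.exp (-(Complex.exp τ * y))) := by
    rw [Complex.exp_eq_exp_ℂ]
    exact NormedSpace.expSeries_div_hasSum_exp _
  have h5 := h3.add (h4.mul_left τ)
  rw [h4.tsum_eq] at h5
  have h6 : (∑' n : ℕ, γ n * (Complex.exp (2 * τ) * y) ^ n) *
      Complex.exp (-(Complex.exp τ * y)) + τ * Complex.exp (-(Complex.exp τ * y)) =
      phiF (Phi γ) y τ := by
    unfold phiF Phi
    ring
  rw [h6] at h5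
  simpa only [FT_eq] using h5

theorem norm_FT_le {γ : ℕ → ℂ} {y : ℂ} {τ : ℂ} (hτ : τ.re ≤ 0) (m : ℕ) :
    ‖FT γ y m τ‖ ≤ (∑ j ∈ Finset.range (m + 1), (‖γ j‖ * ‖y‖ ^ j) *
      (‖y‖ ^ (m - j) / ((m - j).factorial : ℝ))) + ‖τ‖ * (‖y‖ ^ m / (m.factorial : ℝ)) := by
  have he : ‖Complex.exp (2 * τ)‖ ≤ 1 := by
    rw [Complex.norm_exp]
    apply Real.exp_le_one_iff.2
    simp
    linarith
  have he1 : ‖Complex.exp τ‖ ≤ 1 := by
    rw [Complex.norm_exp]
    exact Real.exp_le_one_iff.2 hτ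
  have ha : ‖Complex.exp (2 * τ)‖ * ‖y‖ ≤ ‖y‖ := by
    calc ‖Complex.exp (2 * τ)‖ * ‖y‖ ≤ 1 * ‖y‖ := by gcongr
      _ = ‖y‖ := one_mul _
  have hb : ‖Complex.exp τ‖ * ‖y‖ ≤ ‖y‖ := by
    calc ‖Complex.exp τ‖ * ‖y‖ ≤ 1 * ‖y‖ := by gcongr
      _ = ‖y‖ := one_mul _
  rw [FT_eq]
  refine (norm_add_le _ _).trans (add_le_add ((norm_sum_le _ _).trans
    (Finset.sum_le_sum fun j _ => ?_)) ?_)
  · simp only [norm_mul, norm_div, norm_pow, norm_neg, Complex.norm_natCast]
    gcongr
  · simp only [norm_mul, norm_div, norm_pow, norm_neg, Complex.norm_natCast]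
    gcongr

theorem continuous_FT (γ : ℕ → ℂ) (y : ℂ) (m : ℕ) : Continuous (FT γ y m) := by
  have h : FT γ y m = fun τ => (∑ j ∈ Finset.range (m + 1),
      (γ j * (Complex.exp (2 * τ) * y) ^ j) *
      ((-(Complex.exp τ * y)) ^ (m - j) / ((m - j).factorial : ℂ))) +
      τ * ((-(Complex.exp τ * y)) ^ m / (m.factorial : ℂ)) := by
    funext τ
    exact FT_eq γ y m τ
  rw [h]
  fun_prop

theorem norm_weight (β l : ℝ) :
    ‖Complex.exp ((2 - Complex.I) * (l + β * Complex.I))‖ = Real.exp (2 * l + β) := by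
  rw [Complex.norm_exp]
  congr 1
  simp

/-- The constants. -/
noncomputable def GT (γ : ℕ → ℂ) (y : ℂ) (β : ℝ) (m : ℕ) : ℝ :=
  Real.exp β * ((∑ j ∈ Finset.range (m + 1), (‖γ j‖ * ‖y‖ ^ j) *
      (‖y‖ ^ (m - j) / ((m - j).factorial : ℝ))) + (1 + |β|) * (‖y‖ ^ m / (m.factorial : ℝ)))

theorem norm_integrand_le {γ : ℕ → ℂ} {y : ℂ} (β : ℝ) {l : ℝ} (hl : l ≤ 0) (m : ℕ) :
    ‖Complex.exp ((2 - Complex.I) * (l + β * Complex.I)) * FT γ y m (l + β * Complex.I)‖ ≤
      GT γ y β m * Real.exp l := by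
  have hre : ((l : ℂ) + β * Complex.I).re ≤ 0 := by simpa using hl
  rw [norm_mul, norm_weight]
  have h1 := norm_FT_le (γ := γ) (y := y) hre m
  have h2 : ‖(l : ℂ) + β * Complex.I‖ ≤ -l + |β| := by
    refine (norm_add_le _ _).trans ?_
    rw [norm_mul, Complex.norm_I, mul_one, Complex.norm_real, Complex.norm_real, Real.norm_eq_abs,
      Real.norm_eq_abs, abs_of_nonpos hl]
  have hl1 : -l ≤ Real.exp (-l) := by
    have := Real.add_one_le_exp (-l)
    linarith
  have hl0 : (1 : ℝ) ≤ Real.exp (-l) := Real.one_le_exp (by linarith)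
  set G : ℝ := ∑ j ∈ Finset.range (m + 1), (‖γ j‖ * ‖y‖ ^ j) *
      (‖y‖ ^ (m - j) / ((m - j).factorial : ℝ)) with hG
  set E : ℝ := ‖y‖ ^ m / (m.factorial : ℝ) with hE
  have hG0 : 0 ≤ G := Finset.sum_nonneg fun j _ => by positivity
  have hE0 : 0 ≤ E := by positivity
  have h3 : ‖FT γ y m (l + β * Complex.I)‖ ≤ Real.exp (-l) * (G + (1 + |β|) * E) := by
    calc ‖FT γ y m (l + β * Complex.I)‖ ≤ G + (-l + |β|) * E := by
          refine h1.trans ?_
          gcongr
      _ ≤ Real.exp (-l) * G + (Real.exp (-l) + Real.exp (-l) * |β|) * E := by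
          have hb0 := abs_nonneg β
          have h5 : G ≤ Real.exp (-l) * G := le_mul_of_one_le_left hG0 hl0
          have h6 : |β| ≤ Real.exp (-l) * |β| := le_mul_of_one_le_left hb0 hl0
          gcongr
      _ = Real.exp (-l) * (G + (1 + |β|) * E) := by ring
  calc Real.exp (2 * l + β) * ‖FT γ y m (l + β * Complex.I)‖
      ≤ Real.exp (2 * l + β) * (Real.exp (-l) * (G + (1 + |β|) * E)) := by gcongr
    _ = GT γ y β m * Real.exp l := by
        unfold GT
        rw [← hG, ← hE]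
        have : Real.exp (2 * l + β) = Real.exp l * Real.exp l * Real.exp β := by
          rw [← Real.exp_add, ← Real.exp_add]
          congr 1
          ring
        rw [this]
        have h7 : Real.exp l * Real.exp (-l) = 1 := by
          rw [← Real.exp_add]
          simp
        linear_combination (Real.exp l * Real.exp β * (G + (1 + |β|) * E)) * h7

theorem summable_GT {γ : ℕ → ℂ} {y : ℂ} (hs : Summable fun j : ℕ => ‖γ j‖ * ‖y‖ ^ j) (β : ℝ) :
    Summable (GT γ y β) := by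
  have h2 : Summable fun m : ℕ => ‖y‖ ^ m / (m.factorial : ℝ) :=
    Real.summable_pow_div_factorial ‖y‖
  have h3 : Summable fun m : ℕ => ‖‖y‖ ^ m / (m.factorial : ℝ)‖ := by
    refine h2.congr fun m => ?_
    rw [Real.norm_of_nonneg (by positivity)]
  have h4 : Summable fun j : ℕ => ‖‖γ j‖ * ‖y‖ ^ j‖ := by
    refine hs.congr fun j => ?_
    rw [Real.norm_of_nonneg (by positivity)]
  have h5 := (hasSum_sum_range_mul_of_summable_norm h4 h3).summable
  exact (h5.add (h2.mul_left _)).mul_left _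

theorem hasSum_Rad {γ : ℕ → ℂ} {y : ℂ} (hs : Summable fun j : ℕ => ‖γ j‖ * ‖y‖ ^ j) (β : ℝ) :
    HasSum (fun m : ℕ => y ^ m / (m.factorial : ℂ) * Rad β (polyF γ (Polynomial.X ^ m)))
      (Rad β (phiF (Phi γ) y)) := by
  set F : ℕ → ℝ → ℂ := fun m l => Complex.exp ((2 - Complex.I) * (l + β * Complex.I)) *
    FT γ y m (l + β * Complex.I) with hF
  have hcont : ∀ m, Continuous (F m) := by
    intro m
    have := continuous_FT γ y m
    simp only [hF]
    fun_prop
  have hexp : IntegrableOn Real.exp (Iic (0 : ℝ)) := integrableOn_exp_Iic 0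
  have hint : ∀ m, Integrable (F m) (volume.restrict (Iic (0 : ℝ))) := by
    intro m
    refine Integrable.mono' (hexp.const_mul (GT γ y β m)) (hcont m).aestronglyMeasurable ?_
    refine (ae_restrict_iff' measurableSet_Iic).2 (Eventually.of_forall fun l hl => ?_)
    exact norm_integrand_le β hl m
  have hsum : Summable fun m => ∫ l in Iic (0 : ℝ), ‖F m l‖ := by
    refine Summable.of_nonneg_of_le (fun m => integral_nonneg fun _ => norm_nonneg _) (fun m => ?_)
      (summable_GT hs β)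
    calc ∫ l in Iic (0 : ℝ), ‖F m l‖ ≤ ∫ l in Iic (0 : ℝ), GT γ y β m * Real.exp l := by
          refine setIntegral_mono_on (hint m).norm (hexp.const_mul _) measurableSet_Iic ?_
          intro l hl
          exact norm_integrand_le β hl m
      _ = GT γ y β m := by
          rw [integral_const_mul, integral_exp_Iic_zero, mul_one]
  have h := hasSum_integral_of_summable_integral_norm hint hsum
  have h1 : (∫ l in Iic (0 : ℝ), ∑' m, F m l) = Rad β (phiF (Phi γ) y) := by
    unfold Rad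
    refine setIntegral_congr_fun measurableSet_Iic fun l hl => ?_
    have hre : ((l : ℂ) + β * Complex.I).re ≤ 0 := by simpa using hl
    exact ((hasSum_FT hs hre).mul_left _).tsum_eq
  rw [h1] at h
  have h2 : (fun m : ℕ => y ^ m / (m.factorial : ℂ) * Rad β (polyF γ (Polynomial.X ^ m))) =
      fun m : ℕ => ∫ l in Iic (0 : ℝ), F m l := by
    funext m
    unfold Rad
    rw [← integral_const_mul]
    refine setIntegral_congr_fun measurableSet_Iic fun l _ => ?_
    simp only [hF, FT]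
    ring
  rw [h2]
  exact h

/-- The relation for `Φ` at every point of absolute convergence.

Proof: `polyF γ (X^m) τ = ∑_{j≤m} (m choose j) e^{2jτ} (-e^τ)^{m-j} a_j + τ (-e^τ)^m`; multiplied by
`y^m / m!` and summed over `m` it gives `phiF (Phi γ) y τ` (Cauchy product of `∑ γ_j (e^{2τ}y)^j` and
the exponential series of `-(e^τ y)`). For `Re τ ≤ 0` the terms of the double series are dominated by
those for `τ = 0` with absolute values, so the sum over `m` of the norms of the integrands of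
`Rad (±b)` is at most `e^{2l} e^{b} (∑ ‖γ_j‖‖y‖^j + |l| + b) e^{‖y‖}`, and sum and integral may be
interchanged (`hasSum_integral_of_summable_integral_norm` or `integral_tsum`). -/
theorem eqR_series {b : ℝ} (hb : 0 < b) {γ : ℕ → ℂ}
    (hrad : ∀ p : Polynomial ℂ, Rad b (polyF γ p) = Rad (-b) (polyF γ p)) {y : ℂ}
    (hs : Summable fun j : ℕ => ‖γ j‖ * ‖y‖ ^ j) : EqR b (Phi γ) y := by
  have h1 := hasSum_Rad hs b
  have h2 := hasSum_Rad hs (-b)
  have h3 : (fun m : ℕ => y ^ m / (m.factorial : ℂ) * Rad b (polyF γ (Polynomial.X ^ m))) =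
      fun m : ℕ => y ^ m / (m.factorial : ℂ) * Rad (-b) (polyF γ (Polynomial.X ^ m)) := by
    funext m
    rw [hrad]
  rw [h3] at h1
  exact h1.unique h2

end Pool.Agent.Worm.SB
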