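import Mathlib
import Pool.Agent.WormS.Kern

/-!
# A beta integral (problem MP_3c4b73_an)
-/

open MeasureTheory Set Filter Topology Metric
open scoped Real ENNReal Interval ComplexConjugate

namespace Pool.Agent.Worm.SB

/-- `∫_{-∞}^0 e^{(2N+2)l} (1 - e^{2l})^k dl = N! k! / (2 (N+k+1)!)`.

Proof: induction on `k` (integration by parts) or the substitution `x = e^{2l}` and
`Complex.betaIntegral` / the real beta integral. -/
theorem int_beta (N k : ℕ) :
    IntegrableOn (fun l : ℝ => Real.exp ((2 * N + 2) * l) * (1 - Real.exp (2 * l)) ^ k) (Iic 0) ∧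
    ∫ l in Iic (0 : ℝ), Real.exp ((2 * N + 2) * l) * (1 - Real.exp (2 * l)) ^ k =
      (N.factorial * k.factorial : ℝ) / (2 * ((N + k + 1).factorial : ℝ)) := by
  induction k generalizing N with
  | zero =>
    have hpos : (0 : ℝ) < 2 * N + 2 := by positivity
    simp only [pow_zero, mul_one]
    refine ⟨integrableOn_exp_mul_Iic hpos 0, ?_⟩
    rw [integral_exp_mul_Iic hpos 0]
    simp only [mul_zero, Real.exp_zero, Nat.factorial_zero, Nat.cast_one, mul_one, add_zero,
      Nat.factorial_succ]
    have : (N.factorial : ℝ) ≠ 0 := by positivity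
    push_cast
    field_simp
  | succ k ih =>
    obtain ⟨h1, e1⟩ := ih N
    obtain ⟨h2, e2⟩ := ih (N + 1)
    have hfun : (fun l : ℝ => Real.exp ((2 * N + 2) * l) * (1 - Real.exp (2 * l)) ^ (k + 1)) =
        fun l : ℝ => Real.exp ((2 * N + 2) * l) * (1 - Real.exp (2 * l)) ^ k -
          Real.exp ((2 * ((N + 1 : ℕ) : ℝ) + 2) * l) * (1 - Real.exp (2 * l)) ^ k := by
      funext l
      have : Real.exp ((2 * ((N + 1 : ℕ) : ℝ) + 2) * l) =
          Real.exp ((2 * N + 2) * l) * Real.exp (2 * l) := by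
        rw [← Real.exp_add]; congr 1; push_cast; ring
      rw [this]; ring
    rw [hfun]
    refine ⟨h1.sub h2, ?_⟩
    rw [integral_sub h1 h2, e1, e2]
    have a1 : ((N + 1 + k + 1).factorial : ℝ) = (N + k + 2) * ((N + k + 1).factorial : ℝ) := by
      rw [show N + 1 + k + 1 = (N + k + 1) + 1 by ring, Nat.factorial_succ]; push_cast; ring
    have a2 : ((N + (k + 1) + 1).factorial : ℝ) = (N + k + 2) * ((N + k + 1).factorial : ℝ) := by
      rw [show N + (k + 1) + 1 = (N + k + 1) + 1 by ring, Nat.factorial_succ]; push_cast; ring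
    have a3 : ((N + 1).factorial : ℝ) = (N + 1) * (N.factorial : ℝ) := by
      rw [Nat.factorial_succ]; push_cast; ring
    have a4 : ((k + 1).factorial : ℝ) = (k + 1) * (k.factorial : ℝ) := by
      rw [Nat.factorial_succ]; push_cast; ring
    rw [a1, a2, a3, a4]
    have p1 : ((N + k + 1).factorial : ℝ) ≠ 0 := by positivity
    have p2 : ((N : ℝ) + k + 2) ≠ 0 := by positivity
    field_simp
    ring

end Pool.Agent.Worm.SB
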