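import Mathlib
import Pool.Agent.WormS.Kern
import Pool.Agent.WormS.Beta

/-!
# Geometric growth of the coefficients a_j (problem MP_3c4b73_an)
-/

open MeasureTheory Set Filter Topology Metric
open scoped Real ENNReal Interval ComplexConjugate

namespace Pool.Agent.Worm.SB

/-- the norm of the weight in `Rad`. -/
theorem norm_radWeight (β l : ℝ) :
    ‖Complex.exp ((2 - Complex.I) * (l + β * Complex.I))‖ = Real.exp (2 * l + β) := by
  rw [Complex.norm_exp]
  congr 1
  simp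

/-- Integrability of the integrand in `Rad`. -/
theorem radInt_of_bound {β : ℝ} {h : ℂ → ℂ} (hc : Continuous h) {C : ℝ}
    (hb : ∀ l : ℝ, l ≤ 0 → ‖h (l + β * Complex.I)‖ ≤ C * Real.exp (-l)) :
    IntegrableOn (fun l : ℝ => Complex.exp ((2 - Complex.I) * (l + β * Complex.I)) *
      h (l + β * Complex.I)) (Iic 0) := by
  have hg : IntegrableOn (fun l : ℝ => C * Real.exp β * Real.exp (1 * l)) (Iic 0) :=
    (integrableOn_exp_mul_Iic one_pos 0).const_mul _
  refine Integrable.mono' hg ?_ ?_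
  · apply Continuous.aestronglyMeasurable
    fun_prop
  · refine (ae_restrict_iff' measurableSet_Iic).2 (ae_of_all _ fun l hl => ?_)
    rw [norm_mul, norm_radWeight]
    have h1 := hb l hl
    calc Real.exp (2 * l + β) * ‖h (l + β * Complex.I)‖
        ≤ Real.exp (2 * l + β) * (C * Real.exp (-l)) := by gcongr
      _ = C * Real.exp β * Real.exp (1 * l) := by
        rw [show (2 * l + β) = β + 1 * l + l by ring, Real.exp_add, Real.exp_add, Real.exp_neg]
        field_simp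

/-- The norm of `Rad`. -/
theorem norm_Rad_le_of_bound {β : ℝ} {h : ℂ → ℂ} {C : ℝ}
    (hb : ∀ l : ℝ, l ≤ 0 → ‖h (l + β * Complex.I)‖ ≤ C * Real.exp (-l)) :
    ‖Rad β h‖ ≤ C * Real.exp β := by
  unfold Rad
  have hg : IntegrableOn (fun l : ℝ => C * Real.exp β * Real.exp (1 * l)) (Iic 0) :=
    (integrableOn_exp_mul_Iic one_pos 0).const_mul _
  have h2 : ‖∫ l in Iic (0 : ℝ), Complex.exp ((2 - Complex.I) * (l + β * Complex.I)) *
      h (l + β * Complex.I)‖ ≤ ∫ l in Iic (0 : ℝ), C * Real.exp β * Real.exp (1 * l) := by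
    refine norm_integral_le_of_norm_le hg ?_
    refine (ae_restrict_iff' measurableSet_Iic).2 (ae_of_all _ fun l hl => ?_)
    rw [norm_mul, norm_radWeight]
    have h1 := hb l hl
    calc Real.exp (2 * l + β) * ‖h (l + β * Complex.I)‖
        ≤ Real.exp (2 * l + β) * (C * Real.exp (-l)) := by gcongr
      _ = C * Real.exp β * Real.exp (1 * l) := by
        rw [show (2 * l + β) = β + 1 * l + l by ring, Real.exp_add, Real.exp_add, Real.exp_neg]
        field_simp
  refine h2.trans ?_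
  rw [integral_const_mul, integral_exp_mul_Iic one_pos]
  simp

/-- The key factorisation. -/
theorem kap_fact {b : ℝ} (hc : Real.cos b ≠ 0) {β : ℝ} (hβ : Real.cos β = Real.cos b) (l : ℝ) :
    (kap b : ℂ) * Complex.exp (2 * (l + β * Complex.I)) - Complex.exp (l + β * Complex.I) + kap b =
      kap b * (1 - (Real.exp l : ℂ)) * (1 - (Real.exp l : ℂ) * Complex.exp (2 * β * Complex.I)) := by
  set w : ℂ := Complex.exp (β * Complex.I) with hw
  have hw0 : w ≠ 0 := Complex.exp_ne_zero _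
  have e1 : Complex.exp (l + β * Complex.I) = (Real.exp l : ℂ) * w := by
    rw [Complex.exp_add, Complex.ofReal_exp]
  have e2 : Complex.exp (2 * (l + β * Complex.I)) = ((Real.exp l : ℂ) * w) ^ 2 := by
    rw [← e1, ← Complex.exp_nat_mul]
    norm_num
  have e3 : Complex.exp (2 * β * Complex.I) = w ^ 2 := by
    rw [hw, ← Complex.exp_nat_mul]
    congr 1
    push_cast
    ring
  have hcc : (Real.cos b : ℂ) ≠ 0 := by exact_mod_cast hc
  have ec : (Real.cos b : ℂ) = (w + w⁻¹) / 2 := by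
    rw [← hβ, Complex.ofReal_cos, Complex.cos, hw, ← Complex.exp_neg]
    ring_nf
  have e4 : (kap b : ℂ) * (1 + w ^ 2) = w := by
    unfold kap
    push_cast
    rw [← Complex.ofReal_cos, ec]
    have hs : w + w⁻¹ ≠ 0 := by
      intro h
      rw [h] at ec
      apply hcc
      rw [ec]
      simp
    have hs2 : w ^ 2 + 1 ≠ 0 := by
      intro h
      apply hs
      field_simp
      rw [h]
      simp
    field_simp
    ring
  rw [e1, e2, e3]
  linear_combination (Real.exp l : ℂ) * e4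

theorem norm_kap_fact_le {b : ℝ} (hc : Real.cos b ≠ 0) {β : ℝ} (hβ : Real.cos β = Real.cos b)
    {l : ℝ} (hl : l ≤ 0) :
    ‖(kap b : ℂ) * Complex.exp (2 * (l + β * Complex.I)) - Complex.exp (l + β * Complex.I) +
      kap b‖ ≤ |kap b| * (1 - Real.exp (2 * l)) := by
  rw [kap_fact hc hβ, norm_mul, norm_mul, Complex.norm_real, Real.norm_eq_abs]
  have h0 : 0 < Real.exp l := Real.exp_pos l
  have h1 : Real.exp l ≤ 1 := Real.exp_le_one_iff.2 hl
  have h2 : ‖(1 : ℂ) - (Real.exp l : ℂ)‖ = 1 - Real.exp l := by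
    rw [show (1 : ℂ) - (Real.exp l : ℂ) = ((1 - Real.exp l : ℝ) : ℂ) by push_cast; ring,
      Complex.norm_real, Real.norm_of_nonneg (by linarith)]
  have h3 : ‖(1 : ℂ) - (Real.exp l : ℂ) * Complex.exp (2 * β * Complex.I)‖ ≤ 1 + Real.exp l := by
    refine (norm_sub_le _ _).trans ?_
    rw [norm_one, norm_mul, Complex.norm_real, Real.norm_of_nonneg h0.le,
      show (2 : ℂ) * β * Complex.I = ((2 * β : ℝ) : ℂ) * Complex.I by push_cast; ring, norm_dir,
      mul_one]
  rw [h2, mul_assoc]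
  refine mul_le_mul_of_nonneg_left ?_ (abs_nonneg _)
  calc (1 - Real.exp l) * ‖(1 : ℂ) - (Real.exp l : ℂ) * Complex.exp (2 * β * Complex.I)‖
      ≤ (1 - Real.exp l) * (1 + Real.exp l) :=
        mul_le_mul_of_nonneg_left h3 (by linarith)
    _ = 1 - Real.exp (2 * l) := by
      rw [two_mul, Real.exp_add]
      ring

/-- The kernel `v^{2N} (κ v² - v + κ)^k`. -/
noncomputable def kerF (κ : ℝ) (N k : ℕ) (τ : ℂ) : ℂ :=
  Complex.exp (2 * τ) ^ N * ((κ : ℂ) * Complex.exp (2 * τ) - Complex.exp τ + κ) ^ k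

theorem continuous_kerF (κ : ℝ) (N k : ℕ) : Continuous (kerF κ N k) := by
  unfold kerF
  fun_prop

theorem norm_exp_two_mul (β l : ℝ) :
    ‖Complex.exp (2 * (l + β * Complex.I))‖ = Real.exp (2 * l) := by
  rw [Complex.norm_exp]
  congr 1
  simp

theorem norm_kerF_le {b : ℝ} (hc : Real.cos b ≠ 0) {β : ℝ} (hβ : Real.cos β = Real.cos b)
    (N k : ℕ) {l : ℝ} (hl : l ≤ 0) : ‖kerF (kap b) N k (l + β * Complex.I)‖ ≤
      |kap b| ^ k * (Real.exp (2 * N * l) * (1 - Real.exp (2 * l)) ^ k) := by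
  unfold kerF
  rw [norm_mul, norm_pow, norm_pow, norm_exp_two_mul]
  have h1 := norm_kap_fact_le hc hβ hl
  have h2 : Real.exp (2 * l) ^ N = Real.exp (2 * N * l) := by
    rw [← Real.exp_nat_mul]
    congr 1
    ring
  rw [h2]
  calc _ ≤ Real.exp (2 * N * l) * (|kap b| * (1 - Real.exp (2 * l))) ^ k := by
        gcongr
    _ = _ := by
      rw [mul_pow]
      ring

theorem radInt_kerF {b : ℝ} (hc : Real.cos b ≠ 0) {β : ℝ} (hβ : Real.cos β = Real.cos b)
    (N k : ℕ) : IntegrableOn (fun l : ℝ => Complex.exp ((2 - Complex.I) * (l + β * Complex.I)) *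
      kerF (kap b) N k (l + β * Complex.I)) (Iic 0) := by
  refine radInt_of_bound (continuous_kerF _ _ _) (C := |kap b| ^ k) fun l hl => ?_
  refine (norm_kerF_le hc hβ N k hl).trans ?_
  have h0 : 0 < Real.exp (2 * l) := Real.exp_pos _
  have h1 : Real.exp (2 * l) ≤ 1 := Real.exp_le_one_iff.2 (by linarith)
  have h2 : Real.exp (2 * N * l) ≤ 1 := Real.exp_le_one_iff.2
    (mul_nonpos_of_nonneg_of_nonpos (by positivity) hl)
  have h3 : (1 : ℝ) ≤ Real.exp (-l) := Real.one_le_exp (by linarith)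
  have h4 : (1 - Real.exp (2 * l)) ^ k ≤ 1 := pow_le_one₀ (by linarith) (by linarith)
  have h5 : 0 ≤ (1 - Real.exp (2 * l)) ^ k := pow_nonneg (by linarith) k
  have h6 : Real.exp (2 * N * l) * (1 - Real.exp (2 * l)) ^ k ≤ 1 :=
    mul_le_one₀ h2 h5 h4
  gcongr
  exact h6.trans h3

theorem norm_Rad_kerF_le {b : ℝ} (hc : Real.cos b ≠ 0) {β : ℝ} (hβ : Real.cos β = Real.cos b)
    (N k : ℕ) : ‖Rad β (kerF (kap b) N k)‖ ≤
      |kap b| ^ k * Real.exp β *
        ((N.factorial * k.factorial : ℝ) / (2 * ((N + k + 1).factorial : ℝ))) := by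
  obtain ⟨hi, he⟩ := int_beta N k
  rw [← he, ← integral_const_mul]
  unfold Rad
  refine norm_integral_le_of_norm_le (hi.const_mul _) ?_
  refine (ae_restrict_iff' measurableSet_Iic).2 (ae_of_all _ fun l hl => ?_)
  rw [norm_mul, norm_radWeight]
  calc _ ≤ Real.exp (2 * l + β) *
        (|kap b| ^ k * (Real.exp (2 * N * l) * (1 - Real.exp (2 * l)) ^ k)) := by
        gcongr
        exact norm_kerF_le hc hβ N k hl
    _ = _ := by
      rw [show (2 * (N : ℝ) + 2) * l = 2 * N * l + 2 * l by ring, Real.exp_add, Real.exp_add]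
      ring

theorem choose_beta {M N : ℕ} (h : N ≤ M) : (M.choose N : ℝ) *
    ((N.factorial * (M - N).factorial : ℝ) / (2 * ((N + (M - N) + 1).factorial : ℝ))) =
      1 / (2 * (M + 1)) := by
  have h1 : N + (M - N) + 1 = M + 1 := by omega
  rw [h1]
  have h2 := Nat.choose_mul_factorial_mul_factorial h
  have h3 : (M.choose N : ℝ) * N.factorial * (M - N).factorial = M.factorial := by
    exact_mod_cast h2
  have h4 : ((M + 1).factorial : ℝ) = (M + 1) * M.factorial := by
    rw [Nat.factorial_succ]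
    push_cast
    ring
  rw [h4]
  have h5 : (M.factorial : ℝ) ≠ 0 := by positivity
  have h6 : (M : ℝ) + 1 ≠ 0 := by positivity
  field_simp
  linarith

theorem Rad_kerF_diag (κ β : ℝ) (M : ℕ) : Rad β (kerF κ M 0) =
    Complex.exp ((2 * M + 2 - Complex.I) * (β * Complex.I)) / (2 * M + 2 - Complex.I) := by
  unfold Rad kerF
  have h : ∀ l : ℝ, Complex.exp ((2 - Complex.I) * (l + β * Complex.I)) *
      (Complex.exp (2 * (l + β * Complex.I)) ^ M * ((κ : ℂ) * Complex.exp (2 * (l + β * Complex.I)) -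
        Complex.exp (l + β * Complex.I) + κ) ^ 0) =
      Complex.exp ((2 * M + 2 - Complex.I) * (β * Complex.I)) *
        Complex.exp ((2 * M + 2 - Complex.I) * l) := by
    intro l
    rw [pow_zero, mul_one, ← Complex.exp_nat_mul, ← Complex.exp_add, ← Complex.exp_add]
    congr 1
    ring
  simp_rw [h]
  have hre : 0 < ((2 : ℂ) * M + 2 - Complex.I).re := by
    simp
    positivity
  rw [integral_const_mul, integral_exp_mul_complex_Iic hre]
  rw [Complex.ofReal_zero, mul_zero, Complex.exp_zero, mul_one_div]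

/-- Expansion of `Lin γ (p.comp ..)` for `p = (X + κ)^M`. -/
theorem polyF_expand (γ : ℕ → ℂ) (κ : ℝ) (M : ℕ) (τ : ℂ) :
    polyF γ ((Polynomial.X + Polynomial.C (κ : ℂ)) ^ M) τ =
      (∑ N ∈ Finset.range (M + 1), (M.choose N : ℂ) *
        Lin γ ((Polynomial.X - Polynomial.C (κ : ℂ)) ^ N) * kerF κ N (M - N) τ) +
      τ * (κ - Complex.exp τ) ^ M := by
  unfold polyF
  congr 1
  · have h1 : ((Polynomial.X + Polynomial.C (κ : ℂ)) ^ M).comp
        (Polynomial.C (Complex.exp (2 * τ)) * Polynomial.X - Polynomial.C (Complex.exp τ)) =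
        ∑ N ∈ Finset.range (M + 1), ((M.choose N : ℂ) * kerF κ N (M - N) τ) •
          (Polynomial.X - Polynomial.C (κ : ℂ)) ^ N := by
      rw [Polynomial.pow_comp, Polynomial.add_comp, Polynomial.X_comp, Polynomial.C_comp]
      have h2 : Polynomial.C (Complex.exp (2 * τ)) * Polynomial.X - Polynomial.C (Complex.exp τ) +
          Polynomial.C (κ : ℂ) = Polynomial.C (Complex.exp (2 * τ)) *
            (Polynomial.X - Polynomial.C (κ : ℂ)) +
            Polynomial.C ((κ : ℂ) * Complex.exp (2 * τ) - Complex.exp τ + κ) := by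
        simp only [Polynomial.C_add, Polynomial.C_sub, Polynomial.C_mul]
        ring
      rw [h2, add_pow]
      refine Finset.sum_congr rfl fun N _ => ?_
      rw [mul_pow, ← Polynomial.C_pow, ← Polynomial.C_pow, Polynomial.smul_eq_C_mul,
        ← Polynomial.C_eq_natCast]
      unfold kerF
      simp only [Polynomial.C_mul, Polynomial.C_pow]
      simp only [map_natCast]
      ring
    rw [h1, map_sum]
    refine Finset.sum_congr rfl fun N _ => ?_
    rw [map_smul, smul_eq_mul]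
    ring
  · simp only [Polynomial.eval_pow, Polynomial.eval_add, Polynomial.eval_X, Polynomial.eval_C]
    congr 2
    ring

theorem norm_source_le (κ β : ℝ) (M : ℕ) {l : ℝ} (hl : l ≤ 0) :
    ‖((l : ℂ) + β * Complex.I) * ((κ : ℂ) - Complex.exp (l + β * Complex.I)) ^ M‖ ≤
      (1 + |β|) * (|κ| + 1) ^ M * Real.exp (-l) := by
  rw [norm_mul, norm_pow]
  have h1 : ‖(l : ℂ) + β * Complex.I‖ ≤ (1 + |β|) * Real.exp (-l) := by
    refine (norm_add_le _ _).trans ?_
    rw [norm_mul, Complex.norm_I, mul_one, Complex.norm_real, Complex.norm_real,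
      Real.norm_eq_abs, Real.norm_eq_abs, abs_of_nonpos hl]
    have h2 : -l ≤ Real.exp (-l) := by
      have := Real.add_one_le_exp (-l)
      linarith
    have h3 : (1 : ℝ) ≤ Real.exp (-l) := Real.one_le_exp (by linarith)
    nlinarith [abs_nonneg β]
  have h2 : ‖(κ : ℂ) - Complex.exp (l + β * Complex.I)‖ ≤ |κ| + 1 := by
    refine (norm_sub_le _ _).trans ?_
    rw [Complex.norm_real, Real.norm_eq_abs, Complex.norm_exp]
    have h4 : ((l : ℂ) + β * Complex.I).re = l := by simp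
    rw [h4]
    have := Real.exp_le_one_iff.2 hl
    linarith
  calc _ ≤ ((1 + |β|) * Real.exp (-l)) * (|κ| + 1) ^ M := by
        gcongr
    _ = _ := by ring

/-- The expansion of `Rad β (polyF γ p)`. -/
theorem Rad_polyF_expand {b : ℝ} (hc : Real.cos b ≠ 0) {β : ℝ} (hβ : Real.cos β = Real.cos b)
    (γ : ℕ → ℂ) (M : ℕ) :
    Rad β (polyF γ ((Polynomial.X + Polynomial.C (kap b : ℂ)) ^ M)) =
      (∑ N ∈ Finset.range (M + 1), (M.choose N : ℂ) *
        Lin γ ((Polynomial.X - Polynomial.C (kap b : ℂ)) ^ N) *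
          Rad β (kerF (kap b) N (M - N))) +
      Rad β (fun τ => τ * ((kap b : ℂ) - Complex.exp τ) ^ M) := by
  have hsrc : IntegrableOn (fun l : ℝ =>
      Complex.exp ((2 - Complex.I) * (l + β * Complex.I)) *
      ((fun τ : ℂ => τ * ((kap b : ℂ) - Complex.exp τ) ^ M) (l + β * Complex.I))) (Iic 0) := by
    have hcont : Continuous (fun τ : ℂ => τ * ((kap b : ℂ) - Complex.exp τ) ^ M) := by fun_prop
    refine radInt_of_bound hcont (C := (1 + |β|) * (|kap b| + 1) ^ M) fun l hl => ?_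
    exact norm_source_le (kap b) β M hl
  have hker : ∀ N ∈ Finset.range (M + 1), IntegrableOn (fun l : ℝ =>
      ((M.choose N : ℂ) * Lin γ ((Polynomial.X - Polynomial.C (kap b : ℂ)) ^ N)) *
      (Complex.exp ((2 - Complex.I) * (l + β * Complex.I)) *
      kerF (kap b) N (M - N) (l + β * Complex.I))) (Iic 0) :=
    fun N _ => (radInt_kerF hc hβ N (M - N)).const_mul _
  unfold Rad
  have h1 : ∀ l : ℝ, Complex.exp ((2 - Complex.I) * (l + β * Complex.I)) *
      polyF γ ((Polynomial.X + Polynomial.C (kap b : ℂ)) ^ M) (l + β * Complex.I) =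
      (∑ N ∈ Finset.range (M + 1),
        ((M.choose N : ℂ) * Lin γ ((Polynomial.X - Polynomial.C (kap b : ℂ)) ^ N)) *
        (Complex.exp ((2 - Complex.I) * (l + β * Complex.I)) *
          kerF (kap b) N (M - N) (l + β * Complex.I))) +
      Complex.exp ((2 - Complex.I) * (l + β * Complex.I)) *
        ((l + β * Complex.I) * ((kap b : ℂ) - Complex.exp (l + β * Complex.I)) ^ M) := by
    intro l
    rw [polyF_expand, mul_add, Finset.mul_sum]
    congr 1
    refine Finset.sum_congr rfl fun N _ => ?_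
    ring
  simp_rw [h1]
  rw [integral_add (integrable_finsetSum _ hker) hsrc, integral_finsetSum _ hker]
  congr 1
  refine Finset.sum_congr rfl fun N _ => ?_
  rw [integral_const_mul]

/-- The triangular system. -/
theorem theta_rec {b : ℝ} (hb : 0 < b) (hc : Real.cos b ≠ 0) {γ : ℕ → ℂ}
    (hrad : ∀ p : Polynomial ℂ, Rad b (polyF γ p) = Rad (-b) (polyF γ p)) :
    ∃ C₁ C₂ : ℝ, 0 < C₁ ∧ 0 < C₂ ∧ ∀ M : ℕ,
      ‖Lin γ ((Polynomial.X - Polynomial.C (kap b : ℂ)) ^ M)‖ ≤
        C₁ * (∑ N ∈ Finset.range M, |kap b| ^ (M - N) *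
          ‖Lin γ ((Polynomial.X - Polynomial.C (kap b : ℂ)) ^ N)‖) +
        C₂ * ((M + 1) * (|kap b| + 1) ^ M) := by
  set θ : ℕ → ℂ := fun N => Lin γ ((Polynomial.X - Polynomial.C (kap b : ℂ)) ^ N) with hθ
  have hcneg : Real.cos (-b) = Real.cos b := Real.cos_neg b
  set E : ℝ := Real.exp b + Real.exp (-b) with hE
  set D : ℝ := Real.exp b - Real.exp (-b) with hD
  have hDpos : 0 < D := by
    rw [hD]
    have := Real.exp_lt_exp.2 (show -b < b by linarith)
    linarith
  have hEpos : 0 < E := by positivity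
  refine ⟨3 * E / (2 * D), 3 * ((1 + |b|) * E) / D, by positivity, by positivity, fun M => ?_⟩
  -- the relation
  have hrel := hrad ((Polynomial.X + Polynomial.C (kap b : ℂ)) ^ M)
  rw [Rad_polyF_expand hc rfl, Rad_polyF_expand hc hcneg, Finset.sum_range_succ,
    Finset.sum_range_succ] at hrel
  simp only [Nat.sub_self, Nat.choose_self, Nat.cast_one, one_mul] at hrel
  have hdiag : θ M * (Rad b (kerF (kap b) M 0) - Rad (-b) (kerF (kap b) M 0)) =
      -(∑ N ∈ Finset.range M, (M.choose N : ℂ) * θ N *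
        (Rad b (kerF (kap b) N (M - N)) - Rad (-b) (kerF (kap b) N (M - N)))) -
      (Rad b (fun τ => τ * ((kap b : ℂ) - Complex.exp τ) ^ M) -
        Rad (-b) (fun τ => τ * ((kap b : ℂ) - Complex.exp τ) ^ M)) := by
    simp only [mul_sub, Finset.sum_sub_distrib]
    linear_combination hrel
  have hlow : D / (3 * (M + 1)) ≤
      ‖Rad b (kerF (kap b) M 0) - Rad (-b) (kerF (kap b) M 0)‖ := by
    rw [Rad_kerF_diag, Rad_kerF_diag, ← sub_div, norm_div]
    have h1 : ‖(2 : ℂ) * M + 2 - Complex.I‖ ≤ 3 * (M + 1) := by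
      refine (norm_sub_le _ _).trans ?_
      rw [Complex.norm_I, show (2 : ℂ) * M + 2 = ((2 * M + 2 : ℝ) : ℂ) by push_cast; ring,
        Complex.norm_real, Real.norm_of_nonneg (by positivity)]
      have : (0 : ℝ) ≤ M := Nat.cast_nonneg M
      linarith
    have h1' : 0 < ‖(2 : ℂ) * M + 2 - Complex.I‖ := by
      apply norm_pos_iff.2
      intro h
      have := congrArg Complex.re h
      simp at this
      have h2 : (0 : ℝ) ≤ M := Nat.cast_nonneg M
      linarith
    have h2 : ∀ β : ℝ, ‖Complex.exp ((2 * M + 2 - Complex.I) * (β * Complex.I))‖ =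
        Real.exp β := by
      intro β
      rw [Complex.norm_exp]
      congr 1
      simp
    have h3 : D ≤ ‖Complex.exp ((2 * M + 2 - Complex.I) * (b * Complex.I)) -
        Complex.exp ((2 * M + 2 - Complex.I) * ((-b : ℝ) * Complex.I))‖ := by
      have := norm_sub_norm_le (Complex.exp ((2 * M + 2 - Complex.I) * (b * Complex.I)))
        (Complex.exp ((2 * M + 2 - Complex.I) * ((-b : ℝ) * Complex.I)))
      rw [h2, h2] at this
      exact this
    exact div_le_div₀ (norm_nonneg _) h3 h1' h1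
  have hK : ∀ N ∈ Finset.range M, ‖(M.choose N : ℂ) * θ N *
        (Rad b (kerF (kap b) N (M - N)) - Rad (-b) (kerF (kap b) N (M - N)))‖ ≤
      (|kap b| ^ (M - N) * ‖θ N‖) * (E * (1 / (2 * (M + 1)))) := by
    intro N hN
    have hNM : N ≤ M := (Finset.mem_range.1 hN).le
    rw [norm_mul, norm_mul, Complex.norm_natCast]
    have h1 := norm_Rad_kerF_le hc rfl N (M - N)
    have h2 := norm_Rad_kerF_le hc hcneg N (M - N)
    have h3 := norm_sub_le (Rad b (kerF (kap b) N (M - N))) (Rad (-b) (kerF (kap b) N (M - N)))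
    have h4 := choose_beta hNM
    set q : ℝ := (N.factorial * (M - N).factorial : ℝ) / (2 * ((N + (M - N) + 1).factorial : ℝ))
    calc (M.choose N : ℝ) * ‖θ N‖ *
          ‖Rad b (kerF (kap b) N (M - N)) - Rad (-b) (kerF (kap b) N (M - N))‖
        ≤ (M.choose N : ℝ) * ‖θ N‖ * (|kap b| ^ (M - N) * Real.exp b * q +
            |kap b| ^ (M - N) * Real.exp (-b) * q) := by
          gcongr
          linarith
      _ = (|kap b| ^ (M - N) * ‖θ N‖) * (E * ((M.choose N : ℝ) * q)) := by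
          rw [hE]
          ring
      _ = _ := by rw [h4]
  have hS : ‖Rad b (fun τ => τ * ((kap b : ℂ) - Complex.exp τ) ^ M) -
        Rad (-b) (fun τ => τ * ((kap b : ℂ) - Complex.exp τ) ^ M)‖ ≤
      (1 + |b|) * (|kap b| + 1) ^ M * E := by
    refine (norm_sub_le _ _).trans ?_
    have h1 : ‖Rad b (fun τ => τ * ((kap b : ℂ) - Complex.exp τ) ^ M)‖ ≤
        ((1 + |b|) * (|kap b| + 1) ^ M) * Real.exp b :=
      norm_Rad_le_of_bound fun l hl => norm_source_le (kap b) b M hl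
    have h2 : ‖Rad (-b) (fun τ => τ * ((kap b : ℂ) - Complex.exp τ) ^ M)‖ ≤
        ((1 + |b|) * (|kap b| + 1) ^ M) * Real.exp (-b) :=
      norm_Rad_le_of_bound fun l hl => by
        have := norm_source_le (kap b) (-b) M hl
        rw [abs_neg] at this
        exact this
    rw [hE, mul_add]
    linarith
  have hmain : ‖θ M‖ * (D / (3 * (M + 1))) ≤
      (∑ N ∈ Finset.range M, |kap b| ^ (M - N) * ‖θ N‖) * (E * (1 / (2 * (M + 1)))) +
        (1 + |b|) * (|kap b| + 1) ^ M * E := by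
    calc ‖θ M‖ * (D / (3 * (M + 1)))
        ≤ ‖θ M‖ * ‖Rad b (kerF (kap b) M 0) - Rad (-b) (kerF (kap b) M 0)‖ := by gcongr
      _ = ‖θ M * (Rad b (kerF (kap b) M 0) - Rad (-b) (kerF (kap b) M 0))‖ := (norm_mul _ _).symm
      _ ≤ _ := by
        rw [hdiag]
        refine (norm_sub_le _ _).trans ?_
        rw [norm_neg]
        refine add_le_add ?_ hS
        refine (norm_sum_le _ _).trans ?_
        rw [Finset.sum_mul]
        exact Finset.sum_le_sum hK
  have hM1 : (0 : ℝ) < M + 1 := by positivity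
  have h3 : ‖θ M‖ = (‖θ M‖ * (D / (3 * (M + 1)))) * (3 * (M + 1) / D) := by
    field_simp
  rw [h3]
  calc _ ≤ ((∑ N ∈ Finset.range M, |kap b| ^ (M - N) * ‖θ N‖) * (E * (1 / (2 * (M + 1)))) +
        (1 + |b|) * (|kap b| + 1) ^ M * E) * (3 * (M + 1) / D) := by gcongr
    _ = _ := by
      simp only [hθ]
      field_simp

/-- Solution of the recursive inequality. -/
theorem rec_growth {κ C₁ C₂ : ℝ} (hκ : 0 ≤ κ) (h1 : 0 < C₁) (h2 : 0 < C₂) {x : ℕ → ℝ}
    (hx : ∀ M : ℕ, x M ≤ C₁ * (∑ N ∈ Finset.range M, κ ^ (M - N) * x N) +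
      C₂ * ((M + 1) * (κ + 1) ^ M)) :
    ∀ M, x M ≤ 2 * C₂ * (2 * (κ + 1) * (1 + C₁)) ^ M := by
  set ρ : ℝ := 2 * (κ + 1) * (1 + C₁) with hρ
  have hρ1 : 2 * (κ + 1) ≤ ρ := by rw [hρ]; nlinarith
  have hρ2 : κ * (1 + 2 * C₁) ≤ ρ := by rw [hρ]; nlinarith
  have hρ0 : 0 < ρ := by linarith
  have key : ∀ M : ℕ, (∑ N ∈ Finset.range M, κ ^ (M - N) * x N) ≤ C₂ / C₁ * ρ ^ M →
      x M ≤ 2 * C₂ * ρ ^ M := by
    intro M hM
    have h3 : ((M : ℝ) + 1) * (κ + 1) ^ M ≤ ρ ^ M := by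
      have h4 : (M : ℝ) + 1 ≤ 2 ^ M := by
        have := Nat.lt_two_pow_self (n := M)
        exact_mod_cast this
      calc ((M : ℝ) + 1) * (κ + 1) ^ M ≤ 2 ^ M * (κ + 1) ^ M := by gcongr
        _ = (2 * (κ + 1)) ^ M := by rw [mul_pow]
        _ ≤ ρ ^ M := by gcongr
    calc x M ≤ _ := hx M
      _ ≤ C₁ * (C₂ / C₁ * ρ ^ M) + C₂ * ρ ^ M := by gcongr
      _ = 2 * C₂ * ρ ^ M := by
        field_simp
        ring
  have hsum : ∀ M : ℕ, (∑ N ∈ Finset.range M, κ ^ (M - N) * x N) ≤ C₂ / C₁ * ρ ^ M := by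
    intro M
    induction M with
    | zero =>
      simp
      positivity
    | succ M ih =>
      have h3 : (∑ N ∈ Finset.range (M + 1), κ ^ (M + 1 - N) * x N) =
          κ * ((∑ N ∈ Finset.range M, κ ^ (M - N) * x N) + x M) := by
        rw [Finset.sum_range_succ, mul_add, Finset.mul_sum]
        congr 1
        · refine Finset.sum_congr rfl fun N hN => ?_
          have : M + 1 - N = (M - N) + 1 := by
            have := Finset.mem_range.1 hN
            omega
          rw [this, pow_succ]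
          ring
        · simp
      rw [h3]
      have h4 := key M ih
      calc κ * ((∑ N ∈ Finset.range M, κ ^ (M - N) * x N) + x M)
          ≤ κ * (C₂ / C₁ * ρ ^ M + 2 * C₂ * ρ ^ M) := by gcongr
        _ = C₂ / C₁ * ρ ^ M * (κ * (1 + 2 * C₁)) := by
          field_simp
        _ ≤ C₂ / C₁ * ρ ^ M * ρ := by gcongr
        _ = C₂ / C₁ * ρ ^ (M + 1) := by ring
  exact fun M => key M (hsum M)

theorem Lin_X_pow (γ : ℕ → ℂ) (j : ℕ) : Lin γ (Polynomial.X ^ j) = aa γ j := by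
  unfold Lin
  rw [Polynomial.lsum_apply, Polynomial.X_pow_eq_monomial]
  rw [Polynomial.sum_monomial_index]
  · simp
  · simp

/-- Geometric growth of `a_j = γ_j j!`.

Proof. Put `κ = kap b = 1/(2 cos b)`, `θ_N = Lin γ ((X - C κ)^N)`, and use `hrad` for
`p = (X + C κ)^M`: with `v = e^τ`,
`p.comp (v² X - v) = (v² (X - κ) + κ v² - v + κ)^M = ∑_N (M choose N) v^{2N} (κv² - v + κ)^{M-N} (X - κ)^N`.
For `v = e^{l ± ib}` one has `κ v² - v + κ = κ (1 - e^l)(1 - e^{l ± 2ib})`, of modulus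
`≤ |κ| (1 - e^{2l})`. So `∑_{N ≤ M} (M choose N) θ_N K_{M,N} + s_M = 0` where
`K_{M,N} = Rad b (v^{2N} (κv²-v+κ)^{M-N}) - Rad (-b) (same)`,
`K_{M,M} = (e^{b + 2ib(M+1)} - e^{-b - 2ib(M+1)}) / (2M + 2 - i)`, so
`|K_{M,M}| ≥ (e^b - e^{-b}) / |2M + 2 - i|`,
`(M choose N) |K_{M,N}| ≤ (e^b + e^{-b}) |κ|^{M-N} / (2 (M+1))` by `int_beta`, and
`|s_M| ≤ C (|κ| + 1)^M` (the term `τ * p.eval (-v)`).
Hence `|θ_M| ≤ C₁ ∑_{N<M} |κ|^{M-N} |θ_N| + C₂ (M+1) (|κ|+1)^M`, and by strong induction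
`|θ_M| ≤ A ρ^M` for `ρ` large (`C₁ |κ| / (ρ - |κ|) ≤ 1/2`, `(M+1)(|κ|+1)^M ≤ ρ^M`).
Finally `X^j = ((X - κ) + κ)^j` gives `|a_j| ≤ A (ρ + |κ|)^j`. -/
theorem growth_aa {b : ℝ} (hb : 0 < b) (hc : Real.cos b ≠ 0) {γ : ℕ → ℂ}
    (hrad : ∀ p : Polynomial ℂ, Rad b (polyF γ p) = Rad (-b) (polyF γ p)) :
    ∃ A Λ : ℝ, 0 < A ∧ 1 ≤ Λ ∧ ∀ j : ℕ, ‖aa γ j‖ ≤ A * Λ ^ j := by
  obtain ⟨C₁, C₂, h1, h2, hθ⟩ := theta_rec hb hc hrad
  have hg := rec_growth (abs_nonneg (kap b)) h1 h2 hθ
  set ρ : ℝ := 2 * (|kap b| + 1) * (1 + C₁) with hρ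
  have hρ1 : 1 ≤ ρ := by
    rw [hρ]
    nlinarith [abs_nonneg (kap b), mul_nonneg (abs_nonneg (kap b)) h1.le]
  refine ⟨2 * C₂, ρ + |kap b|, by positivity, by linarith [abs_nonneg (kap b)], fun j => ?_⟩
  rw [← Lin_X_pow]
  have h3 : (Polynomial.X : Polynomial ℂ) ^ j = ∑ N ∈ Finset.range (j + 1),
      ((kap b : ℂ) ^ (j - N) * (j.choose N : ℂ)) •
        (Polynomial.X - Polynomial.C (kap b : ℂ)) ^ N := by
    have h4 : (Polynomial.X : Polynomial ℂ) = (Polynomial.X - Polynomial.C (kap b : ℂ)) +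
        Polynomial.C (kap b : ℂ) := by ring
    conv_lhs => rw [h4]
    rw [add_pow]
    refine Finset.sum_congr rfl fun N _ => ?_
    rw [Polynomial.smul_eq_C_mul]
    simp only [Polynomial.C_mul, Polynomial.C_pow, map_natCast]
    ring
  rw [h3, map_sum]
  refine (norm_sum_le _ _).trans ?_
  have h5 : ∀ N ∈ Finset.range (j + 1), ‖Lin γ (((kap b : ℂ) ^ (j - N) * (j.choose N : ℂ)) •
        (Polynomial.X - Polynomial.C (kap b : ℂ)) ^ N)‖ ≤
      2 * C₂ * (ρ ^ N * |kap b| ^ (j - N) * (j.choose N : ℝ)) := by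
    intro N _
    rw [map_smul, smul_eq_mul, norm_mul, norm_mul, norm_pow, Complex.norm_natCast,
      Complex.norm_real, Real.norm_eq_abs]
    calc _ ≤ |kap b| ^ (j - N) * (j.choose N : ℝ) * (2 * C₂ * ρ ^ N) := by
          gcongr
          exact hg N
      _ = _ := by ring
  refine (Finset.sum_le_sum h5).trans ?_
  rw [← Finset.mul_sum, ← add_pow]

end Pool.Agent.Worm.SB
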