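import Mathlib
import Pool.Agent.WormS.Kern

/-!
# The relation in radial form (problem MP_3c4b73_an)
-/

open MeasureTheory Set Filter Topology Metric
open scoped Real ENNReal Interval ComplexConjugate

namespace Pool.Agent.Worm.SB

namespace RadPAux

/-- `polyF` of a monomial. -/
noncomputable def monoF (γ : ℕ → ℂ) (m : ℕ) (τ : ℂ) : ℂ :=
  (∑ j ∈ Finset.range (m + 1), (m.choose j : ℂ) * aa γ j *
    (Complex.exp (2 * τ) ^ j * (-Complex.exp τ) ^ (m - j))) + τ * (-Complex.exp τ) ^ m

theorem Lin_C_mul_X_pow (γ : ℕ → ℂ) (a : ℂ) (n : ℕ) :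
    Lin γ (Polynomial.C a * Polynomial.X ^ n) = a * aa γ n := by
  rw [Lin, Polynomial.lsum_apply, Polynomial.C_mul_X_pow_eq_monomial,
    Polynomial.sum_monomial_index]
  · simp [mul_comm]
  · simp

theorem polyF_monomial (γ : ℕ → ℂ) (m : ℕ) (a τ : ℂ) :
    polyF γ (Polynomial.monomial m a) τ = a * monoF γ m τ := by
  have h1 : (Polynomial.monomial m a).comp (Polynomial.C (Complex.exp (2 * τ)) * Polynomial.X -
      Polynomial.C (Complex.exp τ)) = ∑ j ∈ Finset.range (m + 1),
      Polynomial.C (a * (Complex.exp (2 * τ) ^ j * (-Complex.exp τ) ^ (m - j) *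
        (m.choose j : ℂ))) * Polynomial.X ^ j := by
    rw [Polynomial.monomial_comp, sub_eq_add_neg, ← Polynomial.C_neg, add_pow, Finset.mul_sum]
    apply Finset.sum_congr rfl
    intro j _
    rw [mul_pow, ← Polynomial.C_pow, ← Polynomial.C_pow]
    simp only [Polynomial.C_mul, map_natCast]
    ring
  rw [polyF, h1, map_sum, monoF]
  simp_rw [Lin_C_mul_X_pow]
  rw [Polynomial.eval_monomial, mul_add, Finset.mul_sum]
  congr 1
  · apply Finset.sum_congr rfl
    intro j _
    ring
  · ring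

theorem polyF_add (γ : ℕ → ℂ) (p p' : Polynomial ℂ) (τ : ℂ) :
    polyF γ (p + p') τ = polyF γ p τ + polyF γ p' τ := by
  unfold polyF
  rw [Polynomial.add_comp, map_add, Polynomial.eval_add]
  ring

/-- The entire function. -/
noncomputable def HH (γ : ℕ → ℂ) (m : ℕ) (τ : ℂ) : ℂ :=
  Complex.exp ((2 - Complex.I) * τ) * monoF γ m τ

theorem differentiable_HH (γ : ℕ → ℂ) (m : ℕ) : Differentiable ℂ (HH γ m) := by
  unfold HH monoF
  fun_prop

theorem norm_monoF_le (γ : ℕ → ℂ) (m : ℕ) {τ : ℂ} (h : τ.re ≤ 0) :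
    ‖monoF γ m τ‖ ≤ (∑ j ∈ Finset.range (m + 1), (m.choose j : ℝ) * ‖aa γ j‖) + ‖τ‖ := by
  have h1 : ‖Complex.exp τ‖ ≤ 1 := by
    rw [Complex.norm_exp]
    exact Real.exp_le_one_iff.2 h
  have h2 : ‖Complex.exp (2 * τ)‖ ≤ 1 := by
    rw [Complex.norm_exp]
    apply Real.exp_le_one_iff.2
    have : (2 * τ).re = 2 * τ.re := by simp
    rw [this]
    linarith
  unfold monoF
  refine (norm_add_le _ _).trans (add_le_add ?_ ?_)
  · refine (norm_sum_le _ _).trans (Finset.sum_le_sum fun j _ => ?_)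
    rw [norm_mul, norm_mul, norm_mul, norm_pow, norm_pow, norm_neg, Complex.norm_natCast]
    have h3 : ‖Complex.exp (2 * τ)‖ ^ j * ‖Complex.exp τ‖ ^ (m - j) ≤ 1 :=
      mul_le_one₀ (pow_le_one₀ (norm_nonneg _) h2) (pow_nonneg (norm_nonneg _) _)
        (pow_le_one₀ (norm_nonneg _) h1)
    exact mul_le_of_le_one_right (by positivity) h3
  · rw [norm_mul, norm_pow, norm_neg]
    exact mul_le_of_le_one_right (norm_nonneg _) (pow_le_one₀ (norm_nonneg _) h1)

theorem norm_HH_le (γ : ℕ → ℂ) (m : ℕ) {b : ℝ} (hb : 0 < b) {τ : ℂ} (h : τ.re ≤ 0)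
    (h2 : |τ.im| ≤ b) :
    ‖HH γ m τ‖ ≤ (Real.exp b * ((∑ j ∈ Finset.range (m + 1), (m.choose j : ℝ) * ‖aa γ j‖) +
      b + 1)) * Real.exp (1 * τ.re) := by
  set S : ℝ := ∑ j ∈ Finset.range (m + 1), (m.choose j : ℝ) * ‖aa γ j‖ with hS
  have hS0 : 0 ≤ S := Finset.sum_nonneg fun j _ => by positivity
  have h3 := norm_monoF_le γ m h
  rw [← hS] at h3
  unfold HH
  rw [norm_mul, Complex.norm_exp]
  have e1 : ((2 - Complex.I) * τ).re = 2 * τ.re + τ.im := by simp
  rw [e1]
  have h4 : Real.exp (2 * τ.re + τ.im) ≤ Real.exp b * (Real.exp τ.re * Real.exp τ.re) := by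
    rw [← Real.exp_add, ← Real.exp_add]
    apply Real.exp_le_exp.2
    have := le_abs_self τ.im
    linarith
  have h5 : Real.exp τ.re * (S + ‖τ‖) ≤ S + b + 1 := by
    have h6 : ‖τ‖ ≤ -τ.re + b := by
      have := Complex.norm_le_abs_re_add_abs_im τ
      rw [abs_of_nonpos h] at this
      linarith
    have h7 : Real.exp τ.re * (-τ.re) ≤ 1 := by
      have h8 := Real.add_one_le_exp (-τ.re)
      have h9 : Real.exp τ.re * Real.exp (-τ.re) = 1 := by
        rw [← Real.exp_add, add_neg_cancel, Real.exp_zero]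
      have h10 : Real.exp τ.re * (-τ.re) ≤ Real.exp τ.re * Real.exp (-τ.re) :=
        mul_le_mul_of_nonneg_left (by linarith) (Real.exp_pos _).le
      linarith
    have h8 : Real.exp τ.re ≤ 1 := Real.exp_le_one_iff.2 h
    calc Real.exp τ.re * (S + ‖τ‖) ≤ Real.exp τ.re * (S + (-τ.re + b)) :=
          mul_le_mul_of_nonneg_left (by linarith) (Real.exp_pos _).le
      _ = Real.exp τ.re * (S + b) + Real.exp τ.re * (-τ.re) := by ring
      _ ≤ 1 * (S + b) + 1 := add_le_add (mul_le_mul_of_nonneg_right h8 (by positivity)) h7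
      _ = S + b + 1 := by ring
  calc Real.exp (2 * τ.re + τ.im) * ‖monoF γ m τ‖
      ≤ (Real.exp b * (Real.exp τ.re * Real.exp τ.re)) * (S + ‖τ‖) :=
        mul_le_mul h4 h3 (norm_nonneg _) (by positivity)
    _ = Real.exp b * (Real.exp τ.re * (S + ‖τ‖)) * Real.exp τ.re := by ring
    _ ≤ Real.exp b * (S + b + 1) * Real.exp τ.re := by gcongr
    _ = _ := by rw [one_mul]

theorem HH_line (γ : ℕ → ℂ) (m : ℕ) (t : ℝ) :
    HH γ m (((0 : ℝ) : ℂ) + t * Complex.I) = (∑ j ∈ Finset.range (m + 1),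
      (m.choose j : ℂ) * aa γ j * (-1) ^ (m - j) *
        Complex.exp (t * (1 + Complex.I * ((m : ℂ) + j + 2)))) +
      (-1) ^ m * ((t * Complex.I) * Complex.exp (t * (1 + Complex.I * ((m : ℂ) + 2)))) := by
  have hI := Complex.I_mul_I
  unfold HH monoF
  rw [Complex.ofReal_zero, zero_add, mul_add, Finset.mul_sum]
  congr 1
  · apply Finset.sum_congr rfl
    intro j hj
    have hj' : j ≤ m := Nat.lt_succ_iff.1 (Finset.mem_range.1 hj)
    rw [neg_pow (Complex.exp _), ← Complex.exp_nat_mul, ← Complex.exp_nat_mul]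
    have e1 : Complex.exp (t * (1 + Complex.I * ((m : ℂ) + j + 2))) =
        Complex.exp ((2 - Complex.I) * (t * Complex.I)) *
          (Complex.exp (j * (2 * (t * Complex.I))) * Complex.exp (((m - j : ℕ) : ℂ) *
            (t * Complex.I))) := by
      rw [← Complex.exp_add, ← Complex.exp_add, Nat.cast_sub hj']
      congr 1
      linear_combination (t : ℂ) * hI
    rw [e1]
    ring
  · rw [neg_pow (Complex.exp _), ← Complex.exp_nat_mul]
    have e1 : Complex.exp (t * (1 + Complex.I * ((m : ℂ) + 2))) =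
        Complex.exp ((2 - Complex.I) * (t * Complex.I)) *
          Complex.exp ((m : ℂ) * (t * Complex.I)) := by
      rw [← Complex.exp_add]
      congr 1
      linear_combination (t : ℂ) * hI
    rw [e1]
    ring

theorem integral_HH (γ : ℕ → ℂ) (m : ℕ) {b : ℝ} (hb : 0 < b)
    (hrel : (∑ j ∈ Finset.range (m + 1), (B2.ek (m - j) : ℂ) * γ j *
      B2.mm b (1 + Complex.I * ((m : ℂ) + j + 2))) +
      (B2.ek m : ℂ) * B2.Lf b (1 + Complex.I * ((m : ℂ) + 2)) = 0) :
    ∫ θ in (-b)..b, HH γ m (((0 : ℝ) : ℂ) + θ * Complex.I) = 0 := by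
  simp_rw [HH_line]
  rw [intervalIntegral.integral_add, intervalIntegral.integral_finsetSum]
  · simp_rw [intervalIntegral.integral_const_mul]
    have e1 : ∀ p : ℂ, ∫ t in (-b)..b, Complex.exp ((t : ℂ) * p) = B2.mm b p := fun p =>
      (B2.integral_Ioo_eq_interval hb.le _).symm
    have e2 : ∀ p : ℂ, ∫ t in (-b)..b, ((t : ℂ) * Complex.I) * Complex.exp ((t : ℂ) * p) =
        B2.Lf b p := fun p => (B2.integral_Ioo_eq_interval hb.le _).symm
    simp_rw [e1]
    rw [e2]
    have e3 : ∀ j ∈ Finset.range (m + 1), (m.choose j : ℂ) * aa γ j * (-1) ^ (m - j) *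
        B2.mm b (1 + Complex.I * ((m : ℂ) + j + 2)) = (m.factorial : ℂ) *
        ((B2.ek (m - j) : ℂ) * γ j * B2.mm b (1 + Complex.I * ((m : ℂ) + j + 2))) := by
      intro j hj
      have hj' : j ≤ m := Nat.lt_succ_iff.1 (Finset.mem_range.1 hj)
      have h1 : ((m.choose j : ℕ) : ℂ) * (j.factorial : ℂ) * ((m - j).factorial : ℂ) =
          (m.factorial : ℂ) := by exact_mod_cast Nat.choose_mul_factorial_mul_factorial hj'
      have h2 : (((m - j).factorial : ℕ) : ℂ) ≠ 0 := by exact_mod_cast Nat.factorial_ne_zero _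
      unfold aa B2.ek
      push_cast
      rw [← h1]
      field_simp
    rw [Finset.sum_congr rfl e3, ← Finset.mul_sum]
    have e4 : ((-1 : ℂ)) ^ m = (m.factorial : ℂ) * (B2.ek m : ℂ) := by
      have h2 : ((m.factorial : ℕ) : ℂ) ≠ 0 := by exact_mod_cast Nat.factorial_ne_zero _
      unfold B2.ek
      push_cast
      field_simp
    rw [e4, mul_assoc, ← mul_add, hrel, mul_zero]
  · intro j _
    apply Continuous.intervalIntegrable
    fun_prop
  · apply Continuous.intervalIntegrable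
    fun_prop
  · apply Continuous.intervalIntegrable
    fun_prop

theorem integrableOn_HH (γ : ℕ → ℂ) (m : ℕ) {b : ℝ} (hb : 0 < b) {β : ℝ} (hβ : |β| ≤ b) :
    IntegrableOn (fun l : ℝ => HH γ m (l + β * Complex.I)) (Iic 0) := by
  apply B2.integrableOn_line (b := b + 1) (differentiable_HH γ m).differentiableOn
    (by linarith) (r := 1) one_pos
  intro l hl
  have := norm_HH_le γ m hb (τ := (l : ℂ) + β * Complex.I) (by simpa using hl) (by simpa using hβ)
  simpa using this

theorem Rad_monoF (γ : ℕ → ℂ) (m : ℕ) {b : ℝ} (hb : 0 < b)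
    (hrel : (∑ j ∈ Finset.range (m + 1), (B2.ek (m - j) : ℂ) * γ j *
      B2.mm b (1 + Complex.I * ((m : ℂ) + j + 2))) +
      (B2.ek m : ℂ) * B2.Lf b (1 + Complex.I * ((m : ℂ) + 2)) = 0) :
    Rad b (monoF γ m) = Rad (-b) (monoF γ m) := by
  have h1 := B2.shift (b := b + 1) (differentiable_HH γ m).differentiableOn (q := 0) (t := b)
    (by rw [abs_of_pos hb]; linarith) (r := 1) one_pos (fun τ h2 h3 =>
      norm_HH_le γ m hb h2 (by rwa [abs_of_pos hb] at h3))
  have h2 := B2.shift (b := b + 1) (differentiable_HH γ m).differentiableOn (q := 0) (t := -b)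
    (by rw [abs_neg, abs_of_pos hb]; linarith) (r := 1) one_pos (fun τ h2 h3 =>
      norm_HH_le γ m hb h2 (by rwa [abs_neg, abs_of_pos hb] at h3))
  have h3 := integral_HH γ m hb hrel
  have hc : Continuous (fun θ : ℝ => HH γ m (((0 : ℝ) : ℂ) + θ * Complex.I)) :=
    (differentiable_HH γ m).continuous.comp (by fun_prop)
  have h4 := intervalIntegral.integral_add_adjacent_intervals
    (hc.intervalIntegrable (μ := volume) (-b) 0) (hc.intervalIntegrable 0 b)
  rw [h3, intervalIntegral.integral_symm] at h4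
  have e1 : ∀ β : ℝ, Rad β (monoF γ m) = ∫ l in Iic (0 : ℝ), HH γ m (l + β * Complex.I) :=
    fun β => rfl
  rw [e1, e1, h1, h2]
  linear_combination Complex.I * h4

theorem Rad_polyF (γ : ℕ → ℂ) {b : ℝ} (hb : 0 < b) {β : ℝ} (hβ : |β| ≤ b) (p : Polynomial ℂ) :
    (IntegrableOn (fun l : ℝ => Complex.exp ((2 - Complex.I) * (l + β * Complex.I)) *
      polyF γ p (l + β * Complex.I)) (Iic 0)) ∧
    Rad β (polyF γ p) = p.sum fun m a => a * Rad β (monoF γ m) := by
  induction p using Polynomial.induction_on' with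
  | add p p' h h' =>
    have e : ∀ l : ℝ, Complex.exp ((2 - Complex.I) * (l + β * Complex.I)) *
        polyF γ (p + p') (l + β * Complex.I) =
        Complex.exp ((2 - Complex.I) * (l + β * Complex.I)) * polyF γ p (l + β * Complex.I) +
        Complex.exp ((2 - Complex.I) * (l + β * Complex.I)) * polyF γ p' (l + β * Complex.I) := by
      intro l
      rw [polyF_add, mul_add]
    constructor
    · simp_rw [e]
      exact h.1.add h'.1
    · rw [Polynomial.sum_add_index _ _ _ (fun i => by rw [zero_mul])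
        (fun i a b => by rw [add_mul]), ← h.2, ← h'.2]
      unfold Rad
      rw [← integral_add h.1 h'.1]
      congr 1
      funext l
      exact e l
  | monomial m a =>
    have e : ∀ l : ℝ, Complex.exp ((2 - Complex.I) * (l + β * Complex.I)) *
        polyF γ (Polynomial.monomial m a) (l + β * Complex.I) =
        a * HH γ m (l + β * Complex.I) := by
      intro l
      rw [polyF_monomial, HH]
      ring
    constructor
    · simp_rw [e]
      exact (integrableOn_HH γ m hb hβ).const_mul a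
    · rw [Polynomial.sum_monomial_index _ _ (by rw [zero_mul])]
      unfold Rad
      simp_rw [e]
      rw [integral_const_mul]
      rfl

end RadPAux

open RadPAux in
/-- The relation for polynomials, with radial integrals. -/
theorem rad_poly {b : ℝ} (hb : 0 < b) {γ : ℕ → ℂ}
    (hrel : ∀ m : ℕ, (∑ j ∈ Finset.range (m + 1), (B2.ek (m - j) : ℂ) * γ j *
      B2.mm b (1 + Complex.I * ((m : ℂ) + j + 2))) +
      (B2.ek m : ℂ) * B2.Lf b (1 + Complex.I * ((m : ℂ) + 2)) = 0) (p : Polynomial ℂ) :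
    Rad b (polyF γ p) = Rad (-b) (polyF γ p) := by
  rw [(Rad_polyF γ hb (β := b) (by rw [abs_of_pos hb]) p).2,
    (Rad_polyF γ hb (β := -b) (by rw [abs_neg, abs_of_pos hb]) p).2]
  congr 1
  funext m a
  rw [Rad_monoF γ m hb (hrel m)]

end Pool.Agent.Worm.SB
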