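import Mathlib
import Pool.Agent.WormS.Kern
import Pool.Agent.Worm.Br.Param

/-!
# The Volterra operator on analytic functions (problem MP_3c4b73_an)
-/

open MeasureTheory Set Filter Topology Metric
open scoped Real ENNReal Interval ComplexConjugate

namespace Pool.Agent.Worm.SB

theorem lla_continuousOn_KK {β ψ h : ℝ} (hok : Ok β ψ h) {P : ℂ} (hP : P ∈ hp ψ h) :
    ContinuousOn (fun x : ℝ => KK β x P) (Ioi 0) := by
  have hs : Continuous fun x : ℝ => sg β x P := by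
    unfold sg
    fun_prop
  have hk : Continuous kx := by
    unfold kx
    fun_prop
  have hne : ∀ x ∈ Ioi (0 : ℝ), sg β x P ≠ 0 := fun x hx => sg_ne_zero hok (le_of_lt hx) hP
  unfold KK
  refine ContinuousOn.mul ?_ (ContinuousOn.add ?_ ?_)
  · exact (continuous_const.mul ((Complex.continuous_ofReal.comp Real.continuous_exp).mul
      hk)).continuousOn
  · exact continuousOn_const.div hs.continuousOn hne
  · exact continuousOn_const.div (hs.pow 2).continuousOn fun x hx => pow_ne_zero 2 (hne x hx)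

theorem lla_continuousOn {β ψ h : ℝ} {f : ℂ → ℂ} (hok : Ok β ψ h) (hf : ContinuousOn f (hp ψ h))
    {P : ℂ} (hP : P ∈ hp ψ h) : ContinuousOn (fun x : ℝ => KK β x P * f (phi β x P)) (Ioi 0) := by
  refine (lla_continuousOn_KK hok hP).mul (hf.comp ?_ fun x hx => ?_)
  · have : Continuous (fun x : ℝ => phi β x P) := by
      unfold phi
      fun_prop
    exact this.continuousOn
  · exact phi_mem hok (le_of_lt hx) le_rfl hP

theorem lla_integrableOn_exp2 : IntegrableOn (fun x : ℝ => Real.exp (-(2 * x))) (Ioi 0) := by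
  have := integrableOn_exp_mul_Ioi (a := -2) (by norm_num) 0
  refine this.congr_fun (fun x _ => ?_) measurableSet_Ioi
  simp only
  congr 1
  ring

/-- The bound for the values of `f` along the curve. -/
theorem lla_bound_f {β ψ H δ : ℝ} {f : ℂ → ℂ} (hok : Ok β ψ H) (hb : ∀ H' > H, HB ψ H' f)
    (hδ : 0 < δ) : ∃ C : ℝ, 0 ≤ C ∧ ∀ P : ℂ, H + δ < ht ψ P → ∀ x : ℝ, 0 ≤ x →
      ‖f (phi β x P)‖ ≤ C * Real.exp (-(2 * x)) := by
  obtain ⟨M, hM⟩ := hb (H + δ) (by linarith)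
  have hM0 : 0 ≤ M := by
    obtain ⟨P, hP⟩ := nonempty_hp ψ (H + δ)
    exact le_trans (by positivity) (hM P hP)
  refine ⟨M * ((1 + |H|) / δ + 1 / δ + 1), by positivity, fun P hP x hx => ?_⟩
  have hmem : phi β x P ∈ hp ψ (H + δ) := phi_mem hok hx (by linarith) hP
  have h1 := hM _ hmem
  have hT := one_le_exp hx
  have h2 := ht_phi_ge hok hx P
  set T := Real.exp x with hTdef
  set w := ht ψ (phi β x P) with hw
  have h3 : T ^ 2 * δ ≤ w - H := by
    refine le_trans ?_ h2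
    have : δ ≤ ht ψ P - H := by linarith
    gcongr
  -- `T^2 ≤ K (1 + |w|)`
  have h4 : T ^ 2 ≤ ((1 + |H|) / δ + 1 / δ + 1) * (1 + |w|) := by
    have h5 : w ≤ |w| := le_abs_self w
    have h6 : -H ≤ |H| := neg_le_abs H
    have h7 : T ^ 2 ≤ (|w| + |H|) / δ := by
      rw [le_div_iff₀ hδ]
      linarith
    refine h7.trans ?_
    have h8 : (|w| + |H|) / δ ≤ ((1 + |H|) / δ) * (1 + |w|) := by
      rw [div_mul_eq_mul_div]
      have h9 : |w| + |H| ≤ (1 + |H|) * (1 + |w|) := by nlinarith [abs_nonneg w, abs_nonneg H]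
      gcongr
    refine h8.trans ?_
    have h10 : (1 + |H|) / δ ≤ (1 + |H|) / δ + 1 / δ + 1 := by
      have : 0 < 1 / δ := by positivity
      linarith
    have h11 : (0 : ℝ) ≤ 1 + |w| := by positivity
    gcongr
  have e : Real.exp (-(2 * x)) = (T ^ 2)⁻¹ := by
    rw [Real.exp_neg, two_mul, Real.exp_add, sq]
  rw [e, ← div_eq_mul_inv, le_div_iff₀ (by positivity)]
  have hfn : 0 ≤ ‖f (phi β x P)‖ := norm_nonneg _
  calc ‖f (phi β x P)‖ * T ^ 2
      ≤ ‖f (phi β x P)‖ * (((1 + |H|) / δ + 1 / δ + 1) * (1 + |w|)) := by gcongr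
    _ = (‖f (phi β x P)‖ * (1 + |w|)) * ((1 + |H|) / δ + 1 / δ + 1) := by ring
    _ ≤ M * ((1 + |H|) / δ + 1 / δ + 1) := by
        have : 0 ≤ (1 + |H|) / δ + 1 / δ + 1 := by positivity
        exact mul_le_mul_of_nonneg_right h1 this

/-- The bound for the integrand. -/
theorem lla_bound {β ψ H δ : ℝ} {f : ℂ → ℂ} (hok : Ok β ψ H) (hb : ∀ H' > H, HB ψ H' f)
    (hδ : 0 < δ) : ∃ C : ℝ, 0 ≤ C ∧ ∀ P : ℂ, H + δ < ht ψ P → ∀ x : ℝ, 0 ≤ x →
      ‖KK β x P * f (phi β x P)‖ ≤ C * Real.exp (-(2 * x)) := by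
  obtain ⟨C, hC0, hC⟩ := lla_bound_f hok hb hδ
  refine ⟨(1 + 1 / (2 * δ)) ^ 2 * C, by positivity, fun P hP x hx => ?_⟩
  rw [norm_mul, mul_assoc]
  exact mul_le_mul (norm_KK_le hδ hok hx hP.le) (hC P hP x hx) (norm_nonneg _) (by positivity)

/-- The integrand is integrable: `‖KK‖` is bounded (`norm_KK_le`) and `‖f (φ_x P)‖ = O(e^{-2x})` by
`ht_phi_ge` and `HB`. -/
theorem integrable_LL {β ψ H : ℝ} {f : ℂ → ℂ} (hok : Ok β ψ H) (hf : DifferentiableOn ℂ f (hp ψ H))
    (hb : ∀ H' > H, HB ψ H' f) {P : ℂ} (hP : P ∈ hp ψ H) :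
    IntegrableOn (fun x : ℝ => KK β x P * f (phi β x P)) (Ioi 0) := by
  have hd : 0 < (ht ψ P - H) / 2 := by
    have : H < ht ψ P := hP
    linarith
  obtain ⟨C, hC0, hC⟩ := lla_bound (β := β) hok hb hd
  refine (lla_integrableOn_exp2.const_mul C).mono'
    ((lla_continuousOn hok hf.continuousOn hP).aestronglyMeasurable measurableSet_Ioi) ?_
  refine (ae_restrict_mem measurableSet_Ioi).mono fun x hx => ?_
  exact hC P (by linarith) x (le_of_lt hx)

theorem differentiableOn_LL {β ψ H : ℝ} {f : ℂ → ℂ} (hok : Ok β ψ H)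
    (hf : DifferentiableOn ℂ f (hp ψ H)) (hb : ∀ H' > H, HB ψ H' f) :
    DifferentiableOn ℂ (LL β f) (hp ψ H) := by
  intro P0 hP0
  have hPH : H < ht ψ P0 := hP0
  set c : ℝ := (ht ψ P0 - H) / 2 with hcdef
  have hc : 0 < c := by
    rw [hcdef]
    linarith
  have hball : ∀ P ∈ ball P0 c, H + c < ht ψ P := by
    intro P hP
    have h1 : |ht ψ (P - P0)| ≤ ‖P - P0‖ := abs_ht_le ψ _
    rw [ht_sub] at h1
    rw [mem_ball, dist_eq_norm] at hP
    have h2 := (abs_le.1 h1).1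
    have : c = (ht ψ P0 - H) / 2 := rfl
    linarith
  have hmem : ∀ P ∈ ball P0 c, P ∈ hp ψ H := fun P hP => by
    have := hball P hP
    show H < ht ψ P
    linarith
  obtain ⟨C, hC0, hC⟩ := lla_bound (β := β) hok hb hc
  have key := Br.differentiableAt_integral (μ := volume.restrict (Ioi (0 : ℝ)))
    (f := fun P x => KK β x P * f (phi β x P)) (z0 := P0) hc (lla_integrableOn_exp2.const_mul C)
    (fun P hP => (lla_continuousOn hok hf.continuousOn (hmem P hP)).aestronglyMeasurable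
      measurableSet_Ioi)
    ((ae_restrict_mem measurableSet_Ioi).mono fun x hx => ?_)
    ((ae_restrict_mem measurableSet_Ioi).mono fun x hx P hP =>
      hC P (hball P hP) x (le_of_lt hx))
  · have h1 := hf P0 hP0
    exact (h1.add key.differentiableWithinAt)
  · have hx0 : (0 : ℝ) ≤ x := le_of_lt hx
    have h1 := (differentiableOn_KK (x := x) hok hx0).mono
      (fun P hP => hmem P hP : ball P0 c ⊆ hp ψ H)
    refine h1.mul (hf.comp (differentiable_phi β x).differentiableOn fun P hP => ?_)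
    exact phi_mem hok hx0 le_rfl (hmem P hP)

theorem norm_LL_le {β ψ H : ℝ} {f : ℂ → ℂ} (hok : Ok β ψ H) (hf : DifferentiableOn ℂ f (hp ψ H))
    (hb : ∀ H' > H, HB ψ H' f) {H' : ℝ} (hH : H < H') : ∃ C : ℝ, ∀ P ∈ hp ψ H', ‖LL β f P‖ ≤ C := by
  obtain ⟨M, hM⟩ := hb H' hH
  obtain ⟨C, hC0, hC⟩ := lla_bound (β := β) hok hb (sub_pos.2 hH)
  refine ⟨M + ∫ x in Ioi (0 : ℝ), C * Real.exp (-(2 * x)), fun P hP => ?_⟩
  have hPH : H' < ht ψ P := hP
  unfold LL
  refine (norm_add_le _ _).trans (add_le_add ?_ ?_)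
  · have h1 := hM P hP
    have h2 : 0 ≤ ‖f P‖ * |ht ψ P| := by positivity
    nlinarith
  · refine norm_integral_le_of_norm_le (lla_integrableOn_exp2.const_mul C) ?_
    refine (ae_restrict_mem measurableSet_Ioi).mono fun x hx => ?_
    exact hC P (by linarith) x (le_of_lt hx)

end Pool.Agent.Worm.SB
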