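import Mathlib
import Pool.Agent.WormS.Kern

/-!
# The Laplace transform along a ray (problem MP_3c4b73_an)
-/

open MeasureTheory Set Filter Topology Metric
open scoped Real ENNReal Interval ComplexConjugate

namespace Pool.Agent.Worm.SB

private theorem lapF_int (j : ℕ) {h : ℝ} (hh : 0 < h) :
    IntegrableOn (fun s : ℝ => s ^ j * Real.exp (-(h * s))) (Ioi 0) := by
  have h1 := integrableOn_rpow_mul_exp_neg_mul_rpow (p := 1) (s := (j : ℝ)) (b := h)
    (by have := (Nat.cast_nonneg j : (0:ℝ) ≤ j); linarith) one_pos hh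
  refine h1.congr_fun (fun s hs => ?_) measurableSet_Ioi
  simp [Real.rpow_natCast]

private theorem lapF_val (j : ℕ) {h : ℝ} (hh : 0 < h) :
    ∫ s in Ioi (0:ℝ), s ^ j * Real.exp (-(h * s)) = j.factorial / h ^ (j + 1) := by
  have h1 := Real.integral_rpow_mul_exp_neg_mul_Ioi (a := (j : ℝ) + 1) (r := h)
    (by positivity) hh
  rw [Real.Gamma_nat_eq_factorial] at h1
  have h2 : (1 / h) ^ ((j : ℝ) + 1) = 1 / h ^ (j + 1) := by
    rw [show (j : ℝ) + 1 = ((j + 1 : ℕ) : ℝ) by push_cast; ring, Real.rpow_natCast, one_div_pow]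
  rw [h2] at h1
  rw [show (j.factorial : ℝ) / h ^ (j + 1) = 1 / h ^ (j + 1) * j.factorial by ring, ← h1]
  refine setIntegral_congr_fun measurableSet_Ioi fun s hs => ?_
  simp [Real.rpow_natCast]

private theorem lapF_normC (j : ℕ) (z : ℂ) {s : ℝ} (hs : 0 < s) :
    ‖(s : ℂ) ^ j * Complex.exp (-(z * s))‖ = s ^ j * Real.exp (-(z.re * s)) := by
  rw [norm_mul, norm_pow, Complex.norm_real, Real.norm_of_nonneg hs.le, Complex.norm_exp]
  congr 2
  rw [Complex.neg_re, mul_comm z, Complex.re_ofReal_mul, mul_comm]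

private theorem lapF_intC (j : ℕ) {z : ℂ} (hz : 0 < z.re) :
    IntegrableOn (fun s : ℝ => (s : ℂ) ^ j * Complex.exp (-(z * s))) (Ioi 0) := by
  refine Integrable.mono' (lapF_int j hz) ?_ ?_
  · exact (by fun_prop : Continuous fun s : ℝ => (s : ℂ) ^ j * Complex.exp (-(z * s))).aestronglyMeasurable
  · filter_upwards [ae_restrict_mem measurableSet_Ioi] with s hs
    exact (lapF_normC j z hs).le

private theorem lapF_tend (j : ℕ) {z : ℂ} (hz : 0 < z.re) :
    Tendsto (fun s : ℝ => (s : ℂ) ^ j * Complex.exp (-(z * s))) atTop (𝓝 0) := by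
  rw [tendsto_zero_iff_norm_tendsto_zero]
  have h1 := tendsto_rpow_mul_exp_neg_mul_atTop_nhds_zero (j : ℝ) z.re hz
  refine h1.congr' ?_
  filter_upwards [eventually_gt_atTop (0 : ℝ)] with s hs
  rw [lapF_normC j z hs, Real.rpow_natCast, neg_mul]

private theorem lapF_valC (j : ℕ) {z : ℂ} (hz : 0 < z.re) :
    ∫ s in Ioi (0:ℝ), (s : ℂ) ^ j * Complex.exp (-(z * s)) = j.factorial / z ^ (j + 1) := by
  have hz0 : z ≠ 0 := by
    rintro rfl
    simp at hz
  have hde : ∀ s : ℝ, HasDerivAt (fun s : ℝ => Complex.exp (-(z * s)))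
      (-z * Complex.exp (-(z * s))) s := by
    intro s
    have h1 : HasDerivAt (fun s : ℝ => -(z * (s : ℂ))) (-(z * 1)) s :=
      ((Complex.ofRealCLM.hasDerivAt (x := s)).const_mul z).neg
    refine h1.cexp.congr_deriv ?_
    ring
  induction j with
  | zero =>
    have h1 := integral_Ioi_of_hasDerivAt_of_tendsto (a := (0 : ℝ))
      (f := fun s : ℝ => Complex.exp (-(z * s))) (f' := fun s : ℝ => -z * Complex.exp (-(z * s)))
      (m := 0) (by fun_prop) (fun s _ => hde s)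
      (by simpa [IntegrableOn] using (lapF_intC 0 hz).const_mul (-z))
      (by simpa using lapF_tend 0 hz)
    rw [integral_const_mul] at h1
    simp only [pow_zero, one_mul, Nat.factorial_zero, Nat.cast_one, zero_add, pow_one]
    rw [eq_div_iff hz0]
    simp only [Complex.ofReal_zero, mul_zero, neg_zero, Complex.exp_zero] at h1
    linear_combination -h1
  | succ j ih =>
    have hpow : ∀ s : ℝ, HasDerivAt (fun s : ℝ => (s : ℂ) ^ (j + 1)) (((j : ℂ) + 1) * (s : ℂ) ^ j) s := by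
      intro s
      have := (Complex.ofRealCLM.hasDerivAt (x := s)).pow (j + 1)
      refine this.congr_deriv ?_
      simp
    have h1 := integral_Ioi_of_hasDerivAt_of_tendsto (a := (0 : ℝ))
      (f := fun s : ℝ => (s : ℂ) ^ (j + 1) * Complex.exp (-(z * s)))
      (f' := fun s : ℝ => ((j : ℂ) + 1) * ((s : ℂ) ^ j * Complex.exp (-(z * s))) -
        z * ((s : ℂ) ^ (j + 1) * Complex.exp (-(z * s))))
      (m := 0) (by fun_prop)
      (fun s _ => ((hpow s).mul (hde s)).congr_deriv (by ring))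
      (((lapF_intC j hz).const_mul _).sub ((lapF_intC (j + 1) hz).const_mul z))
      (lapF_tend (j + 1) hz)
    rw [integral_sub ((lapF_intC j hz).const_mul _) ((lapF_intC (j + 1) hz).const_mul z),
      integral_const_mul, integral_const_mul, ih] at h1
    simp only [Complex.ofReal_zero, ne_eq, Nat.add_eq_zero_iff, one_ne_zero, and_false,
      not_false_eq_true, zero_pow, zero_mul, sub_zero] at h1
    rw [eq_div_iff (pow_ne_zero _ hz0), Nat.factorial_succ]
    push_cast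
    have h2 : ∫ s in Ioi (0:ℝ), (s : ℂ) ^ (j + 1) * Complex.exp (-(z * s)) =
        ((j : ℂ) + 1) * (j.factorial / z ^ (j + 1)) / z := by
      rw [eq_div_iff hz0]
      linear_combination -h1
    rw [h2]
    field_simp
    ring

private theorem lapF_nk (Φ : ℂ → ℂ) (α : ℝ) (P : ℂ) (j : ℕ) {s : ℝ} (hs : 0 < s) :
    ‖Complex.exp (α * Complex.I) * (s * Complex.exp (α * Complex.I)) ^ j *
      Φ (s * Complex.exp (α * Complex.I)) *
      Complex.exp (-(P * (s * Complex.exp (α * Complex.I))))‖ =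
    s ^ j * ‖Φ (s * Complex.exp (α * Complex.I))‖ * Real.exp (-(ht α P * s)) := by
  rw [norm_mul, norm_mul, norm_mul, norm_pow, norm_mul, norm_dir, Complex.norm_real,
    Real.norm_of_nonneg hs.le, Complex.norm_exp, one_mul, mul_one]
  congr 2
  unfold ht
  rw [Complex.neg_re, show P * (s * Complex.exp (α * Complex.I)) =
    (s : ℂ) * (Complex.exp (α * Complex.I) * P) by ring, Complex.re_ofReal_mul]
  ring

private theorem lapF_le {Φ : ℂ → ℂ} {α a C : ℝ}
    (hC : ∀ s : ℝ, 0 < s → ‖Φ (s * Complex.exp (α * Complex.I))‖ ≤ C * Real.exp (a * s))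
    (P : ℂ) (j : ℕ) {s : ℝ} (hs : 0 < s) :
    ‖Complex.exp (α * Complex.I) * (s * Complex.exp (α * Complex.I)) ^ j *
      Φ (s * Complex.exp (α * Complex.I)) *
      Complex.exp (-(P * (s * Complex.exp (α * Complex.I))))‖ ≤
    C * (s ^ j * Real.exp (-((ht α P - a) * s))) := by
  rw [lapF_nk Φ α P j hs]
  have h1 := hC s hs
  calc s ^ j * ‖Φ (s * Complex.exp (α * Complex.I))‖ * Real.exp (-(ht α P * s))
      ≤ s ^ j * (C * Real.exp (a * s)) * Real.exp (-(ht α P * s)) := by gcongr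
    _ = C * (s ^ j * (Real.exp (a * s) * Real.exp (-(ht α P * s)))) := by ring
    _ = C * (s ^ j * Real.exp (-((ht α P - a) * s))) := by
        rw [← Real.exp_add]
        ring_nf

private theorem lapF_meas {Φ : ℂ → ℂ} {α a : ℝ} (h : Ray Φ α a) (P : ℂ) (j : ℕ) :
    AEStronglyMeasurable (fun s : ℝ => Complex.exp (α * Complex.I) *
      (s * Complex.exp (α * Complex.I)) ^ j * Φ (s * Complex.exp (α * Complex.I)) *
      Complex.exp (-(P * (s * Complex.exp (α * Complex.I))))) (volume.restrict (Ioi 0)) := by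
  refine ContinuousOn.aestronglyMeasurable ?_ measurableSet_Ioi
  have h1 : ContinuousOn (fun s : ℝ => Complex.exp (α * Complex.I) *
      ((s : ℂ) * Complex.exp (α * Complex.I)) ^ j) (Ioi 0) :=
    (by fun_prop : Continuous fun s : ℝ => Complex.exp (α * Complex.I) *
      ((s : ℂ) * Complex.exp (α * Complex.I)) ^ j).continuousOn
  have h2 : ContinuousOn (fun s : ℝ =>
      Complex.exp (-(P * (s * Complex.exp (α * Complex.I))))) (Ioi 0) :=
    (by fun_prop : Continuous fun s : ℝ =>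
      Complex.exp (-(P * (s * Complex.exp (α * Complex.I))))).continuousOn
  exact (h1.mul h.cont).mul h2

private theorem lapF_intg {Φ : ℂ → ℂ} {α a : ℝ} (h : Ray Φ α a) {P : ℂ} (hP : a < ht α P)
    (j : ℕ) : IntegrableOn (fun s : ℝ => Complex.exp (α * Complex.I) *
      (s * Complex.exp (α * Complex.I)) ^ j * Φ (s * Complex.exp (α * Complex.I)) *
      Complex.exp (-(P * (s * Complex.exp (α * Complex.I))))) (Ioi 0) := by
  obtain ⟨C, hC⟩ := h.bound
  refine Integrable.mono' ((lapF_int j (sub_pos.2 hP)).const_mul C) (lapF_meas h P j) ?_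
  filter_upwards [ae_restrict_mem measurableSet_Ioi] with s hs
  exact lapF_le hC P j hs

private theorem lapF_norm {Φ : ℂ → ℂ} {α a C : ℝ}
    (hC : ∀ s : ℝ, 0 < s → ‖Φ (s * Complex.exp (α * Complex.I))‖ ≤ C * Real.exp (a * s))
    {P : ℂ} (hP : a < ht α P) (j : ℕ) :
    ‖∫ s in Ioi (0:ℝ), Complex.exp (α * Complex.I) *
      (s * Complex.exp (α * Complex.I)) ^ j * Φ (s * Complex.exp (α * Complex.I)) *
      Complex.exp (-(P * (s * Complex.exp (α * Complex.I))))‖ ≤
      C * (j.factorial / (ht α P - a) ^ (j + 1)) := by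
  rw [← lapF_val j (sub_pos.2 hP), ← integral_const_mul]
  refine norm_integral_le_of_norm_le ((lapF_int j (sub_pos.2 hP)).const_mul C) ?_
  filter_upwards [ae_restrict_mem measurableSet_Ioi] with s hs
  exact lapF_le hC P j hs

private theorem lapF_Lap (Φ : ℂ → ℂ) (α : ℝ) (P : ℂ) :
    Lap Φ α P = ∫ s in Ioi (0:ℝ), Complex.exp (α * Complex.I) *
      (s * Complex.exp (α * Complex.I)) ^ 0 * Φ (s * Complex.exp (α * Complex.I)) *
      Complex.exp (-(P * (s * Complex.exp (α * Complex.I)))) := by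
  unfold Lap
  simp only [pow_zero, mul_one]

private theorem lapF_DLap (Φ : ℂ → ℂ) (α : ℝ) (P : ℂ) :
    DLap Φ α P = ∫ s in Ioi (0:ℝ), Complex.exp (α * Complex.I) *
      (s * Complex.exp (α * Complex.I)) ^ 1 * Φ (s * Complex.exp (α * Complex.I)) *
      Complex.exp (-(P * (s * Complex.exp (α * Complex.I)))) := by
  unfold DLap
  simp only [pow_one]

theorem hasDerivAt_Lap {Φ : ℂ → ℂ} {α a : ℝ} (h : Ray Φ α a) {P : ℂ} (hP : a < ht α P) :
    HasDerivAt (Lap Φ α) (-DLap Φ α P) P := by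
  obtain ⟨C, hC⟩ := h.bound
  set δ : ℝ := (ht α P - a) / 2 with hδ
  have hδ0 : 0 < δ := by rw [hδ]; linarith
  have hC0 : 0 ≤ C := by
    have h1 := (norm_nonneg _).trans (hC 1 one_pos)
    by_contra h2
    push Not at h2
    have := mul_neg_of_neg_of_pos h2 (Real.exp_pos (a * 1))
    linarith
  have hball : ∀ Q ∈ ball P δ, a + δ ≤ ht α Q := by
    intro Q hQ
    have h1 := ht_le α (P - Q)
    rw [ht_sub] at h1
    rw [mem_ball, dist_comm, dist_eq_norm] at hQ
    linarith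
  have key := hasDerivAt_integral_of_dominated_loc_of_deriv_le (μ := volume.restrict (Ioi (0:ℝ)))
    (F := fun (Q : ℂ) (s : ℝ) => Complex.exp (α * Complex.I) *
      (s * Complex.exp (α * Complex.I)) ^ 0 * Φ (s * Complex.exp (α * Complex.I)) *
      Complex.exp (-(Q * (s * Complex.exp (α * Complex.I)))))
    (F' := fun (Q : ℂ) (s : ℝ) => -(Complex.exp (α * Complex.I) *
      (s * Complex.exp (α * Complex.I)) ^ 1 * Φ (s * Complex.exp (α * Complex.I)) *
      Complex.exp (-(Q * (s * Complex.exp (α * Complex.I))))))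
    (bound := fun s => C * (s ^ 1 * Real.exp (-(δ * s)))) (x₀ := P) (s := ball P δ)
    (ball_mem_nhds P hδ0)
    (Filter.Eventually.of_forall fun Q => lapF_meas h Q 0) (lapF_intg h hP 0)
    (lapF_meas h P 1).neg ?_ ((lapF_int 1 hδ0).const_mul C) ?_
  · have h1 := key.2
    rw [integral_neg] at h1
    rw [lapF_DLap]
    refine h1.congr_of_eventuallyEq (Filter.Eventually.of_forall fun Q => ?_)
    exact lapF_Lap Φ α Q
  · filter_upwards [ae_restrict_mem measurableSet_Ioi] with s hs Q hQ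
    rw [norm_neg]
    refine (lapF_le hC Q 1 hs).trans ?_
    have h1 := hball Q hQ
    have hs0 : (0:ℝ) < s := hs
    have h2 : δ ≤ ht α Q - a := by linarith
    gcongr
  · filter_upwards [ae_restrict_mem measurableSet_Ioi] with s hs Q hQ
    have h1 : HasDerivAt (fun Q : ℂ => -(Q * ((s : ℂ) * Complex.exp (α * Complex.I))))
        (-(1 * ((s : ℂ) * Complex.exp (α * Complex.I)))) Q :=
      ((hasDerivAt_id Q).mul_const _).neg
    refine (h1.cexp.const_mul _).congr_deriv ?_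
    ring

theorem differentiableOn_Lap {Φ : ℂ → ℂ} {α a : ℝ} (h : Ray Φ α a) :
    DifferentiableOn ℂ (Lap Φ α) (hp α a) := fun _ hP =>
  (hasDerivAt_Lap h hP).differentiableAt.differentiableWithinAt

private theorem lapF_C0 {Φ : ℂ → ℂ} {α a C : ℝ}
    (hC : ∀ s : ℝ, 0 < s → ‖Φ (s * Complex.exp (α * Complex.I))‖ ≤ C * Real.exp (a * s)) :
    0 ≤ C := by
  have h1 := (norm_nonneg _).trans (hC 1 one_pos)
  by_contra h2
  push Not at h2
  have := mul_neg_of_neg_of_pos h2 (Real.exp_pos (a * 1))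
  linarith

/-- The bounds by the height above `a`. -/
theorem norm_Lap_le {Φ : ℂ → ℂ} {α a : ℝ} (h : Ray Φ α a) : ∃ C : ℝ, 0 ≤ C ∧ ∀ P ∈ hp α a,
    ‖Lap Φ α P‖ ≤ C / (ht α P - a) ∧ ‖DLap Φ α P‖ ≤ C / (ht α P - a) ^ 2 := by
  obtain ⟨C, hC⟩ := h.bound
  refine ⟨C, lapF_C0 hC, fun P hP => ⟨?_, ?_⟩⟩
  · rw [lapF_Lap]
    refine (lapF_norm hC hP 0).trans (le_of_eq ?_)
    simp [div_eq_mul_inv]
  · rw [lapF_DLap]
    refine (lapF_norm hC hP 1).trans (le_of_eq ?_)
    simp [div_eq_mul_inv]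

/-- Hence `HB` on every smaller half-plane. -/
theorem HB_Lap {Φ : ℂ → ℂ} {α a H : ℝ} (h : Ray Φ α a) (hH : a < H) : HB α H (Lap Φ α) := by
  obtain ⟨C, hC0, hC⟩ := norm_Lap_le h
  refine ⟨C * (1 + (1 + |a|) / (H - a)), fun P hP => ?_⟩
  have hP' : H < ht α P := hP
  have hPa : P ∈ hp α a := hH.trans hP'
  have h1 := (hC P hPa).1
  have hd : 0 < H - a := sub_pos.2 hH
  have he : 0 < ht α P - a := by linarith
  have h2 : 1 + |ht α P| ≤ (ht α P - a) * (1 + (1 + |a|) / (H - a)) := by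
    have h3 : |ht α P| ≤ (ht α P - a) + |a| := by
      have := abs_add_le (ht α P - a) a
      rw [sub_add_cancel, abs_of_pos he] at this
      exact this
    have h4 : 1 + |a| ≤ (ht α P - a) * ((1 + |a|) / (H - a)) := by
      rw [← mul_div_assoc, le_div_iff₀ hd]
      have : (0:ℝ) ≤ 1 + |a| := by positivity
      nlinarith
    linarith
  calc ‖Lap Φ α P‖ * (1 + |ht α P|)
      ≤ (C / (ht α P - a)) * ((ht α P - a) * (1 + (1 + |a|) / (H - a))) := by
        gcongr
    _ = C * (1 + (1 + |a|) / (H - a)) := by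
        field_simp

private theorem lapF_tle {γ : ℕ → ℂ} {A Λ : ℝ} (hA : ∀ j : ℕ, ‖aa γ j‖ ≤ A * Λ ^ j)
    {r : ℝ} (hr : 0 < r) {P : ℂ} (hP : r ≤ ‖P‖) (hA0 : 0 ≤ A) (hΛ0 : 0 ≤ Λ) (j : ℕ) :
    ‖aa γ j / P ^ (j + 1)‖ ≤ A / r * (Λ / r) ^ j := by
  rw [norm_div, norm_pow]
  calc ‖aa γ j‖ / ‖P‖ ^ (j + 1) ≤ (A * Λ ^ j) / r ^ (j + 1) := by
        gcongr
        exact hA j
    _ = A / r * (Λ / r) ^ j := by
        rw [div_pow, pow_succ]
        field_simp

private theorem lapF_A0 {γ : ℕ → ℂ} {A Λ : ℝ} (hA : ∀ j : ℕ, ‖aa γ j‖ ≤ A * Λ ^ j) : 0 ≤ A := by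
  simpa using (norm_nonneg _).trans (hA 0)

/-- `f0` near infinity. -/
theorem differentiableOn_f0 {γ : ℕ → ℂ} {A Λ : ℝ} (hΛ : 1 ≤ Λ)
    (hA : ∀ j : ℕ, ‖aa γ j‖ ≤ A * Λ ^ j) : DifferentiableOn ℂ (f0 γ) {P | Λ < ‖P‖} := by
  intro P hP
  obtain ⟨r, hr1, hr2⟩ := exists_between (show Λ < ‖P‖ from hP)
  have hr0 : 0 < r := by linarith
  have hA0 := lapF_A0 hA
  have hU : IsOpen {Q : ℂ | r < ‖Q‖} := isOpen_lt continuous_const continuous_norm
  have h1 : DifferentiableOn ℂ (fun Q : ℂ => ∑' j : ℕ, aa γ j / Q ^ (j + 1)) {Q : ℂ | r < ‖Q‖} := by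
    refine Complex.differentiableOn_tsum_of_summable_norm (u := fun j => A / r * (Λ / r) ^ j) ?_ ?_ hU ?_
    · refine (summable_geometric_of_lt_one (by positivity) ?_).mul_left _
      rw [div_lt_one hr0]
      exact hr1
    · intro j Q hQ
      have hQ0 : Q ≠ 0 := by
        rintro rfl
        have : r < ‖(0:ℂ)‖ := hQ
        rw [norm_zero] at this
        linarith
      refine DifferentiableAt.differentiableWithinAt ?_
      exact (differentiableAt_const _).div (differentiableAt_id.pow _) (pow_ne_zero _ hQ0)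
    · intro j Q hQ
      exact lapF_tle hA hr0 (le_of_lt hQ) hA0 (by linarith) j
  exact (h1.differentiableAt (hU.mem_nhds hr2)).differentiableWithinAt

theorem norm_f0_le {γ : ℕ → ℂ} {A Λ : ℝ} (hΛ : 1 ≤ Λ) (hA : ∀ j : ℕ, ‖aa γ j‖ ≤ A * Λ ^ j)
    {P : ℂ} (hP : Λ < ‖P‖) : ‖f0 γ P‖ ≤ A / (‖P‖ - Λ) := by
  have hr0 : 0 < ‖P‖ := by linarith
  have hA0 := lapF_A0 hA
  have hlt : Λ / ‖P‖ < 1 := by
    rw [div_lt_one hr0]
    exact hP
  have hnn : 0 ≤ Λ / ‖P‖ := by positivity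
  have h1 : HasSum (fun j : ℕ => A / ‖P‖ * (Λ / ‖P‖) ^ j) (A / ‖P‖ * (1 - Λ / ‖P‖)⁻¹) :=
    (hasSum_geometric_of_lt_one hnn hlt).mul_left _
  have h2 : ‖f0 γ P‖ ≤ A / ‖P‖ * (1 - Λ / ‖P‖)⁻¹ :=
    tsum_of_norm_bounded h1 fun j => lapF_tle hA hr0 le_rfl hA0 (by linarith) j
  refine h2.trans (le_of_eq ?_)
  have h3 : ‖P‖ - Λ ≠ 0 := by linarith
  have h4 : 1 - Λ / ‖P‖ ≠ 0 := by linarith
  field_simp

/-- Termwise integration: `∫_0^∞ e^{iα} γ_j (s e^{iα})^j e^{-P s e^{iα}} ds = a_j / P^{j+1}`. -/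
theorem Lap_eq_f0 {γ : ℕ → ℂ} {A Λ : ℝ} (hΛ : 1 ≤ Λ) (hA : ∀ j : ℕ, ‖aa γ j‖ ≤ A * Λ ^ j)
    {α : ℝ} {P : ℂ} (hP : Λ < ht α P) : Lap (Phi γ) α P = f0 γ P := by
  have hA0 := lapF_A0 hA
  have hh : 0 < ht α P := by linarith
  have hP0 : P ≠ 0 := by
    rintro rfl
    simp [ht] at hh
  set e : ℂ := Complex.exp (α * Complex.I) with he
  have he0 : e ≠ 0 := Complex.exp_ne_zero _
  have hen : ‖e‖ = 1 := norm_dir α
  have hre : 0 < (P * e).re := by
    have : (P * e).re = ht α P := by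
      unfold ht
      rw [mul_comm]
    rw [this]
    exact hh
  have hreq : (P * e).re = ht α P := by
    unfold ht
    rw [mul_comm]
  have h1 : ∀ j : ℕ, IntegrableOn (fun s : ℝ => γ j * e ^ (j + 1) *
      ((s : ℂ) ^ j * Complex.exp (-(P * e * s)))) (Ioi 0) := fun j =>
    (lapF_intC j hre).const_mul _
  have h2 : ∀ j : ℕ, ∫ s in Ioi (0:ℝ), ‖γ j * e ^ (j + 1) *
      ((s : ℂ) ^ j * Complex.exp (-(P * e * s)))‖ = ‖aa γ j‖ / (ht α P) ^ (j + 1) := by
    intro j
    have h3 : ∫ s in Ioi (0:ℝ), ‖γ j * e ^ (j + 1) *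
      ((s : ℂ) ^ j * Complex.exp (-(P * e * s)))‖ = ∫ s in Ioi (0:ℝ), ‖γ j‖ *
        (s ^ j * Real.exp (-(ht α P * s))) := by
      refine setIntegral_congr_fun measurableSet_Ioi fun s hs => ?_
      rw [norm_mul, norm_mul, norm_pow, hen, one_pow, mul_one, lapF_normC j (P * e) hs, hreq]
    rw [h3, integral_const_mul, lapF_val j hh]
    unfold aa
    rw [norm_mul, Complex.norm_natCast]
    ring
  have h3 : Summable fun j : ℕ => ∫ s in Ioi (0:ℝ), ‖γ j * e ^ (j + 1) *
      ((s : ℂ) ^ j * Complex.exp (-(P * e * s)))‖ := by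
    simp_rw [h2]
    refine Summable.of_nonneg_of_le (fun j => by positivity) (fun j => ?_)
      ((summable_geometric_of_lt_one (r := Λ / ht α P) (by positivity)
        ((div_lt_one hh).2 hP)).mul_left (A / ht α P))
    calc ‖aa γ j‖ / ht α P ^ (j + 1) ≤ (A * Λ ^ j) / ht α P ^ (j + 1) := by
          gcongr
          exact hA j
      _ = A / ht α P * (Λ / ht α P) ^ j := by
          rw [div_pow, pow_succ]
          field_simp
  have h4 := integral_tsum_of_summable_integral_norm h1 h3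
  have h5 : ∀ j : ℕ, ∫ s in Ioi (0:ℝ), γ j * e ^ (j + 1) *
      ((s : ℂ) ^ j * Complex.exp (-(P * e * s))) = aa γ j / P ^ (j + 1) := by
    intro j
    rw [integral_const_mul, lapF_valC j hre, mul_pow]
    unfold aa
    field_simp
  simp_rw [h5] at h4
  unfold f0
  rw [h4]
  unfold Lap
  refine setIntegral_congr_fun measurableSet_Ioi fun s hs => ?_
  unfold Phi
  rw [← he, ← tsum_mul_left, ← tsum_mul_right]
  refine tsum_congr fun j => ?_
  rw [show P * (s * e) = P * e * s by ring]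
  ring

end Pool.Agent.Worm.SB
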