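import Mathlib
import Pool.Agent.WormS.Kern
import Pool.Agent.Worm.Br.Param

/-!
# The source (problem MP_3c4b73_an)
-/

open MeasureTheory Set Filter Topology Metric
open scoped Real ENNReal Interval ComplexConjugate

namespace Pool.Agent.Worm.SB

theorem src_ok {β ψ H : ℝ} (h0 : 0 ≤ H) (hε : ht ψ (ep β) ≤ H) : Ok β ψ H := by
  refine ⟨hε, ?_⟩
  rcases le_total 0 (ht ψ (ep β)) with h | h <;> linarith

/-- The integrand of the source. -/
noncomputable def src_I (β : ℝ) (P : ℂ) (x : ℝ) : ℂ :=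
  (Real.exp x : ℂ) ^ 2 * kx x * ((β * Complex.I - x) / (phi β x P) ^ 2)

theorem src_continuous_kx : Continuous kx := by
  unfold kx
  fun_prop

theorem src_continuous_phi (β : ℝ) (P : ℂ) : Continuous (fun x : ℝ => phi β x P) := by
  unfold phi
  fun_prop

theorem src_continuousOn {β : ℝ} {P : ℂ} (hne : ∀ x : ℝ, 0 < x → phi β x P ≠ 0) :
    ContinuousOn (src_I β P) (Ioi 0) := by
  unfold src_I
  refine ContinuousOn.mul ?_ (ContinuousOn.div ?_ ?_ ?_)
  · exact (((Complex.continuous_ofReal.comp Real.continuous_exp).pow 2).mul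
      src_continuous_kx).continuousOn
  · exact (continuous_const.sub Complex.continuous_ofReal).continuousOn
  · exact ((src_continuous_phi β P).pow 2).continuousOn
  · intro x hx
    exact pow_ne_zero 2 (hne x hx)

/-- The integral that dominates. -/
theorem src_integrableOn_dom (β : ℝ) : IntegrableOn (fun x : ℝ => (|β| + x) * Real.exp (-(2 * x)))
    (Ioi 0) := by
  have h1 : IntegrableOn (fun x : ℝ => Real.exp (-(2 * x))) (Ioi 0) := by
    have := integrableOn_exp_mul_Ioi (a := -2) (by norm_num) 0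
    refine this.congr_fun (fun x _ => ?_) measurableSet_Ioi
    simp only
    congr 1
    ring
  have h2 : IntegrableOn (fun x : ℝ => x * Real.exp (-(2 * x))) (Ioi 0) := by
    have h3 : IntegrableOn (fun x : ℝ => Real.exp (-x)) (Ioi 0) := by
      have := integrableOn_exp_mul_Ioi (a := -1) (by norm_num) 0
      refine this.congr_fun (fun x _ => ?_) measurableSet_Ioi
      simp only
      congr 1
      ring
    refine h3.mono' (by fun_prop) ?_
    refine (ae_restrict_mem measurableSet_Ioi).mono fun x hx => ?_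
    have hx0 : (0 : ℝ) < x := hx
    rw [Real.norm_of_nonneg (by positivity)]
    have h4 : x ≤ Real.exp x := by linarith [Real.add_one_le_exp x]
    calc x * Real.exp (-(2 * x)) ≤ Real.exp x * Real.exp (-(2 * x)) := by gcongr
      _ = Real.exp (-x) := by rw [← Real.exp_add]; congr 1; ring
  have h5 : IntegrableOn (fun x : ℝ => |β| * Real.exp (-(2 * x)) + x * Real.exp (-(2 * x)))
      (Ioi 0) := (h1.const_mul |β|).add h2
  refine h5.congr_fun (fun x _ => ?_) measurableSet_Ioi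
  simp only
  ring

theorem src_norm_le {β x c : ℝ} {P : ℂ} (hx : 0 ≤ x) (hc : 0 < c)
    (h : Real.exp x ^ 2 * c ≤ ‖phi β x P‖) :
    ‖src_I β P x‖ ≤ (|β| + x) * Real.exp (-(2 * x)) / c ^ 2 := by
  have hT : 0 < Real.exp x := Real.exp_pos x
  have hpos : 0 < Real.exp x ^ 2 * c := by positivity
  have hφ : 0 < ‖phi β x P‖ := hpos.trans_le h
  have h1 : ‖(β * Complex.I - x : ℂ)‖ ≤ |β| + x := by
    refine (norm_sub_le _ _).trans ?_
    rw [norm_mul, Complex.norm_I, mul_one, Complex.norm_real, Complex.norm_real,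
      Real.norm_eq_abs, Real.norm_of_nonneg hx]
  unfold src_I
  rw [norm_mul, norm_mul, norm_kx, mul_one, norm_pow, Complex.norm_real,
    Real.norm_of_nonneg hT.le, norm_div, norm_pow]
  have h2 : ‖(β * Complex.I - x : ℂ)‖ / ‖phi β x P‖ ^ 2 ≤ (|β| + x) / (Real.exp x ^ 2 * c) ^ 2 := by
    have h3 : (Real.exp x ^ 2 * c) ^ 2 ≤ ‖phi β x P‖ ^ 2 := by gcongr
    exact div_le_div₀ (by positivity) h1 (by positivity) h3
  calc Real.exp x ^ 2 * (‖(β * Complex.I - x : ℂ)‖ / ‖phi β x P‖ ^ 2)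
      ≤ Real.exp x ^ 2 * ((|β| + x) / (Real.exp x ^ 2 * c) ^ 2) := by gcongr
    _ = (|β| + x) * Real.exp (-(2 * x)) / c ^ 2 := by
        have e : Real.exp (-(2 * x)) = (Real.exp x ^ 2)⁻¹ := by
          rw [Real.exp_neg, two_mul, Real.exp_add, sq]
        rw [e]
        field_simp

theorem src_phi_ge {β ψ H : ℝ} (h0 : 0 ≤ H) (hε : ht ψ (ep β) ≤ H) {P : ℂ} {x : ℝ} (hx : 0 ≤ x) :
    Real.exp x ^ 2 * (ht ψ P - H) ≤ ‖phi β x P‖ := by
  have h1 := ht_phi_ge (src_ok h0 hε) hx P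
  have h2 := ht_le ψ (phi β x P)
  linarith

/-- The integrand of the source is integrable.
`|φ_x(P)| ≥ ht (φ_x P) ≥ H + e^{2x} (ht P - H)` (`ht_phi_ge`, `Ok β ψ H` holds because `0 ≤ H`). -/
theorem integrable_src {β ψ H : ℝ} (h0 : 0 ≤ H) (hε : ht ψ (ep β) ≤ H) {P : ℂ}
    (hP : P ∈ hp ψ H) : IntegrableOn (fun x : ℝ => (Real.exp x : ℂ) ^ 2 * kx x *
      ((β * Complex.I - x) / (phi β x P) ^ 2)) (Ioi 0) := by
  have hc : 0 < ht ψ P - H := sub_pos.2 hP
  have hge : ∀ x : ℝ, 0 < x → Real.exp x ^ 2 * (ht ψ P - H) ≤ ‖phi β x P‖ := fun x hx =>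
    src_phi_ge h0 hε hx.le
  have hne : ∀ x : ℝ, 0 < x → phi β x P ≠ 0 := fun x hx => by
    refine norm_pos_iff.1 (lt_of_lt_of_le ?_ (hge x hx))
    have := Real.exp_pos x
    positivity
  refine ((src_integrableOn_dom β).div_const ((ht ψ P - H) ^ 2)).mono'
    ((src_continuousOn hne).aestronglyMeasurable measurableSet_Ioi) ?_
  refine (ae_restrict_mem measurableSet_Ioi).mono fun x hx => ?_
  exact src_norm_le (le_of_lt hx) hc (hge x hx)

theorem differentiableOn_src {β ψ H : ℝ} (h0 : 0 ≤ H) (hε : ht ψ (ep β) ≤ H) :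
    DifferentiableOn ℂ (src β) (hp ψ H) := by
  intro P0 hP0
  have hd : 0 < ht ψ P0 - H := sub_pos.2 hP0
  set c : ℝ := (ht ψ P0 - H) / 2 with hcdef
  have hc : 0 < c := by positivity
  -- on the ball of radius `c` the height is at least `H + c`
  have hball : ∀ P ∈ ball P0 c, c ≤ ht ψ P - H := by
    intro P hP
    have h1 : |ht ψ (P - P0)| ≤ ‖P - P0‖ := abs_ht_le ψ _
    rw [ht_sub] at h1
    rw [mem_ball, dist_eq_norm] at hP
    have h2 := (abs_le.1 h1).1
    have : c = (ht ψ P0 - H) / 2 := rfl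
    linarith
  have hge : ∀ P ∈ ball P0 c, ∀ x : ℝ, 0 < x → Real.exp x ^ 2 * c ≤ ‖phi β x P‖ := by
    intro P hP x hx
    refine le_trans ?_ (src_phi_ge h0 hε hx.le)
    have := Real.exp_pos x
    exact mul_le_mul_of_nonneg_left (hball P hP) (by positivity)
  have hne : ∀ P ∈ ball P0 c, ∀ x : ℝ, 0 < x → phi β x P ≠ 0 := fun P hP x hx => by
    refine norm_pos_iff.1 (lt_of_lt_of_le ?_ (hge P hP x hx))
    have := Real.exp_pos x
    positivity
  have key := Br.differentiableAt_integral (μ := volume.restrict (Ioi (0 : ℝ)))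
    (f := src_I β) (z0 := P0) hc ((src_integrableOn_dom β).div_const (c ^ 2))
    (fun P hP => (src_continuousOn (hne P hP)).aestronglyMeasurable measurableSet_Ioi)
    ((ae_restrict_mem measurableSet_Ioi).mono fun x hx => ?_)
    ((ae_restrict_mem measurableSet_Ioi).mono fun x hx P hP =>
      src_norm_le (le_of_lt hx) hc (hge P hP x hx))
  · exact key.differentiableWithinAt
  · unfold src_I
    refine DifferentiableOn.const_mul ?_ _
    refine (differentiableOn_const _).div ?_ fun P hP => pow_ne_zero 2 (hne P hP x hx)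
    exact ((differentiable_phi β x).differentiableOn).pow 2

/-- For `|P| ≥ 2` use `norm_phi_ge`: `|φ_x(P)| ≥ e^{2x} |P| / 2`. -/
theorem norm_src_le {β ψ H H' : ℝ} (h0 : 0 ≤ H) (hε : ht ψ (ep β) ≤ H) (hH : H < H') :
    ∃ C : ℝ, ∀ P ∈ hp ψ H', ‖src β P‖ * (1 + ‖P‖) ≤ C := by
  set J : ℝ := ∫ x in Ioi (0 : ℝ), (|β| + x) * Real.exp (-(2 * x)) with hJ
  have hJ0 : 0 ≤ J := by
    refine setIntegral_nonneg measurableSet_Ioi fun x hx => ?_
    have : (0 : ℝ) < x := hx
    positivity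
  have main : ∀ (c : ℝ) (P : ℂ), 0 < c → (∀ x : ℝ, 0 < x → Real.exp x ^ 2 * c ≤ ‖phi β x P‖) →
      ‖src β P‖ ≤ J / c ^ 2 := by
    intro c P hc h
    have h1 : ‖∫ x in Ioi (0 : ℝ), src_I β P x‖ ≤
        ∫ x in Ioi (0 : ℝ), (|β| + x) * Real.exp (-(2 * x)) / c ^ 2 := by
      refine norm_integral_le_of_norm_le ((src_integrableOn_dom β).div_const (c ^ 2)) ?_
      refine (ae_restrict_mem measurableSet_Ioi).mono fun x hx => ?_
      exact src_norm_le (le_of_lt hx) hc (h x hx)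
    rw [integral_div] at h1
    exact h1
  have hd : 0 < H' - H := sub_pos.2 hH
  refine ⟨J / (H' - H) ^ 2 * 3 + 6 * J, fun P hP => ?_⟩
  have hPH : H' < ht ψ P := hP
  rcases le_total ‖P‖ 2 with h2 | h2
  · have h3 : ‖src β P‖ ≤ J / (H' - H) ^ 2 := by
      refine main _ P hd fun x hx => ?_
      refine le_trans ?_ (src_phi_ge h0 hε hx.le)
      have := Real.exp_pos x
      have h4 : H' - H ≤ ht ψ P - H := by linarith
      exact mul_le_mul_of_nonneg_left h4 (by positivity)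
    have h5 : 0 ≤ J / (H' - H) ^ 2 := by positivity
    calc ‖src β P‖ * (1 + ‖P‖) ≤ J / (H' - H) ^ 2 * 3 :=
          mul_le_mul h3 (by linarith) (by positivity) h5
      _ ≤ _ := by linarith
  · have hn : 0 < ‖P‖ := by linarith
    have h3 : ‖src β P‖ ≤ J / (‖P‖ / 2) ^ 2 := by
      refine main _ P (by positivity) fun x hx => ?_
      refine le_trans ?_ (norm_phi_ge β hx.le P)
      have := Real.exp_pos x
      exact mul_le_mul_of_nonneg_left (by linarith) (by positivity)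
    have h5 : J / (‖P‖ / 2) ^ 2 * (1 + ‖P‖) ≤ 6 * J := by
      rw [div_mul_eq_mul_div, div_le_iff₀ (by positivity)]
      have h6 : 1 + ‖P‖ ≤ 6 * (‖P‖ / 2) ^ 2 := by nlinarith
      nlinarith [mul_le_mul_of_nonneg_left h6 hJ0]
    have h7 : 0 ≤ J / (H' - H) ^ 2 * 3 := by positivity
    calc ‖src β P‖ * (1 + ‖P‖) ≤ J / (‖P‖ / 2) ^ 2 * (1 + ‖P‖) := by gcongr
      _ ≤ _ := by linarith

end Pool.Agent.Worm.SB
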