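import Mathlib
import Pool.Agent.WormS.Kern
import Pool.Agent.WormS.LapF
import Pool.Agent.WormS.Src
import Pool.Agent.WormS.LLan

/-!
# Integration by parts (problem MP_3c4b73_an)
-/

open MeasureTheory Set Filter Topology Metric
open scoped Real ENNReal Interval ComplexConjugate

namespace Pool.Agent.Worm.SB

/-- `Side` in terms of the Volterra operator.

Proof: `d/dx Lap(φ_x P) = - DLap(φ_x P) e^x σ_x` (`hasDerivAt_Lap`, `hasDerivAt_phi_x`), so
`∫ e^{2x} k_x DLap(φ_x) dx = - ∫ (e^x k_x / σ_x) (d/dx Lap(φ_x)) dx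
  = Lap(P)/σ_0 + ∫ (d/dx (e^x k_x / σ_x)) Lap(φ_x) dx = LL β (Lap Φ α) P / σ_0`
(`hasDerivAt_kern`, boundary term at infinity `0` because `e^x/|σ_x|` is bounded and
`Lap(φ_x) = O(e^{-2x})`; Mathlib: `integral_Ioi_mul_deriv_eq_deriv_mul` or
`integral_Ioi_of_hasDerivAt_of_tendsto`). The rest is `src β P`. -/
theorem side_eq {β α a H : ℝ} {Φ : ℂ → ℂ} (h : Ray Φ α a) (hH : a < H) (h0 : 0 ≤ H)
    (hok : Ok β α H) {P : ℂ} (hP : P ∈ hp α H) :
    Side β (DLap Φ α) P = LL β (Lap Φ α) P / sg β 0 P + src β P := by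
  have hPH : H < ht α P := hP
  have hc0 : 0 < ht α P - H := sub_pos.2 hPH
  set c : ℝ := ht α P - H with hc
  -- the curve stays in `hp α H`
  have hmem : ∀ x : ℝ, 0 ≤ x → phi β x P ∈ hp α H := fun x hx => phi_mem hok hx le_rfl hP
  have hlow : ∀ x : ℝ, 0 ≤ x → Real.exp x ^ 2 * c ≤ ht α (phi β x P) - a := by
    intro x hx
    have := ht_phi_ge hok hx P
    linarith
  have hmema : ∀ x : ℝ, 0 ≤ x → a < ht α (phi β x P) := by
    intro x hx
    have h1 := hlow x hx
    have h2 : 0 < Real.exp x ^ 2 * c := by positivity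
    linarith
  have hsub : hp α H ⊆ hp α a := hp_mono hH.le
  have hs0 : sg β 0 P ≠ 0 := sg_ne_zero hok le_rfl hP
  have hsx : ∀ x : ℝ, 0 ≤ x → sg β x P ≠ 0 := fun x hx => sg_ne_zero hok hx hP
  -- the functions
  set u : ℝ → ℂ := fun x => (Real.exp x : ℂ) * kx x / sg β x P with hu
  set u' : ℝ → ℂ := fun x =>
    (Real.exp x : ℂ) * kx x * (Complex.I / sg β x P + ep β / (sg β x P) ^ 2) with hu'
  set v : ℝ → ℂ := fun x => Lap Φ α (phi β x P) with hv
  set v' : ℝ → ℂ := fun x => -DLap Φ α (phi β x P) * ((Real.exp x : ℂ) * sg β x P) with hv'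
  have hud : ∀ x : ℝ, 0 ≤ x → HasDerivAt u (u' x) x := fun x hx => hasDerivAt_kern (hsx x hx)
  have hvd : ∀ x : ℝ, 0 ≤ x → HasDerivAt v (v' x) x := by
    intro x hx
    have h1 := hasDerivAt_Lap h (hmema x hx)
    have h2 := hasDerivAt_phi_x β x P
    exact h1.comp x h2
  obtain ⟨C, hC0, hC⟩ := norm_Lap_le h
  -- continuity of `DLap` along the curve
  have hDc : ContinuousOn (fun x : ℝ => DLap Φ α (phi β x P)) (Ioi 0) := by
    have h1 : DifferentiableOn ℂ (deriv (Lap Φ α)) (hp α a) :=
      (differentiableOn_Lap h).deriv (isOpen_hp α a)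
    have h2 : ContinuousOn (fun x : ℝ => -deriv (Lap Φ α) (phi β x P)) (Ioi 0) := by
      refine (h1.continuousOn.comp ?_ ?_).neg
      · exact fun x _ => (hasDerivAt_phi_x β x P).continuousAt.continuousWithinAt
      · exact fun x hx => hmema x (le_of_lt hx)
    refine h2.congr ?_
    intro x hx
    have h3 := (hasDerivAt_Lap h (hmema x (le_of_lt hx))).deriv
    show DLap Φ α (phi β x P) = -deriv (Lap Φ α) (phi β x P)
    rw [h3, neg_neg]
  have hkc : Continuous kx := by
    unfold kx
    fun_prop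
  -- integrability of `e^{2x} k_x DLap`
  have hint1 : IntegrableOn (fun x : ℝ => (Real.exp x : ℂ) ^ 2 * kx x * DLap Φ α (phi β x P))
      (Ioi 0) := by
    have hb : IntegrableOn (fun x : ℝ => C / c ^ 2 * Real.exp (-2 * x)) (Ioi 0) :=
      (integrableOn_exp_mul_Ioi (by norm_num : (-2 : ℝ) < 0) 0).const_mul _
    refine Integrable.mono' hb ?_ ?_
    · refine ContinuousOn.aestronglyMeasurable ?_ measurableSet_Ioi
      refine ContinuousOn.mul (Continuous.continuousOn ?_) hDc
      exact ((Complex.continuous_ofReal.comp Real.continuous_exp).pow 2).mul hkc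
    · refine (ae_restrict_iff' measurableSet_Ioi).2 (Eventually.of_forall fun x hx => ?_)
      have hx0 : (0 : ℝ) ≤ x := le_of_lt hx
      have h1 := (hC (phi β x P) (hmema x hx0)).2
      have h2 := hlow x hx0
      have h3 : 0 < Real.exp x ^ 2 * c := by positivity
      rw [norm_mul, norm_mul, norm_kx, mul_one, norm_pow, Complex.norm_real,
        Real.norm_of_nonneg (Real.exp_pos x).le]
      calc Real.exp x ^ 2 * ‖DLap Φ α (phi β x P)‖
          ≤ Real.exp x ^ 2 * (C / (Real.exp x ^ 2 * c) ^ 2) := by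
            gcongr
            refine h1.trans ?_
            gcongr
        _ = C / c ^ 2 * Real.exp (-2 * x) := by
            have e1 : Real.exp (-2 * x) = (Real.exp x ^ 2)⁻¹ := by
              rw [← Real.exp_nat_mul, ← Real.exp_neg]
              congr 1
              push_cast
              ring
            rw [e1]
            have := (Real.exp_pos x).ne'
            field_simp
  -- integrability of `u v'` and `u' v`
  have huv' : IntegrableOn (u * v') (Ioi 0) := by
    refine hint1.neg.congr_fun ?_ measurableSet_Ioi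
    intro x hx
    have := hsx x (le_of_lt hx)
    simp only [Pi.neg_apply, Pi.mul_apply, hu, hv']
    field_simp
  have hu'v : IntegrableOn (u' * v) (Ioi 0) := by
    have h1 := integrable_LL (f := Lap Φ α) hok ((differentiableOn_Lap h).mono hsub)
      (fun H' hH' => HB_Lap h (hH.trans hH')) hP
    have h2 : IntegrableOn (fun x : ℝ => (sg β 0 P)⁻¹ * (KK β x P * Lap Φ α (phi β x P)))
        (Ioi 0) := h1.const_mul (sg β 0 P)⁻¹
    refine h2.congr_fun ?_ measurableSet_Ioi
    intro x hx
    simp only [Pi.mul_apply, hu', hv, KK]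
    field_simp
  -- the boundary terms
  have hzero : Tendsto (u * v) (𝓝[>] 0) (𝓝 (Lap Φ α P / sg β 0 P)) := by
    have h1 : ContinuousAt (u * v) 0 := (hud 0 le_rfl).continuousAt.mul (hvd 0 le_rfl).continuousAt
    have h2 : (u * v) 0 = Lap Φ α P / sg β 0 P := by
      simp only [Pi.mul_apply, hu, hv, phi_zero, Real.exp_zero, Complex.ofReal_one, one_mul, kx,
        Complex.ofReal_zero, mul_zero, Complex.exp_zero]
      field_simp
    rw [← h2]
    exact h1.tendsto.mono_left nhdsWithin_le_nhds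
  have hinf : Tendsto (u * v) atTop (𝓝 0) := by
    have hb : Tendsto (fun x : ℝ => C / (2 * c ^ 2) * Real.exp (-(2 * x))) atTop (𝓝 0) := by
      have h1 : Tendsto (fun x : ℝ => Real.exp (-(2 * x))) atTop (𝓝 0) :=
        Real.tendsto_exp_neg_atTop_nhds_zero.comp
          (tendsto_id.const_mul_atTop (by norm_num : (0 : ℝ) < 2))
      simpa using h1.const_mul (C / (2 * c ^ 2))
    refine squeeze_zero_norm' ?_ hb
    filter_upwards [eventually_ge_atTop (0 : ℝ)] with x hx
    have h1 := (hC (phi β x P) (hmema x hx)).1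
    have h2 := hlow x hx
    have h3 : 0 < Real.exp x ^ 2 * c := by positivity
    have h4 := norm_sg_ge hok hx P
    have h5 : 0 < 2 * Real.exp x * c := by positivity
    have h6 : ‖u x‖ ≤ 1 / (2 * c) := by
      simp only [hu]
      rw [norm_div, norm_mul, norm_kx, mul_one, Complex.norm_real,
        Real.norm_of_nonneg (Real.exp_pos x).le, div_le_div_iff₀ (h5.trans_le h4) (by positivity)]
      linarith
    have h7 : ‖v x‖ ≤ C / (Real.exp x ^ 2 * c) := by
      refine h1.trans ?_
      gcongr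
    rw [Pi.mul_apply, norm_mul]
    calc ‖u x‖ * ‖v x‖ ≤ 1 / (2 * c) * (C / (Real.exp x ^ 2 * c)) :=
          mul_le_mul h6 h7 (norm_nonneg _) (by positivity)
      _ = C / (2 * c ^ 2) * Real.exp (-(2 * x)) := by
          have e1 : Real.exp (-(2 * x)) = (Real.exp x ^ 2)⁻¹ := by
            rw [← Real.exp_nat_mul, ← Real.exp_neg]
            congr 1
          rw [e1]
          have := (Real.exp_pos x).ne'
          field_simp
  have hibp := integral_Ioi_mul_deriv_eq_deriv_mul (a := (0 : ℝ)) (u := u) (v := v) (u' := u')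
    (v' := v') (fun x hx => hud x (le_of_lt hx)) (fun x hx => hvd x (le_of_lt hx)) huv' hu'v
    hzero hinf
  have e1 : ∫ x in Ioi (0 : ℝ), (Real.exp x : ℂ) ^ 2 * kx x * DLap Φ α (phi β x P) =
      -∫ x in Ioi (0 : ℝ), u x * v' x := by
    rw [← integral_neg]
    refine setIntegral_congr_fun measurableSet_Ioi fun x hx => ?_
    have := hsx x (le_of_lt hx)
    simp only [hu, hv']
    field_simp
  have e2 : ∫ x in Ioi (0 : ℝ), u' x * v x =
      (sg β 0 P)⁻¹ * ∫ x in Ioi (0 : ℝ), KK β x P * Lap Φ α (phi β x P) := by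
    rw [← integral_const_mul]
    refine setIntegral_congr_fun measurableSet_Ioi fun x hx => ?_
    simp only [hu', hv, KK]
    field_simp
  have hsrc := integrable_src (β := β) h0 hok.1 hP
  unfold Side LL src
  have e3 : ∀ x : ℝ, (Real.exp x : ℂ) ^ 2 * kx x *
      (DLap Φ α (phi β x P) + (β * Complex.I - x) / (phi β x P) ^ 2) =
      (Real.exp x : ℂ) ^ 2 * kx x * DLap Φ α (phi β x P) +
      (Real.exp x : ℂ) ^ 2 * kx x * ((β * Complex.I - x) / (phi β x P) ^ 2) := fun x => by ring
  simp_rw [e3]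
  rw [integral_add hint1 hsrc, e1, hibp, e2]
  congr 1
  field_simp
  ring

end Pool.Agent.Worm.SB
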