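import Mathlib
import Pool.Agent.WormS.Kern

/-!
# The relation in the Laplace picture (problem MP_3c4b73_an)
-/

open MeasureTheory Set Filter Topology Metric
open scoped Real ENNReal Interval ComplexConjugate

namespace Pool.Agent.Worm.SB

/-- The integrand on the product of two half-lines. -/
private noncomputable def sideF (β θ : ℝ) (Φ : ℂ → ℂ) (q : ℂ) (s x : ℝ) : ℂ :=
  Complex.exp (θ * Complex.I) * (s * Complex.exp (θ * Complex.I)) *
    Complex.exp (-(q * (s * Complex.exp (θ * Complex.I)))) *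
    (Complex.exp ((2 - Complex.I) * ((-x : ℝ) + β * Complex.I)) *
      phiF Φ (s * Complex.exp (θ * Complex.I)) ((-x : ℝ) + β * Complex.I))

private theorem sideF_arg (β θ s x : ℝ) :
    Complex.exp (2 * (((-x : ℝ) : ℂ) + β * Complex.I)) * (s * Complex.exp (θ * Complex.I)) =
      ((Real.exp (-2 * x) * s : ℝ) : ℂ) * Complex.exp (((θ + 2 * β : ℝ) : ℂ) * Complex.I) := by
  push_cast
  rw [show (2 : ℂ) * (-(x : ℂ) + β * Complex.I) = -2 * x + 2 * β * Complex.I by ring,
    Complex.exp_add, show ((θ : ℂ) + 2 * β) * Complex.I = θ * Complex.I + 2 * β * Complex.I by ring,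
    Complex.exp_add]
  ring

private theorem sideF_cont {β θ a : ℝ} {Φ : ℂ → ℂ} (hR : Ray Φ (θ + 2 * β) a) (q : ℂ) :
    ContinuousOn (fun p : ℝ × ℝ => sideF β θ Φ q p.1 p.2) (Ioi 0 ×ˢ Ioi 0) := by
  have h1 : ContinuousOn (fun p : ℝ × ℝ => Φ (((Real.exp (-2 * p.2) * p.1 : ℝ) : ℂ) *
      Complex.exp (((θ + 2 * β : ℝ) : ℂ) * Complex.I))) (Ioi 0 ×ˢ Ioi 0) := by
    refine hR.cont.comp (f := fun p : ℝ × ℝ => Real.exp (-2 * p.2) * p.1) ?_ ?_
    · exact Continuous.continuousOn (by fun_prop)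
    · intro p hp
      exact mul_pos (Real.exp_pos _) hp.1
  unfold sideF phiF
  simp only [sideF_arg]
  refine ContinuousOn.mul (Continuous.continuousOn (by fun_prop)) ?_
  refine ContinuousOn.mul (Continuous.continuousOn (by fun_prop)) ?_
  refine ContinuousOn.mul (ContinuousOn.add h1 (Continuous.continuousOn (by fun_prop)))
    (Continuous.continuousOn (by fun_prop))

private theorem sideF_bound {β θ a : ℝ} {Φ : ℂ → ℂ} (ha : 0 ≤ a) {C : ℝ}
    (hC : ∀ s : ℝ, 0 < s → ‖Φ (s * Complex.exp (((θ + 2 * β : ℝ) : ℂ) * Complex.I))‖ ≤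
      C * Real.exp (a * s)) {q : ℂ} (hq : a + 2 < ht θ q) {s x : ℝ} (hs : 0 < s) (hx : 0 < x) :
    ‖sideF β θ Φ q s x‖ ≤ (s * Real.exp (-s)) *
      (Real.exp β * (Real.exp (-2 * x) * (C + x + |β|))) := by
  have hC0 : 0 ≤ C := by
    have h1 := hC 1 one_pos
    have h2 := (norm_nonneg _).trans h1
    exact nonneg_of_mul_nonneg_left h2 (Real.exp_pos _)
  unfold sideF phiF
  rw [sideF_arg]
  have e1 : ‖Complex.exp (θ * Complex.I) * (s * Complex.exp (θ * Complex.I))‖ = s := by
    rw [norm_mul, norm_mul, norm_dir, Complex.norm_real, Real.norm_of_nonneg hs.le]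
    ring
  have e2 : ‖Complex.exp (-(q * (s * Complex.exp (θ * Complex.I))))‖ =
      Real.exp (-(s * ht θ q)) := by
    rw [Complex.norm_exp]
    congr 1
    rw [Complex.neg_re, show q * (s * Complex.exp (θ * Complex.I)) =
      (s : ℂ) * (Complex.exp (θ * Complex.I) * q) by ring, Complex.re_ofReal_mul]
    rfl
  have e3 : ‖Complex.exp ((2 - Complex.I) * (((-x : ℝ) : ℂ) + β * Complex.I))‖ =
      Real.exp β * Real.exp (-2 * x) := by
    rw [Complex.norm_exp, ← Real.exp_add]
    congr 1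
    simp [Complex.mul_re, Complex.add_re, Complex.sub_re]
    ring
  have e4 : ‖Complex.exp (-(Complex.exp (((-x : ℝ) : ℂ) + β * Complex.I) *
      (s * Complex.exp (θ * Complex.I))))‖ ≤ Real.exp s := by
    rw [Complex.norm_exp]
    apply Real.exp_le_exp.2
    refine (Complex.re_le_norm _).trans ?_
    rw [norm_neg, norm_mul, norm_mul, norm_dir, Complex.norm_real, Real.norm_of_nonneg hs.le,
      Complex.norm_exp]
    have : (((-x : ℝ) : ℂ) + β * Complex.I).re = -x := by simp
    rw [this]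
    have h2 : Real.exp (-x) ≤ 1 := Real.exp_le_one_iff.2 (by linarith)
    nlinarith
  have e5 : ‖Φ (((Real.exp (-2 * x) * s : ℝ) : ℂ) *
      Complex.exp (((θ + 2 * β : ℝ) : ℂ) * Complex.I)) + (((-x : ℝ) : ℂ) + β * Complex.I)‖ ≤
      (C + x + |β|) * Real.exp (a * s) := by
    have h1 : 1 ≤ Real.exp (a * s) := Real.one_le_exp (by positivity)
    have h2 : Real.exp (-2 * x) ≤ 1 := Real.exp_le_one_iff.2 (by linarith)
    have h3 : Real.exp (a * (Real.exp (-2 * x) * s)) ≤ Real.exp (a * s) := by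
      apply Real.exp_le_exp.2
      have : Real.exp (-2 * x) * s ≤ s := by nlinarith
      nlinarith
    have h4 := hC (Real.exp (-2 * x) * s) (by positivity)
    have h5 : ‖((-x : ℝ) : ℂ) + β * Complex.I‖ ≤ x + |β| := by
      refine (norm_add_le _ _).trans ?_
      rw [Complex.norm_real, norm_mul, Complex.norm_real, Complex.norm_I, mul_one,
        Real.norm_eq_abs, Real.norm_eq_abs, abs_neg, abs_of_pos hx]
    refine (norm_add_le _ _).trans ?_
    have h6 : C * Real.exp (a * (Real.exp (-2 * x) * s)) ≤ C * Real.exp (a * s) := by gcongr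
    have h7 : x + |β| ≤ (x + |β|) * Real.exp (a * s) := by
      have : 0 ≤ x + |β| := by positivity
      nlinarith
    linarith
  rw [norm_mul (_ * _) (_ * (_ * _)), norm_mul (Complex.exp (θ * Complex.I) * _) _,
    norm_mul (Complex.exp ((2 - Complex.I) * _)) _, norm_mul (_ + _) _, e1, e2, e3]
  have h8 : Real.exp (-(s * ht θ q)) * (Real.exp (a * s) * Real.exp s) ≤ Real.exp (-s) := by
    rw [← Real.exp_add, ← Real.exp_add]
    apply Real.exp_le_exp.2
    nlinarith
  have h9 : 0 ≤ C + x + |β| := by positivity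
  calc s * Real.exp (-(s * ht θ q)) * (Real.exp β * Real.exp (-2 * x) *
        (‖Φ (((Real.exp (-2 * x) * s : ℝ) : ℂ) *
      Complex.exp (((θ + 2 * β : ℝ) : ℂ) * Complex.I)) + (((-x : ℝ) : ℂ) + β * Complex.I)‖ *
      ‖Complex.exp (-(Complex.exp (((-x : ℝ) : ℂ) + β * Complex.I) *
      (s * Complex.exp (θ * Complex.I))))‖))
      ≤ s * Real.exp (-(s * ht θ q)) * (Real.exp β * Real.exp (-2 * x) *
        (((C + x + |β|) * Real.exp (a * s)) * Real.exp s)) := by gcongr
    _ = (s * (Real.exp (-(s * ht θ q)) * (Real.exp (a * s) * Real.exp s))) *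
        (Real.exp β * (Real.exp (-2 * x) * (C + x + |β|))) := by ring
    _ ≤ (s * Real.exp (-s)) * (Real.exp β * (Real.exp (-2 * x) * (C + x + |β|))) := by gcongr

private theorem int_s_exp : IntegrableOn (fun s : ℝ => s * Real.exp (-s)) (Ioi 0) := by
  have h := Real.GammaIntegral_convergent (s := 2) (by norm_num)
  refine h.congr_fun ?_ measurableSet_Ioi
  intro s hs
  show Real.exp (-s) * s ^ ((2 : ℝ) - 1) = s * Real.exp (-s)
  norm_num
  ring

private theorem int_x_exp (C β : ℝ) :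
    IntegrableOn (fun x : ℝ => Real.exp β * (Real.exp (-2 * x) * (C + x + |β|))) (Ioi 0) := by
  have h1 : IntegrableOn (fun x : ℝ => Real.exp (-x)) (Ioi 0) := by
    have := integrableOn_exp_neg_Ioi 0
    simpa using this
  have h2 : IntegrableOn (fun x : ℝ => Real.exp (-2 * x) * x) (Ioi 0) := by
    refine Integrable.mono' int_s_exp ?_ ?_
    · exact (Continuous.aestronglyMeasurable (by fun_prop))
    · refine (ae_restrict_iff' measurableSet_Ioi).2 (Eventually.of_forall fun x hx => ?_)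
      have hx0 : 0 < x := hx
      rw [Real.norm_of_nonneg (by positivity)]
      have : Real.exp (-2 * x) ≤ Real.exp (-x) := Real.exp_le_exp.2 (by linarith)
      nlinarith [Real.exp_pos (-x)]
  have h3 : IntegrableOn (fun x : ℝ => Real.exp (-2 * x)) (Ioi 0) := by
    refine Integrable.mono' h1 ?_ ?_
    · exact (Continuous.aestronglyMeasurable (by fun_prop))
    · refine (ae_restrict_iff' measurableSet_Ioi).2 (Eventually.of_forall fun x hx => ?_)
      have hx0 : 0 < x := hx
      rw [Real.norm_of_nonneg (by positivity)]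
      exact Real.exp_le_exp.2 (by linarith)
  have h4 := ((h3.const_mul (C + |β|)).add h2).const_mul (Real.exp β)
  refine h4.congr (Eventually.of_forall fun x => ?_)
  simp only [Pi.add_apply]
  ring

private theorem sideF_int {β θ a : ℝ} {Φ : ℂ → ℂ} (ha : 0 ≤ a) (hR : Ray Φ (θ + 2 * β) a) {q : ℂ}
    (hq : a + 2 < ht θ q) :
    Integrable (Function.uncurry (sideF β θ Φ q))
      ((volume.restrict (Ioi (0 : ℝ))).prod (volume.restrict (Ioi (0 : ℝ)))) := by
  obtain ⟨C, hC⟩ := hR.bound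
  have hdom := int_s_exp.mul_prod (int_x_exp C β)
  refine Integrable.mono' hdom ?_ ?_
  · rw [Measure.prod_restrict]
    exact (sideF_cont hR q).aestronglyMeasurable (measurableSet_Ioi.prod measurableSet_Ioi)
  · rw [Measure.prod_restrict]
    refine (ae_restrict_iff' (measurableSet_Ioi.prod measurableSet_Ioi)).2
      (Eventually.of_forall fun p hp => ?_)
    exact sideF_bound ha hC hq hp.1 hp.2

/-- The elementary Laplace integral. -/
private theorem int_elem {c : ℂ} (hc : 0 < c.re) :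
    IntegrableOn (fun s : ℝ => (s : ℂ) * Complex.exp (-(c * s))) (Ioi 0) ∧
    ∫ s in Ioi (0 : ℝ), (s : ℂ) * Complex.exp (-(c * s)) = 1 / c ^ 2 := by
  have hc0 : c ≠ 0 := by
    rintro rfl
    simp at hc
  have hnorm : ∀ s : ℝ, ‖Complex.exp (-(c * s))‖ = Real.exp (-(c.re * s)) := by
    intro s
    rw [Complex.norm_exp]
    simp
  have hint0 : IntegrableOn (fun s : ℝ => s * Real.exp (-(c.re * s))) (Ioi 0) := by
    have h := (integrableOn_Ioi_comp_mul_left_iff
      (fun s : ℝ => s * Real.exp (-s)) 0 hc).2 (by simpa using int_s_exp)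
    have h2 := h.const_mul (c.re)⁻¹
    refine h2.congr (Eventually.of_forall fun s => ?_)
    simp only
    field_simp
  have hint : IntegrableOn (fun s : ℝ => (s : ℂ) * Complex.exp (-(c * s))) (Ioi 0) := by
    refine Integrable.mono' hint0 (Continuous.aestronglyMeasurable (by fun_prop)) ?_
    refine (ae_restrict_iff' measurableSet_Ioi).2 (Eventually.of_forall fun s hs => ?_)
    rw [norm_mul, hnorm, Complex.norm_real, Real.norm_of_nonneg (le_of_lt hs)]
  refine ⟨hint, ?_⟩
  have hderiv : ∀ s ∈ Ici (0 : ℝ), HasDerivAt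
      (fun s : ℝ => -((s : ℂ) / c + 1 / c ^ 2) * Complex.exp (-(c * s)))
      ((s : ℂ) * Complex.exp (-(c * s))) s := by
    intro s _
    have h1 : HasDerivAt (fun s : ℝ => (s : ℂ)) 1 s := Complex.ofRealCLM.hasDerivAt
    have h2 := ((h1.div_const c).add_const (1 / c ^ 2)).neg.mul ((h1.const_mul c).neg.cexp)
    refine h2.congr_deriv ?_
    simp only [Pi.neg_apply]
    field_simp
    ring
  have hlim : Tendsto (fun s : ℝ => -((s : ℂ) / c + 1 / c ^ 2) * Complex.exp (-(c * s))) atTop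
      (𝓝 0) := by
    rw [tendsto_zero_iff_norm_tendsto_zero]
    have h1 : Tendsto (fun s : ℝ => s * Real.exp (-(c.re * s))) atTop (𝓝 0) := by
      have := Real.tendsto_pow_mul_exp_neg_atTop_nhds_zero 1
      have h2 := this.comp (tendsto_id.const_mul_atTop hc)
      have h3 := h2.const_mul (c.re)⁻¹
      rw [mul_zero] at h3
      refine h3.congr fun s => ?_
      simp only [Function.comp, id, pow_one]
      field_simp
    have h2 : Tendsto (fun s : ℝ => Real.exp (-(c.re * s))) atTop (𝓝 0) := by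
      have := Real.tendsto_exp_neg_atTop_nhds_zero
      exact this.comp (tendsto_id.const_mul_atTop hc)
    have h3 := (h1.const_mul (1 / ‖c‖)).add (h2.const_mul (1 / ‖c‖ ^ 2))
    rw [mul_zero, mul_zero, add_zero] at h3
    refine squeeze_zero' (Eventually.of_forall fun s => norm_nonneg _) ?_ h3
    filter_upwards [eventually_gt_atTop 0] with s hs
    rw [norm_mul, hnorm, norm_neg]
    have h4 : ‖(s : ℂ) / c + 1 / c ^ 2‖ ≤ s / ‖c‖ + 1 / ‖c‖ ^ 2 := by
      refine (norm_add_le _ _).trans ?_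
      rw [norm_div, norm_div, Complex.norm_real, Real.norm_of_nonneg hs.le, norm_pow, norm_one]
    calc ‖(s : ℂ) / c + 1 / c ^ 2‖ * Real.exp (-(c.re * s)) ≤
        (s / ‖c‖ + 1 / ‖c‖ ^ 2) * Real.exp (-(c.re * s)) := by gcongr
      _ = 1 / ‖c‖ * (s * Real.exp (-(c.re * s))) + 1 / ‖c‖ ^ 2 * Real.exp (-(c.re * s)) := by ring
  rw [integral_Ioi_of_hasDerivAt_of_tendsto' hderiv hint hlim]
  simp

private theorem phi_P (β x : ℝ) (q : ℂ) :
    phi β x (Complex.exp (-(2 * β * Complex.I)) * q + Complex.exp (-(β * Complex.I))) =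
      (q + Complex.exp (((-x : ℝ) : ℂ) + β * Complex.I)) *
        (Complex.exp (2 * x) * Complex.exp (-(2 * β * Complex.I))) := by
  unfold phi ep
  have e1 : (Real.exp x : ℂ) = Complex.exp x := Complex.ofReal_exp x
  have e2 : Complex.exp (2 * x) = Complex.exp x ^ 2 := by
    rw [← Complex.exp_nat_mul]; norm_num
  have e3 : Complex.exp (((-x : ℝ) : ℂ) + β * Complex.I) * (Complex.exp (2 * x) *
      Complex.exp (-(2 * β * Complex.I))) = Complex.exp x * Complex.exp (-(β * Complex.I)) := by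
    rw [← Complex.exp_add, ← Complex.exp_add, ← Complex.exp_add]
    congr 1
    push_cast
    ring
  rw [add_mul, e3, e1, e2]
  ring

private theorem sideF_inner {β θ a : ℝ} {Φ : ℂ → ℂ} (ha : 0 ≤ a) (hR : Ray Φ (θ + 2 * β) a) {q : ℂ}
    (hq : a + 2 < ht θ q) {x : ℝ} (hx : 0 < x) :
    ∫ s in Ioi (0 : ℝ), sideF β θ Φ q s x =
      Complex.exp (β - 2 * β * Complex.I) * ((Real.exp x : ℂ) ^ 2 * kx x *
        (DLap Φ (θ + 2 * β) (phi β x (Complex.exp (-(2 * β * Complex.I)) * q +
          Complex.exp (-(β * Complex.I)))) + (β * Complex.I - x) /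
          (phi β x (Complex.exp (-(2 * β * Complex.I)) * q +
          Complex.exp (-(β * Complex.I)))) ^ 2)) := by
  obtain ⟨C, hC⟩ := hR.bound
  rw [phi_P]
  set v : ℂ := Complex.exp (((-x : ℝ) : ℂ) + β * Complex.I) with hv
  set w : ℂ := Complex.exp (θ * Complex.I) with hw
  set W : ℂ := Complex.exp (((θ + 2 * β : ℝ) : ℂ) * Complex.I) with hW
  set E : ℂ := Complex.exp (-(2 * β * Complex.I)) with hE
  set T : ℝ := Real.exp (-2 * x) with hT
  have hw0 : w ≠ 0 := Complex.exp_ne_zero _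
  have hE0 : E ≠ 0 := Complex.exp_ne_zero _
  have hT0 : 0 < T := Real.exp_pos _
  have hT1 : T ≤ 1 := Real.exp_le_one_iff.2 (by linarith)
  have hWE : W * E = w := by
    rw [hW, hE, hw, ← Complex.exp_add]
    congr 1
    push_cast
    ring
  have hTx : Complex.exp (2 * x) = (T : ℂ)⁻¹ := by
    rw [hT, Complex.ofReal_exp, ← Complex.exp_neg]
    congr 1
    push_cast
    ring
  have hTc : (T : ℂ) ≠ 0 := by exact_mod_cast hT0.ne'
  set c : ℂ := (q + v) * w with hc
  have hvn : ‖v‖ ≤ 1 := by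
    rw [hv, Complex.norm_exp]
    apply Real.exp_le_one_iff.2
    simp
    linarith
  have hcre : a + 1 < c.re := by
    have h1 : c.re = ht θ (q + v) := by
      unfold ht
      rw [hc, mul_comm]
    have h2 := abs_le.1 (abs_ht_le θ v)
    rw [h1, ht_add]
    linarith [h2.1]
  have hcpos : 0 < c.re := by linarith
  have hc0 : c ≠ 0 := by
    intro h
    rw [h] at hcpos
    simp at hcpos
  have hqv : q + v ≠ 0 := by
    intro h
    apply hc0
    rw [hc, h, zero_mul]
  obtain ⟨hi2, hI2⟩ := int_elem hcpos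
  have hC0 : 0 ≤ C := by
    have h1 := hC 1 one_pos
    have h2 := (norm_nonneg _).trans h1
    exact nonneg_of_mul_nonneg_left h2 (Real.exp_pos _)
  have hi1 : IntegrableOn (fun s : ℝ => (s : ℂ) * Φ (((T * s : ℝ) : ℂ) * W) *
      Complex.exp (-(c * s))) (Ioi 0) := by
    refine Integrable.mono' (int_s_exp.const_mul C) ?_ ?_
    · refine ContinuousOn.aestronglyMeasurable ?_ measurableSet_Ioi
      refine ContinuousOn.mul (ContinuousOn.mul (Continuous.continuousOn (by fun_prop)) ?_)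
        (Continuous.continuousOn (by fun_prop))
      refine hR.cont.comp (f := fun s : ℝ => T * s) (Continuous.continuousOn (by fun_prop)) ?_
      intro s hs
      exact mul_pos hT0 hs
    · refine (ae_restrict_iff' measurableSet_Ioi).2 (Eventually.of_forall fun s hs => ?_)
      have hs0 : 0 < s := hs
      rw [norm_mul, norm_mul, Complex.norm_real, Real.norm_of_nonneg hs0.le, Complex.norm_exp]
      have h1 := hC (T * s) (by positivity)
      have h2 : (-(c * s)).re = -(c.re * s) := by simp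
      rw [h2]
      have h3 : Real.exp (a * (T * s)) * Real.exp (-(c.re * s)) ≤ Real.exp (-s) := by
        rw [← Real.exp_add]
        apply Real.exp_le_exp.2
        have : a * (T * s) ≤ a * s := by
          have : T * s ≤ s := by nlinarith
          nlinarith
        nlinarith
      calc s * ‖Φ (((T * s : ℝ) : ℂ) * W)‖ * Real.exp (-(c.re * s))
          ≤ s * (C * Real.exp (a * (T * s))) * Real.exp (-(c.re * s)) := by gcongr
        _ = C * (s * (Real.exp (a * (T * s)) * Real.exp (-(c.re * s)))) := by ring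
        _ ≤ C * (s * Real.exp (-s)) := by gcongr
  have hI1 : ∫ s in Ioi (0 : ℝ), (s : ℂ) * Φ (((T * s : ℝ) : ℂ) * W) * Complex.exp (-(c * s)) =
      (T : ℂ)⁻¹ ^ 2 * ∫ s in Ioi (0 : ℝ), (s : ℂ) * Φ ((s : ℂ) * W) *
        Complex.exp (-(c * (T : ℂ)⁻¹ * s)) := by
    have h := integral_comp_mul_left_Ioi (fun s : ℝ => (s : ℂ) * Φ ((s : ℂ) * W) *
        Complex.exp (-(c * (T : ℂ)⁻¹ * s))) 0 hT0
    rw [mul_zero, Complex.real_smul, Complex.ofReal_inv] at h
    rw [sq, mul_assoc, ← h, ← integral_const_mul]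
    refine setIntegral_congr_fun measurableSet_Ioi fun s hs => ?_
    have h2 : -(c * (T : ℂ)⁻¹ * ((T * s : ℝ) : ℂ)) = -(c * s) := by
      push_cast
      field_simp
    rw [h2]
    push_cast
    field_simp
  have hD : DLap Φ (θ + 2 * β) ((q + v) * (Complex.exp (2 * x) * E)) =
      W ^ 2 * ∫ s in Ioi (0 : ℝ), (s : ℂ) * Φ ((s : ℂ) * W) *
        Complex.exp (-(c * (T : ℂ)⁻¹ * s)) := by
    unfold DLap
    rw [← integral_const_mul]
    refine setIntegral_congr_fun measurableSet_Ioi fun s hs => ?_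
    have h2 : -((q + v) * (Complex.exp (2 * x) * E) * (s * W)) = -(c * (T : ℂ)⁻¹ * s) := by
      rw [hTx, hc, ← hWE]
      ring
    rw [← hW, h2]
    ring
  have hF : ∀ s : ℝ, sideF β θ Φ q s x =
      Complex.exp ((2 - Complex.I) * (((-x : ℝ) : ℂ) + β * Complex.I)) * w ^ 2 *
        ((s : ℂ) * Φ (((T * s : ℝ) : ℂ) * W) * Complex.exp (-(c * s)) +
          (((-x : ℝ) : ℂ) + β * Complex.I) * ((s : ℂ) * Complex.exp (-(c * s)))) := by
    intro s
    unfold sideF phiF
    rw [sideF_arg, ← hW, ← hw, ← hT, ← hv]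
    have h2 : Complex.exp (-(c * s)) = Complex.exp (-(q * (s * w))) *
        Complex.exp (-(v * (s * w))) := by
      rw [← Complex.exp_add, hc]
      congr 1
      ring
    rw [h2]
    ring
  simp only [hF]
  rw [integral_const_mul, integral_add hi1 (hi2.const_mul _), integral_const_mul, hI1, hI2, hD, hTx]
  have hA : Complex.exp ((2 - Complex.I) * (((-x : ℝ) : ℂ) + β * Complex.I)) * ((T : ℂ)⁻¹ ^ 2) *
      E ^ 2 = Complex.exp (β - 2 * β * Complex.I) * ((Real.exp x : ℂ) ^ 2 * kx x) := by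
    rw [← hTx, hE, Complex.ofReal_exp]
    unfold kx
    rw [← Complex.exp_nat_mul, ← Complex.exp_nat_mul, ← Complex.exp_nat_mul, ← Complex.exp_add,
      ← Complex.exp_add, ← Complex.exp_add, ← Complex.exp_add]
    congr 1
    push_cast
    linear_combination (-(β : ℂ)) * Complex.I_sq
  generalize (∫ s in Ioi (0 : ℝ), (s : ℂ) * Φ ((s : ℂ) * W) *
        Complex.exp (-(c * (T : ℂ)⁻¹ * s))) = J
  rw [← mul_assoc (Complex.exp (β - 2 * β * Complex.I)), ← hA, hc, ← hWE]
  have hW0 : W ≠ 0 := Complex.exp_ne_zero _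
  push_cast
  field_simp
  ring

private theorem side_one {β θ a : ℝ} {Φ : ℂ → ℂ} (ha : 0 ≤ a) (hR : Ray Φ (θ + 2 * β) a) {q : ℂ}
    (hq : a + 2 < ht θ q) :
    ∫ s in Ioi (0 : ℝ), Complex.exp (θ * Complex.I) * (s * Complex.exp (θ * Complex.I)) *
      Complex.exp (-(q * (s * Complex.exp (θ * Complex.I)))) *
        Rad β (phiF Φ (s * Complex.exp (θ * Complex.I))) =
      Complex.exp (β - 2 * β * Complex.I) * Side β (DLap Φ (θ + 2 * β))
        (Complex.exp (-(2 * β * Complex.I)) * q + Complex.exp (-(β * Complex.I))) := by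
  have h1 : ∀ s : ℝ, Complex.exp (θ * Complex.I) * (s * Complex.exp (θ * Complex.I)) *
      Complex.exp (-(q * (s * Complex.exp (θ * Complex.I)))) *
        Rad β (phiF Φ (s * Complex.exp (θ * Complex.I))) =
      ∫ x in Ioi (0 : ℝ), sideF β θ Φ q s x := by
    intro s
    unfold Rad sideF
    rw [integral_const_mul]
    congr 1
    have := integral_comp_neg_Iic (0 : ℝ) (fun x : ℝ =>
      Complex.exp ((2 - Complex.I) * (((-x : ℝ) : ℂ) + β * Complex.I)) *
      phiF Φ (s * Complex.exp (θ * Complex.I)) (((-x : ℝ) : ℂ) + β * Complex.I))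
    simpa using this
  simp only [h1]
  rw [integral_integral_swap (sideF_int ha hR hq)]
  unfold Side
  rw [← integral_const_mul]
  refine setIntegral_congr_fun measurableSet_Ioi fun x hx => ?_
  exact sideF_inner ha hR hq hx

/-- The Laplace transform of the relation along the ray of argument `θ`.

Proof: multiply `EqR b Φ y`, `y = s e^{iθ}`, by `e^{iθ} (s e^{iθ}) e^{-q s e^{iθ}}` and integrate over
`s > 0`; for each side (`β = ±b`, `α = θ + 2β`, `v = e^{l + iβ}`, `|v| ≤ 1`) interchange the integrals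
(absolute convergence: the integrand is at most
`e^{2l} e^{b} s (C e^{a s} + |l| + b) e^{-(Re(q e^{iθ}) - 1) s}`, and `Re(q e^{iθ}) > a + 2`).
Inner integral: with `s' = e^{2l} s`, since `(q+v) e^{-2l} e^{iθ} = ((q+v)/v²) e^{iα}`,
`∫_0^∞ e^{iθ} (s e^{iθ}) Φ(e^{2(l+iβ)} s e^{iθ}) e^{-(q+v) s e^{iθ}} ds = v^{-4} DLap Φ α ((q+v)/v²)`, and
`∫_0^∞ e^{iθ} (s e^{iθ}) e^{-(q+v) s e^{iθ}} ds = (q+v)^{-2} = v^{-4} ((q+v)/v²)^{-2}`.
Finally `l = -x`: `(q+v)/v² = phi β x P`, `P = e^{-2iβ} q + e^{-iβ}`, and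
`e^{(2-i)(l+iβ)} v^{-4} = e^{-(2+i)(l+iβ)} = e^{β - 2iβ} e^{2x} e^{ix}`. -/
theorem side_laplace {b θ a : ℝ} {Φ : ℂ → ℂ} (ha : 0 ≤ a) (hp1 : Ray Φ (θ + 2 * b) a)
    (hm1 : Ray Φ (θ - 2 * b) a)
    (heq : ∀ s : ℝ, 0 < s → EqR b Φ (s * Complex.exp (θ * Complex.I))) {q : ℂ}
    (hq : a + 2 < ht θ q) :
    Complex.exp (b - 2 * b * Complex.I) * Side b (DLap Φ (θ + 2 * b))
      (Complex.exp (-(2 * b * Complex.I)) * q + Complex.exp (-(b * Complex.I))) =
    Complex.exp (-b + 2 * b * Complex.I) * Side (-b) (DLap Φ (θ - 2 * b))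
      (Complex.exp (2 * b * Complex.I) * q + Complex.exp (b * Complex.I)) := by
  have hm : Ray Φ (θ + 2 * (-b)) a := by
    rw [show θ + 2 * (-b) = θ - 2 * b by ring]
    exact hm1
  have h1 := side_one ha hp1 hq
  have h2 := side_one ha hm hq
  have h3 : ∫ s in Ioi (0 : ℝ), Complex.exp (θ * Complex.I) * (s * Complex.exp (θ * Complex.I)) *
      Complex.exp (-(q * (s * Complex.exp (θ * Complex.I)))) *
        Rad b (phiF Φ (s * Complex.exp (θ * Complex.I))) =
      ∫ s in Ioi (0 : ℝ), Complex.exp (θ * Complex.I) * (s * Complex.exp (θ * Complex.I)) *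
      Complex.exp (-(q * (s * Complex.exp (θ * Complex.I)))) *
        Rad (-b) (phiF Φ (s * Complex.exp (θ * Complex.I))) := by
    refine setIntegral_congr_fun measurableSet_Ioi fun s hs => ?_
    show _ * Rad b (phiF Φ (s * Complex.exp (θ * Complex.I))) =
      _ * Rad (-b) (phiF Φ (s * Complex.exp (θ * Complex.I)))
    rw [show Rad b (phiF Φ (s * Complex.exp (θ * Complex.I))) =
      Rad (-b) (phiF Φ (s * Complex.exp (θ * Complex.I))) from heq s hs]
  rw [h1, h2] at h3
  rw [h3]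
  rw [show θ + 2 * (-b) = θ - 2 * b by ring]
  push_cast
  rw [show -(2 * -(b : ℂ) * Complex.I) = 2 * b * Complex.I by ring,
    show -(-(b : ℂ) * Complex.I) = b * Complex.I by ring,
    show -(b : ℂ) - 2 * -(b : ℂ) * Complex.I = -b + 2 * b * Complex.I by ring]

end Pool.Agent.Worm.SB
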