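import Mathlib
import Pool.Agent.WormS.Kern
import Pool.Agent.WormS.SideL
import Pool.Agent.WormS.Parts

/-!
# The functional equation far out (problem MP_3c4b73_an)
-/

open MeasureTheory Set Filter Topology Metric
open scoped Real ENNReal Interval ComplexConjugate

namespace Pool.Agent.Worm.SB

/-- The functional equation for the Laplace transforms, on a far half-plane. -/
theorem eqn_lap {b ψ a : ℝ} {Φ : ℂ → ℂ} (ha : 0 ≤ a) (hp1 : Ray Φ ψ a)
    (hm1 : Ray Φ (ψ - 4 * b) a)
    (heq : ∀ s : ℝ, 0 < s → EqR b Φ (s * Complex.exp (((ψ - 2 * b : ℝ) : ℂ) * Complex.I)))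
    {P : ℂ} (hP : P ∈ hp ψ (a + 5)) : Eqn b (Lap Φ ψ) (Lap Φ (ψ - 4 * b)) P := by
  have e1 : ψ - 2 * b + 2 * b = ψ := by ring
  have e2 : ψ - 2 * b - 2 * b = ψ - 4 * b := by ring
  set q : ℂ := Complex.exp (2 * b * Complex.I) * P - Complex.exp (b * Complex.I) with hq
  have hPq : Complex.exp (-(2 * b * Complex.I)) * q + Complex.exp (-(b * Complex.I)) = P := by
    rw [hq, mul_sub, ← mul_assoc, ← Complex.exp_add, ← Complex.exp_add]
    rw [show -(2 * (b : ℂ) * Complex.I) + 2 * b * Complex.I = 0 by ring,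
      show -(2 * (b : ℂ) * Complex.I) + b * Complex.I = -(b * Complex.I) by ring, Complex.exp_zero]
    ring
  have hTq : Complex.exp (2 * b * Complex.I) * q + Complex.exp (b * Complex.I) = Tm b P := by
    rw [hq, mul_sub, ← mul_assoc, ← Complex.exp_add, ← Complex.exp_add]
    unfold Tm
    rw [show 2 * (b : ℂ) * Complex.I + 2 * b * Complex.I = 4 * b * Complex.I by ring,
      show 2 * (b : ℂ) * Complex.I + b * Complex.I = 3 * b * Complex.I by ring]
  have hP' : a + 5 < ht ψ P := hP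
  have hq2 : a + 2 < ht (ψ - 2 * b) q := by
    have h1 : ht (ψ - 2 * b) q = ht ψ P - Real.cos (ψ - b) := by
      unfold ht
      rw [hq, mul_sub, ← mul_assoc, ← Complex.exp_add, ← Complex.exp_add,
        show ((ψ - 2 * b : ℝ) : ℂ) * Complex.I + 2 * b * Complex.I = ψ * Complex.I by
          push_cast; ring,
        show ((ψ - 2 * b : ℝ) : ℂ) * Complex.I + b * Complex.I = ((ψ - b : ℝ) : ℂ) * Complex.I by
          push_cast; ring, Complex.sub_re, Complex.exp_ofReal_mul_I_re]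
    rw [h1]
    linarith [Real.cos_le_one (ψ - b)]
  have h := side_laplace (b := b) (θ := ψ - 2 * b) (a := a) (Φ := Φ) ha (by rw [e1]; exact hp1)
    (by rw [e2]; exact hm1) heq hq2
  rw [e1, e2, hPq, hTq] at h
  have hok1 : Ok b ψ (a + 5) := by
    refine ⟨?_, ?_⟩ <;> rw [ep_mul_dir] <;> linarith [Real.cos_le_one (ψ - b)]
  have hok2 : Ok (-b) (ψ - 4 * b) (a + 2) := by
    refine ⟨?_, ?_⟩ <;> rw [ep_mul_dir] <;> linarith [Real.cos_le_one (ψ - 4 * b - -b)]
  have hT : Tm b P ∈ hp (ψ - 4 * b) (a + 2) := by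
    show a + 2 < ht (ψ - 4 * b) (Tm b P)
    rw [ht_Tm]
    linarith [Real.cos_le_one (ψ - b), Real.neg_one_le_cos (ψ - 3 * b)]
  rw [side_eq hp1 (by linarith) (by linarith) hok1 hP,
    side_eq hm1 (by linarith) (by linarith) hok2 hT] at h
  exact h

end Pool.Agent.Worm.SB
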