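import Mathlib
import Pool.Agent.WormS.Kern
import Pool.Agent.WormS.LLan
import Pool.Agent.WormS.Src

/-!
# The base lemma: the singularity at P = 0 (problem MP_3c4b73_an)
-/

open MeasureTheory Set Filter Topology Metric
open scoped Real ENNReal Interval ComplexConjugate

namespace Pool.Agent.Worm.SB

theorem bl_ok0 {β ψ : ℝ} (hε : ht ψ (ep β) < 0) : Ok β ψ 0 := ⟨hε.le, by linarith⟩

theorem bl_okc {β ψ : ℝ} (hε : ht ψ (ep β) < 0) : Ok β ψ (ht ψ (ep β) / 2) :=
  ⟨by linarith, le_rfl⟩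

theorem bl_KK {β ψ : ℝ} (hε : ht ψ (ep β) < 0) {P : ℂ} (hP : 0 ≤ ht ψ P) {x : ℝ} (hx : 0 ≤ x) :
    ‖KK β x P‖ ≤ (1 + 1 / (2 * (-ht ψ (ep β) / 2))) ^ 2 :=
  norm_KK_le (by linarith) (bl_okc hε) hx (by linarith)

theorem bl_inv_diff (ψ : ℝ) : DifferentiableOn ℂ (fun P : ℂ => P⁻¹) (hp ψ 0) := by
  intro P hP
  have h0 : P ≠ 0 := by
    rintro rfl
    have : (0 : ℝ) < ht ψ 0 := hP
    simp [ht] at this
  exact (differentiableAt_inv h0).differentiableWithinAt

theorem bl_ne_zero {ψ : ℝ} {P : ℂ} (hP : P ∈ hp ψ 0) : P ≠ 0 := by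
  rintro rfl
  have : (0 : ℝ) < ht ψ 0 := hP
  simp [ht] at this

theorem bl_inv_HB {ψ h : ℝ} (hh : 0 < h) : HB ψ h (fun P : ℂ => P⁻¹) := by
  refine ⟨1 / h + 1, fun P hP => ?_⟩
  have h1 : h < ht ψ P := hP
  have h2 := ht_le ψ P
  have h3 : 0 < ‖P‖ := by linarith
  have h4 := abs_ht_le ψ P
  rw [norm_inv, mul_add, mul_one]
  refine add_le_add ?_ ?_
  · rw [one_div]
    exact inv_anti₀ hh (by linarith)
  · rw [inv_mul_le_iff₀ h3, mul_one]
    exact h4

/-- The integrand of the primitive. -/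
theorem bl_int1 {β ψ : ℝ} (hε : ht ψ (ep β) < 0) {P : ℂ} (hP : P ∈ hp ψ 0) :
    IntegrableOn (fun x : ℝ => (Real.exp x : ℂ) ^ 2 * kx x / (phi β x P) ^ 2) (Ioi 0) := by
  have hd : 0 < ht ψ P := hP
  have hge : ∀ x : ℝ, 0 ≤ x → Real.exp x ^ 2 * ht ψ P ≤ ‖phi β x P‖ := fun x hx => by
    have := src_phi_ge (le_refl 0) hε.le (P := P) hx
    rwa [sub_zero] at this
  have hne : ∀ x : ℝ, 0 ≤ x → phi β x P ≠ 0 := fun x hx => by
    refine norm_pos_iff.1 (lt_of_lt_of_le ?_ (hge x hx))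
    have := Real.exp_pos x
    positivity
  have hcont : ContinuousOn (fun x : ℝ => (Real.exp x : ℂ) ^ 2 * kx x / (phi β x P) ^ 2)
      (Ioi 0) := by
    refine ContinuousOn.div ?_ ((src_continuous_phi β P).pow 2).continuousOn fun x hx =>
      pow_ne_zero 2 (hne x (le_of_lt hx))
    exact (((Complex.continuous_ofReal.comp Real.continuous_exp).pow 2).mul
      src_continuous_kx).continuousOn
  refine (lla_integrableOn_exp2.div_const (ht ψ P ^ 2)).mono'
    (hcont.aestronglyMeasurable measurableSet_Ioi) ?_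
  refine (ae_restrict_mem measurableSet_Ioi).mono fun x hx => ?_
  have hT : 0 < Real.exp x := Real.exp_pos x
  rw [norm_div, norm_mul, norm_kx, mul_one, norm_pow, norm_pow, Complex.norm_real,
    Real.norm_of_nonneg hT.le]
  have h3 : (Real.exp x ^ 2 * ht ψ P) ^ 2 ≤ ‖phi β x P‖ ^ 2 := by
    have := hge x (le_of_lt hx)
    gcongr
  calc Real.exp x ^ 2 / ‖phi β x P‖ ^ 2 ≤ Real.exp x ^ 2 / (Real.exp x ^ 2 * ht ψ P) ^ 2 := by
        gcongr
    _ = Real.exp (-(2 * x)) / ht ψ P ^ 2 := by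
        have e : Real.exp (-(2 * x)) = (Real.exp x ^ 2)⁻¹ := by
          rw [Real.exp_neg, two_mul, Real.exp_add, sq]
        rw [e]
        field_simp

/-- Integration by parts for `1/P`. -/
theorem bl_ibp {β ψ : ℝ} (hε : ht ψ (ep β) < 0) {P : ℂ} (hP : P ∈ hp ψ 0) :
    LL β (fun P : ℂ => P⁻¹) P =
      sg β 0 P * ∫ x in Ioi (0 : ℝ), (Real.exp x : ℂ) ^ 2 * kx x / (phi β x P) ^ 2 := by
  have hd : 0 < ht ψ P := hP
  have hok := bl_ok0 hε
  have hP0 := bl_ne_zero hP
  have hs0 : sg β 0 P ≠ 0 := sg_ne_zero hok le_rfl hP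
  have hge : ∀ x : ℝ, 0 ≤ x → Real.exp x ^ 2 * ht ψ P ≤ ‖phi β x P‖ := fun x hx => by
    have := src_phi_ge (le_refl 0) hε.le (P := P) hx
    rwa [sub_zero] at this
  have hne : ∀ x : ℝ, 0 ≤ x → phi β x P ≠ 0 := fun x hx => by
    refine norm_pos_iff.1 (lt_of_lt_of_le ?_ (hge x hx))
    have := Real.exp_pos x
    positivity
  have hsne : ∀ x : ℝ, 0 ≤ x → sg β x P ≠ 0 := fun x hx => sg_ne_zero hok hx hP
  set u : ℝ → ℂ := fun x => (Real.exp x : ℂ) * kx x / sg β x P * (phi β x P)⁻¹ with hu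
  set u' : ℝ → ℂ := fun x => (sg β 0 P)⁻¹ * (KK β x P * (phi β x P)⁻¹) -
    (Real.exp x : ℂ) ^ 2 * kx x / (phi β x P) ^ 2 with hu'
  have hder : ∀ x : ℝ, 0 ≤ x → HasDerivAt u (u' x) x := by
    intro x hx
    have h1 := hasDerivAt_kern (hsne x hx)
    have h2 := (hasDerivAt_phi_x β x P).inv (hne x hx)
    refine (h1.mul h2).congr_deriv ?_
    simp only [hu', Pi.inv_apply]
    unfold KK
    have e1 := hsne x hx
    have e2 := hne x hx
    field_simp
    ring
  have i1 := integrable_LL hok (bl_inv_diff ψ) (fun h hh => bl_inv_HB hh) hP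
  have i2 := bl_int1 hε hP
  have i3 : IntegrableOn u' (Ioi 0) := (i1.const_mul _).sub i2
  have hlim : Tendsto u atTop (𝓝 0) := by
    have hb : ∀ x : ℝ, 0 ≤ x → ‖u x‖ ≤ Real.exp (-x) * (1 / (2 * ht ψ P) * (1 / ht ψ P)) := by
      intro x hx
      have hT := one_le_exp hx
      have hT0 : 0 < Real.exp x := Real.exp_pos x
      have h1 := norm_sg_ge hok hx P
      rw [sub_zero] at h1
      simp only [hu]
      rw [norm_mul, norm_div, norm_mul, norm_kx, mul_one, Complex.norm_real,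
        Real.norm_of_nonneg hT0.le, norm_inv]
      have h2 : Real.exp x / ‖sg β x P‖ ≤ 1 / (2 * ht ψ P) := by
        rw [div_le_div_iff₀ (norm_pos_iff.2 (hsne x hx)) (by positivity)]
        linarith
      have h3 : ‖phi β x P‖⁻¹ ≤ Real.exp (-x) * (1 / ht ψ P) := by
        have h4 : Real.exp x * ht ψ P ≤ ‖phi β x P‖ := by
          refine le_trans ?_ (hge x hx)
          have : Real.exp x ≤ Real.exp x ^ 2 := by nlinarith
          exact mul_le_mul_of_nonneg_right this hd.le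
        refine (inv_anti₀ (by positivity) h4).trans (le_of_eq ?_)
        rw [mul_inv, Real.exp_neg, one_div]
      calc Real.exp x / ‖sg β x P‖ * ‖phi β x P‖⁻¹
          ≤ 1 / (2 * ht ψ P) * (Real.exp (-x) * (1 / ht ψ P)) :=
            mul_le_mul h2 h3 (by positivity) (by positivity)
        _ = _ := by ring
    have ht0 : Tendsto (fun x : ℝ => Real.exp (-x) * (1 / (2 * ht ψ P) * (1 / ht ψ P))) atTop
        (𝓝 0) := by
      have := (Real.tendsto_exp_neg_atTop_nhds_zero).mul_const (1 / (2 * ht ψ P) * (1 / ht ψ P))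
      rwa [zero_mul] at this
    refine squeeze_zero_norm' ?_ ht0
    filter_upwards [eventually_ge_atTop 0] with x hx
    exact hb x hx
  have key := integral_Ioi_of_hasDerivAt_of_tendsto (hder 0 le_rfl).continuousAt.continuousWithinAt
    (fun x hx => hder x (le_of_lt hx)) i3 hlim
  have hu0 : u 0 = (sg β 0 P)⁻¹ * P⁻¹ := by
    simp only [hu, phi_zero]
    unfold kx
    simp
  rw [hu0] at key
  have h5 : ∫ x in Ioi (0 : ℝ), u' x = (sg β 0 P)⁻¹ * (∫ x in Ioi (0 : ℝ), KK β x P *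
      (phi β x P)⁻¹) - ∫ x in Ioi (0 : ℝ), (Real.exp x : ℂ) ^ 2 * kx x / (phi β x P) ^ 2 := by
    simp only [hu']
    rw [integral_sub (i1.const_mul _) i2]
    congr 1
    exact integral_const_mul _ _
  rw [h5] at key
  have h6 : ∫ x in Ioi (0 : ℝ), KK β x P * (phi β x P)⁻¹ = sg β 0 P *
      (∫ x in Ioi (0 : ℝ), (Real.exp x : ℂ) ^ 2 * kx x / (phi β x P) ^ 2) - P⁻¹ := by
    have h7 : sg β 0 P * ((sg β 0 P)⁻¹ * (∫ x in Ioi (0 : ℝ), KK β x P *
      (phi β x P)⁻¹) - ∫ x in Ioi (0 : ℝ), (Real.exp x : ℂ) ^ 2 * kx x / (phi β x P) ^ 2) =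
      sg β 0 P * (0 - (sg β 0 P)⁻¹ * P⁻¹) := by rw [key]
    rw [mul_sub, mul_inv_cancel_left₀ hs0, mul_sub, mul_inv_cancel_left₀ hs0, mul_zero] at h7
    linear_combination h7
  unfold LL
  rw [h6]
  ring

/-- The logarithmic integral. -/
theorem bl_S {β ψ : ℝ} (hε : ht ψ (ep β) < 0) : ∃ C : ℝ, 0 ≤ C ∧ ∀ e : ℝ, 0 < e → e ≤ 1 →
    ∀ P : ℂ, e ≤ ht ψ P →
      ‖∫ x in Ioi (0 : ℝ), (Real.exp x : ℂ) ^ 2 * kx x * (x / (phi β x P) ^ 2)‖ ≤
        C * (1 + |Real.log e|) := by
  set c : ℝ := -ht ψ (ep β) with hcdef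
  have hc : 0 < c := by
    rw [hcdef]
    linarith
  refine ⟨1 / c + 1 / c ^ 2 + 4 / c ^ 2, by positivity, fun e he he1 P hP => ?_⟩
  have hφ : ∀ x : ℝ, 0 ≤ x → Real.exp x ^ 2 * e + c * (Real.exp x * (Real.exp x - 1)) ≤
      ‖phi β x P‖ := by
    intro x hx
    refine le_trans ?_ (ht_le ψ (phi β x P))
    rw [ht_phi]
    have : Real.exp x ^ 2 * e ≤ Real.exp x ^ 2 * ht ψ P := by
      have := Real.exp_pos x
      gcongr
    have h2 : c * (Real.exp x * (Real.exp x - 1)) =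
      -(Real.exp x * (Real.exp x - 1) * ht ψ (ep β)) := by rw [hcdef]; ring
    linarith
  -- pointwise bounds
  have hb1 : ∀ x : ℝ, 0 < x → ‖(Real.exp x : ℂ) ^ 2 * kx x * (x / (phi β x P) ^ 2)‖ ≤
      c⁻¹ * (e + c * x)⁻¹ := by
    intro x hx
    have hT := one_le_exp hx.le
    have hTx := Real.add_one_le_exp x
    have h1 := hφ x hx.le
    set T := Real.exp x with hTd
    have h2 : T * (e + c * x) ≤ ‖phi β x P‖ := by
      refine le_trans ?_ h1
      have e1 : T * e ≤ T ^ 2 * e := by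
        have : T ≤ T ^ 2 := by nlinarith
        gcongr
      have e2 : T * (c * x) ≤ c * (T * (T - 1)) := by
        have : x ≤ T - 1 := by linarith
        have h3 : T * x ≤ T * (T - 1) := by gcongr
        nlinarith
      linarith
    have hex : 0 < e + c * x := by positivity
    rw [norm_mul, norm_mul, norm_kx, mul_one, norm_pow, Complex.norm_real,
      Real.norm_of_nonneg (by linarith), norm_div, norm_pow, Complex.norm_real,
      Real.norm_of_nonneg hx.le]
    have h3 : (T * (e + c * x)) ^ 2 ≤ ‖phi β x P‖ ^ 2 := by gcongr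
    calc T ^ 2 * (x / ‖phi β x P‖ ^ 2) ≤ T ^ 2 * (x / (T * (e + c * x)) ^ 2) := by gcongr
      _ = x / (e + c * x) ^ 2 := by
          field_simp
      _ ≤ c⁻¹ * (e + c * x)⁻¹ := by
          rw [div_le_iff₀ (by positivity)]
          have : c⁻¹ * (e + c * x)⁻¹ * (e + c * x) ^ 2 = c⁻¹ * e + x := by
            field_simp
          rw [this]
          have : 0 < c⁻¹ * e := by positivity
          linarith
  have hb2 : ∀ x : ℝ, 1 < x → ‖(Real.exp x : ℂ) ^ 2 * kx x * (x / (phi β x P) ^ 2)‖ ≤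
      4 / c ^ 2 * Real.exp (-x) := by
    intro x hx
    have hx0 : 0 < x := by linarith
    have hTx := Real.add_one_le_exp x
    have h1 := hφ x hx0.le
    set T := Real.exp x with hTd
    have hT2 : 2 ≤ T := by linarith
    have h2 : c * T ^ 2 / 2 ≤ ‖phi β x P‖ := by
      refine le_trans ?_ h1
      have e1 : 0 ≤ T ^ 2 * e := by positivity
      have e2 : T ^ 2 / 2 ≤ T * (T - 1) := by nlinarith
      nlinarith
    rw [norm_mul, norm_mul, norm_kx, mul_one, norm_pow, Complex.norm_real,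
      Real.norm_of_nonneg (by linarith), norm_div, norm_pow, Complex.norm_real,
      Real.norm_of_nonneg hx0.le]
    have h3 : (c * T ^ 2 / 2) ^ 2 ≤ ‖phi β x P‖ ^ 2 := by gcongr
    have hT0 : 0 < T := by linarith
    calc T ^ 2 * (x / ‖phi β x P‖ ^ 2) ≤ T ^ 2 * (T / (c * T ^ 2 / 2) ^ 2) := by
          have : x ≤ T := by linarith
          gcongr
      _ = 4 / c ^ 2 * Real.exp (-x) := by
          rw [Real.exp_neg, ← hTd]
          field_simp
          norm_num
  -- the two pieces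
  have hcontE : Continuous fun x : ℝ => e + c * x := by fun_prop
  have hi1 : IntegrableOn (fun x : ℝ => c⁻¹ * (e + c * x)⁻¹) (Ioc 0 1) := by
    have : ContinuousOn (fun x : ℝ => c⁻¹ * (e + c * x)⁻¹) (Icc 0 1) := by
      refine continuousOn_const.mul (hcontE.continuousOn.inv₀ fun x hx => ?_)
      have : 0 ≤ x := hx.1
      positivity
    exact (this.integrableOn_Icc).mono_set Ioc_subset_Icc_self
  have hi2 : IntegrableOn (fun x : ℝ => 4 / c ^ 2 * Real.exp (-x)) (Ioi 1) := by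
    have h := integrableOn_exp_mul_Ioi (a := -1) (by norm_num) 1
    have h2 : IntegrableOn (fun x : ℝ => Real.exp (-x)) (Ioi 1) := by
      refine h.congr_fun (fun x _ => ?_) measurableSet_Ioi
      simp only
      congr 1
      ring
    exact h2.const_mul _
  have v1 : ∫ x in Ioc (0 : ℝ) 1, c⁻¹ * (e + c * x)⁻¹ ≤ (1 / c + 1 / c ^ 2) *
      (1 + |Real.log e|) := by
    rw [← intervalIntegral.integral_of_le zero_le_one, intervalIntegral.integral_const_mul,
      intervalIntegral.integral_comp_add_mul (fun y => y⁻¹) hc.ne' e, mul_zero, add_zero, mul_one,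
      integral_inv_of_pos he (by positivity), smul_eq_mul,
      Real.log_div (by positivity) he.ne']
    have h1 : Real.log (e + c) ≤ c := by
      have := Real.log_le_sub_one_of_pos (show 0 < e + c by positivity)
      linarith
    have h2 : -Real.log e ≤ |Real.log e| := neg_le_abs _
    have h3 : Real.log (e + c) - Real.log e ≤ c + |Real.log e| := by linarith
    have h4 : 0 ≤ |Real.log e| := abs_nonneg _
    calc c⁻¹ * (c⁻¹ * (Real.log (e + c) - Real.log e)) ≤ c⁻¹ * (c⁻¹ * (c + |Real.log e|)) := by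
          gcongr
      _ = 1 / c + 1 / c ^ 2 * |Real.log e| := by
          field_simp
      _ ≤ (1 / c + 1 / c ^ 2) * (1 + |Real.log e|) := by
          have : 0 ≤ 1 / c * |Real.log e| := by positivity
          have : 0 ≤ 1 / c ^ 2 := by positivity
          nlinarith
  have v2 : ∫ x in Ioi (1 : ℝ), 4 / c ^ 2 * Real.exp (-x) ≤ 4 / c ^ 2 * (1 + |Real.log e|) := by
    rw [integral_const_mul]
    have h1 : ∫ x in Ioi (1 : ℝ), Real.exp (-x) = Real.exp (-1) := integral_exp_neg_Ioi 1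
    rw [h1]
    have h2 : Real.exp (-1) ≤ 1 := Real.exp_le_one_iff.2 (by norm_num)
    have h3 : 0 ≤ |Real.log e| := abs_nonneg _
    have : Real.exp (-1) ≤ 1 + |Real.log e| := by linarith
    gcongr
  have hmeas : ContinuousOn (fun x : ℝ => (Real.exp x : ℂ) ^ 2 * kx x * (x / (phi β x P) ^ 2))
      (Ioi 0) := by
    refine ContinuousOn.mul ?_ (ContinuousOn.div ?_ ?_ ?_)
    · exact (((Complex.continuous_ofReal.comp Real.continuous_exp).pow 2).mul
        src_continuous_kx).continuousOn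
    · exact Complex.continuous_ofReal.continuousOn
    · exact ((src_continuous_phi β P).pow 2).continuousOn
    · intro x hx
      have hx0 : 0 < x := hx
      refine pow_ne_zero 2 (norm_pos_iff.1 (lt_of_lt_of_le ?_ (hφ x hx0.le)))
      have := Real.exp_pos x
      have h2 := one_le_exp hx0.le
      have h3 : 0 ≤ c * (Real.exp x * (Real.exp x - 1)) := by
        have : 0 ≤ Real.exp x - 1 := by linarith
        positivity
      have : 0 < Real.exp x ^ 2 * e := by positivity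
      linarith
  have j1 : IntegrableOn (fun x : ℝ => (Real.exp x : ℂ) ^ 2 * kx x * (x / (phi β x P) ^ 2))
      (Ioc 0 1) := by
    refine hi1.mono' ((hmeas.mono Ioc_subset_Ioi_self).aestronglyMeasurable measurableSet_Ioc) ?_
    exact (ae_restrict_mem measurableSet_Ioc).mono fun x hx => hb1 x hx.1
  have j2 : IntegrableOn (fun x : ℝ => (Real.exp x : ℂ) ^ 2 * kx x * (x / (phi β x P) ^ 2))
      (Ioi 1) := by
    refine hi2.mono' ((hmeas.mono (Ioi_subset_Ioi zero_le_one)).aestronglyMeasurable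
      measurableSet_Ioi) ?_
    exact (ae_restrict_mem measurableSet_Ioi).mono fun x hx => hb2 x hx
  rw [← Ioc_union_Ioi_eq_Ioi (zero_le_one' ℝ), setIntegral_union (Ioc_disjoint_Ioi le_rfl)
    measurableSet_Ioi j1 j2]
  refine (norm_add_le _ _).trans ?_
  have k1 : ‖∫ x in Ioc (0 : ℝ) 1, (Real.exp x : ℂ) ^ 2 * kx x * (x / (phi β x P) ^ 2)‖ ≤
      ∫ x in Ioc (0 : ℝ) 1, c⁻¹ * (e + c * x)⁻¹ :=
    norm_integral_le_of_norm_le hi1
      ((ae_restrict_mem measurableSet_Ioc).mono fun x hx => hb1 x hx.1)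
  have k2 : ‖∫ x in Ioi (1 : ℝ), (Real.exp x : ℂ) ^ 2 * kx x * (x / (phi β x P) ^ 2)‖ ≤
      ∫ x in Ioi (1 : ℝ), 4 / c ^ 2 * Real.exp (-x) :=
    norm_integral_le_of_norm_le hi2
      ((ae_restrict_mem measurableSet_Ioi).mono fun x hx => hb2 x hx)
  nlinarith

/-- Behaviour at the source point `P = 0` when the other side is bounded.

Proof. `F' = F + iβ/P`. Integration by parts for `1/P` gives
`LL β (1/P) P / σ_0 = ∫ e^{2x} k_x / φ_x² dx`, hence `LL β F' P / σ_0 = G P + S P` with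
`S P = ∫ e^{2x} k_x x / φ_x² dx`, that is `F' P = σ_0 (G P + S P) - ∫ KK β x P * F' (φ_x P) dx`.
Let `c = - ht ψ (ep β) > 0`. Then `‖φ_x P‖ ≥ ht (φ_x P) = e^{2x} ht P + c e^x (e^x - 1)`, so
`‖S P‖ ≤ C (1 + |log e|)` for `ht P ≥ e`, `0 < e ≤ 1`. `Ok β ψ (-c/2)` and `norm_KK_le` with `δ = c/2`
give `‖KK β x P‖ ≤ C₀` on all of `ht P ≥ 0`. Put
`M e = sup {‖F' P‖ / (1 + ‖P‖) : ht P ≥ e}` (finite by `hFb`). Split the integral at `x₁`:
for `x ≤ x₁` use `ht (φ_x P) ≥ ht P` and `1 + ‖φ_x P‖ ≤ 2 e^{2x₁} (1 + ‖P‖)`, with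
`2 C₀ x₁ e^{2x₁} ≤ 1/2`; for `x ≥ x₁` one has `ht (φ_x P) ≥ c e^x (e^x - 1)`, so `‖F'(φ_x P)‖ ≤ C e^{-2x}`
by `hFb`. Hence `M e ≤ C (1 + |log e|) + M e / 2`; apply with `e = min 1 (ht P)`. -/
theorem base_lemma {β ψ : ℝ} (hε : ht ψ (ep β) < 0) {F G : ℂ → ℂ}
    (hF : DifferentiableOn ℂ F (hp ψ 0)) (hFb : ∀ h > 0, HB ψ h F)
    (hG : ∃ C : ℝ, ∀ P ∈ hp ψ 0, ‖G P‖ ≤ C)
    (heq : ∀ P ∈ hp ψ 0, LL β F P / sg β 0 P + src β P = G P) :
    ∃ C : ℝ, ∀ P ∈ hp ψ 0, ‖P‖ ≤ 1 →
      ‖F P + β * Complex.I / P‖ ≤ C * (1 + |Real.log (ht ψ P)|) := by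
  set c : ℝ := -ht ψ (ep β) with hcdef
  have hc : 0 < c := by
    rw [hcdef]
    linarith
  have hok := bl_ok0 hε
  obtain ⟨CG, hCG⟩ := hG
  obtain ⟨CS, hCS0, hCS⟩ := bl_S hε
  have hCG0 : 0 ≤ CG := by
    obtain ⟨P, hP⟩ := nonempty_hp ψ 0
    exact (norm_nonneg _).trans (hCG P hP)
  set F' : ℂ → ℂ := fun P => F P + β * Complex.I * P⁻¹ with hF'def
  have hF'd : DifferentiableOn ℂ F' (hp ψ 0) := hF.add ((bl_inv_diff ψ).const_mul _)
  have hF'b : ∀ h > 0, HB ψ h F' := by
    intro h hh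
    obtain ⟨M1, hM1⟩ := hFb h hh
    obtain ⟨M2, hM2⟩ := bl_inv_HB (ψ := ψ) hh
    refine ⟨M1 + |β| * M2, fun P hP => ?_⟩
    have h1 := hM1 P hP
    have h2 := hM2 P hP
    have h3 : ‖F' P‖ ≤ ‖F P‖ + |β| * ‖P⁻¹‖ := by
      simp only [hF'def]
      refine (norm_add_le _ _).trans ?_
      rw [norm_mul, norm_mul, Complex.norm_I, mul_one, Complex.norm_real, Real.norm_eq_abs]
    have h4 : 0 ≤ 1 + |ht ψ P| := by positivity
    calc ‖F' P‖ * (1 + |ht ψ P|) ≤ (‖F P‖ + |β| * ‖P⁻¹‖) * (1 + |ht ψ P|) := by gcongr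
      _ = ‖F P‖ * (1 + |ht ψ P|) + |β| * (‖P⁻¹‖ * (1 + |ht ψ P|)) := by ring
      _ ≤ M1 + |β| * M2 := by
          have : |β| * (‖P⁻¹‖ * (1 + |ht ψ P|)) ≤ |β| * M2 := by
            exact mul_le_mul_of_nonneg_left h2 (abs_nonneg _)
          linarith
  -- the equation for `F'`
  have hcore : ∀ P ∈ hp ψ 0, F' P = sg β 0 P * (G P +
      ∫ x in Ioi (0 : ℝ), (Real.exp x : ℂ) ^ 2 * kx x * (x / (phi β x P) ^ 2)) -
      ∫ x in Ioi (0 : ℝ), KK β x P * F' (phi β x P) := by
    intro P hP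
    have hs0 : sg β 0 P ≠ 0 := sg_ne_zero hok le_rfl hP
    have i1 := integrable_LL hok hF hFb hP
    have i2 := integrable_LL hok (bl_inv_diff ψ) (fun h hh => bl_inv_HB hh) hP
    have h1 : LL β F' P = LL β F P + β * Complex.I * LL β (fun P : ℂ => P⁻¹) P := by
      unfold LL
      have : ∫ x in Ioi (0 : ℝ), KK β x P * F' (phi β x P) =
          (∫ x in Ioi (0 : ℝ), KK β x P * F (phi β x P)) + β * Complex.I *
            ∫ x in Ioi (0 : ℝ), KK β x P * (phi β x P)⁻¹ := by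
        rw [← integral_const_mul, ← integral_add i1 (i2.const_mul _)]
        refine integral_congr_ae (Eventually.of_forall fun x => ?_)
        simp only [hF'def]
        ring
      rw [this]
      simp only [hF'def]
      ring
    rw [bl_ibp hε hP] at h1
    have h2 := heq P hP
    have i3 := bl_int1 hε hP
    have i4 := integrable_src (le_refl 0) hε.le hP
    have h3 : ∫ x in Ioi (0 : ℝ), (Real.exp x : ℂ) ^ 2 * kx x * (x / (phi β x P) ^ 2) =
        β * Complex.I * (∫ x in Ioi (0 : ℝ), (Real.exp x : ℂ) ^ 2 * kx x / (phi β x P) ^ 2) -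
          src β P := by
      unfold src
      rw [← integral_const_mul, ← integral_sub (i3.const_mul _) i4]
      refine integral_congr_ae (Eventually.of_forall fun x => ?_)
      simp only
      ring
    have h4 : LL β F P = sg β 0 P * (G P - src β P) := by
      rw [← h2]
      field_simp
      ring
    rw [h4] at h1
    have h5 : F' P = LL β F' P - ∫ x in Ioi (0 : ℝ), KK β x P * F' (phi β x P) := by
      unfold LL
      ring
    rw [h5, h1, h3]
    ring
  -- constants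
  set C₀ : ℝ := (1 + 1 / (2 * (-ht ψ (ep β) / 2))) ^ 2 with hC₀
  have hC₀1 : 1 ≤ C₀ := by
    have : 0 < 1 / (2 * (-ht ψ (ep β) / 2)) := by
      have : 0 < 2 * (-ht ψ (ep β) / 2) := by linarith
      positivity
    rw [hC₀]
    nlinarith
  set x₁ : ℝ := 1 / (16 * C₀) with hx₁
  have hx₁0 : 0 < x₁ := by positivity
  have hx₁1 : x₁ ≤ 1 / 2 := by
    rw [hx₁, div_le_div_iff₀ (by positivity) (by norm_num)]
    linarith
  have hex₁ : Real.exp x₁ ^ 2 ≤ 4 := by
    have h1 : Real.exp x₁ ^ 2 = Real.exp (2 * x₁) := by rw [two_mul, Real.exp_add, sq]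
    rw [h1]
    have h2 : Real.exp (2 * x₁) ≤ Real.exp 1 := Real.exp_le_exp.2 (by linarith)
    have h3 := Real.exp_one_lt_d9
    linarith
  -- the far part
  set c' : ℝ := c * (1 - Real.exp (-x₁)) with hc'
  have hc'0 : 0 < c' := by
    have : Real.exp (-x₁) < 1 := by
      have h9 := Real.exp_lt_exp.2 (show -x₁ < 0 by linarith)
      rwa [Real.exp_zero] at h9
    have h2 : 0 < 1 - Real.exp (-x₁) := by linarith
    positivity
  obtain ⟨M1, hM1⟩ := hF'b (c' / 2) (by positivity)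
  have hM10 : 0 ≤ M1 := by
    obtain ⟨P, hP⟩ := nonempty_hp ψ (c' / 2)
    exact le_trans (by positivity) (hM1 P hP)
  have hfar : ∀ P : ℂ, 0 < ht ψ P → ∀ x : ℝ, x₁ < x →
      ‖KK β x P * F' (phi β x P)‖ ≤ C₀ * (M1 / c') * Real.exp (-(2 * x)) := by
    intro P hP x hx
    have hx0 : 0 ≤ x := by linarith
    have hT0 := Real.exp_pos x
    have h1 : c' * Real.exp x ^ 2 ≤ ht ψ (phi β x P) := by
      rw [ht_phi]
      have e1 : Real.exp (-x₁) * Real.exp x ≥ 1 := by
        rw [← Real.exp_add]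
        exact Real.one_le_exp (by linarith)
      have e2 : 0 ≤ Real.exp x ^ 2 * ht ψ P := by positivity
      have e3 : c' * Real.exp x ^ 2 ≤ c * (Real.exp x * (Real.exp x - 1)) := by
        rw [hc']
        have : Real.exp x * 1 ≤ Real.exp x * (Real.exp (-x₁) * Real.exp x) := by gcongr
        nlinarith
      have e4 : c * (Real.exp x * (Real.exp x - 1)) =
        -(Real.exp x * (Real.exp x - 1) * ht ψ (ep β)) := by rw [hcdef]; ring
      linarith
    have h2 : phi β x P ∈ hp ψ (c' / 2) := by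
      show c' / 2 < ht ψ (phi β x P)
      have h3 : 1 ≤ Real.exp x ^ 2 := by
        have := one_le_exp hx0
        nlinarith
      nlinarith
    have h3 := hM1 _ h2
    have h4 : ‖F' (phi β x P)‖ ≤ M1 / c' * Real.exp (-(2 * x)) := by
      have e : Real.exp (-(2 * x)) = (Real.exp x ^ 2)⁻¹ := by
        rw [Real.exp_neg, two_mul, Real.exp_add, sq]
      rw [e, ← div_eq_mul_inv, div_div, le_div_iff₀ (by positivity)]
      refine le_trans ?_ h3
      have h5 : c' * Real.exp x ^ 2 ≤ 1 + |ht ψ (phi β x P)| := by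
        have := le_abs_self (ht ψ (phi β x P))
        linarith
      gcongr
    rw [norm_mul, mul_assoc]
    exact mul_le_mul (bl_KK hε hP.le hx0) h4 (norm_nonneg _) (by positivity)
  set J : ℝ := ∫ x in Ioi x₁, C₀ * (M1 / c') * Real.exp (-(2 * x)) with hJ
  have hJ0 : 0 ≤ J := by
    refine setIntegral_nonneg measurableSet_Ioi fun x _ => ?_
    positivity
  have hfarI : IntegrableOn (fun x : ℝ => C₀ * (M1 / c') * Real.exp (-(2 * x))) (Ioi x₁) :=
    (lla_integrableOn_exp2.mono_set (Ioi_subset_Ioi hx₁0.le)).const_mul _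
  -- the main estimate
  have main : ∀ e : ℝ, 0 < e → e ≤ 1 → ∀ P : ℂ, e ≤ ht ψ P →
      ‖F' P‖ ≤ (1 + ‖P‖) * (2 * (2 * (CG + CS * (1 + |Real.log e|)) + J)) := by
    intro e he he1
    set A : ℝ := 2 * (CG + CS * (1 + |Real.log e|)) + J with hA
    have hA0 : 0 ≤ A := by positivity
    set S : Set ℝ := (fun P : ℂ => ‖F' P‖ / (1 + ‖P‖)) '' {P : ℂ | e ≤ ht ψ P} with hS
    have hSne : S.Nonempty := by
      obtain ⟨P, hP⟩ := exists_ht ψ e
      exact ⟨_, P, hP.ge, rfl⟩
    have hSb : BddAbove S := by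
      obtain ⟨M, hM⟩ := hF'b (e / 2) (by positivity)
      refine ⟨M, ?_⟩
      rintro _ ⟨P, hP, rfl⟩
      have hPe : e ≤ ht ψ P := hP
      have h1 := hM P (by show e / 2 < ht ψ P; linarith)
      have h2 : ‖F' P‖ ≤ M := by
        have : 0 ≤ ‖F' P‖ * |ht ψ P| := by positivity
        linarith
      refine (div_le_self (norm_nonneg _) ?_).trans h2
      linarith [norm_nonneg P]
    set s : ℝ := sSup S with hs
    have hle : ∀ P : ℂ, e ≤ ht ψ P → ‖F' P‖ ≤ s * (1 + ‖P‖) := by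
      intro P hP
      have : ‖F' P‖ / (1 + ‖P‖) ≤ s := le_csSup hSb ⟨P, hP, rfl⟩
      rwa [div_le_iff₀ (by positivity)] at this
    have hs0 : 0 ≤ s := by
      obtain ⟨P, hP⟩ := exists_ht ψ e
      have : ‖F' P‖ / (1 + ‖P‖) ≤ s := le_csSup hSb ⟨P, hP.ge, rfl⟩
      exact le_trans (by positivity) this
    have hstep : s ≤ A + s / 2 := by
      refine csSup_le hSne ?_
      rintro _ ⟨P, hP, rfl⟩
      have hPe : e ≤ ht ψ P := hP
      have hP0 : P ∈ hp ψ 0 := by
        show 0 < ht ψ P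
        linarith
      have hP0' : 0 < ht ψ P := hP0
      simp only
      rw [div_le_iff₀ (by positivity), hcore P hP0]
      have i1 := integrable_LL hok hF'd hF'b hP0
      have n1 : ‖sg β 0 P‖ ≤ 2 * (1 + ‖P‖) := by
        unfold sg
        rw [Real.exp_zero]
        simp only [Complex.ofReal_one, mul_one]
        refine (norm_sub_le _ _).trans ?_
        rw [norm_mul, norm_mul, norm_ep]
        norm_num
        linarith [norm_nonneg P]
      have n2 : ‖G P + ∫ x in Ioi (0 : ℝ), (Real.exp x : ℂ) ^ 2 * kx x *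
          (x / (phi β x P) ^ 2)‖ ≤ CG + CS * (1 + |Real.log e|) :=
        (norm_add_le _ _).trans (add_le_add (hCG P hP0) (hCS e he he1 P hPe))
      have n3 : ‖∫ x in Ioi (0 : ℝ), KK β x P * F' (phi β x P)‖ ≤ s / 2 * (1 + ‖P‖) + J := by
        rw [← Ioc_union_Ioi_eq_Ioi hx₁0.le, setIntegral_union (Ioc_disjoint_Ioi le_rfl)
          measurableSet_Ioi (i1.mono_set Ioc_subset_Ioi_self)
          (i1.mono_set (Ioi_subset_Ioi hx₁0.le))]
        refine (norm_add_le _ _).trans (add_le_add ?_ ?_)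
        · have hb : ∀ x ∈ Ioc (0 : ℝ) x₁, ‖KK β x P * F' (phi β x P)‖ ≤
              C₀ * (s * (4 * (1 + ‖P‖))) := by
            intro x hx
            rw [norm_mul]
            refine mul_le_mul (bl_KK hε hP0'.le hx.1.le) ?_ (norm_nonneg _) (by positivity)
            have h1 : e ≤ ht ψ (phi β x P) := hPe.trans (ht_le_ht_phi hok hx.1.le hP0'.le)
            refine (hle _ h1).trans ?_
            refine mul_le_mul_of_nonneg_left ?_ hs0
            have hT := one_le_exp hx.1.le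
            have hT4 : Real.exp x ^ 2 ≤ 4 := by
              refine le_trans ?_ hex₁
              have := Real.exp_le_exp.2 hx.2
              gcongr
            have h2 : ‖phi β x P‖ ≤ Real.exp x ^ 2 * ‖P‖ + Real.exp x * (Real.exp x - 1) := by
              unfold phi
              refine (norm_sub_le _ _).trans ?_
              rw [norm_mul, norm_mul, norm_mul, norm_pow, norm_ep, Complex.norm_real,
                Real.norm_of_nonneg (Real.exp_pos x).le,
                show (((Real.exp x : ℝ) : ℂ) - 1) = ((Real.exp x - 1 : ℝ) : ℂ) by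
                  push_cast; ring, Complex.norm_real, Real.norm_of_nonneg (by linarith), one_mul]
            have h3 : 1 + ‖phi β x P‖ ≤ Real.exp x ^ 2 * (1 + ‖P‖) := by nlinarith
            have h4 : Real.exp x ^ 2 * (1 + ‖P‖) ≤ 4 * (1 + ‖P‖) := by gcongr
            linarith
          have hv : volume (Ioc (0 : ℝ) x₁) < ⊤ := by
            rw [Real.volume_Ioc]
            exact ENNReal.ofReal_lt_top
          have h5 := norm_setIntegral_le_of_norm_le_const hv hb
          have h6 : volume.real (Ioc (0 : ℝ) x₁) = x₁ := by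
            rw [Real.volume_real_Ioc_of_le hx₁0.le, sub_zero]
          rw [h6] at h5
          have h7 : C₀ * (s * (4 * (1 + ‖P‖))) * x₁ = s / 4 * (1 + ‖P‖) := by
            rw [hx₁]
            have hC₀ne : C₀ ≠ 0 := by positivity
            field_simp
            norm_num
          have h8 : 0 ≤ s * (1 + ‖P‖) := by positivity
          linarith
        · exact norm_integral_le_of_norm_le hfarI
            ((ae_restrict_mem measurableSet_Ioi).mono fun x hx => hfar P hP0' x hx)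
      refine (norm_sub_le _ _).trans ?_
      rw [norm_mul]
      have n4 : ‖sg β 0 P‖ * ‖G P + ∫ x in Ioi (0 : ℝ), (Real.exp x : ℂ) ^ 2 * kx x *
          (x / (phi β x P) ^ 2)‖ ≤ 2 * (1 + ‖P‖) * (CG + CS * (1 + |Real.log e|)) :=
        mul_le_mul n1 n2 (norm_nonneg _) (by positivity)
      have n5 : J ≤ J * (1 + ‖P‖) := by
        have := mul_nonneg hJ0 (norm_nonneg P)
        linarith
      rw [hA]
      nlinarith
    intro P hP
    have h1 : s ≤ 2 * A := by linarith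
    calc ‖F' P‖ ≤ s * (1 + ‖P‖) := hle P hP
      _ ≤ 2 * A * (1 + ‖P‖) := by gcongr
      _ = _ := by ring
  -- conclusion
  refine ⟨2 * (2 * (2 * (CG + CS) + J)), fun P hP hP1 => ?_⟩
  have h0 : 0 < ht ψ P := hP
  have h1 : ht ψ P ≤ 1 := (ht_le ψ P).trans hP1
  have h2 := main (ht ψ P) h0 h1 P le_rfl
  have h3 : F P + β * Complex.I / P = F' P := by
    simp only [hF'def]
    rw [div_eq_mul_inv]
  rw [h3]
  have h4 : 0 ≤ |Real.log (ht ψ P)| := abs_nonneg _
  set ll : ℝ := |Real.log (ht ψ P)| with hll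
  have h5 : (1 + ‖P‖) ≤ 2 := by linarith
  have h6 : 2 * (2 * (CG + CS * (1 + ll)) + J) ≤ 2 * (2 * (CG + CS) + J) * (1 + ll) := by
    nlinarith [mul_nonneg hCG0 h4, mul_nonneg hCS0 h4, mul_nonneg hJ0 h4]
  have h7 : 0 ≤ 2 * (2 * (CG + CS * (1 + ll)) + J) := by positivity
  calc ‖F' P‖ ≤ (1 + ‖P‖) * (2 * (2 * (CG + CS * (1 + ll)) + J)) := h2
    _ ≤ 2 * (2 * (2 * (CG + CS * (1 + ll)) + J)) := by gcongr
    _ ≤ 2 * (2 * (2 * (CG + CS) + J) * (1 + ll)) := by gcongr
    _ = _ := by ring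

end Pool.Agent.Worm.SB
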