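import Mathlib
import Pool.Agent.WormS.Kern

/-!
# Orbits of the rotation cannot stay in the wedge (problem MP_3c4b73_an)
-/

open MeasureTheory Set Filter Topology Metric
open scoped Real ENNReal Interval ComplexConjugate

namespace Pool.Agent.Worm.SB

theorem exp4b_ne_one {b : ℝ} (hb : b ≠ 0) (hb1 : |b| < π) (hc : Real.cos b ≠ 0) :
    Complex.exp (4 * b * Complex.I) ≠ 1 := by
  intro h
  rw [Complex.exp_eq_one_iff] at h
  obtain ⟨n, hn⟩ := h
  have h1 : (4 * b : ℂ) = n * (2 * π) := by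
    have h2 : (4 * (b : ℂ)) * Complex.I = (n * (2 * π)) * Complex.I := by
      rw [hn]; ring
    exact mul_right_cancel₀ Complex.I_ne_zero h2
  have h3 : 4 * b = n * (2 * π) := by exact_mod_cast h1
  have hpi := Real.pi_pos
  have hn1 : (|n| : ℝ) < 2 := by
    have h4 : |4 * b| = |(n : ℝ)| * (2 * π) := by
      rw [h3, abs_mul, abs_of_pos (by positivity : (0:ℝ) < 2 * π)]
    rw [abs_mul, abs_of_pos (by norm_num : (0:ℝ) < 4)] at h4
    by_contra h5
    push Not at h5
    nlinarith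
  have hn2 : |n| < 2 := by exact_mod_cast hn1
  rw [abs_lt] at hn2
  have hn3 : n = -1 ∨ n = 0 ∨ n = 1 := by omega
  rcases hn3 with h6 | h6 | h6
  · apply hc
    have h7 : b = -(π / 2) := by
      rw [h6] at h3; push_cast at h3; linarith
    rw [h7, Real.cos_neg, Real.cos_pi_div_two]
  · apply hb
    rw [h6] at h3; push_cast at h3; linarith
  · apply hc
    have h7 : b = π / 2 := by
      rw [h6] at h3; push_cast at h3; linarith
    rw [h7, Real.cos_pi_div_two]

/-- No orbit of the rotation by `4b` stays in the wedge `Re (e^{±ib} u) ≤ 0`.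

Proof. `ω = e^{4ib} ≠ 1` (`0 < |b| < π`, `cos b ≠ 0`). For `w = x + iy` in the wedge
`x cos b ≤ -|y sin b|`, hence `x cos b ≤ 0` and `|x| ≥ |sin b| |w|`. So the real parts of `ω^j u` have
constant sign and modulus `≥ |sin b| |u| > 0`, while `|∑_{j<J} ω^j u| ≤ 2|u|/|ω - 1|`. -/
theorem no_orbit {b : ℝ} (hb : b ≠ 0) (hb1 : |b| < π) (hc : Real.cos b ≠ 0) {u : ℂ} (hu : u ≠ 0)
    (h : ∀ j : ℕ, (Complex.exp (b * Complex.I) *
        (Complex.exp (4 * b * Complex.I) ^ j * u)).re ≤ 0 ∧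
      (Complex.exp (-(b * Complex.I)) * (Complex.exp (4 * b * Complex.I) ^ j * u)).re ≤ 0) :
    False := by
  have hω : Complex.exp (4 * b * Complex.I) ≠ 1 := exp4b_ne_one hb hb1 hc
  have hωn : ‖Complex.exp (4 * b * Complex.I)‖ = 1 := by
    rw [Complex.norm_exp]
    simp
  set ω := Complex.exp (4 * b * Complex.I) with hωdef
  have hs : Real.sin b ≠ 0 := by
    intro hs0
    rcases lt_or_gt_of_ne hb with hlt | hgt
    · have := Real.sin_neg_of_neg_of_neg_pi_lt hlt (by rw [abs_lt] at hb1; linarith)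
      linarith
    · have := Real.sin_pos_of_pos_of_lt_pi hgt (by rw [abs_lt] at hb1; linarith)
      linarith
  have hsc : Real.sin b ^ 2 + Real.cos b ^ 2 = 1 := Real.sin_sq_add_cos_sq b
  -- real parts
  have key : ∀ w : ℂ, (Complex.exp (b * Complex.I) * w).re ≤ 0 →
      (Complex.exp (-(b * Complex.I)) * w).re ≤ 0 →
      |Real.cos b| * |Real.sin b| * ‖w‖ ≤ -(Real.cos b * w.re) := by
    intro w h1 h2
    have e1 : Complex.exp (b * Complex.I) = Real.cos b + Real.sin b * Complex.I := by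
      rw [Complex.exp_mul_I]; simp
    have e2 : Complex.exp (-(b * Complex.I)) = Real.cos b - Real.sin b * Complex.I := by
      rw [show -((b : ℂ) * Complex.I) = ((-b : ℝ) : ℂ) * Complex.I by push_cast; ring,
        Complex.exp_mul_I]
      simp [sub_eq_add_neg]
    rw [e1] at h1
    rw [e2] at h2
    simp only [Complex.mul_re, Complex.add_re, Complex.sub_re, Complex.add_im, Complex.sub_im,
      Complex.ofReal_re, Complex.ofReal_im, Complex.mul_im, Complex.I_re, Complex.I_im] at h1 h2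
    have h1' : Real.cos b * w.re - Real.sin b * w.im ≤ 0 := by linarith
    have h2' : Real.cos b * w.re + Real.sin b * w.im ≤ 0 := by linarith
    have h3 : (Real.sin b * w.im) ^ 2 ≤ (Real.cos b * w.re) ^ 2 := by nlinarith
    have hn : ‖w‖ ^ 2 = w.re ^ 2 + w.im ^ 2 := by
      rw [← Complex.normSq_eq_norm_sq, Complex.normSq_apply]; ring
    have h4 : (|Real.cos b| * |Real.sin b| * ‖w‖) ^ 2 ≤ (-(Real.cos b * w.re)) ^ 2 := by
      rw [mul_pow, mul_pow, sq_abs, sq_abs, hn]
      have h5 : Real.sin b ^ 2 * (w.re ^ 2 + w.im ^ 2) ≤ w.re ^ 2 := by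
        have : Real.sin b ^ 2 * w.im ^ 2 ≤ Real.cos b ^ 2 * w.re ^ 2 := by nlinarith
        nlinarith
      nlinarith [mul_le_mul_of_nonneg_left h5 (sq_nonneg (Real.cos b))]
    have h6 : 0 ≤ -(Real.cos b * w.re) := by linarith
    exact (abs_le_of_sq_le_sq' h4 h6).2
  have hup : 0 < ‖u‖ := norm_pos_iff.2 hu
  set m := |Real.cos b| * |Real.sin b| * ‖u‖ with hm
  have hmp : 0 < m := by
    have := abs_pos.2 hc
    have := abs_pos.2 hs
    positivity
  have hj : ∀ j : ℕ, m ≤ -(Real.cos b * (ω ^ j * u).re) := by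
    intro j
    have h1 := key (ω ^ j * u) (h j).1 (h j).2
    rw [norm_mul, norm_pow, hωn, one_pow, one_mul] at h1
    exact h1
  have hsum : ∀ J : ℕ, (J : ℝ) * m ≤ 2 * ‖u‖ / ‖ω - 1‖ := by
    intro J
    have h1 : (J : ℝ) * m ≤ ∑ j ∈ Finset.range J, -(Real.cos b * (ω ^ j * u).re) := by
      have := Finset.card_nsmul_le_sum (Finset.range J)
        (fun j => -(Real.cos b * (ω ^ j * u).re)) m (fun j _ => hj j)
      simpa [nsmul_eq_mul] using this
    have h2 : ∑ j ∈ Finset.range J, -(Real.cos b * (ω ^ j * u).re) =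
        -(Real.cos b * (∑ j ∈ Finset.range J, ω ^ j * u).re) := by
      rw [Complex.re_sum, Finset.mul_sum, Finset.sum_neg_distrib]
    have h3 : (∑ j ∈ Finset.range J, ω ^ j * u) * (ω - 1) = (ω ^ J - 1) * u := by
      rw [← Finset.sum_mul, mul_assoc, mul_comm u, ← mul_assoc, geom_sum_mul]
    have hne : 0 < ‖ω - 1‖ := norm_pos_iff.2 (sub_ne_zero.2 hω)
    have h4 : ‖∑ j ∈ Finset.range J, ω ^ j * u‖ ≤ 2 * ‖u‖ / ‖ω - 1‖ := by
      rw [le_div_iff₀ hne, ← norm_mul, h3, norm_mul]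
      apply mul_le_mul_of_nonneg_right _ hup.le
      calc ‖ω ^ J - 1‖ ≤ ‖ω ^ J‖ + ‖(1 : ℂ)‖ := norm_sub_le _ _
        _ = 2 := by rw [norm_pow, hωn]; norm_num
    have h5 : -(Real.cos b * (∑ j ∈ Finset.range J, ω ^ j * u).re) ≤
        ‖∑ j ∈ Finset.range J, ω ^ j * u‖ := by
      have h6 : |Real.cos b * (∑ j ∈ Finset.range J, ω ^ j * u).re| ≤
          1 * ‖∑ j ∈ Finset.range J, ω ^ j * u‖ := by
        rw [abs_mul]
        exact mul_le_mul (Real.abs_cos_le_one b) (Complex.abs_re_le_norm _) (abs_nonneg _)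
          zero_le_one
      have h7 := neg_abs_le (Real.cos b * (∑ j ∈ Finset.range J, ω ^ j * u).re)
      linarith
    rw [h2] at h1
    exact h1.trans (h5.trans h4)
  obtain ⟨J, hJ⟩ := exists_nat_gt (2 * ‖u‖ / ‖ω - 1‖ / m)
  have h8 := hsum J
  rw [div_lt_iff₀ hmp] at hJ
  linarith

end Pool.Agent.Worm.SB
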