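import Mathlib
import Pool.Agent.WormS.Kern

/-!
# Half-planes of regularity (problem MP_3c4b73_an)
-/

open MeasureTheory Set Filter Topology Metric
open scoped Real ENNReal Interval ComplexConjugate

namespace Pool.Agent.Worm.SB

theorem geo_ht_eq (φ : ℝ) (P : ℂ) : ht φ P = ‖P‖ * Real.cos (φ + P.arg) := by
  unfold ht
  nth_rewrite 1 [← Complex.norm_mul_exp_arg_mul_I P]
  rw [mul_left_comm, ← Complex.exp_add, show (φ : ℂ) * Complex.I + P.arg * Complex.I =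
    ((φ + P.arg : ℝ) : ℂ) * Complex.I by push_cast; ring, Complex.re_ofReal_mul,
    Complex.exp_ofReal_mul_I_re]

/-- Two half-planes whose directions are not opposite meet far out. -/
theorem geo_exists {ψ₁ ψ₂ : ℝ} (h : 0 < 1 + Real.cos (ψ₁ - ψ₂)) (K : ℝ) :
    ∃ Q : ℂ, K < ht ψ₁ Q ∧ K < ht ψ₂ Q := by
  set c : ℝ := 1 + Real.cos (ψ₁ - ψ₂) with hc
  have h1 : ht ψ₁ (ep ψ₁ + ep ψ₂) = c := by
    rw [ht_add, ep_mul_dir, ep_mul_dir, sub_self, Real.cos_zero]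
  have h2 : ht ψ₂ (ep ψ₁ + ep ψ₂) = c := by
    rw [ht_add, ep_mul_dir, ep_mul_dir, sub_self, Real.cos_zero, ← Real.cos_neg, neg_sub, add_comm]
  have h3 : K < (|K| + 1) / c * c := by
    rw [div_mul_cancel₀ _ h.ne']
    linarith [le_abs_self K]
  refine ⟨(((|K| + 1) / c : ℝ) : ℂ) * (ep ψ₁ + ep ψ₂), ?_, ?_⟩
  · rw [ht_real_mul, h1]; exact h3
  · rw [ht_real_mul, h2]; exact h3

/-- The identity theorem on convex open sets. -/
theorem geo_ident {U W : Set ℂ} (hU : IsOpen U) (hc : Convex ℝ U) {u v : ℂ → ℂ}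
    (hu : DifferentiableOn ℂ u U) (hv : DifferentiableOn ℂ v U) (hW : IsOpen W) {Q : ℂ}
    (hQW : Q ∈ W) (hQU : Q ∈ U) (huv : ∀ P ∈ U, P ∈ W → u P = v P) : EqOn u v U := by
  refine (hu.analyticOnNhd hU).eqOn_of_preconnected_of_eventuallyEq (hv.analyticOnNhd hU)
    hc.isPreconnected hQU ?_
  filter_upwards [hU.mem_nhds hQU, hW.mem_nhds hQW] with P h1 h2 using huv P h1 h2

/-- A function regular on a half-plane agrees with `f` far out. -/
theorem geo_far {f g : ℂ → ℂ} {R ψ H : ℝ} (hR : 0 < R) (hf : DifferentiableOn ℂ f {P | R < ‖P‖})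
    (hg : DifferentiableOn ℂ g (hp ψ H)) (hgf : EqOn g f (hp ψ R)) {P : ℂ} (hP : P ∈ hp ψ H)
    (hPR : R < ‖P‖) : g P = f P := by
  have hφ : ∃ φ : ℝ, R < ht φ P ∧ 0 < 1 + Real.cos (ψ - φ) := by
    by_cases h : Real.cos (ψ - -P.arg) = -1
    · have hn : 0 < ‖P‖ := hR.trans hPR
      have h1 : R / ‖P‖ < 1 := (div_lt_one hn).2 hPR
      have h0 : 0 < R / ‖P‖ := div_pos hR hn
      set c : ℝ := (1 + R / ‖P‖) / 2 with hc
      have hcos : Real.cos (Real.arccos c) = c := Real.cos_arccos (by linarith) (by linarith)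
      refine ⟨-P.arg + Real.arccos c, ?_, ?_⟩
      · rw [geo_ht_eq, show -P.arg + Real.arccos c + P.arg = Real.arccos c by ring, hcos]
        have h2 : ‖P‖ * (R / ‖P‖) = R := by field_simp
        nlinarith
      · have hs : Real.sin (ψ - -P.arg) = 0 := by
          have h3 := Real.sin_sq_add_cos_sq (ψ - -P.arg)
          rw [h] at h3
          have h4 : Real.sin (ψ - -P.arg) ^ 2 = 0 := by linarith
          exact pow_eq_zero_iff (two_ne_zero) |>.1 h4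
        rw [show ψ - (-P.arg + Real.arccos c) = (ψ - -P.arg) - Real.arccos c by ring,
          Real.cos_sub, h, hs, hcos]
        linarith
    · refine ⟨-P.arg, ?_, ?_⟩
      · rw [geo_ht_eq, neg_add_cancel, Real.cos_zero, mul_one]
        exact hPR
      · have h1 := Real.neg_one_le_cos (ψ - -P.arg)
        have h2 := lt_of_le_of_ne h1 (Ne.symm h)
        linarith
  obtain ⟨φ, h1, h2⟩ := hφ
  obtain ⟨Q, hQ1, hQ2⟩ := geo_exists h2 (max H R)
  have hQH : Q ∈ hp ψ H := (le_max_left H R).trans_lt hQ1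
  have hQR : Q ∈ hp ψ R := (le_max_right H R).trans_lt hQ1
  have hQφ : Q ∈ hp φ R := (le_max_right H R).trans_lt hQ2
  have hsub : hp φ R ⊆ {P | R < ‖P‖} := fun P hP => (show R < ht φ P from hP).trans_le (ht_le φ P)
  exact geo_ident ((isOpen_hp ψ H).inter (isOpen_hp φ R)) ((convex_hp ψ H).inter (convex_hp φ R))
    (hg.mono inter_subset_left) (hf.mono (inter_subset_right.trans hsub)) (isOpen_hp ψ R)
    hQR ⟨hQH, hQφ⟩ (fun P _ h => hgf h) ⟨hP, h1⟩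

/-- Consistency of two half-planes of regularity. -/
theorem geo_cons {f g₁ g₂ : ℂ → ℂ} {R ψ₁ ψ₂ H₁ H₂ : ℝ} (hR : 0 < R)
    (hf : DifferentiableOn ℂ f {P | R < ‖P‖})
    (hg₁ : DifferentiableOn ℂ g₁ (hp ψ₁ H₁)) (hgf₁ : EqOn g₁ f (hp ψ₁ R))
    (hg₂ : DifferentiableOn ℂ g₂ (hp ψ₂ H₂)) (hgf₂ : EqOn g₂ f (hp ψ₂ R)) {P : ℂ}
    (hP₁ : P ∈ hp ψ₁ H₁) (hP₂ : P ∈ hp ψ₂ H₂) : g₁ P = g₂ P := by
  -- a direction which lies in both half-planes
  have hv : ∃ v : ℂ, v ≠ 0 ∧ 0 ≤ ht ψ₁ v ∧ 0 ≤ ht ψ₂ v := by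
    by_cases h : ep ψ₁ + ep ψ₂ = 0
    · refine ⟨Complex.I * ep ψ₁, mul_ne_zero Complex.I_ne_zero (ep_ne_zero _), ?_, ?_⟩
      · have : ht ψ₁ (Complex.I * ep ψ₁) = 0 := by
          unfold ht ep
          rw [mul_left_comm, ← Complex.exp_add, add_neg_cancel, Complex.exp_zero]
          simp
        rw [this]
      · have h2 : ep ψ₁ = -ep ψ₂ := eq_neg_of_add_eq_zero_left h
        have : ht ψ₂ (Complex.I * ep ψ₁) = 0 := by
          rw [h2]
          unfold ht ep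
          rw [mul_neg, mul_neg, mul_left_comm, ← Complex.exp_add, add_neg_cancel,
            Complex.exp_zero]
          simp
        rw [this]
    · refine ⟨_, h, ?_, ?_⟩
      · rw [ht_add, ep_mul_dir, ep_mul_dir, sub_self, Real.cos_zero]
        linarith [Real.neg_one_le_cos (ψ₁ - ψ₂)]
      · rw [ht_add, ep_mul_dir, ep_mul_dir, sub_self, Real.cos_zero]
        linarith [Real.neg_one_le_cos (ψ₂ - ψ₁)]
  obtain ⟨v, hv0, hv1, hv2⟩ := hv
  have hvn : 0 < ‖v‖ := norm_pos_iff.2 hv0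
  set t : ℝ := (R + ‖P‖ + 1) / ‖v‖ with ht'
  have htp : 0 ≤ t := by positivity
  set Q : ℂ := P + (t : ℂ) * v with hQ
  have hQR : R < ‖Q‖ := by
    have h1 : ‖(t : ℂ) * v‖ = R + ‖P‖ + 1 := by
      rw [norm_mul, Complex.norm_real, Real.norm_of_nonneg htp, ht', div_mul_cancel₀ _ hvn.ne']
    have h2 : ‖(t : ℂ) * v‖ ≤ ‖Q‖ + ‖P‖ := by
      have : (t : ℂ) * v = Q - P := by rw [hQ]; ring
      rw [this]
      exact norm_sub_le _ _
    linarith
  have hQ1 : Q ∈ hp ψ₁ H₁ := by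
    show H₁ < ht ψ₁ Q
    rw [hQ, ht_add, ht_real_mul]
    have h1 : H₁ < ht ψ₁ P := hP₁
    have h2 := mul_nonneg htp hv1
    linarith
  have hQ2 : Q ∈ hp ψ₂ H₂ := by
    show H₂ < ht ψ₂ Q
    rw [hQ, ht_add, ht_real_mul]
    have h1 : H₂ < ht ψ₂ P := hP₂
    have h2 := mul_nonneg htp hv2
    linarith
  exact geo_ident ((isOpen_hp ψ₁ H₁).inter (isOpen_hp ψ₂ H₂))
    ((convex_hp ψ₁ H₁).inter (convex_hp ψ₂ H₂)) (hg₁.mono inter_subset_left)
    (hg₂.mono inter_subset_right) (W := {P | R < ‖P‖}) (isOpen_lt continuous_const continuous_norm)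
    hQR ⟨hQ1, hQ2⟩ (fun P hP h => by
      rw [geo_far hR hf hg₁ hgf₁ hP.1 h, geo_far hR hf hg₂ hgf₂ hP.2 h]) ⟨hP₁, hP₂⟩

/-- A function regular on half-planes that agrees far out extends to their union. -/
theorem geo {f : ℂ → ℂ} {R : ℝ} (hR : 0 < R) (hf : DifferentiableOn ℂ f {P | R < ‖P‖}) :
    ∃ F : ℂ → ℂ, DifferentiableOn ℂ F (CC f R)ᶜ ∧ (∀ P : ℂ, R < ‖P‖ → F P = f P) ∧
      ∀ (ψ H : ℝ) (g : ℂ → ℂ), DifferentiableOn ℂ g (hp ψ H) → EqOn g f (hp ψ R) →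
        EqOn g F (hp ψ H) := by
  have hex : ∀ P : ℂ, ∃ c : ℂ, ∀ (ψ H : ℝ) (g : ℂ → ℂ), DifferentiableOn ℂ g (hp ψ H) →
      EqOn g f (hp ψ R) → P ∈ hp ψ H → g P = c := by
    intro P
    by_cases h : ∃ (ψ H : ℝ) (g : ℂ → ℂ), DifferentiableOn ℂ g (hp ψ H) ∧
      EqOn g f (hp ψ R) ∧ P ∈ hp ψ H
    · obtain ⟨ψ, H, g, h1, h2, h3⟩ := h
      exact ⟨g P, fun ψ' H' g' h1' h2' h3' => geo_cons hR hf h1' h2' h1 h2 h3' h3⟩
    · exact ⟨0, fun ψ' H' g' h1' h2' h3' => absurd ⟨ψ', H', g', h1', h2', h3'⟩ h⟩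
  choose F hF using hex
  refine ⟨F, ?_, ?_, fun ψ H g h1 h2 P hP => hF P ψ H g h1 h2 hP⟩
  · intro P hP
    have hP' : ∃ ψ H, Reg f R ψ H ∧ H < ht ψ P := by
      by_contra hc
      apply hP
      intro ψ H hr
      by_contra hlt
      exact hc ⟨ψ, H, hr, not_le.1 hlt⟩
    obtain ⟨ψ, H, ⟨g, hg1, hg2⟩, hlt⟩ := hP'
    have hmem : P ∈ hp ψ H := hlt
    have hd : DifferentiableAt ℂ g P := (hg1 P hmem).differentiableAt
      ((isOpen_hp ψ H).mem_nhds hmem)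
    have hev : F =ᶠ[𝓝 P] g := by
      filter_upwards [(isOpen_hp ψ H).mem_nhds hmem] with Q hQ
      exact (hF Q ψ H g hg1 hg2 hQ).symm
    exact (hd.congr_of_eventuallyEq hev).differentiableWithinAt
  · intro P hPR
    have h1 : ht (-P.arg) P = ‖P‖ := by
      rw [geo_ht_eq, neg_add_cancel, Real.cos_zero, mul_one]
    refine (hF P (-P.arg) R f (hf.mono fun Q hQ => ?_) (fun _ _ => rfl) ?_).symm
    · exact (show R < ht (-P.arg) Q from hQ).trans_le (ht_le _ Q)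
    · show R < ht (-P.arg) P
      rw [h1]; exact hPR

theorem reg_far {f : ℂ → ℂ} {R ψ H : ℝ} (hf : DifferentiableOn ℂ f {P | R < ‖P‖}) (hH : R ≤ H) :
    Reg f R ψ H := by
  refine ⟨f, hf.mono ?_, fun _ _ => rfl⟩
  intro P hP
  have h1 : H < ht ψ P := hP
  exact lt_of_le_of_lt hH (h1.trans_le (ht_le ψ P))

theorem norm_of_CC {f : ℂ → ℂ} {R : ℝ} (hf : DifferentiableOn ℂ f {P | R < ‖P‖}) {P : ℂ}
    (hP : P ∈ CC f R) : ‖P‖ ≤ R := by
  have h := hP (-P.arg) R (reg_far hf le_rfl)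
  have h1 : ht (-P.arg) P = ‖P‖ := by
    unfold ht
    nth_rewrite 2 [← Complex.norm_mul_exp_arg_mul_I P]
    rw [mul_left_comm, ← Complex.exp_add]
    push_cast
    rw [show -(P.arg : ℂ) * Complex.I + P.arg * Complex.I = 0 by ring, Complex.exp_zero]
    simp
  rwa [h1] at h

theorem isClosed_CC (f : ℂ → ℂ) (R : ℝ) : IsClosed (CC f R) := by
  have : CC f R = ⋂ (ψ : ℝ) (H : ℝ) (_ : Reg f R ψ H), {P | ht ψ P ≤ H} := by
    ext P
    simp [CC]
  rw [this]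
  refine isClosed_iInter fun ψ => isClosed_iInter fun H => isClosed_iInter fun _ => ?_
  exact isClosed_le (continuous_ht ψ) continuous_const

theorem isCompact_CC {f : ℂ → ℂ} {R : ℝ} (hf : DifferentiableOn ℂ f {P | R < ‖P‖}) :
    IsCompact (CC f R) := by
  refine Metric.isCompact_of_isClosed_isBounded (isClosed_CC f R) ?_
  rw [isBounded_iff_forall_norm_le]
  exact ⟨R, fun P hP => norm_of_CC hf hP⟩

/-- A half-plane that misses the hull is a half-plane of regularity. -/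
theorem reg_of_CC {f : ℂ → ℂ} {R ψ H : ℝ} (hR : 0 < R) (hf : DifferentiableOn ℂ f {P | R < ‖P‖})
    (h : ∀ P ∈ CC f R, ht ψ P ≤ H) : Reg f R ψ H := by
  obtain ⟨F, hF1, hF2, -⟩ := geo hR hf
  refine ⟨F, hF1.mono ?_, ?_⟩
  · intro P hP hPC
    exact absurd (h P hPC) (not_le.2 hP)
  · intro P hP
    have h1 : R < ht ψ P := hP
    exact hF2 P (h1.trans_le (ht_le ψ P))

end Pool.Agent.Worm.SB
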