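import Mathlib
import Pool.Agent.WormS.Kern
import Pool.Agent.Worm.Br.Param

/-!
# One step of the Volterra continuation (problem MP_3c4b73_an)
-/

open MeasureTheory Set Filter Topology Metric
open scoped Real ENNReal Interval ComplexConjugate

namespace Pool.Agent.Worm.SB

/-- continuity of the integrand in `x`. -/
theorem continuousOn_integrand {β ψ h h2 h3 : ℝ} (hok : Ok β ψ h) (hh : h ≤ h2) {S : Set ℝ}
    (hS0 : ∀ x ∈ S, 0 ≤ x) {u : ℂ → ℂ} (hu : DifferentiableOn ℂ u (hp ψ h3))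
    (hmem : ∀ x ∈ S, ∀ P ∈ hp ψ h2, phi β x P ∈ hp ψ h3) {P : ℂ} (hP : P ∈ hp ψ h2) :
    ContinuousOn (fun x : ℝ => KK β x P * u (phi β x P)) S := by
  have hsgc : Continuous fun x : ℝ => sg β x P := by
    unfold sg
    fun_prop
  have hphic : Continuous fun x : ℝ => phi β x P := by
    unfold phi
    fun_prop
  have hkxc : Continuous kx := by
    unfold kx
    fun_prop
  have hne : ∀ x ∈ S, sg β x P ≠ 0 := fun x hx => sg_ne_zero hok (hS0 x hx) (hp_mono hh hP)
  refine ContinuousOn.mul ?_ ?_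
  · unfold KK
    refine ContinuousOn.mul ?_ (ContinuousOn.add ?_ ?_)
    · refine Continuous.continuousOn ?_
      exact continuous_const.mul
        ((Complex.continuous_ofReal.comp Real.continuous_exp).mul hkxc)
    · exact continuousOn_const.div hsgc.continuousOn hne
    · exact continuousOn_const.div (hsgc.pow 2).continuousOn fun x hx => pow_ne_zero 2 (hne x hx)
  · exact hu.continuousOn.comp hphic.continuousOn fun x hx => hmem x hx P hP

/-- The parameter integrals over a set `S` of times. -/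
theorem int_facts {β ψ h δ h2 h3 : ℝ} (hok : Ok β ψ h) (hδ : 0 < δ) (hh : h + δ ≤ h2) {S : Set ℝ}
    (hS : MeasurableSet S) (hS0 : ∀ x ∈ S, 0 ≤ x) {u : ℂ → ℂ}
    (hu : DifferentiableOn ℂ u (hp ψ h3))
    (hmem : ∀ x ∈ S, ∀ P ∈ hp ψ h2, phi β x P ∈ hp ψ h3) {g : ℝ → ℝ} (hg : IntegrableOn g S)
    (hb : ∀ x ∈ S, ∀ P ∈ hp ψ h2, ‖u (phi β x P)‖ ≤ g x) :
    (∀ P ∈ hp ψ h2, IntegrableOn (fun x : ℝ => KK β x P * u (phi β x P)) S) ∧
    DifferentiableOn ℂ (fun P => ∫ x in S, KK β x P * u (phi β x P)) (hp ψ h2) ∧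
    (∀ P ∈ hp ψ h2, ‖∫ x in S, KK β x P * u (phi β x P)‖ ≤
      (1 + 1 / (2 * δ)) ^ 2 * ∫ x in S, g x) := by
  have hh' : h ≤ h2 := by linarith
  have hpt : ∀ x ∈ S, ∀ P ∈ hp ψ h2, ‖KK β x P * u (phi β x P)‖ ≤
      (1 + 1 / (2 * δ)) ^ 2 * g x := by
    intro x hx P hP
    rw [norm_mul]
    have h4 : h2 < ht ψ P := hP
    exact mul_le_mul (norm_KK_le hδ hok (hS0 x hx) (by linarith)) (hb x hx P hP)
      (norm_nonneg _) (by positivity)
  have hmeas : ∀ P ∈ hp ψ h2, AEStronglyMeasurable (fun x : ℝ => KK β x P * u (phi β x P))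
      (volume.restrict S) := fun P hP =>
    (continuousOn_integrand hok hh' hS0 hu hmem hP).aestronglyMeasurable hS
  have hgi : IntegrableOn (fun x => (1 + 1 / (2 * δ)) ^ 2 * g x) S := hg.const_mul _
  have hI : ∀ P ∈ hp ψ h2, IntegrableOn (fun x : ℝ => KK β x P * u (phi β x P)) S := by
    intro P hP
    refine Integrable.mono' hgi (hmeas P hP) ?_
    filter_upwards [ae_restrict_mem hS] with x hx
    exact hpt x hx P hP
  refine ⟨hI, ?_, ?_⟩
  · intro P0 hP0
    refine DifferentiableAt.differentiableWithinAt ?_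
    obtain ⟨ρ, hρ, hball⟩ := Metric.isOpen_iff.1 (isOpen_hp ψ h2) P0 hP0
    refine Br.differentiableAt_integral hρ hgi (fun z hz => hmeas z (hball hz)) ?_ ?_
    · filter_upwards [ae_restrict_mem hS] with x hx
      refine DifferentiableOn.mul ?_ ?_
      · exact (differentiableOn_KK hok (hS0 x hx)).mono fun z hz => hp_mono hh' (hball hz)
      · exact hu.comp (differentiable_phi β x).differentiableOn
          fun z hz => hmem x hx z (hball hz)
    · filter_upwards [ae_restrict_mem hS] with x hx z hz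
      exact hpt x hx z (hball hz)
  · intro P hP
    rw [← integral_const_mul]
    refine (norm_integral_le_of_norm_le hgi ?_)
    filter_upwards [ae_restrict_mem hS] with x hx
    exact hpt x hx P hP

/-- One step of the continuation: from height `h1` to height `h2`, where
`h1 - h ≤ e^{2 x₁} (h2 - h)` and `x₁` depends only on `δ`.

Proof. `C₀ = (1 + 1/(2δ))²` bounds `‖KK β x P‖` for `ht ψ P ≥ h + δ` (`norm_KK_le`); let `x₁ = 1/(2 C₀)`.
For `P ∈ hp ψ h2` and `x ≥ x₁` the point `φ_x(P)` lies in `hp ψ h1` (`ht_phi_ge`), so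
`G(P) = w(P) - ∫_{x > x₁} KK β x P * f (φ_x P) dx` is analytic and bounded on `hp ψ h2`
(differentiation under the integral sign, `‖f(φ_x P)‖ = O(e^{-2x})` locally uniformly by `HB` and
`ht_phi_ge`). The operator `A u (P) = ∫_{0 < x < x₁} KK β x P * u (φ_x P) dx` maps bounded analytic
functions on `hp ψ h2` to such functions, with norm `≤ C₀ x₁ = 1/2` (`phi_mem`). The Neumann series
`g = ∑ (-A)^n G` converges uniformly, is analytic and bounded, and `g + A g = G` on `hp ψ h2`.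
On `hp ψ h1` the difference `f - g` is bounded (`HB` gives boundedness of `f`) and satisfies
`u + A u = 0` there, so `sup |u| ≤ sup |u| / 2` and `g = f`. Then
`∫_{x > x₁} KK f(φ_x) = ∫_{x > x₁} KK g(φ_x)` and `LL β g P = w P` on `hp ψ h2`. Finally `HB ψ h2 g`: `g` is
bounded on the strip `h2 < ht ≤ h1` (where `|ht|` is bounded) and equal to `f` on `hp ψ h1`. -/
theorem volterra_step {β ψ h δ : ℝ} (hok : Ok β ψ h) (hδ : 0 < δ) : ∃ x₁ : ℝ, 0 < x₁ ∧
    ∀ h1 h2 : ℝ, h + δ ≤ h2 → h2 ≤ h1 → h1 - h ≤ Real.exp x₁ ^ 2 * (h2 - h) →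
    ∀ f w : ℂ → ℂ, DifferentiableOn ℂ f (hp ψ h1) → HB ψ h1 f →
      DifferentiableOn ℂ w (hp ψ h2) → (∃ C : ℝ, ∀ P ∈ hp ψ h2, ‖w P‖ ≤ C) →
      (∀ P ∈ hp ψ h1, LL β f P = w P) →
      ∃ g : ℂ → ℂ, DifferentiableOn ℂ g (hp ψ h2) ∧ HB ψ h2 g ∧ EqOn g f (hp ψ h1) ∧
        ∀ P ∈ hp ψ h2, LL β g P = w P := by
  set C₀ : ℝ := (1 + 1 / (2 * δ)) ^ 2 with hC₀
  have hC₀pos : 0 < C₀ := by positivity
  set x₁ : ℝ := 1 / (2 * C₀) with hx₁
  have hx₁pos : 0 < x₁ := by positivity
  have hCx : C₀ * x₁ = 1 / 2 := by rw [hx₁]; field_simp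
  refine ⟨x₁, hx₁pos, ?_⟩
  intro h1 h2 hh2 h21 hstep f w hf hfb hw hwb heq
  obtain ⟨M, hM⟩ := hfb
  obtain ⟨Cw, hCw⟩ := hwb
  -- nonnegativity of `M`
  have hM0 : 0 ≤ M := by
    obtain ⟨P, hP⟩ := nonempty_hp ψ h1
    exact le_trans (by positivity) (hM P hP)
  have hfM : ∀ P ∈ hp ψ h1, ‖f P‖ ≤ M := by
    intro P hP
    refine le_trans ?_ (hM P hP)
    exact le_mul_of_one_le_right (norm_nonneg _) (by linarith [abs_nonneg (ht ψ P)])
  -- the far part
  have hfarmem : ∀ x ∈ Ioi x₁, ∀ P ∈ hp ψ h2, phi β x P ∈ hp ψ h1 := by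
    intro x hx P hP
    have hx' : x₁ < x := hx
    have h3 := ht_phi_ge hok (hx₁pos.trans hx').le P
    have h4 : h2 < ht ψ P := hP
    show h1 < ht ψ (phi β x P)
    have h5 : Real.exp x₁ ^ 2 ≤ Real.exp x ^ 2 := by
      have : Real.exp x₁ ≤ Real.exp x := Real.exp_le_exp.2 hx'.le
      have h0 := (Real.exp_pos x₁).le
      gcongr
    have h6 : Real.exp x₁ ^ 2 * (h2 - h) < Real.exp x ^ 2 * (ht ψ P - h) := by
      calc Real.exp x₁ ^ 2 * (h2 - h) ≤ Real.exp x ^ 2 * (h2 - h) :=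
            mul_le_mul_of_nonneg_right h5 (by linarith)
        _ < Real.exp x ^ 2 * (ht ψ P - h) := by
            refine mul_lt_mul_of_pos_left (by linarith) (by positivity)
    linarith
  set K : ℝ := M * ((1 + |h|) / δ) with hK
  have hfarb : ∀ x ∈ Ioi x₁, ∀ P ∈ hp ψ h2, ‖f (phi β x P)‖ ≤ K * Real.exp (-2 * x) := by
    intro x hx P hP
    have hx' : x₁ < x := hx
    have h3 := ht_phi_ge hok (hx₁pos.trans hx').le P
    have h4 : h2 < ht ψ P := hP
    have h5 := hM _ (hfarmem x hx P hP)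
    set t := ht ψ (phi β x P) with ht'
    have h6 : Real.exp x ^ 2 * δ ≤ t - h := by
      refine le_trans ?_ h3
      exact mul_le_mul_of_nonneg_left (by linarith) (by positivity)
    have h7 : Real.exp x ^ 2 * δ ≤ (1 + |t|) * (1 + |h|) := by
      nlinarith [le_abs_self t, neg_abs_le h, abs_nonneg t, abs_nonneg h,
        mul_nonneg (abs_nonneg t) (abs_nonneg h)]
    have h8 : Real.exp (-2 * x) = (Real.exp x ^ 2)⁻¹ := by
      rw [← Real.exp_nat_mul, ← Real.exp_neg]
      congr 1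
      push_cast
      ring
    have h9 : ‖f (phi β x P)‖ * (Real.exp x ^ 2 * δ) ≤ M * (1 + |h|) := by
      calc ‖f (phi β x P)‖ * (Real.exp x ^ 2 * δ) ≤
            ‖f (phi β x P)‖ * ((1 + |t|) * (1 + |h|)) :=
            mul_le_mul_of_nonneg_left h7 (norm_nonneg _)
        _ = (‖f (phi β x P)‖ * (1 + |t|)) * (1 + |h|) := by ring
        _ ≤ M * (1 + |h|) := mul_le_mul_of_nonneg_right h5 (by positivity)
    rw [h8, hK]
    have h10 : M * ((1 + |h|) / δ) * (Real.exp x ^ 2)⁻¹ =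
        M * (1 + |h|) / (Real.exp x ^ 2 * δ) := by
      field_simp
    rw [h10, le_div_iff₀ (by positivity)]
    exact h9
  have hexpi : IntegrableOn (fun x : ℝ => K * Real.exp (-2 * x)) (Ioi x₁) :=
    (integrableOn_exp_mul_Ioi (by norm_num) x₁).const_mul K
  obtain ⟨hFI, hFD, hFB⟩ := int_facts hok hδ hh2 measurableSet_Ioi
    (fun x hx => (hx₁pos.trans hx).le) hf hfarmem hexpi hfarb
  set Far : ℂ → ℂ := fun P => ∫ x in Ioi x₁, KK β x P * f (phi β x P) with hFar
  set G : ℂ → ℂ := fun P => w P - Far P with hG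
  have hGD : DifferentiableOn ℂ G (hp ψ h2) := hw.sub hFD
  obtain ⟨MG, hMG0, hMG⟩ : ∃ MG : ℝ, 0 ≤ MG ∧ ∀ P ∈ hp ψ h2, ‖G P‖ ≤ MG := by
    refine ⟨Cw + C₀ * ∫ x in Ioi x₁, K * Real.exp (-2 * x), ?_, ?_⟩
    · obtain ⟨P, hP⟩ := nonempty_hp ψ h2
      have h3 := hCw P hP
      have h4 := hFB P hP
      have h5 := norm_nonneg (w P)
      have h6 := norm_nonneg (∫ x in Ioi x₁, KK β x P * f (phi β x P))
      linarith
    · intro P hP
      exact (norm_sub_le _ _).trans (add_le_add (hCw P hP) (hFB P hP))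
  -- the near part
  have hnear0 : ∀ x ∈ Ioc (0 : ℝ) x₁, (0 : ℝ) ≤ x := fun x hx => hx.1.le
  have near : ∀ (hh : ℝ), h + δ ≤ hh → ∀ (u : ℂ → ℂ) (B : ℝ), DifferentiableOn ℂ u (hp ψ hh) →
      (∀ P ∈ hp ψ hh, ‖u P‖ ≤ B) →
      (∀ P ∈ hp ψ hh, IntegrableOn (fun x : ℝ => KK β x P * u (phi β x P)) (Ioc 0 x₁)) ∧
      DifferentiableOn ℂ (fun P => ∫ x in Ioc 0 x₁, KK β x P * u (phi β x P)) (hp ψ hh) ∧
      (∀ P ∈ hp ψ hh, ‖∫ x in Ioc 0 x₁, KK β x P * u (phi β x P)‖ ≤ B * (1 / 2)) := by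
    intro hh hhh u B hu hB
    have hmem : ∀ x ∈ Ioc (0 : ℝ) x₁, ∀ P ∈ hp ψ hh, phi β x P ∈ hp ψ hh := fun x hx P hP =>
      phi_mem hok hx.1.le (by linarith) hP
    have hgi : IntegrableOn (fun _ : ℝ => B) (Ioc 0 x₁) := by
      simp
    obtain ⟨h3, h4, h5⟩ := int_facts hok hδ hhh measurableSet_Ioc hnear0 hu hmem hgi
      (fun x hx P hP => hB _ (hmem x hx P hP))
    refine ⟨h3, h4, fun P hP => ?_⟩
    have h6 := h5 P hP
    have h7 : ∫ _ in Ioc (0 : ℝ) x₁, B = x₁ * B := by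
      rw [setIntegral_const]
      simp [Measure.real, hx₁pos.le]
    rw [h7] at h6
    calc _ ≤ C₀ * (x₁ * B) := h6
      _ = (C₀ * x₁) * B := by ring
      _ = B * (1 / 2) := by rw [hCx]; ring
  -- the Neumann series
  let u : ℕ → ℂ → ℂ := fun n => Nat.rec G
    (fun _ v P => -∫ x in Ioc 0 x₁, KK β x P * v (phi β x P)) n
  have hu0 : u 0 = G := rfl
  have hus : ∀ n, u (n + 1) = fun P => -∫ x in Ioc 0 x₁, KK β x P * u n (phi β x P) :=
    fun n => rfl
  have hu : ∀ n, DifferentiableOn ℂ (u n) (hp ψ h2) ∧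
      ∀ P ∈ hp ψ h2, ‖u n P‖ ≤ MG * (1 / 2) ^ n := by
    intro n
    induction n with
    | zero => exact ⟨hGD, fun P hP => by rw [hu0, pow_zero, mul_one]; exact hMG P hP⟩
    | succ n ih =>
      obtain ⟨_, h4, h5⟩ := near h2 hh2 (u n) _ ih.1 ih.2
      refine ⟨?_, ?_⟩
      · rw [hus]
        exact h4.neg
      · intro P hP
        rw [hus]
        simp only [norm_neg]
        refine (h5 P hP).trans (le_of_eq ?_)
        ring
  have hsum : Summable fun n : ℕ => MG * (1 / 2 : ℝ) ^ n :=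
    (summable_geometric_of_lt_one (by norm_num) (by norm_num)).mul_left MG
  set g : ℂ → ℂ := fun P => ∑' n, u n P with hg
  have hgD : DifferentiableOn ℂ g (hp ψ h2) :=
    Complex.differentiableOn_tsum_of_summable_norm hsum (fun n => (hu n).1) (isOpen_hp ψ h2)
      fun n P hP => (hu n).2 P hP
  have hsumP : ∀ P ∈ hp ψ h2, Summable fun n => u n P := fun P hP =>
    Summable.of_norm_bounded hsum fun n => (hu n).2 P hP
  have hgB : ∀ P ∈ hp ψ h2, ‖g P‖ ≤ MG * 2 := by
    intro P hP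
    have h3 : HasSum (fun n : ℕ => MG * (1 / 2 : ℝ) ^ n) (MG * 2) := hasSum_geometric_two.mul_left MG
    exact tsum_of_norm_bounded h3 fun n => (hu n).2 P hP
  -- the equation g + A g = G
  have hgA : ∀ P ∈ hp ψ h2, g P + ∫ x in Ioc 0 x₁, KK β x P * g (phi β x P) = G P := by
    intro P hP
    have hmem : ∀ x ∈ Ioc (0 : ℝ) x₁, phi β x P ∈ hp ψ h2 := fun x hx =>
      phi_mem hok hx.1.le (by linarith) hP
    have h3 : ∫ x in Ioc 0 x₁, KK β x P * g (phi β x P) =
        ∫ x in Ioc 0 x₁, ∑' n, KK β x P * u n (phi β x P) := by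
      refine setIntegral_congr_fun measurableSet_Ioc fun x hx => ?_
      simp only [hg]
      rw [tsum_mul_left]
    have h4 : HasSum (fun n => ∫ x in Ioc 0 x₁, KK β x P * u n (phi β x P))
        (∫ x in Ioc 0 x₁, ∑' n, KK β x P * u n (phi β x P)) := by
      refine hasSum_integral_of_summable_integral_norm
        (fun n => (near h2 hh2 (u n) _ (hu n).1 (hu n).2).1 P hP) ?_
      refine Summable.of_nonneg_of_le (fun n => integral_nonneg fun x => norm_nonneg _) (fun n => ?_)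
        (hsum.mul_left (C₀ * x₁))
      have h5 : ∫ x in Ioc 0 x₁, ‖KK β x P * u n (phi β x P)‖ ≤
          ∫ _ in Ioc (0 : ℝ) x₁, C₀ * (MG * (1 / 2) ^ n) := by
        refine setIntegral_mono_on ((near h2 hh2 (u n) _ (hu n).1 (hu n).2).1 P hP).norm
          (integrableOn_const (by simp)) measurableSet_Ioc fun x hx => ?_
        rw [norm_mul]
        have h6 : h2 < ht ψ P := hP
        exact mul_le_mul (norm_KK_le hδ hok hx.1.le (by linarith)) ((hu n).2 _ (hmem x hx))
          (norm_nonneg _) hC₀pos.le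
      refine h5.trans (le_of_eq ?_)
      rw [setIntegral_const]
      simp [Measure.real, hx₁pos.le]
      ring
    have h6 : ∑' n, u n P = u 0 P + ∑' n, u (n + 1) P := (hsumP P hP).tsum_eq_zero_add
    have h7 : ∑' n, u (n + 1) P = -∫ x in Ioc 0 x₁, ∑' n, KK β x P * u n (phi β x P) := by
      have h8 : (fun n => u (n + 1) P) =
          fun n => -∫ x in Ioc 0 x₁, KK β x P * u n (phi β x P) := by
        funext n
        exact congrFun (hus n) P
      rw [h8]
      exact h4.neg.tsum_eq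
    show (∑' n, u n P) + _ = G P
    rw [h3, h6, h7, hu0]
    ring
  -- comparison with f on the smaller half-plane
  have hh1 : h + δ ≤ h1 := hh2.trans h21
  have hsub : hp ψ h1 ⊆ hp ψ h2 := hp_mono h21
  have hnf := near h1 hh1 f M hf hfM
  have hng := near h2 hh2 g (MG * 2) hgD hgB
  have hfA : ∀ P ∈ hp ψ h1, f P + ∫ x in Ioc 0 x₁, KK β x P * f (phi β x P) = G P := by
    intro P hP
    have h3 := heq P hP
    unfold LL at h3
    rw [← Ioc_union_Ioi_eq_Ioi hx₁pos.le, setIntegral_union (Ioc_disjoint_Ioi le_rfl)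
      measurableSet_Ioi (hnf.1 P hP) (hFI P (hsub hP))] at h3
    show _ = w P - ∫ x in Ioi x₁, KK β x P * f (phi β x P)
    rw [← h3]
    ring
  have hvD : DifferentiableOn ℂ (fun P => f P - g P) (hp ψ h1) := hf.sub (hgD.mono hsub)
  have hvA : ∀ P ∈ hp ψ h1, f P - g P =
      -∫ x in Ioc 0 x₁, KK β x P * (f (phi β x P) - g (phi β x P)) := by
    intro P hP
    have h3 := hfA P hP
    have h4 := hgA P (hsub hP)
    have h5 : ∫ x in Ioc 0 x₁, KK β x P * (f (phi β x P) - g (phi β x P)) =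
        (∫ x in Ioc 0 x₁, KK β x P * f (phi β x P)) -
          ∫ x in Ioc 0 x₁, KK β x P * g (phi β x P) := by
      rw [← integral_sub (hnf.1 P hP) (hng.1 P (hsub hP))]
      refine integral_congr_ae (Eventually.of_forall fun x => ?_)
      simp only [mul_sub]
    rw [h5]
    linear_combination h3 - h4
  have hvB : ∀ n : ℕ, ∀ P ∈ hp ψ h1, ‖f P - g P‖ ≤ (M + MG * 2) * (1 / 2) ^ n := by
    intro n
    induction n with
    | zero =>
      intro P hP
      rw [pow_zero, mul_one]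
      exact (norm_sub_le _ _).trans (add_le_add (hfM P hP) (hgB P (hsub hP)))
    | succ n ih =>
      intro P hP
      have h3 := (near h1 hh1 (fun P => f P - g P) _ hvD ih).2.2 P hP
      rw [hvA P hP, norm_neg]
      refine h3.trans (le_of_eq ?_)
      ring
  have hgf : EqOn g f (hp ψ h1) := by
    intro P hP
    have h3 : Tendsto (fun n : ℕ => (M + MG * 2) * (1 / 2 : ℝ) ^ n) atTop (𝓝 0) := by
      have h4 := (tendsto_pow_atTop_nhds_zero_of_lt_one (r := (1 / 2 : ℝ)) (by norm_num)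
        (by norm_num)).const_mul (M + MG * 2)
      rwa [mul_zero] at h4
    have h5 : ‖f P - g P‖ ≤ 0 := ge_of_tendsto' h3 fun n => hvB n P hP
    have h6 : f P - g P = 0 := norm_le_zero_iff.1 h5
    exact (sub_eq_zero.1 h6).symm
  refine ⟨g, hgD, ?_, hgf, ?_⟩
  · refine ⟨max M (MG * 2 * (1 + (|h1| + |h2|))), fun P hP => ?_⟩
    by_cases hP1 : P ∈ hp ψ h1
    · rw [hgf hP1]
      exact (hM P hP1).trans (le_max_left _ _)
    · refine le_trans ?_ (le_max_right _ _)
      have h3 : ht ψ P ≤ h1 := not_lt.1 hP1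
      have h4 : h2 < ht ψ P := hP
      have h5 : |ht ψ P| ≤ |h1| + |h2| := by
        rw [abs_le]
        constructor
        · linarith [neg_abs_le h2, abs_nonneg h1]
        · linarith [le_abs_self h1, abs_nonneg h2]
      exact mul_le_mul (hgB P hP) (by linarith) (by positivity) (by positivity)
  · intro P hP
    unfold LL
    have hFg : EqOn (fun x : ℝ => KK β x P * g (phi β x P)) (fun x : ℝ => KK β x P * f (phi β x P))
        (Ioi x₁) := by
      intro x hx
      simp only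
      rw [hgf (hfarmem x hx P hP)]
    have h3 : IntegrableOn (fun x : ℝ => KK β x P * g (phi β x P)) (Ioi x₁) :=
      (hFI P hP).congr_fun hFg.symm measurableSet_Ioi
    rw [← Ioc_union_Ioi_eq_Ioi hx₁pos.le, setIntegral_union (Ioc_disjoint_Ioi le_rfl)
      measurableSet_Ioi (hng.1 P hP) h3, ← add_assoc, hgA P hP,
      setIntegral_congr_fun measurableSet_Ioi hFg]
    show w P - (∫ x in Ioi x₁, KK β x P * f (phi β x P)) + _ = w P
    ring

end Pool.Agent.Worm.SB
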