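import Mathlib
import Pool.Agent.WormS.Kern
import Pool.Agent.WormS.VStep

/-!
# Volterra continuation in half-planes (problem MP_3c4b73_an)
-/

open MeasureTheory Set Filter Topology Metric
open scoped Real ENNReal Interval ComplexConjugate

namespace Pool.Agent.Worm.SB

/-- Two analytic functions on a half-plane which agree on a smaller half-plane are equal. -/
theorem vext_eqOn_hp {ψ h₁ H₀ : ℝ} (hle : h₁ ≤ H₀) {u v : ℂ → ℂ} (hu : DifferentiableOn ℂ u (hp ψ h₁))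
    (hv : DifferentiableOn ℂ v (hp ψ h₁)) (huv : EqOn u v (hp ψ H₀)) : EqOn u v (hp ψ h₁) := by
  obtain ⟨P, hP⟩ := nonempty_hp ψ H₀
  have ha := hu.analyticOnNhd (isOpen_hp ψ h₁)
  have hb := hv.analyticOnNhd (isOpen_hp ψ h₁)
  refine ha.eqOn_of_preconnected_of_eventuallyEq hb (convex_hp ψ h₁).isPreconnected
    (hp_mono hle hP) ?_
  filter_upwards [(isOpen_hp ψ H₀).mem_nhds hP] with Q hQ using huv hQ

theorem vext_LL_congr {β ψ h h' : ℝ} (hok : Ok β ψ h) (hh : h ≤ h') {u v : ℂ → ℂ}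
    (huv : EqOn u v (hp ψ h')) {P : ℂ} (hP : P ∈ hp ψ h') : LL β u P = LL β v P := by
  unfold LL
  rw [huv hP]
  congr 1
  refine setIntegral_congr_fun measurableSet_Ioi fun x hx => ?_
  rw [huv (phi_mem hok (le_of_lt hx) hh hP)]

theorem vext_HB_congr {ψ h : ℝ} {u v : ℂ → ℂ} (huv : EqOn u v (hp ψ h)) (hv : HB ψ h v) :
    HB ψ h u := by
  obtain ⟨M, hM⟩ := hv
  exact ⟨M, fun P hP => by rw [huv hP]; exact hM P hP⟩

theorem vext_HB_mono {ψ h h' : ℝ} (hh : h ≤ h') {u : ℂ → ℂ} (hu : HB ψ h u) : HB ψ h' u := by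
  obtain ⟨M, hM⟩ := hu
  exact ⟨M, fun P hP => hM P (hp_mono hh hP)⟩

/-- Continuation to the half-planes of height `h' > h`. -/
theorem vext_volterra_iter {β ψ h H₀ : ℝ} (hok : Ok β ψ h) {f w : ℂ → ℂ}
    (hf : DifferentiableOn ℂ f (hp ψ H₀)) (hfb : HB ψ H₀ f) (hw : DifferentiableOn ℂ w (hp ψ h))
    (hwb : ∀ h' > h, ∃ C : ℝ, ∀ P ∈ hp ψ h', ‖w P‖ ≤ C)
    (heq : ∀ P ∈ hp ψ H₀, LL β f P = w P) {h' : ℝ} (h1 : h < h') (h2 : h' ≤ H₀) :
    ∃ g : ℂ → ℂ, DifferentiableOn ℂ g (hp ψ h') ∧ HB ψ h' g ∧ EqOn g f (hp ψ H₀) ∧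
      ∀ P ∈ hp ψ h', LL β g P = w P := by
  obtain ⟨x₁, hx₁, hstep⟩ := volterra_step hok (sub_pos.2 h1)
  have hE : 1 < Real.exp x₁ ^ 2 := by
    have : 1 < Real.exp x₁ := Real.one_lt_exp_iff.2 hx₁
    nlinarith
  set E : ℝ := Real.exp x₁ ^ 2 with hEdef
  have key : ∀ n : ℕ, ∀ k : ℝ, h + (h' - h) ≤ k → k ≤ H₀ → H₀ - h ≤ E ^ n * (k - h) →
      ∃ g : ℂ → ℂ, DifferentiableOn ℂ g (hp ψ k) ∧ HB ψ k g ∧ EqOn g f (hp ψ H₀) ∧
        ∀ P ∈ hp ψ k, LL β g P = w P := by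
    intro n
    induction n with
    | zero =>
      intro k hk1 hk2 hk3
      have hk : k = H₀ := by
        rw [pow_zero, one_mul] at hk3
        linarith
      subst hk
      exact ⟨f, hf, hfb, fun _ _ => rfl, heq⟩
    | succ n ih =>
      intro k hk1 hk2 hk3
      have hkh : 0 < k - h := by linarith
      have hkE : k ≤ h + E * (k - h) := by nlinarith
      have hEn : 1 ≤ E ^ n := one_le_pow₀ hE.le
      obtain ⟨g, hg1, hg2, hg3, hg4⟩ := ih (min H₀ (h + E * (k - h)))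
        (le_min (hk1.trans hk2) (hk1.trans hkE)) (min_le_left _ _) (by
          rcases le_total H₀ (h + E * (k - h)) with h5 | h5
          · rw [min_eq_left h5]
            nlinarith
          · rw [min_eq_right h5]
            calc H₀ - h ≤ E ^ (n + 1) * (k - h) := hk3
              _ = E ^ n * (h + E * (k - h) - h) := by ring)
      obtain ⟨C, hC⟩ := hwb k (by linarith)
      obtain ⟨u, hu1, hu2, hu3, hu4⟩ := hstep (min H₀ (h + E * (k - h))) k hk1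
        (le_min hk2 hkE) (by
          have := min_le_right H₀ (h + E * (k - h))
          linarith) g w hg1 hg2 (hw.mono (hp_mono (by linarith))) ⟨C, hC⟩ hg4
      refine ⟨u, hu1, hu2, fun P hP => ?_, hu4⟩
      rw [hu3 (hp_mono (min_le_left _ _) hP), hg3 hP]
  obtain ⟨n, hn⟩ := pow_unbounded_of_one_lt ((H₀ - h) / (h' - h)) hE
  refine key n h' (by linarith) h2 ?_
  rw [div_lt_iff₀ (sub_pos.2 h1)] at hn
  exact hn.le

/-- Continuation to the whole half-plane `hp ψ h`.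

Proof: for every `h' > h` iterate `volterra_step` with `δ = h' - h` and
`h_{k+1} - h = max (h' - h) (e^{-2x₁} (h_k - h))`; finitely many steps give `g_{h'}` on `hp ψ h'` with all
four properties. Two such functions agree (identity theorem on a convex half-plane: both agree with `f`
on `hp ψ H₀`); define `g P = g_{(h + ht P)/2} P`. In `LL β g P` only values at points of height
`≥ ht ψ P` are used (`ht_le_ht_phi`). -/
theorem volterra_extend {β ψ h H₀ : ℝ} (hok : Ok β ψ h) (hH : h < H₀) {f w : ℂ → ℂ}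
    (hf : DifferentiableOn ℂ f (hp ψ H₀)) (hfb : HB ψ H₀ f) (hw : DifferentiableOn ℂ w (hp ψ h))
    (hwb : ∀ h' > h, ∃ C : ℝ, ∀ P ∈ hp ψ h', ‖w P‖ ≤ C)
    (heq : ∀ P ∈ hp ψ H₀, LL β f P = w P) :
    ∃ g : ℂ → ℂ, DifferentiableOn ℂ g (hp ψ h) ∧ (∀ h' > h, HB ψ h' g) ∧ EqOn g f (hp ψ H₀) ∧
      ∀ P ∈ hp ψ h, LL β g P = w P := by
  have hex : ∀ k : ℝ, ∃ g : ℂ → ℂ, h < k → k ≤ H₀ → DifferentiableOn ℂ g (hp ψ k) ∧
      HB ψ k g ∧ EqOn g f (hp ψ H₀) ∧ ∀ P ∈ hp ψ k, LL β g P = w P := by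
    intro k
    by_cases hk : h < k ∧ k ≤ H₀
    · obtain ⟨g, hg⟩ := vext_volterra_iter hok hf hfb hw hwb heq hk.1 hk.2
      exact ⟨g, fun _ _ => hg⟩
    · exact ⟨0, fun h1 h2 => absurd ⟨h1, h2⟩ hk⟩
  choose G hG using hex
  have hGG : ∀ k k' : ℝ, h < k → k ≤ k' → k' ≤ H₀ → EqOn (G k) (G k') (hp ψ k') := by
    intro k k' h1 h2 h3
    obtain ⟨a1, _, a3, _⟩ := hG k h1 (h2.trans h3)
    obtain ⟨b1, _, b3, _⟩ := hG k' (h1.trans_le h2) h3
    exact vext_eqOn_hp h3 (a1.mono (hp_mono h2)) b1 fun P hP => by rw [a3 hP, b3 hP]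
  set κ : ℂ → ℝ := fun P => min H₀ ((h + ht ψ P) / 2) with hκ
  have hκ1 : ∀ P ∈ hp ψ h, h < κ P := by
    intro P hP
    have hP' : h < ht ψ P := hP
    exact lt_min hH (by linarith)
  have hκ2 : ∀ P, κ P ≤ H₀ := fun P => min_le_left _ _
  have hκ3 : ∀ P ∈ hp ψ h, P ∈ hp ψ (κ P) := by
    intro P hP
    have hP' : h < ht ψ P := hP
    have h1 : κ P ≤ (h + ht ψ P) / 2 := min_le_right _ _
    show κ P < ht ψ P
    linarith
  have hgk : ∀ k : ℝ, h < k → k ≤ H₀ → EqOn (fun P => G (κ P) P) (G k) (hp ψ k) := by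
    intro k h1 h2 P hP
    have hPh : P ∈ hp ψ h := hp_mono h1.le hP
    rcases le_total k (κ P) with h3 | h3
    · exact (hGG k (κ P) h1 h3 (hκ2 P) (hκ3 P hPh)).symm
    · exact hGG (κ P) k (hκ1 P hPh) h3 h2 hP
  refine ⟨fun P => G (κ P) P, ?_, ?_, ?_, ?_⟩
  · intro P hP
    obtain ⟨a1, _, _, _⟩ := hG (κ P) (hκ1 P hP) (hκ2 P)
    have hd : DifferentiableAt ℂ (G (κ P)) P :=
      (a1 P (hκ3 P hP)).differentiableAt ((isOpen_hp ψ _).mem_nhds (hκ3 P hP))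
    have hev : (fun P => G (κ P) P) =ᶠ[𝓝 P] G (κ P) := by
      filter_upwards [(isOpen_hp ψ (κ P)).mem_nhds (hκ3 P hP)] with Q hQ
      exact hgk (κ P) (hκ1 P hP) (hκ2 P) hQ
    exact (hd.congr_of_eventuallyEq hev).differentiableWithinAt
  · intro k hk
    rcases le_total k H₀ with h2 | h2
    · exact vext_HB_congr (hgk k hk h2) (hG k hk h2).2.1
    · exact vext_HB_mono h2 (vext_HB_congr (hgk H₀ hH le_rfl) (hG H₀ hH le_rfl).2.1)
  · intro P hP
    rw [hgk H₀ hH le_rfl hP, (hG H₀ hH le_rfl).2.2.1 hP]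
  · intro P hP
    rw [vext_LL_congr hok (hκ1 P hP).le (hgk (κ P) (hκ1 P hP) (hκ2 P)) (hκ3 P hP)]
    exact (hG (κ P) (hκ1 P hP) (hκ2 P)).2.2.2 P (hκ3 P hP)

end Pool.Agent.Worm.SB
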