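import Mathlib
import Pool.Agent.WormS.Kern
import Pool.Agent.WormS.VExt
import Pool.Agent.WormS.LLan
import Pool.Agent.WormS.Src

/-!
# Transfer of regularity by the functional equation (problem MP_3c4b73_an)
-/

open MeasureTheory Set Filter Topology Metric
open scoped Real ENNReal Interval ComplexConjugate

namespace Pool.Agent.Worm.SB

/-- Transfer: if `g` is regular on the half-plane of `P₋ = Tm b P₊`, then `f` extends to that of `P₊`,
and the functional equation holds there.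

Proof: `w P = sg b 0 P * (e^{-b+2ib} e^{-(b-2ib)} (LL (-b) g (Tm b P) / sg (-b) 0 (Tm b P) +
src (-b) (Tm b P)) - src b P)`; `Eqn b f g P` is equivalent to `LL b f P = w P` wherever
`sg b 0 P ≠ 0`. `w` is analytic on `hp ψ H` (`differentiableOn_LL`, `differentiableOn_src`,
`sg_ne_zero`; `Tm b` maps `hp ψ h` into `hp (ψ-4b) (H' + (h - H))` by `ht_Tm`) and bounded on every
`hp ψ h`, `h > H`: `norm_LL_le`, `‖sg b 0 P‖ ≤ 2‖P‖ + 1`, `‖Tm b P‖ ≥ ‖P‖ - 2`, `norm_src_le`, and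
`‖sg b 0 P‖ / ‖sg (-b) 0 (Tm b P)‖` is bounded because the denominator is `≥ 2 (h - H)` and
`≥ 2 ‖P‖ - 5`. Then `volterra_extend`. (`Ok b ψ H` from `0 ≤ H` and `ht ψ (ep b) ≤ H`.) -/
theorem transfer {b ψ H H' H₀ : ℝ} (h0 : 0 ≤ H) (hε : ht ψ (ep b) ≤ H) (h0' : 0 ≤ H')
    (hε' : ht (ψ - 4 * b) (ep (-b)) ≤ H')
    (hH' : H' ≤ H + (Real.cos (ψ - 3 * b) - Real.cos (ψ - b))) (hH₀ : H < H₀) {f g : ℂ → ℂ}
    (hf : DifferentiableOn ℂ f (hp ψ H₀)) (hfb : HB ψ H₀ f)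
    (hg : DifferentiableOn ℂ g (hp (ψ - 4 * b) H')) (hgb : ∀ h > H', HB (ψ - 4 * b) h g)
    (heq : ∀ P ∈ hp ψ H₀, Eqn b f g P) :
    ∃ f₁ : ℂ → ℂ, DifferentiableOn ℂ f₁ (hp ψ H) ∧ (∀ h > H, HB ψ h f₁) ∧
      EqOn f₁ f (hp ψ H₀) ∧ ∀ P ∈ hp ψ H, Eqn b f₁ g P := by
  have hok : Ok b ψ H := ⟨hε, by
    rcases le_total 0 (ht ψ (ep b)) with h | h <;> linarith⟩
  have hok' : Ok (-b) (ψ - 4 * b) H' := ⟨hε', by
    rcases le_total 0 (ht (ψ - 4 * b) (ep (-b))) with h | h <;> linarith⟩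
  set E₁ : ℂ := Complex.exp (b - 2 * b * Complex.I) with hE₁
  set E₂ : ℂ := Complex.exp (-b + 2 * b * Complex.I) with hE₂
  have hE₁0 : E₁ ≠ 0 := Complex.exp_ne_zero _
  -- heights
  have hTm : ∀ {h : ℝ} {P : ℂ}, P ∈ hp ψ h → Tm b P ∈ hp (ψ - 4 * b) (H' + (h - H)) := by
    intro h P hP
    have hP' : h < ht ψ P := hP
    show H' + (h - H) < ht (ψ - 4 * b) (Tm b P)
    rw [ht_Tm]
    linarith
  have hTm0 : ∀ {P : ℂ}, P ∈ hp ψ H → Tm b P ∈ hp (ψ - 4 * b) H' := by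
    intro P hP
    have := hTm hP
    rwa [sub_self, add_zero] at this
  -- the equation
  set w : ℂ → ℂ := fun P => sg b 0 P * (E₂ / E₁ *
    (LL (-b) g (Tm b P) / sg (-b) 0 (Tm b P) + src (-b) (Tm b P)) - src b P) with hw
  have hiff : ∀ (F : ℂ → ℂ) (P : ℂ), P ∈ hp ψ H → (Eqn b F g P ↔ LL b F P = w P) := by
    intro F P hP
    have hs : sg b 0 P ≠ 0 := sg_ne_zero hok le_rfl hP
    unfold Eqn
    rw [← hE₁, ← hE₂, hw]
    simp only
    set Y : ℂ := LL (-b) g (Tm b P) / sg (-b) 0 (Tm b P) + src (-b) (Tm b P) with hY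
    constructor
    · intro h
      have h1 : LL b F P / sg b 0 P + src b P = E₂ / E₁ * Y := by
        rw [div_mul_eq_mul_div, eq_div_iff hE₁0, ← h]
        ring
      have h2 : LL b F P / sg b 0 P = E₂ / E₁ * Y - src b P := by
        rw [← h1]; ring
      rw [← h2]
      field_simp
    · intro h
      have h2 : LL b F P / sg b 0 P = E₂ / E₁ * Y - src b P := by
        rw [h]
        field_simp
      rw [h2, sub_add_cancel, ← mul_assoc, mul_div_cancel₀ _ hE₁0]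
  -- analyticity
  have hdTm : Differentiable ℂ (Tm b) := by
    unfold Tm
    fun_prop
  have hwd : DifferentiableOn ℂ w (hp ψ H) := by
    have h1 : DifferentiableOn ℂ (fun P => LL (-b) g (Tm b P)) (hp ψ H) :=
      (differentiableOn_LL hok' hg hgb).comp hdTm.differentiableOn fun P hP => hTm0 hP
    have h2 : DifferentiableOn ℂ (fun P => sg (-b) 0 (Tm b P)) (hp ψ H) :=
      ((differentiable_sg (-b) 0).comp hdTm).differentiableOn
    have h3 : DifferentiableOn ℂ (fun P => src (-b) (Tm b P)) (hp ψ H) :=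
      (differentiableOn_src h0' hε').comp hdTm.differentiableOn fun P hP => hTm0 hP
    have h4 : DifferentiableOn ℂ (src b) (hp ψ H) := differentiableOn_src h0 hε
    have h5 : ∀ P ∈ hp ψ H, sg (-b) 0 (Tm b P) ≠ 0 := fun P hP =>
      sg_ne_zero hok' le_rfl (hTm0 hP)
    exact (differentiable_sg b 0).differentiableOn.mul
      ((((h1.div h2 h5).add h3).const_mul _).sub h4)
  -- boundedness
  have hsgle : ∀ (β : ℝ) (P : ℂ), ‖sg β 0 P‖ ≤ 2 * ‖P‖ + 1 := by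
    intro β P
    unfold sg
    rw [Real.exp_zero, Complex.ofReal_one, mul_one]
    refine (norm_sub_le _ _).trans ?_
    rw [norm_mul, norm_mul, norm_ep]
    have : ‖(2 - 1 : ℂ)‖ = 1 := by norm_num
    rw [this]
    norm_num
  have hsgge : ∀ (β : ℝ) (P : ℂ), 2 * ‖P‖ - 1 ≤ ‖sg β 0 P‖ := by
    intro β P
    unfold sg
    rw [Real.exp_zero, Complex.ofReal_one, mul_one]
    refine le_trans ?_ (norm_sub_norm_le _ _)
    rw [norm_mul, norm_mul, norm_ep]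
    have : ‖(2 - 1 : ℂ)‖ = 1 := by norm_num
    rw [this]
    norm_num
  have hwb : ∀ h' > H, ∃ C : ℝ, ∀ P ∈ hp ψ h', ‖w P‖ ≤ C := by
    intro h' hh'
    have hh : H' < H' + (h' - H) := by linarith
    obtain ⟨C1, h1⟩ := norm_LL_le hok' hg hgb hh
    obtain ⟨C2, h2⟩ := norm_src_le (β := -b) h0' hε' hh
    obtain ⟨C3, h3⟩ := norm_src_le (β := b) h0 hε hh'
    have hδ : 0 < h' - H := by linarith
    refine ⟨‖E₂ / E₁‖ * (C1 * (1 + 3 / (h' - H)) + 6 * C2) + 2 * C3, fun P hP => ?_⟩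
    have hPT := hTm hP
    have hPH : P ∈ hp ψ H := hp_mono hh'.le hP
    set Q := Tm b P with hQ
    have hQn : ‖P‖ - 2 ≤ ‖Q‖ := norm_Tm_ge b P
    have hnP := norm_nonneg P
    have hnQ := norm_nonneg Q
    have g1 := h1 Q hPT
    have g2 := h2 Q hPT
    have g3 := h3 P hP
    have g4 := hsgle b P
    have g5 := hsgge (-b) Q
    have g6 : 2 * (h' - H) ≤ ‖sg (-b) 0 Q‖ := by
      have a1 := norm_sg_ge hok' le_rfl Q
      have a2 : H' + (h' - H) < ht (ψ - 4 * b) Q := hPT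
      rw [Real.exp_zero] at a1
      linarith
    set s := ‖sg (-b) 0 Q‖ with hs
    have hs0 : 0 < s := by linarith
    have hC1 : 0 ≤ C1 := (norm_nonneg _).trans g1
    have hC2 : 0 ≤ C2 := (mul_nonneg (norm_nonneg _) (by linarith)).trans g2
    have hC3 : 0 ≤ C3 := (mul_nonneg (norm_nonneg _) (by linarith)).trans g3
    have k1 : ‖sg b 0 P‖ * (‖LL (-b) g Q‖ / s) ≤ C1 * (1 + 3 / (h' - H)) := by
      have a1 : ‖sg b 0 P‖ ≤ s + 6 := by linarith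
      have a2 : ‖sg b 0 P‖ / s ≤ 1 + 3 / (h' - H) := by
        rw [div_le_iff₀ hs0]
        have a3 : 3 / (h' - H) * s ≥ 6 := by
          rw [ge_iff_le, div_mul_eq_mul_div, le_div_iff₀ hδ]
          linarith
        linarith
      calc ‖sg b 0 P‖ * (‖LL (-b) g Q‖ / s) = ‖LL (-b) g Q‖ * (‖sg b 0 P‖ / s) := by ring
        _ ≤ C1 * (1 + 3 / (h' - H)) := mul_le_mul g1 a2 (by positivity) hC1
    have k2 : ‖sg b 0 P‖ * ‖src (-b) Q‖ ≤ 6 * C2 := by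
      have a1 : ‖sg b 0 P‖ ≤ 6 * (1 + ‖Q‖) := by linarith
      calc ‖sg b 0 P‖ * ‖src (-b) Q‖ ≤ 6 * (1 + ‖Q‖) * ‖src (-b) Q‖ :=
            mul_le_mul_of_nonneg_right a1 (norm_nonneg _)
        _ = 6 * (‖src (-b) Q‖ * (1 + ‖Q‖)) := by ring
        _ ≤ 6 * C2 := by linarith
    have k3 : ‖sg b 0 P‖ * ‖src b P‖ ≤ 2 * C3 := by
      have a1 : ‖sg b 0 P‖ ≤ 2 * (1 + ‖P‖) := by linarith
      calc ‖sg b 0 P‖ * ‖src b P‖ ≤ 2 * (1 + ‖P‖) * ‖src b P‖ :=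
            mul_le_mul_of_nonneg_right a1 (norm_nonneg _)
        _ = 2 * (‖src b P‖ * (1 + ‖P‖)) := by ring
        _ ≤ 2 * C3 := by linarith
    rw [hw]
    simp only
    rw [← hQ, norm_mul]
    have k4 : ‖E₂ / E₁ * (LL (-b) g Q / sg (-b) 0 Q + src (-b) Q) - src b P‖ ≤
        ‖E₂ / E₁‖ * (‖LL (-b) g Q‖ / s + ‖src (-b) Q‖) + ‖src b P‖ := by
      refine (norm_sub_le _ _).trans (add_le_add ?_ le_rfl)
      rw [norm_mul]
      refine mul_le_mul_of_nonneg_left ((norm_add_le _ _).trans ?_) (norm_nonneg _)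
      rw [norm_div]
    calc ‖sg b 0 P‖ * ‖E₂ / E₁ * (LL (-b) g Q / sg (-b) 0 Q + src (-b) Q) - src b P‖
        ≤ ‖sg b 0 P‖ * (‖E₂ / E₁‖ * (‖LL (-b) g Q‖ / s + ‖src (-b) Q‖) + ‖src b P‖) :=
          mul_le_mul_of_nonneg_left k4 (norm_nonneg _)
      _ = ‖E₂ / E₁‖ * (‖sg b 0 P‖ * (‖LL (-b) g Q‖ / s) + ‖sg b 0 P‖ * ‖src (-b) Q‖) +
          ‖sg b 0 P‖ * ‖src b P‖ := by ring
      _ ≤ ‖E₂ / E₁‖ * (C1 * (1 + 3 / (h' - H)) + 6 * C2) + 2 * C3 :=
          add_le_add (mul_le_mul_of_nonneg_left (add_le_add k1 k2) (norm_nonneg _)) k3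
  obtain ⟨f₁, q1, q2, q3, q4⟩ := volterra_extend hok hH₀ hf hfb hwd hwb
    (fun P hP => (hiff f P (hp_mono hH₀.le hP)).1 (heq P hP))
  exact ⟨f₁, q1, q2, q3, fun P hP => (hiff f₁ P hP).2 (q4 P hP)⟩

end Pool.Agent.Worm.SB
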