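import Mathlib
import Pool.Agent.WormS.Kern
import Pool.Agent.WormS.Geo
import Pool.Agent.WormS.Transf

/-!
# The rotation rule (problem MP_3c4b73_an)
-/

open MeasureTheory Set Filter Topology Metric
open scoped Real ENNReal Interval ComplexConjugate

namespace Pool.Agent.Worm.SB

theorem Dat.neg {b R : ℝ} {f : ℂ → ℂ} (D : Dat b f R) : Dat (-b) f R where
  hb := neg_ne_zero.2 D.hb
  hb1 := by rw [abs_neg]; exact D.hb1
  hb2 := by rw [Real.cos_neg]; exact D.hb2
  hR := D.hR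
  hol := D.hol
  bd := D.bd
  reg := by rw [abs_neg]; exact D.reg
  eqn := by
    intro P h1 h2
    have e : Tm b (Tm (-b) P) = P := by
      have := Tm_Tm (-b) P
      rwa [neg_neg] at this
    have h3 := (D.eqn (Tm (-b) P) h2 (by rw [e]; exact h1)).symm
    rwa [e] at h3

/-- The extended function is `O(1/height)` on every slightly smaller half-plane of regularity:
near infinity it is `f = O(1/|P|)`, the rest is compact. -/
theorem HB_of_reg {b R : ℝ} {f : ℂ → ℂ} (D : Dat b f R) {F : ℂ → ℂ}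
    (hF1 : DifferentiableOn ℂ F (CC f R)ᶜ) (hF2 : ∀ P : ℂ, R < ‖P‖ → F P = f P) {ψ H : ℝ}
    (hH : ∀ P ∈ CC f R, ht ψ P ≤ H) {h : ℝ} (hh : H < h) : HB ψ h F := by
  obtain ⟨M, hM⟩ := D.bd
  have hR := D.hR
  set K : Set ℂ := closedBall (0 : ℂ) R ∩ {P | h ≤ ht ψ P} with hK
  have hKc : IsCompact K :=
    (isCompact_closedBall (0 : ℂ) R).inter_right (isClosed_le continuous_const (continuous_ht ψ))
  have hKs : K ⊆ (CC f R)ᶜ := by
    intro P hP hPC
    have h1 : h ≤ ht ψ P := hP.2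
    have h2 := hH P hPC
    linarith
  obtain ⟨M1, hM1⟩ := hKc.exists_bound_of_continuousOn (hF1.continuousOn.mono hKs)
  refine ⟨max (2 * |M|) (|M1| * (1 + R)), ?_⟩
  intro P hP
  have hPh : h < ht ψ P := hP
  have h3 := abs_ht_le ψ P
  rcases lt_or_ge R ‖P‖ with hP1 | hP1
  · refine le_trans ?_ (le_max_left _ _)
    rw [hF2 P hP1]
    have h4 := hM P hP1
    have h5 : ‖f P‖ ≤ ‖f P‖ * ‖P‖ := by
      have : (1 : ℝ) ≤ ‖P‖ := by linarith
      nlinarith [norm_nonneg (f P)]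
    have h6 : ‖f P‖ * |ht ψ P| ≤ ‖f P‖ * ‖P‖ := mul_le_mul_of_nonneg_left h3 (norm_nonneg _)
    have h7 := le_abs_self M
    nlinarith
  · refine le_trans ?_ (le_max_right _ _)
    have h4 : ‖F P‖ ≤ M1 := hM1 P ⟨by simpa using hP1, hPh.le⟩
    have h5 : ‖F P‖ ≤ |M1| := h4.trans (le_abs_self _)
    have h6 : 1 + |ht ψ P| ≤ 1 + R := by linarith
    exact mul_le_mul h5 h6 (by positivity) (abs_nonneg _)

/-- The rotation rule: regularity in the direction `ψ - 4b` gives regularity in the direction `ψ`.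

Proof: if `R ≤ H` use `reg_far`. Otherwise `transfer` with `g = F` of `geo` (by the third property of
`geo`, `F` equals the function of `hreg` on `hp (ψ-4b) H'`; `HB` by `HB_of_reg`, whose hypothesis holds by the
definition of `CC`), `f` itself on `hp ψ H₀`, `H₀ = R + 3` (so that `R < ‖P‖` and `R < ‖Tm b P‖` on
`hp ψ H₀`; `LL (-b) F (Tm b P) = LL (-b) f (Tm b P)` since `F = f` where `R < ‖·‖` and the curve stays in
`hp (ψ-4b) R`, `phi_mem`, because `ht (Tm b P) > R + 1`). The function `f₁` obtained agrees with `f` on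
`hp ψ H₀`, hence on `hp ψ R` by the identity theorem (convex open set, both analytic there). -/
theorem rule1 {b R : ℝ} {f : ℂ → ℂ} (D : Dat b f R) {ψ H H' : ℝ} (h0 : 0 ≤ H)
    (hε : ht ψ (ep b) ≤ H) (h0' : 0 ≤ H') (hε' : ht (ψ - 4 * b) (ep (-b)) ≤ H')
    (hH' : H' ≤ H + (Real.cos (ψ - 3 * b) - Real.cos (ψ - b)))
    (hreg : Reg f R (ψ - 4 * b) H') : Reg f R ψ H := by
  rcases le_or_gt R H with hRH | hRH
  · exact reg_far D.hol hRH
  have hR := D.hR
  obtain ⟨F, hF1, hF2, -⟩ := geo (by linarith : (0 : ℝ) < R) D.hol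
  have hCC : ∀ P ∈ CC f R, ht (ψ - 4 * b) P ≤ H' := fun P hP => hP _ _ hreg
  have hg : DifferentiableOn ℂ F (hp (ψ - 4 * b) H') := by
    refine hF1.mono ?_
    intro P hP hPC
    exact absurd (hCC P hPC) (not_le.2 hP)
  have hnorm : ∀ {P : ℂ} {L : ℝ}, P ∈ hp ψ L → L < ‖P‖ := fun {P L} hP =>
    lt_of_lt_of_le hP (ht_le ψ P)
  have hf : DifferentiableOn ℂ f (hp ψ (R + 3)) := by
    refine D.hol.mono ?_
    intro P hP
    have := hnorm hP
    show R < ‖P‖
    linarith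
  have hfb : HB ψ (R + 3) f := by
    obtain ⟨M, hM⟩ := D.bd
    refine ⟨2 * |M|, ?_⟩
    intro P hP
    have hP1 := hnorm hP
    have h3 := abs_ht_le ψ P
    have h4 := hM P (by linarith)
    have h5 : ‖f P‖ ≤ ‖f P‖ * ‖P‖ := by
      have : (1 : ℝ) ≤ ‖P‖ := by linarith
      nlinarith [norm_nonneg (f P)]
    have h6 : ‖f P‖ * |ht ψ P| ≤ ‖f P‖ * ‖P‖ := mul_le_mul_of_nonneg_left h3 (norm_nonneg _)
    have h7 := le_abs_self M
    nlinarith
  have heq : ∀ P ∈ hp ψ (R + 3), Eqn b f F P := by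
    intro P hP
    have hP1 := hnorm hP
    have hQ : R + 1 < ‖Tm b P‖ := by
      have := norm_Tm_ge b P
      linarith
    have h1 := D.eqn P (by linarith) (by linarith)
    have h2 : LL (-b) F (Tm b P) = LL (-b) f (Tm b P) := by
      unfold LL
      rw [hF2 _ (by linarith)]
      congr 1
      refine setIntegral_congr_fun measurableSet_Ioi ?_
      intro x hx
      have hx0 : (0 : ℝ) ≤ x := le_of_lt hx
      have h3 := norm_phi_ge (-b) hx0 (Tm b P)
      have h4 := one_le_exp hx0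
      have h6 : 1 ≤ Real.exp x ^ 2 := one_le_pow₀ h4
      have h7 : (0 : ℝ) ≤ ‖Tm b P‖ - 1 := by linarith
      have h8 : ‖Tm b P‖ - 1 ≤ Real.exp x ^ 2 * (‖Tm b P‖ - 1) := le_mul_of_one_le_left h7 h6
      have h5 : R < ‖phi (-b) x (Tm b P)‖ := by linarith
      show KK (-b) x (Tm b P) * F (phi (-b) x (Tm b P)) = KK (-b) x (Tm b P) * f (phi (-b) x (Tm b P))
      rw [hF2 _ h5]
    unfold Eqn at h1 ⊢
    rw [h2]
    exact h1
  obtain ⟨f₁, h1, -, h3, -⟩ := transfer h0 hε h0' hε' hH' (by linarith : H < R + 3) hf hfb hg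
    (fun h hh => HB_of_reg D hF1 hF2 hCC hh) heq
  refine ⟨f₁, h1, ?_⟩
  have a1 : AnalyticOnNhd ℂ f₁ (hp ψ R) :=
    (h1.mono (hp_mono hRH.le)).analyticOnNhd (isOpen_hp ψ R)
  have a2 : AnalyticOnNhd ℂ f (hp ψ R) := by
    refine (D.hol.mono ?_).analyticOnNhd (isOpen_hp ψ R)
    intro P hP
    exact hnorm hP
  obtain ⟨P₀, hP₀⟩ := nonempty_hp ψ (R + 3)
  have hP₀' : P₀ ∈ hp ψ R := hp_mono (by linarith) hP₀
  refine a1.eqOn_of_preconnected_of_eventuallyEq a2 (convex_hp ψ R).isPreconnected hP₀' ?_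
  filter_upwards [(isOpen_hp ψ (R + 3)).mem_nhds hP₀] with P hP
  exact h3 hP

end Pool.Agent.Worm.SB
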