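import Mathlib
import Pool.Agent.WormS.Kern
import Pool.Agent.WormS.Rule
import Pool.Agent.WormS.Orb

/-!
# The hull of the singularities (problem MP_3c4b73_an)
-/

open MeasureTheory Set Filter Topology Metric
open scoped Real ENNReal Interval ComplexConjugate

namespace Pool.Agent.Worm.SB

theorem ht_ofReal (ψ r : ℝ) : ht ψ (r : ℂ) = r * Real.cos ψ := by
  unfold ht
  rw [mul_comm, Complex.re_ofReal_mul, Complex.exp_ofReal_mul_I_re]

theorem kap_mul_cos {b : ℝ} (hb : Real.cos b ≠ 0) : kap b * Real.cos b = 1 / 2 := by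
  unfold kap
  field_simp

theorem kap_ne_zero {b : ℝ} (hb : Real.cos b ≠ 0) : kap b ≠ 0 := by
  unfold kap
  positivity

theorem Tm_kap_self {b : ℝ} (hb : Real.cos b ≠ 0) : Tm b (kap b) = kap b := by
  have h := Tm_kap hb (kap b : ℂ)
  rw [sub_self, mul_zero, sub_eq_zero] at h
  exact h

/-- The wedge: limit of the half-planes `|α| < |b|`, `H > 1/2`; `κ cos b = 1/2`. -/
theorem wedge {b R : ℝ} {f : ℂ → ℂ} (D : Dat b f R) {P : ℂ} (hP : P ∈ CC f R) :
    (Complex.exp (b * Complex.I) * (P - kap b)).re ≤ 0 ∧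
      (Complex.exp (-(b * Complex.I)) * (P - kap b)).re ≤ 0 := by
  have h1 : ∀ α : ℝ, |α| < |b| → ht α P ≤ 1 / 2 := by
    intro α hα
    refine le_of_forall_gt_imp_ge_of_dense ?_
    intro H hH
    exact hP α H (D.reg α hα H hH)
  have h2 : ∀ β : ℝ, |β| = |b| → ht β P ≤ 1 / 2 := by
    intro β hβ
    have hc : Continuous fun t : ℝ => ht (t * β) P := by
      unfold ht
      fun_prop
    have ht1 : Tendsto (fun t : ℝ => ht (t * β) P) (𝓝[<] 1) (𝓝 (ht (1 * β) P)) :=
      (hc.tendsto 1).mono_left nhdsWithin_le_nhds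
    rw [one_mul] at ht1
    refine le_of_tendsto ht1 ?_
    have hmem : Ioo (0 : ℝ) 1 ∈ 𝓝[<] (1 : ℝ) := Ioo_mem_nhdsLT zero_lt_one
    filter_upwards [hmem] with t ht
    apply h1
    rw [abs_mul, hβ, abs_of_pos ht.1]
    have : 0 < |b| := abs_pos.2 D.hb
    nlinarith [ht.2]
  have hk := kap_mul_cos D.hb2
  constructor
  · have h3 := h2 b rfl
    have h4 : (Complex.exp (b * Complex.I) * (P - kap b)).re = ht b P - ht b (kap b : ℂ) :=
      ht_sub b P (kap b : ℂ)
    rw [h4, ht_ofReal]
    linarith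
  · have h3 := h2 (-b) (abs_neg b)
    have h4 : (Complex.exp (-(b * Complex.I)) * (P - kap b)).re =
        ht (-b) P - ht (-b) (kap b : ℂ) := by
      rw [← ht_sub]
      unfold ht
      push_cast
      rw [neg_mul]
    rw [h4, ht_ofReal, Real.cos_neg]
    linarith

theorem norm_ep_sub_kap {b : ℝ} (hb : Real.cos b ≠ 0) : ‖ep b - kap b‖ = |kap b| := by
  have h1 : ‖ep b - kap b‖ ^ 2 = |kap b| ^ 2 := by
    have e : ep b = ((Real.cos b : ℝ) : ℂ) - ((Real.sin b : ℝ) : ℂ) * Complex.I := by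
      unfold ep
      rw [show -((b : ℂ) * Complex.I) = ((-b : ℝ) : ℂ) * Complex.I by push_cast; ring,
        Complex.exp_mul_I, ← Complex.ofReal_cos, ← Complex.ofReal_sin, Real.cos_neg,
        Real.sin_neg]
      push_cast
      ring
    rw [← Complex.normSq_eq_norm_sq, Complex.normSq_apply, e, sq_abs]
    simp only [Complex.sub_re, Complex.sub_im, Complex.mul_re, Complex.mul_im, Complex.ofReal_re,
      Complex.ofReal_im, Complex.I_re, Complex.I_im]
    have hk := kap_mul_cos hb
    have hsc := Real.sin_sq_add_cos_sq b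
    nlinarith
  exact (sq_eq_sq₀ (norm_nonneg _) (abs_nonneg _)).1 h1

/-- Strictness: a point of the disc different from the extreme point has smaller height. -/
theorem ht_lt_of_ne {ψ G : ℝ} {Q c k : ℂ} (hQ : Complex.exp (ψ * Complex.I) * (Q - k) = G)
    (hc : ‖c - k‖ ≤ G) (hne : c ≠ Q) : ht ψ (c - k) < G := by
  have h1 : ht ψ (c - k) ≤ G := (ht_le ψ _).trans hc
  refine lt_of_le_of_ne h1 ?_
  intro h2
  apply hne
  have hn : ‖Complex.exp (ψ * Complex.I) * (c - k)‖ ≤ G := by
    rw [norm_mul, norm_dir, one_mul]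
    exact hc
  set w := Complex.exp (ψ * Complex.I) * (c - k) with hw
  have h3 : w.re = G := h2
  have hG : 0 ≤ G := (norm_nonneg _).trans hc
  have h4 : ‖w‖ ^ 2 ≤ G ^ 2 := by
    have := norm_nonneg w
    nlinarith
  rw [← Complex.normSq_eq_norm_sq, Complex.normSq_apply, h3] at h4
  have h5 : w.im = 0 := by nlinarith [sq_nonneg w.im]
  have h6 : w = G := by
    apply Complex.ext
    · rw [h3, Complex.ofReal_re]
    · rw [h5, Complex.ofReal_im]
  have h7 : Complex.exp (ψ * Complex.I) * (c - k) = Complex.exp (ψ * Complex.I) * (Q - k) := by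
    rw [← hw, h6, hQ]
  have h8 := mul_left_cancel₀ (Complex.exp_ne_zero _) h7
  exact sub_left_inj.1 h8

/-- If the hull lies in the closed disc of radius `G ≥ |κ|` about `κ` and the point `Q` of its
boundary circle is not in the hull, then neither is `Q'` with `Tm b Q' = Q`, provided that
`Q`, `Q'` are not exceptional.

Proof: let `ψ - 4b` be the direction with `e^{i(ψ-4b)} (Q - κ) = G`; then `e^{iψ} (Q' - κ) = G`
(`Tm_kap`). Every `c` in the hull satisfies `Re (e^{i(ψ-4b)} (c - κ)) < G` (equality forces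
`c = Q`), so by compactness there is `η < G` with `Re (e^{i(ψ-4b)} (c - κ)) ≤ η` on the hull, and one can
take `η` so close to `G` that the exceptional points `0`, `e^{ib}` (for the direction `ψ - 4b`) and
`0`, `e^{-ib}` (for the direction `ψ`), which lie in the disc (`|0 - κ| = |κ|`,
`|e^{±ib} - κ| = |κ|`) and are different from `Q`, resp. `Q'`, satisfy the same bound. `reg_of_CC`, then
`rule1` with `H' = η + κ cos(ψ - 4b)`, `H = η + κ cos ψ` (note
`κ cos (ψ-4b) = κ cos ψ + cos (ψ-3b) - cos (ψ-b)`), hence `Reg f R ψ H` with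
`H < G + κ cos ψ = ht ψ Q'`, so `Q'` is not in the hull. -/
theorem hull_step {b R : ℝ} {f : ℂ → ℂ} (D : Dat b f R) {G : ℝ} (hG : |kap b| ≤ G)
    (hull : ∀ P ∈ CC f R, ‖P - kap b‖ ≤ G) {Q' : ℂ} (hQ : ‖Q' - kap b‖ = G)
    (h1 : Q' ≠ 0) (h2 : Q' ≠ ep b) (h3 : Tm b Q' ≠ 0) (h4 : Tm b Q' ≠ ep (-b))
    (hn : Tm b Q' ∉ CC f R) : Q' ∉ CC f R := by
  have hcos := D.hb2
  have hcos' : Real.cos (-b) ≠ 0 := by rw [Real.cos_neg]; exact hcos
  have hkneg : kap (-b) = kap b := by unfold kap; rw [Real.cos_neg]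
  set ψ : ℝ := -(Q' - kap b).arg with hψ
  have hψ1 : Complex.exp (ψ * Complex.I) * (Q' - kap b) = (G : ℂ) := by
    have e1 : (Q' - kap b : ℂ) = (‖(Q' - kap b : ℂ)‖ : ℂ) *
        Complex.exp ((Q' - kap b).arg * Complex.I) := (Complex.norm_mul_exp_arg_mul_I _).symm
    rw [hQ] at e1
    conv_lhs => rw [e1]
    rw [mul_left_comm, ← Complex.exp_add, hψ]
    push_cast
    rw [show -((Q' - kap b).arg : ℂ) * Complex.I + (Q' - kap b).arg * Complex.I = 0 by ring,
      Complex.exp_zero, mul_one]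
  have hψ2 : Complex.exp (((ψ - 4 * b : ℝ) : ℂ) * Complex.I) * (Tm b Q' - kap b) = (G : ℂ) := by
    rw [Tm_kap hcos, ← mul_assoc, ← Complex.exp_add, ← hψ1]
    congr 2
    push_cast
    ring
  have hG0 : 0 ≤ G := (abs_nonneg _).trans hG
  -- the exceptional points
  have n0 : ‖(0 : ℂ) - kap b‖ ≤ G := by
    rw [zero_sub, norm_neg, Complex.norm_real, Real.norm_eq_abs]
    exact hG
  have n1 : ‖ep b - kap b‖ ≤ G := by rw [norm_ep_sub_kap hcos]; exact hG
  have n2 : ‖ep (-b) - kap b‖ ≤ G := by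
    have := norm_ep_sub_kap hcos'
    rw [hkneg] at this
    rw [this]
    exact hG
  have v1 := ht_lt_of_ne hψ1 n0 h1.symm
  have v2 := ht_lt_of_ne hψ1 n1 h2.symm
  have v3 := ht_lt_of_ne hψ2 n0 h3.symm
  have v4 := ht_lt_of_ne hψ2 n2 h4.symm
  -- compactness
  obtain ⟨η0, hη0, hη0'⟩ : ∃ η0 : ℝ, η0 < G ∧ ∀ c ∈ CC f R, ht (ψ - 4 * b) (c - kap b) ≤ η0 := by
    rcases (CC f R).eq_empty_or_nonempty with he | hne
    · refine ⟨G - 1, by linarith, ?_⟩
      intro c hc
      rw [he] at hc
      exact absurd hc (notMem_empty c)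
    · have hcont : Continuous fun c : ℂ => ht (ψ - 4 * b) (c - kap b) :=
        (continuous_ht _).comp (by fun_prop)
      obtain ⟨c0, hc0, hmax⟩ := (isCompact_CC D.hol).exists_isMaxOn hne hcont.continuousOn
      refine ⟨ht (ψ - 4 * b) (c0 - kap b), ?_, fun c hc => hmax hc⟩
      refine ht_lt_of_ne hψ2 (hull c0 hc0) ?_
      intro h
      rw [h] at hc0
      exact hn hc0
  set η := max η0 (max (max (ht ψ (0 - kap b)) (ht ψ (ep b - kap b)))
    (max (ht (ψ - 4 * b) (0 - kap b)) (ht (ψ - 4 * b) (ep (-b) - kap b)))) with hη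
  have hηG : η < G := by
    rw [hη]
    exact max_lt hη0 (max_lt (max_lt v1 v2) (max_lt v3 v4))
  have w0 : η0 ≤ η := le_max_left _ _
  have w1 : ht ψ (0 - kap b) ≤ η :=
    (le_max_left _ _).trans ((le_max_left _ _).trans (le_max_right _ _))
  have w2 : ht ψ (ep b - kap b) ≤ η :=
    (le_max_right _ _).trans ((le_max_left _ _).trans (le_max_right _ _))
  have w3 : ht (ψ - 4 * b) (0 - kap b) ≤ η :=
    (le_max_left _ _).trans ((le_max_right _ _).trans (le_max_right _ _))
  have w4 : ht (ψ - 4 * b) (ep (-b) - kap b) ≤ η :=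
    (le_max_right _ _).trans ((le_max_right _ _).trans (le_max_right _ _))
  have ht0 : ∀ α : ℝ, ht α 0 = 0 := by intro α; simp [ht]
  rw [ht_sub, ht_ofReal] at w1 w2 w3 w4
  rw [ht0] at w1 w3
  have hrel : kap b * Real.cos (ψ - 4 * b) = kap b * Real.cos ψ +
      (Real.cos (ψ - 3 * b) - Real.cos (ψ - b)) := by
    have h := ht_Tm b ψ (kap b : ℂ)
    rw [Tm_kap_self hcos, ht_ofReal, ht_ofReal] at h
    exact h
  have hreg' : Reg f R (ψ - 4 * b) (η + kap b * Real.cos (ψ - 4 * b)) := by
    refine reg_of_CC (by linarith [D.hR]) D.hol ?_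
    intro P hP
    have h5 := hη0' P hP
    rw [ht_sub, ht_ofReal] at h5
    linarith
  have hreg := rule1 D (ψ := ψ) (H := η + kap b * Real.cos ψ)
    (H' := η + kap b * Real.cos (ψ - 4 * b)) (by linarith) (by linarith) (by linarith)
    (by linarith) (by linarith) hreg'
  intro hQC
  have h6 := hQC ψ _ hreg
  have h7 : ht ψ (Q' - kap b) = G := by
    unfold ht
    rw [hψ1, Complex.ofReal_re]
  rw [ht_sub, ht_ofReal] at h7
  linarith

/-- The hull lies in the disc of radius `|κ|` about `κ`.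

Proof: otherwise let `u₀` be a point of the hull (compact) at maximal distance `G > |κ|` from `κ`. By
`hull_step` (the exceptional points have distance `|κ| < G`) the points `κ + ω^j (u₀ - κ)`, `ω = e^{4ib}`, all
belong to the hull; by `wedge` this contradicts `no_orbit`. -/
theorem hull_disc {b R : ℝ} {f : ℂ → ℂ} (D : Dat b f R) :
    ∀ P ∈ CC f R, ‖P - kap b‖ ≤ |kap b| := by
  by_contra hcon
  push Not at hcon
  obtain ⟨P0, hP0, hP0'⟩ := hcon
  have hcos := D.hb2
  have hcos' : Real.cos (-b) ≠ 0 := by rw [Real.cos_neg]; exact hcos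
  have hkneg : kap (-b) = kap b := by unfold kap; rw [Real.cos_neg]
  have hcont : Continuous fun c : ℂ => ‖c - kap b‖ := by fun_prop
  obtain ⟨u0, hu0, hmax⟩ := (isCompact_CC D.hol).exists_isMaxOn ⟨P0, hP0⟩ hcont.continuousOn
  have hG : |kap b| < ‖u0 - kap b‖ := lt_of_lt_of_le hP0' (hmax hP0)
  have hull : ∀ P ∈ CC f R, ‖P - kap b‖ ≤ ‖u0 - kap b‖ := fun P hP => hmax hP
  have hωn : ‖Complex.exp (4 * b * Complex.I)‖ = 1 := by
    rw [Complex.norm_exp]
    simp
  have hall : ∀ j : ℕ, ((kap b : ℝ) : ℂ) +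
      Complex.exp (4 * b * Complex.I) ^ j * (u0 - kap b) ∈ CC f R := by
    intro j
    induction j with
    | zero => simpa using hu0
    | succ j ih =>
      set Qj : ℂ := ((kap b : ℝ) : ℂ) + Complex.exp (4 * b * Complex.I) ^ j * (u0 - kap b)
        with hQj
      have e1 : Tm b Qj = ((kap b : ℝ) : ℂ) +
          Complex.exp (4 * b * Complex.I) ^ (j + 1) * (u0 - kap b) := by
        have h := Tm_kap hcos Qj
        rw [sub_eq_iff_eq_add] at h
        rw [h, hQj]
        ring
      have nQ : ‖Qj - kap b‖ = ‖u0 - kap b‖ := by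
        rw [hQj, add_sub_cancel_left, norm_mul, norm_pow, hωn, one_pow, one_mul]
      have nT : ‖Tm b Qj - kap b‖ = ‖u0 - kap b‖ := by
        rw [Tm_kap hcos, norm_mul, hωn, one_mul, nQ]
      have m0 : ‖(0 : ℂ) - kap b‖ = |kap b| := by
        rw [zero_sub, norm_neg, Complex.norm_real, Real.norm_eq_abs]
      have m1 : ‖ep b - kap b‖ = |kap b| := norm_ep_sub_kap hcos
      have m2 : ‖ep (-b) - kap b‖ = |kap b| := by
        have := norm_ep_sub_kap hcos'
        rwa [hkneg] at this
      rw [← e1]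
      by_contra hnot
      refine hull_step D hG.le hull nQ ?_ ?_ ?_ ?_ hnot ih
      · intro h; rw [h, m0] at nQ; linarith
      · intro h; rw [h, m1] at nQ; linarith
      · intro h; rw [h, m0] at nT; linarith
      · intro h; rw [h, m2] at nT; linarith
  have hu : u0 - kap b ≠ 0 := by
    intro h
    rw [h, norm_zero] at hG
    exact absurd hG (not_lt.2 (abs_nonneg _))
  refine no_orbit D.hb D.hb1 D.hb2 hu ?_
  intro j
  have h := wedge D (hall j)
  rw [add_sub_cancel_left] at h
  exact h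

theorem Tm_ep {b : ℝ} : Tm b (ep b) = ep (-b) := by
  unfold Tm ep
  rw [← Complex.exp_add]
  have e1 : (4 : ℂ) * b * Complex.I + -(b * Complex.I) = 3 * b * Complex.I := by ring
  rw [e1, sub_self, zero_add]
  congr 1
  push_cast
  ring

/-- The point `Tm b 0 = κ - κ e^{4ib}` is not in the hull.

Proof: otherwise, by induction, all points `Q_j = κ - κ e^{4ibj}`, `j ≥ 1`, belong to the hull or are `0`:
if `Q_j = 0` then `Q_{j+1} = Q_1`. If `Q_j ≠ 0` is in the hull, then `Q_{j+1} = Tm b Q_j` is `0` or in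
the hull by `hull_step` (with `G = |κ|`): `Q_j ≠ ep b` because `ep b` is not in the hull
(`wedge`: `Re (e^{ib} (e^{-ib} - κ)) = 1 - 1/2 > 0`), and `Tm b Q_j = ep (-b)` would give `Q_j = ep b`
(`Tm b (ep b) = ep (-b)`). Since `0` also satisfies the inequalities of the wedge
(`Re (e^{±ib} (0 - κ)) = -1/2`), all `Q_j`, `j ≥ 0`, do; this contradicts `no_orbit` for `u = -κ`. -/
theorem touch_not_mem {b R : ℝ} {f : ℂ → ℂ} (D : Dat b f R) : Tm b 0 ∉ CC f R := by
  intro hmem
  have hcos := D.hb2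
  have hk := kap_mul_cos hcos
  have hωn : ‖Complex.exp (4 * b * Complex.I)‖ = 1 := by
    rw [Complex.norm_exp]
    simp
  have hep : ep b ∉ CC f R := by
    intro h
    have h1 := (wedge D h).1
    have h2 : (Complex.exp (b * Complex.I) * (ep b - kap b)).re =
        ht b (ep b) - ht b (kap b : ℂ) := ht_sub b _ _
    rw [h2, ep_mul_dir, ht_ofReal, sub_self, Real.cos_zero] at h1
    linarith
  have hstep : ∀ j : ℕ, Tm b (((kap b : ℝ) : ℂ) +
      Complex.exp (4 * b * Complex.I) ^ j * (-(kap b : ℂ))) =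
      ((kap b : ℝ) : ℂ) + Complex.exp (4 * b * Complex.I) ^ (j + 1) * (-(kap b : ℂ)) := by
    intro j
    have h := Tm_kap hcos (((kap b : ℝ) : ℂ) +
      Complex.exp (4 * b * Complex.I) ^ j * (-(kap b : ℂ)))
    rw [sub_eq_iff_eq_add] at h
    rw [h]
    ring
  have hall : ∀ j : ℕ, ((kap b : ℝ) : ℂ) +
      Complex.exp (4 * b * Complex.I) ^ j * (-(kap b : ℂ)) ∈ CC f R ∨
      ((kap b : ℝ) : ℂ) + Complex.exp (4 * b * Complex.I) ^ j * (-(kap b : ℂ)) = 0 := by
    intro j
    induction j with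
    | zero => right; simp
    | succ j ih =>
      have e1 := hstep j
      set Qj : ℂ := ((kap b : ℝ) : ℂ) + Complex.exp (4 * b * Complex.I) ^ j * (-(kap b : ℂ))
        with hQj
      rw [← e1]
      by_cases hz : Qj = 0
      · left
        rw [hz]
        exact hmem
      · have hin : Qj ∈ CC f R := ih.resolve_right hz
        by_cases hz2 : Tm b Qj = 0
        · right; exact hz2
        · left
          have nQ : ‖Qj - kap b‖ = |kap b| := by
            rw [hQj, add_sub_cancel_left, norm_mul, norm_pow, hωn, one_pow, one_mul, norm_neg,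
              Complex.norm_real, Real.norm_eq_abs]
          have hne : Qj ≠ ep b := by
            intro h
            rw [h] at hin
            exact hep hin
          by_contra hnot
          refine hull_step D le_rfl (hull_disc D) nQ hz hne hz2 ?_ hnot hin
          intro h
          apply hne
          have h5 := Tm_Tm b Qj
          rw [h, ← Tm_ep, Tm_Tm] at h5
          exact h5.symm
  have hu : (-(kap b : ℂ)) ≠ 0 := by
    rw [neg_ne_zero]
    exact_mod_cast kap_ne_zero hcos
  refine no_orbit D.hb D.hb1 D.hb2 hu ?_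
  intro j
  rcases hall j with h | h
  · have h1 := wedge D h
    rw [add_sub_cancel_left] at h1
    exact h1
  · have h1 : Complex.exp (4 * b * Complex.I) ^ j * (-(kap b : ℂ)) = -(kap b : ℂ) := by
      linear_combination h
    rw [h1]
    constructor
    · have h2 : (Complex.exp (b * Complex.I) * (-(kap b : ℂ))).re = -(ht b (kap b : ℂ)) := by
        unfold ht
        rw [mul_neg, Complex.neg_re]
      rw [h2, ht_ofReal]
      linarith
    · have h2 : (Complex.exp (-(b * Complex.I)) * (-(kap b : ℂ))).re =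
          -(ht (-b) (kap b : ℂ)) := by
        unfold ht
        rw [mul_neg, Complex.neg_re]
        push_cast
        rw [neg_mul]
      rw [h2, ht_ofReal, Real.cos_neg]
      linarith

end Pool.Agent.Worm.SB
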