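import Mathlib
import Pool.Agent.WormS.Kern
import Pool.Agent.WormS.Hull
import Pool.Agent.WormS.BLem

/-!
# The behaviour at the source point (problem MP_3c4b73_an)
-/

open MeasureTheory Set Filter Topology Metric
open scoped Real ENNReal Interval ComplexConjugate

namespace Pool.Agent.Worm.SB

/-- The asymptotics at the source point, `b` of either sign; `s = -1` if `cos b > 0` and `s = 1` if
`cos b < 0`.

Proof: let `ψ = π` if `cos b > 0`, `ψ = 0` if `cos b < 0`; so `e^{iψ} = s` and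
`ht ψ P = Re (e^{iψ} (P - κ)) - |κ|`. By `hull_disc`, `ht ψ P ≤ 0` on the hull, so `F` is analytic on
`hp ψ 0`, and `HB ψ h F` for `h > 0` (`HB_of_reg`). `ht ψ (ep b) = -|cos b| < 0`.
The functional equation `Eqn b F F P` holds on `hp ψ 0`: it holds far out (`D.eqn`, `F = f` there) and
both sides are analytic on `hp ψ 0` (`differentiableOn_LL`, `differentiableOn_src`). The right side is bounded on
`hp ψ 0`: in the direction `ψ - 4b`, all points of the hull other than `Tm b 0` (the point of the circle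
of radius `|κ|` about `κ` where the maximum is attained; it is not in the hull by `touch_not_mem`), `0` and `ep (-b)`
(different from `Tm b 0`) have height at most `ht (ψ-4b) (Tm b 0) - η` for some `η > 0`
(compactness); the image of `hp ψ 0` under `Tm b` is `hp (ψ-4b) (ht (ψ-4b) (Tm b 0))`; use
`norm_LL_le`, `norm_src_le`, `norm_sg_ge` on `H' = ht (ψ-4b) (Tm b 0)`, `H = H' - η`. Then `base_lemma`. -/
theorem touch {b R : ℝ} {f : ℂ → ℂ} (D : Dat b f R) {F : ℂ → ℂ}
    (hF1 : DifferentiableOn ℂ F (CC f R)ᶜ) (hF2 : ∀ P : ℂ, R < ‖P‖ → F P = f P) {s : ℝ}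
    (hs : s = if 0 < Real.cos b then -1 else 1) :
    ∃ C : ℝ, ∀ r : ℝ, 0 < r → r ≤ 1 →
      ‖F ((s * r : ℝ) : ℂ) + b * Complex.I / ((s * r : ℝ) : ℂ)‖ ≤ C * (1 + |Real.log r|) := by
  -- the direction
  have hR0 : 0 < R := by linarith [D.hR]
  obtain ⟨ψ, hψ⟩ : ∃ ψ : ℝ, Complex.exp (ψ * Complex.I) = (s : ℂ) := by
    by_cases hc : 0 < Real.cos b
    · refine ⟨π, ?_⟩
      rw [hs, if_pos hc, Complex.exp_pi_mul_I]
      push_cast
      rfl
    · refine ⟨0, ?_⟩
      rw [hs, if_neg hc]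
      simp
  have hs2 : s * s = 1 := by
    rw [hs]; split_ifs <;> norm_num
  have hsc : s * Real.cos b < 0 := by
    rw [hs]
    split_ifs with hc
    · linarith
    · rcases lt_or_eq_of_le (not_lt.1 hc) with h | h
      · linarith
      · exact absurd h D.hb2
  have hcosψ : Real.cos ψ = s := by
    have h := congrArg Complex.re hψ
    rwa [Complex.exp_ofReal_mul_I_re, Complex.ofReal_re] at h
  have hsinψ : Real.sin ψ = 0 := by
    have h := congrArg Complex.im hψ
    rwa [Complex.exp_ofReal_mul_I_im, Complex.ofReal_im] at h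
  have hcos : ∀ t : ℝ, Real.cos (ψ - t) = s * Real.cos t := by
    intro t
    rw [Real.cos_sub, hcosψ, hsinψ, zero_mul, add_zero]
  have hht : ∀ P : ℂ, ht ψ P = s * P.re := by
    intro P
    unfold ht
    rw [hψ, Complex.re_ofReal_mul]
  have hεb : ht ψ (ep b) < 0 := by
    rw [ep_mul_dir, hcos]
    exact hsc
  -- the hull
  have hdisc := hull_disc D
  have hκ : kap b = 1 / (2 * Real.cos b) := rfl
  have hκs : |kap b| = - (s * kap b) := by
    have h1 : s * kap b < 0 := by
      have h2 : s * kap b = (s * Real.cos b) * (1 / (2 * Real.cos b ^ 2)) := by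
        rw [hκ]
        field_simp [D.hb2]
      rw [h2]
      have : 0 < 1 / (2 * Real.cos b ^ 2) := by
        have := D.hb2
        positivity
      exact mul_neg_of_neg_of_pos hsc this
    have h3 : |s| = 1 := by
      rw [hs]; split_ifs <;> simp
    rw [← abs_of_neg h1, abs_mul, h3, one_mul]
  have hCC0 : ∀ P ∈ CC f R, ht ψ P ≤ 0 := by
    intro P hP
    have h1 := hdisc P hP
    have h2 : ht ψ P = ht ψ (P - kap b) + ht ψ (kap b) := by
      rw [← ht_add]; congr 1; ring
    have h3 := ht_le ψ (P - kap b)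
    have h4 : ht ψ (kap b) = s * kap b := by rw [hht, Complex.ofReal_re]
    rw [h2, h4]
    linarith
  -- the second direction
  set H' : ℝ := s * Real.cos (3 * b) - s * Real.cos b with hH'
  have hTm : ∀ P : ℂ, ht (ψ - 4 * b) (Tm b P) = ht ψ P + H' := by
    intro P
    rw [ht_Tm, hcos, hcos]
  have hsin : Real.sin b ≠ 0 := by
    intro h
    rcases lt_trichotomy b 0 with h1 | h1 | h1
    · have h2 := Real.sin_neg_of_neg_of_neg_pi_lt h1 (by linarith [(abs_lt.1 D.hb1).1])
      linarith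
    · exact D.hb h1
    · have h2 := Real.sin_pos_of_pos_of_lt_pi h1 (abs_lt.1 D.hb1).2
      linarith
  have hH'0 : 0 < H' := by
    have h1 : H' = -(s * Real.cos b) * (4 * Real.sin b ^ 2) := by
      rw [hH', Real.cos_three_mul, Real.sin_sq]
      ring
    rw [h1]
    have h2 : 0 < Real.sin b ^ 2 := by positivity
    have h3 : 0 < -(s * Real.cos b) := by linarith
    positivity
  have hep' : ht (ψ - 4 * b) (ep (-b)) < H' := by
    rw [ep_mul_dir, show ψ - 4 * b - -b = ψ - 3 * b by ring, hcos, hH']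
    linarith
  have hlt : ∀ P ∈ CC f R, ht (ψ - 4 * b) P < H' := by
    intro P hP
    have h1 := hdisc P hP
    set e : ℂ := Complex.exp (((ψ - 4 * b : ℝ) : ℂ) * Complex.I) with he
    have hne : P ≠ Tm b 0 := fun h => touch_not_mem D (h ▸ hP)
    -- `e * (Tm b 0 - κ) = |κ|`
    have h2 : e * (Tm b 0 - kap b) = (|kap b| : ℝ) := by
      rw [Tm_kap D.hb2, ← mul_assoc, he, ← Complex.exp_add,
        show ((ψ - 4 * b : ℝ) : ℂ) * Complex.I + 4 * b * Complex.I = ψ * Complex.I by
          push_cast; ring, hψ, hκs]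
      push_cast
      ring
    have h3 : ‖e‖ = 1 := norm_dir _
    have h4 : ht (ψ - 4 * b) P = (e * (P - kap b)).re + (e * kap b).re := by
      unfold ht
      rw [← he, ← Complex.add_re]
      congr 1
      ring
    have h5 : H' = |kap b| + (e * kap b).re := by
      have h6 := hTm 0
      rw [hht 0, Complex.zero_re, mul_zero, zero_add] at h6
      rw [← h6]
      unfold ht
      rw [← he, show e * Tm b 0 = e * (Tm b 0 - kap b) + e * kap b by ring, h2, Complex.add_re,
        Complex.ofReal_re]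
    rw [h4, h5]
    have h7 : (e * (P - kap b)).re < |kap b| := by
      have h8 : ‖e * (P - kap b)‖ ≤ |kap b| := by rw [norm_mul, h3, one_mul]; exact h1
      refine lt_of_le_of_ne ((Complex.re_le_norm _).trans h8) ?_
      intro h9
      apply hne
      have h10 : e * (P - kap b) = (|kap b| : ℝ) := by
        apply Complex.ext
        · rw [h9, Complex.ofReal_re]
        · rw [Complex.ofReal_im]
          have h11 := Complex.sq_norm (e * (P - kap b))
          rw [Complex.normSq_apply, h9] at h11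
          have h12 : ‖e * (P - kap b)‖ ^ 2 ≤ |kap b| ^ 2 := by
            gcongr
          nlinarith [sq_nonneg (e * (P - kap b)).im]
      have h13 : e * (P - Tm b 0) = 0 := by
        rw [show e * (P - Tm b 0) = e * (P - kap b) - e * (Tm b 0 - kap b) by ring, h10, h2,
          sub_self]
      rcases mul_eq_zero.1 h13 with h14 | h14
      · exact absurd h14 (Complex.exp_ne_zero _)
      · exact sub_eq_zero.1 h14
    linarith
  obtain ⟨H, hHlt, hH0, hHep, hHCC⟩ : ∃ H : ℝ, H < H' ∧ 0 ≤ H ∧ ht (ψ - 4 * b) (ep (-b)) ≤ H ∧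
      ∀ P ∈ CC f R, ht (ψ - 4 * b) P ≤ H := by
    rcases (CC f R).eq_empty_or_nonempty with h | h
    · refine ⟨max 0 (ht (ψ - 4 * b) (ep (-b))), max_lt hH'0 hep', le_max_left _ _,
        le_max_right _ _, ?_⟩
      intro P hP
      rw [h] at hP
      exact absurd hP (notMem_empty P)
    · obtain ⟨c, hc, hmax⟩ := (isCompact_CC (R := R) D.hol).exists_isMaxOn h
        (continuous_ht (ψ - 4 * b)).continuousOn
      refine ⟨max (ht (ψ - 4 * b) c) (max 0 (ht (ψ - 4 * b) (ep (-b)))),
        max_lt (hlt c hc) (max_lt hH'0 hep'), (le_max_left _ _).trans (le_max_right _ _),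
        (le_max_right _ _).trans (le_max_right _ _), ?_⟩
      intro P hP
      exact (hmax hP).trans (le_max_left _ _)
  -- regularity and decay of `F`
  have hok : Ok b ψ 0 := ⟨hεb.le, by linarith⟩
  have hok' : Ok (-b) (ψ - 4 * b) H := ⟨hHep, by linarith⟩
  have hFd : DifferentiableOn ℂ F (hp ψ 0) := hF1.mono fun P hP hPC =>
    absurd (hCC0 P hPC) (not_le.2 hP)
  have hFd' : DifferentiableOn ℂ F (hp (ψ - 4 * b) H) := hF1.mono fun P hP hPC =>
    absurd (hHCC P hPC) (not_le.2 hP)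
  have hFb : ∀ h > 0, HB ψ h F := fun h hh => HB_of_reg D hF1 hF2 hCC0 hh
  have hFb' : ∀ h > H, HB (ψ - 4 * b) h F := fun h hh => HB_of_reg D hF1 hF2 hHCC hh
  -- the right side
  obtain ⟨C1, hC1⟩ := norm_LL_le hok' hFd' hFb' hHlt
  obtain ⟨C2, hC2⟩ := norm_src_le (β := -b) hH0 hHep hHlt
  set g : ℂ → ℂ := fun P => LL (-b) F (Tm b P) / sg (-b) 0 (Tm b P) + src (-b) (Tm b P) with hg
  have hmaps : ∀ P ∈ hp ψ 0, Tm b P ∈ hp (ψ - 4 * b) H' := by
    intro P hP
    have h1 : 0 < ht ψ P := hP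
    show H' < _
    rw [hTm]
    linarith
  have hgb : ∀ P ∈ hp ψ 0, ‖g P‖ ≤ C1 / (2 * (H' - H)) + C2 := by
    intro P hP
    have h1 := hmaps P hP
    have h2 := hC1 _ h1
    have h3 := hC2 _ h1
    have h4 := norm_sg_ge hok' le_rfl (Tm b P)
    rw [Real.exp_zero, mul_one] at h4
    have h5 : H' < ht (ψ - 4 * b) (Tm b P) := h1
    have h6 : 2 * (H' - H) ≤ ‖sg (-b) 0 (Tm b P)‖ := by linarith
    have h7 : 0 < 2 * (H' - H) := by linarith
    have h8 : ‖src (-b) (Tm b P)‖ ≤ C2 := by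
      refine le_trans ?_ h3
      nlinarith [norm_nonneg (src (-b) (Tm b P)), norm_nonneg (Tm b P),
        mul_nonneg (norm_nonneg (src (-b) (Tm b P))) (norm_nonneg (Tm b P))]
    refine (norm_add_le _ _).trans (add_le_add ?_ h8)
    rw [norm_div]
    have h9 : 0 ≤ C1 := (norm_nonneg _).trans h2
    exact div_le_div₀ h9 h2 h7 h6
  -- analyticity of both sides
  have hTmd : Differentiable ℂ (Tm b) := by
    unfold Tm
    fun_prop
  have hmaps' : ∀ P ∈ hp ψ 0, Tm b P ∈ hp (ψ - 4 * b) H := fun P hP =>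
    hp_mono hHlt.le (hmaps P hP)
  have hl : DifferentiableOn ℂ (fun P => LL b F P / sg b 0 P + src b P) (hp ψ 0) := by
    refine DifferentiableOn.add ?_ (differentiableOn_src le_rfl hεb.le)
    exact (differentiableOn_LL hok hFd hFb).div (differentiable_sg b 0).differentiableOn
      fun P hP => sg_ne_zero hok le_rfl hP
  have hr : DifferentiableOn ℂ g (hp ψ 0) := by
    refine DifferentiableOn.add ?_ ?_
    · refine DifferentiableOn.div ?_ ?_ ?_
      · exact (differentiableOn_LL hok' hFd' hFb').comp hTmd.differentiableOn hmaps'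
      · exact ((differentiable_sg (-b) 0).comp hTmd).differentiableOn
      · exact fun P hP => sg_ne_zero hok' le_rfl (hmaps' P hP)
    · exact (differentiableOn_src hH0 hHep).comp hTmd.differentiableOn hmaps'
  -- the equation
  set z : ℂ := Complex.exp (b - 2 * b * Complex.I) with hz
  set w : ℂ := Complex.exp (-b + 2 * b * Complex.I) with hw
  have hz0 : z ≠ 0 := Complex.exp_ne_zero _
  have hEq : EqOn (fun P => z * (LL b F P / sg b 0 P + src b P)) (fun P => w * g P) (hp ψ 0) := by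
    have ha1 : AnalyticOnNhd ℂ (fun P => z * (LL b F P / sg b 0 P + src b P)) (hp ψ 0) :=
      (hl.const_mul z).analyticOnNhd (isOpen_hp ψ 0)
    have ha2 : AnalyticOnNhd ℂ (fun P => w * g P) (hp ψ 0) :=
      (hr.const_mul w).analyticOnNhd (isOpen_hp ψ 0)
    obtain ⟨z0, hz0'⟩ := nonempty_hp ψ (R + 3)
    have hsub : hp ψ (R + 3) ⊆ hp ψ 0 := hp_mono (by linarith)
    refine ha1.eqOn_of_preconnected_of_eventuallyEq ha2 (convex_hp ψ 0).isPreconnected
      (hsub hz0') ?_
    filter_upwards [(isOpen_hp ψ (R + 3)).mem_nhds hz0'] with P hP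
    have hP1 : R + 3 < ht ψ P := hP
    have hP2 : R + 3 < ‖P‖ := hP1.trans_le (ht_le ψ P)
    have hP3 := norm_Tm_ge b P
    have h1 := D.eqn P (by linarith) (by linarith)
    have h2 : LL b F P = LL b f P := by
      unfold LL
      rw [hF2 P (by linarith)]
      congr 1
      refine setIntegral_congr_fun measurableSet_Ioi ?_
      intro x hx
      have hx0 : (0 : ℝ) ≤ x := le_of_lt hx
      have h3 : phi b x P ∈ hp ψ (R + 3) := phi_mem hok hx0 (by linarith) hP
      have h4 : R + 3 < ht ψ (phi b x P) := h3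
      show KK b x P * F (phi b x P) = KK b x P * f (phi b x P)
      rw [hF2 _ (by linarith [ht_le ψ (phi b x P)])]
    have h5 : LL (-b) F (Tm b P) = LL (-b) f (Tm b P) := by
      unfold LL
      rw [hF2 (Tm b P) (by linarith)]
      congr 1
      refine setIntegral_congr_fun measurableSet_Ioi ?_
      intro x hx
      have hx0 : (0 : ℝ) ≤ x := le_of_lt hx
      have h3 := norm_phi_ge (-b) hx0 (Tm b P)
      have hT := one_le_exp hx0
      have h4 : R < ‖phi (-b) x (Tm b P)‖ := by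
        have h6 : R < ‖Tm b P‖ - 1 := by linarith
        have h7 : 1 ≤ Real.exp x ^ 2 := one_le_pow₀ hT
        nlinarith [mul_nonneg (sub_nonneg.2 h7) (by linarith : 0 ≤ ‖Tm b P‖ - 1)]
      show KK (-b) x (Tm b P) * F (phi (-b) x (Tm b P)) =
        KK (-b) x (Tm b P) * f (phi (-b) x (Tm b P))
      rw [hF2 _ h4]
    show z * (LL b F P / sg b 0 P + src b P) =
      w * (LL (-b) F (Tm b P) / sg (-b) 0 (Tm b P) + src (-b) (Tm b P))
    rw [h2, h5]
    exact h1
  have hbase := base_lemma (β := b) (ψ := ψ) hεb (F := F) (G := fun P => z⁻¹ * (w * g P)) hFd hFb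
    ⟨‖z⁻¹‖ * (‖w‖ * (C1 / (2 * (H' - H)) + C2)), fun P hP => by
      rw [norm_mul, norm_mul]
      have := hgb P hP
      gcongr⟩
    (fun P hP => by
      have h1 : z * (LL b F P / sg b 0 P + src b P) = w * g P := hEq hP
      show _ = z⁻¹ * (w * g P)
      rw [← h1, ← mul_assoc, inv_mul_cancel₀ hz0, one_mul])
  obtain ⟨C, hC⟩ := hbase
  refine ⟨C, ?_⟩
  intro r hr0 hr1
  have h1 : ht ψ ((s * r : ℝ) : ℂ) = r := by
    rw [hht, Complex.ofReal_re, ← mul_assoc, hs2, one_mul]
  have h2 : ‖((s * r : ℝ) : ℂ)‖ = r := by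
    have h3 : |s| = 1 := by
      rw [hs]; split_ifs <;> simp
    rw [Complex.norm_real, Real.norm_eq_abs, abs_mul, h3, one_mul, abs_of_pos hr0]
  have h3 := hC ((s * r : ℝ) : ℂ) (show 0 < ht ψ ((s * r : ℝ) : ℂ) by rw [h1]; exact hr0)
    (by rw [h2]; exact hr1)
  rwa [h1] at h3

/-- `2|b|/r ≤ C (1 + |log r|)` fails for small `r`. -/
theorem log_contra {β C : ℝ} (hβ : 0 < β)
    (h : ∀ r : ℝ, 0 < r → r ≤ 1 → β / r ≤ C * (1 + |Real.log r|)) : False := by
  have h1 : Tendsto (fun r : ℝ => C * (r + |Real.log r * r|)) (𝓝[>] 0) (𝓝 (C * (0 + |(0 : ℝ)|))) := by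
    refine Tendsto.const_mul C (Tendsto.add ?_ ?_)
    · exact tendsto_nhdsWithin_of_tendsto_nhds tendsto_id
    · have h := tendsto_log_mul_rpow_nhdsGT_zero (r := 1) one_pos
      simp only [Real.rpow_one] at h
      exact h.abs
  rw [abs_zero, add_zero, mul_zero] at h1
  have h2 : ∀ᶠ r : ℝ in 𝓝[>] 0, C * (r + |Real.log r * r|) < β := h1.eventually (gt_mem_nhds hβ)
  have h3 : ∀ᶠ r : ℝ in 𝓝[>] 0, r ∈ Ioc (0 : ℝ) 1 := Ioc_mem_nhdsGT one_pos
  obtain ⟨r, hr1, hr2⟩ := (h2.and h3).exists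
  have h4 := h r hr2.1 hr2.2
  rw [div_le_iff₀ hr2.1] at h4
  rw [abs_mul, abs_of_pos hr2.1] at hr1
  linarith

/-- There is no data in the compact case. -/
theorem no_dat {b R : ℝ} {f : ℂ → ℂ} (D : Dat b f R) : False := by
  obtain ⟨F, hF1, hF2, -⟩ := geo (by linarith [D.hR]) D.hol
  obtain ⟨C1, h1⟩ := touch D hF1 hF2 rfl
  have hs : (if 0 < Real.cos b then (-1 : ℝ) else 1) = if 0 < Real.cos (-b) then -1 else 1 := by
    rw [Real.cos_neg]
  obtain ⟨C2, h2⟩ := touch D.neg hF1 hF2 hs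
  set s : ℝ := if 0 < Real.cos b then (-1 : ℝ) else 1 with hsdef
  have hs1 : |s| = 1 := by
    rw [hsdef]
    split_ifs <;> simp
  refine log_contra (β := 2 * |b|) (C := C1 + C2) (by have := abs_pos.2 D.hb; positivity) ?_
  intro r hr hr1
  have h3 := h1 r hr hr1
  have h4 := h2 r hr hr1
  have h5 := norm_sub_le (F ((s * r : ℝ) : ℂ) + b * Complex.I / ((s * r : ℝ) : ℂ))
    (F ((s * r : ℝ) : ℂ) + ((-b : ℝ) : ℂ) * Complex.I / ((s * r : ℝ) : ℂ))
  have h6 : (F ((s * r : ℝ) : ℂ) + b * Complex.I / ((s * r : ℝ) : ℂ)) -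
      (F ((s * r : ℝ) : ℂ) + ((-b : ℝ) : ℂ) * Complex.I / ((s * r : ℝ) : ℂ)) =
      ((2 * b : ℝ) : ℂ) * Complex.I / ((s * r : ℝ) : ℂ) := by
    push_cast
    ring
  rw [h6, norm_div, norm_mul, Complex.norm_I, mul_one, Complex.norm_real, Complex.norm_real,
    Real.norm_eq_abs, Real.norm_eq_abs, abs_mul, abs_mul, hs1, one_mul, abs_two, abs_of_pos hr] at h5
  calc 2 * |b| / r ≤ _ := h5
    _ ≤ C1 * (1 + |Real.log r|) + C2 * (1 + |Real.log r|) := add_le_add h3 h4
    _ = _ := by ring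

end Pool.Agent.Worm.SB
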