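import Mathlib
import Pool.Agent.WormS.Kern
import Pool.Agent.WormS.Coe
import Pool.Agent.WormS.RadP
import Pool.Agent.WormS.Grow
import Pool.Agent.WormS.EqPhi
import Pool.Agent.WormS.Ent
import Pool.Agent.WormS.Star
import Pool.Agent.WormS.Touch

/-!
# The compact case: existence of the data (problem MP_3c4b73_an)
-/

open MeasureTheory Set Filter Topology Metric
open scoped Real ENNReal Interval ComplexConjugate

namespace Pool.Agent.Worm.SB

theorem LL_congr {β ψ H : ℝ} {f g : ℂ → ℂ} (hok : Ok β ψ H) (hfg : EqOn f g (hp ψ H)) {P : ℂ}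
    (hP : P ∈ hp ψ H) : LL β f P = LL β g P := by
  unfold LL
  rw [hfg hP]
  congr 1
  apply setIntegral_congr_fun measurableSet_Ioi
  intro x hx
  simp only
  rw [hfg (phi_mem hok (le_of_lt hx) le_rfl hP)]

theorem ht_neg_arg (P : ℂ) : ht (-P.arg) P = ‖P‖ := by
  unfold ht
  nth_rewrite 2 [← Complex.norm_mul_exp_arg_mul_I P]
  rw [mul_left_comm, ← Complex.exp_add]
  push_cast
  rw [show -(P.arg : ℂ) * Complex.I + P.arg * Complex.I = 0 by ring, Complex.exp_zero]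
  simp

theorem exists_dat {b : ℝ} (hb : 0 < b) (hb1 : b < π) (hc : Real.cos b ≠ 0) {Ψ : ℂ → ℂ}
    {γ : ℕ → ℂ} (h : BorelA b Ψ γ) : ∃ R : ℝ, Dat b (f0 γ) R := by
  have hrad : ∀ p : Polynomial ℂ, Rad b (polyF γ p) = Rad (-b) (polyF γ p) :=
    rad_poly hb (coef_rel hb h.borel)
  obtain ⟨A, Λ, hA0, hΛ, hA⟩ := growth_aa hb hc hrad
  have habs : |b| = b := abs_of_pos hb
  refine ⟨Λ + 5, hb.ne', by rw [habs]; exact hb1, hc, by linarith, ?_, ?_, ?_, ?_⟩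
  · refine (differentiableOn_f0 hΛ hA).mono fun P hP => ?_
    have h1 : Λ + 5 < ‖P‖ := hP
    show Λ < ‖P‖
    linarith
  · refine ⟨A * (Λ + 5), fun P hP => ?_⟩
    have h1 := norm_f0_le hΛ hA (P := P) (by linarith)
    have h2 : 0 < ‖P‖ - Λ := by linarith
    have h3 : ‖f0 γ P‖ * ‖P‖ ≤ A / (‖P‖ - Λ) * ‖P‖ := by gcongr
    refine h3.trans ?_
    rw [div_mul_eq_mul_div, div_le_iff₀ h2, mul_assoc]
    apply mul_le_mul_of_nonneg_left _ hA0.le
    nlinarith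
  · intro α hα H hH
    rw [habs] at hα
    set a : ℝ := (1 / 2 + H) / 2 with ha
    have ha1 : 1 / 2 < a := by rw [ha]; linarith
    have ha2 : a < H := by rw [ha]; linarith
    have hR := ray_Phi_half hb h hΛ hA hα (hα.trans hb1) ha1
    refine ⟨Lap (Phi γ) α, (differentiableOn_Lap hR).mono (hp_mono ha2.le), fun P hP => ?_⟩
    have h1 : Λ + 5 < ht α P := hP
    exact Lap_eq_f0 hΛ hA (by linarith)
  · intro P hP hTP
    set ψ : ℝ := -P.arg with hψ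
    have hh : ht ψ P = ‖P‖ := ht_neg_arg P
    have hPm : P ∈ hp ψ (Λ + 5) := by
      show Λ + 5 < ht ψ P
      rw [hh]
      exact hP
    have heq := eqn_lap (b := b) (ψ := ψ) (a := Λ) (Φ := Phi γ) (by linarith)
      (ray_Phi hΛ hA ψ) (ray_Phi hΛ hA _)
      (fun s _ => eqR_series hb hrad (summable_gamma hΛ hA _ (norm_nonneg _))) hPm
    have hok1 : Ok b ψ (Λ + 5) := by
      refine ⟨?_, ?_⟩ <;> rw [ep_mul_dir] <;> linarith [Real.cos_le_one (ψ - b)]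
    have hok2 : Ok (-b) (ψ - 4 * b) (Λ + 1) := by
      refine ⟨?_, ?_⟩ <;> rw [ep_mul_dir] <;> linarith [Real.cos_le_one (ψ - 4 * b - -b)]
    have hT : Tm b P ∈ hp (ψ - 4 * b) (Λ + 1) := by
      show Λ + 1 < ht (ψ - 4 * b) (Tm b P)
      rw [ht_Tm, hh]
      linarith [Real.cos_le_one (ψ - b), Real.neg_one_le_cos (ψ - 3 * b)]
    have e1 : EqOn (Lap (Phi γ) ψ) (f0 γ) (hp ψ (Λ + 5)) := fun Q hQ => by
      have h1 : Λ + 5 < ht ψ Q := hQ
      exact Lap_eq_f0 hΛ hA (by linarith)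
    have e2 : EqOn (Lap (Phi γ) (ψ - 4 * b)) (f0 γ) (hp (ψ - 4 * b) (Λ + 1)) := fun Q hQ => by
      have h1 : Λ + 1 < ht (ψ - 4 * b) Q := hQ
      exact Lap_eq_f0 hΛ hA (by linarith)
    unfold Eqn at heq ⊢
    rw [LL_congr hok1 e1 hPm, LL_congr hok2 e2 hT] at heq
    exact heq

/-- The case `0 < b < π`, `cos b ≠ 0`. -/
theorem no_compact {b : ℝ} (hb : 0 < b) (hb1 : b < π) (hc : Real.cos b ≠ 0) {Ψ : ℂ → ℂ}
    {γ : ℕ → ℂ} (h : BorelA b Ψ γ) : False := by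
  obtain ⟨R, hR⟩ := exists_dat hb hb1 hc h
  exact no_dat hR

end Pool.Agent.Worm.SB
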