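import Mathlib
import Pool.Agent.WormS.Defs
import Pool.Agent.Worm.Borel

/-!
# The Borel transform with the sharp exponent (problem MP_3c4b73_an)
-/

open MeasureTheory Set Filter Topology Metric
open scoped Real ENNReal Interval ComplexConjugate

namespace Pool.Agent.Worm.Br

/-- The large bound with every exponent larger than `1/2`. -/
theorem large_boundA {b : ℝ} {F : ℂ → ℂ} (h : Ok b F) {a : ℝ} (ha : 1 / 2 < a) :
    ∃ n : ℝ → ℝ, (∀ t, 0 ≤ n t) ∧ Measurable n ∧ IntegrableOn (fun t => n t ^ 2) (Ioo (-b) b) ∧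
      ∀ᵐ (t : ℝ) ∂(volume.restrict (Ioo (-b) b)), ∀ l : ℝ,
        ‖Psi F (l + t * Complex.I)‖ ≤ Real.exp (a * Real.exp l) * n t := by
  set c1 : ℝ := (1 / 2 + a) / 2 with hc1
  have h1c : 1 / 2 < c1 := by rw [hc1]; linarith
  have hca : c1 < a := by rw [hc1]; linarith
  have hd : 0 < a - c1 := by linarith
  have hA : 0 ≤ (1 / (a - c1)) * (c1 ^ (1 - 2 * (3 / 4 : ℝ)) * KK (2 * (3 / 4))) := by
    have := KK_nonneg (2 * (3 / 4))
    positivity
  obtain ⟨n, hn0, hnm, hni, hn⟩ := exists_bound h.meas h.fin hA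
  refine ⟨n, hn0, hnm, hni, ?_⟩
  filter_upwards [hn, ae_restrict_mem measurableSet_Ioo] with t ht htb l
  have htb' : |t| < b := abs_lt.2 htb
  set lam := Real.exp l with hlam
  have hlam0 : 0 < lam := Real.exp_pos l
  have h0 : ‖Psi F (l + t * Complex.I)‖ ≤ ‖vl (fs F t) lam 1‖ := by
    unfold Psi
    have him : ((l : ℂ) + t * Complex.I).im = t := by simp
    have hre : ((l : ℂ) + t * Complex.I).re = l := by simp
    rw [him, hre, norm_mul, norm_div, Complex.norm_exp_ofReal_mul_I]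
    have h1 : ‖(2 * π : ℂ)‖ = 2 * π := by
      rw [norm_mul, Complex.norm_real, Real.norm_of_nonneg Real.pi_pos.le]
      simp
    rw [h1]
    have h2 : (1 : ℝ) / (2 * π) ≤ 1 := by
      rw [div_le_one (by positivity)]
      linarith [Real.pi_gt_three]
    exact mul_le_of_le_one_left (norm_nonneg _) h2
  refine h0.trans (ht.2 _ _ (Real.exp_pos _).le ?_)
  have h3 := slice_sq (nice_fs h htb') (r := 3 / 4) (lam := lam) (c1 := c1) (c2 := a)
    (c := 1) (by norm_num) hlam0.le h1c hca (by norm_num)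
  have h5 : ‖vl (fs F t) lam 1‖ₑ ^ 2 = ENNReal.ofReal (1 / (a - c1)) *
      (ENNReal.ofReal (a - c1) * ‖vl (fs F t) lam 1‖ₑ ^ 2) := by
    rw [← mul_assoc, ← ENNReal.ofReal_mul (by positivity), one_div_mul_cancel hd.ne',
      ENNReal.ofReal_one, one_mul]
  rw [h5]
  refine (mul_le_mul_right h3 _).trans (le_of_eq ?_)
  rw [← mul_assoc, ← ENNReal.ofReal_mul (by positivity)]
  congr 2
  rw [← Real.exp_nat_mul]
  have h6 : ((2 : ℕ) : ℝ) * (a * lam) = 2 * lam * a := by push_cast; ring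
  rw [h6]
  ring

end Pool.Agent.Worm.Br

namespace Pool.Agent.Worm.SB

/-- The Borel transform of the solution of the limit problem. -/
theorem borelA_exists {b : ℝ} {F : ℂ → ℂ} {c : ℕ → ℂ} (h : Lim b F c) :
    ∃ Ψ γ, BorelA b Ψ γ := by
  classical
  set F0 : ℂ → ℂ := (S0 b).piecewise F 0 with hF0
  have hF0eq : ∀ w ∈ S0 b, F0 w = F w := fun w hw => piecewise_eq_of_mem _ _ _ hw
  have hm : Measurable F0 :=
    h.hol.continuousOn.measurable_piecewise continuousOn_const (isOpen_S0_sl b).measurableSet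
  have h' := Br.lim_congr h hF0eq
  obtain ⟨h1, -⟩ := Br.borel_meas h' hm
  have hok : Br.Ok b F0 := by
    refine ⟨hm, h'.hol, ?_⟩
    have := h'.mem 0 (3 / 4) (by norm_num)
    simpa using this
  exact ⟨Br.Psi F0, _, h1, fun a ha => Br.large_boundA hok ha⟩

end Pool.Agent.Worm.SB
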