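import Mathlib
import Pool.Agent.Worm.Br.Param
import Pool.Agent.WormS.Kern
import Pool.Agent.WormS.Ray1
import Pool.Agent.WormS.Coe
import Pool.Agent.WormS.RadP
import Pool.Agent.WormS.EqPhi

/-!
# The relation on a half-plane for b = π/2 (problem MP_3c4b73_an)
-/

open MeasureTheory Set Filter Topology Metric
open scoped Real ENNReal Interval ComplexConjugate

namespace Pool.Agent.Worm.SB

namespace EqHalf

theorem exp_two {s : ℝ} (hs : s = π / 2 ∨ s = -(π / 2)) (l : ℝ) :
    Complex.exp (2 * (l + s * Complex.I)) = ((-Real.exp (2 * l) : ℝ) : ℂ) := by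
  have e : (2 : ℂ) * (l + s * Complex.I) =
      ((2 * l : ℝ) : ℂ) + ((2 * s : ℝ) : ℂ) * Complex.I := by push_cast; ring
  have h1 : Complex.exp (((2 * s : ℝ) : ℂ) * Complex.I) = -1 := by
    rcases hs with rfl | rfl
    · rw [show (2 * (π / 2) : ℝ) = π by ring, Complex.exp_pi_mul_I]
    · rw [show (2 * (-(π / 2)) : ℝ) = -π by ring, Complex.ofReal_neg, neg_mul, Complex.exp_neg,
        Complex.exp_pi_mul_I]
      norm_num
  rw [e, Complex.exp_add, ← Complex.ofReal_exp, h1]
  push_cast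
  ring

theorem re_pos {l : ℝ} {z : ℂ} (hz : z.re < 0) : 0 < (((-Real.exp (2 * l) : ℝ) : ℂ) * z).re := by
  rw [Complex.re_ofReal_mul]
  nlinarith [Real.exp_pos (2 * l)]

theorem differentiableOn_PhiL {Ψ : ℂ → ℂ} {γ : ℕ → ℂ} (h : BorelA (π / 2) Ψ γ) :
    DifferentiableOn ℂ (PhiL Ψ) {x : ℂ | 0 < x.re} := by
  have hsl : ∀ x ∈ {x : ℂ | 0 < x.re}, x ∈ Complex.slitPlane := fun x hx => Or.inl hx
  have h1 : DifferentiableOn ℂ (fun x => Ψ (Complex.log x)) {x : ℂ | 0 < x.re} := by
    refine h.borel.hol.comp ?_ ?_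
    · exact fun x hx => (Complex.differentiableAt_log (hsl x hx)).differentiableWithinAt
    · intro x hx
      show |(Complex.log x).im| < π / 2
      rw [Complex.log_im]
      exact Complex.abs_arg_lt_pi_div_two_iff.2 (Or.inl hx)
  have h2 : ∀ x ∈ {x : ℂ | 0 < x.re}, x ≠ 0 := by
    rintro x hx rfl
    simp at hx
  exact h1.div differentiableOn_id h2

/-- locally uniform bound -/
theorem exists_bound {Ψ : ℂ → ℂ} {γ : ℕ → ℂ} (h : BorelA (π / 2) Ψ γ) {y₀ : ℂ} {ρ : ℝ}
    (hρ : ∀ z ∈ closedBall y₀ ρ, z.re < 0) : ∃ C : ℝ, 0 ≤ C ∧ ∀ z ∈ closedBall y₀ ρ, ∀ l : ℝ,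
      l ≤ 0 → ‖PhiL Ψ (((-Real.exp (2 * l) : ℝ) : ℂ) * z)‖ ≤ C := by
  rcases lt_or_ge ρ 0 with hneg | h0
  · refine ⟨0, le_rfl, fun z hz => ?_⟩
    rw [closedBall_eq_empty.2 hneg] at hz
    exact absurd hz (notMem_empty _)
  have hcomp : IsCompact (closedBall y₀ ρ) := isCompact_closedBall y₀ ρ
  have hne : (closedBall y₀ ρ).Nonempty := ⟨y₀, mem_closedBall_self h0⟩
  have hcont : ContinuousOn (fun z : ℂ => |Complex.arg (-z)|) (closedBall y₀ ρ) := by
    refine ContinuousOn.abs fun z hz => ContinuousAt.continuousWithinAt ?_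
    have h1 : -z ∈ Complex.slitPlane := Or.inl (by rw [Complex.neg_re]; linarith [hρ z hz])
    exact (Complex.continuousAt_arg h1).comp continuous_neg.continuousAt
  obtain ⟨z₁, hz₁, hmax⟩ := hcomp.exists_isMaxOn hne hcont
  set β₀ : ℝ := |Complex.arg (-z₁)| with hβ₀
  have hβ : β₀ < π / 2 := Complex.abs_arg_lt_pi_div_two_iff.2
    (Or.inl (by rw [Complex.neg_re]; linarith [hρ z₁ hz₁]))
  obtain ⟨C, hC⟩ := strip_bound (by positivity : (0 : ℝ) < π / 2) h (abs_nonneg _) hβ
    (by norm_num : (1 : ℝ) / 2 < 1)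
  have hC0 : 0 ≤ C := by
    have h1 := hC 0 (by rw [Complex.zero_im, abs_zero]; exact abs_nonneg _)
    rw [Complex.zero_re, Real.exp_zero, mul_one] at h1
    have h2 := (norm_nonneg _).trans h1
    by_contra hcon
    have := mul_neg_of_neg_of_pos (not_le.1 hcon) (Real.exp_pos (1 * 1))
    linarith
  set M : ℝ := ‖y₀‖ + ρ with hM
  refine ⟨C * Real.exp M, by positivity, fun z hz l hl => ?_⟩
  have hzM : ‖z‖ ≤ M := by
    have h1 : ‖z - y₀‖ ≤ ρ := by rwa [← dist_eq_norm]
    have h2 : z = y₀ + (z - y₀) := by ring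
    rw [h2]
    exact (norm_add_le _ _).trans (by linarith)
  have hzre := hρ z hz
  set x : ℂ := ((-Real.exp (2 * l) : ℝ) : ℂ) * z with hx
  have hxre : 0 < x.re := re_pos hzre
  have hx0 : x ≠ 0 := by
    intro h0
    rw [h0] at hxre
    simp at hxre
  have hxn : 0 < ‖x‖ := norm_pos_iff.2 hx0
  have hxM : ‖x‖ ≤ M := by
    rw [hx, norm_mul, Complex.norm_real, Real.norm_eq_abs, abs_neg, abs_of_pos (Real.exp_pos _)]
    have h1 : Real.exp (2 * l) ≤ 1 := Real.exp_le_one_iff.2 (by linarith)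
    calc Real.exp (2 * l) * ‖z‖ ≤ 1 * ‖z‖ := mul_le_mul_of_nonneg_right h1 (norm_nonneg _)
      _ ≤ M := by rw [one_mul]; exact hzM
  have harg : |(Complex.log x).im| ≤ β₀ := by
    rw [Complex.log_im]
    have h1 : x = ((Real.exp (2 * l) : ℝ) : ℂ) * (-z) := by
      rw [hx]; push_cast; ring
    rw [h1, Complex.arg_real_mul _ (Real.exp_pos _)]
    exact hmax hz
  have h1 := hC (Complex.log x) harg
  have h2 : Real.exp (Complex.log x).re = ‖x‖ := by
    rw [Complex.log_re, Real.exp_log hxn]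
  rw [h2, one_mul] at h1
  unfold PhiL
  rw [norm_div, div_le_iff₀ hxn]
  calc ‖Ψ (Complex.log x)‖ ≤ C * ‖x‖ * Real.exp ‖x‖ := h1
    _ ≤ C * ‖x‖ * Real.exp M :=
        mul_le_mul_of_nonneg_left (Real.exp_le_exp.2 hxM) (by positivity)
    _ = C * Real.exp M * ‖x‖ := by ring

theorem norm_exp1 (l s : ℝ) :
    ‖Complex.exp ((2 - Complex.I) * (l + s * Complex.I))‖ = Real.exp (2 * l) * Real.exp s := by
  rw [Complex.norm_exp, ← Real.exp_add]
  congr 1
  simp

theorem norm_exp2 {l s : ℝ} (hl : l ≤ 0) {z : ℂ} {M : ℝ} (hM : ‖z‖ ≤ M) :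
    ‖Complex.exp (-(Complex.exp (l + s * Complex.I) * z))‖ ≤ Real.exp M := by
  refine (Complex.norm_exp_le_exp_norm _).trans (Real.exp_le_exp.2 ?_)
  rw [norm_neg, norm_mul, Complex.exp_add, norm_mul, norm_dir, mul_one, ← Complex.ofReal_exp,
    Complex.norm_real, Real.norm_of_nonneg (Real.exp_pos _).le]
  have h1 : Real.exp l ≤ 1 := Real.exp_le_one_iff.2 hl
  calc Real.exp l * ‖z‖ ≤ 1 * ‖z‖ := mul_le_mul_of_nonneg_right h1 (norm_nonneg _)
    _ ≤ M := by rw [one_mul]; exact hM

theorem differentiableAt_rad {Ψ : ℂ → ℂ} {γ : ℕ → ℂ} (h : BorelA (π / 2) Ψ γ) {s : ℝ}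
    (hs : s = π / 2 ∨ s = -(π / 2)) {y₀ : ℂ} (hy : y₀.re < 0) :
    DifferentiableAt ℂ (fun y => Rad s (phiF (PhiL Ψ) y)) y₀ := by
  set ρ : ℝ := -y₀.re / 2 with hρ
  have hρ0 : 0 < ρ := by rw [hρ]; linarith
  have hball : ∀ z ∈ closedBall y₀ ρ, z.re < 0 := by
    intro z hz
    have h1 : ‖z - y₀‖ ≤ ρ := by rwa [← dist_eq_norm]
    have h2 := (abs_le.1 (Complex.abs_re_le_norm (z - y₀))).2
    rw [Complex.sub_re] at h2
    rw [hρ] at h1
    linarith
  obtain ⟨C, hC0, hC⟩ := exists_bound h hball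
  set M : ℝ := ‖y₀‖ + ρ with hM
  have hs1 : |s| = π / 2 := by
    rcases hs with rfl | rfl
    · exact abs_of_pos (by positivity)
    · rw [abs_neg]; exact abs_of_pos (by positivity)
  set K : ℝ := Real.exp (π / 2) * ((C + 1 + π / 2) * Real.exp M) with hK
  have hpi := Real.pi_pos
  unfold Rad
  refine Br.differentiableAt_integral (μ := volume.restrict (Iic (0 : ℝ))) (ρ := ρ) hρ0
    (g := fun l => K * Real.exp l) ?_ ?_ ?_ ?_
  · exact (integrableOn_exp_Iic 0).const_mul K
  · intro z hz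
    have hzre := hball z (ball_subset_closedBall hz)
    have hc1 : Continuous fun l : ℝ => PhiL Ψ (Complex.exp (2 * (l + s * Complex.I)) * z) := by
      refine (differentiableOn_PhiL h).continuousOn.comp_continuous (by fun_prop) fun l => ?_
      show 0 < (Complex.exp (2 * (l + s * Complex.I)) * z).re
      rw [exp_two hs]
      exact re_pos hzre
    have hc : Continuous fun l : ℝ => Complex.exp ((2 - Complex.I) * (l + s * Complex.I)) *
        phiF (PhiL Ψ) z (l + s * Complex.I) := by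
      unfold phiF
      have h2 : Continuous fun l : ℝ => Complex.exp ((2 - Complex.I) * (l + s * Complex.I)) := by
        fun_prop
      have h3 : Continuous fun l : ℝ => ((l : ℂ) + s * Complex.I) := by fun_prop
      have h4 : Continuous fun l : ℝ =>
          Complex.exp (-(Complex.exp (l + s * Complex.I) * z)) := by fun_prop
      exact h2.mul ((hc1.add h3).mul h4)
    exact hc.aestronglyMeasurable
  · refine Eventually.of_forall fun l => ?_
    unfold phiF
    have h1 : DifferentiableOn ℂ (fun z => PhiL Ψ (Complex.exp (2 * (l + s * Complex.I)) * z))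
        (ball y₀ ρ) := by
      refine (differentiableOn_PhiL h).comp (by fun_prop) fun z hz => ?_
      show 0 < (Complex.exp (2 * (l + s * Complex.I)) * z).re
      rw [exp_two hs]
      exact re_pos (hball z (ball_subset_closedBall hz))
    have h2 : DifferentiableOn ℂ
        (fun z => Complex.exp (-(Complex.exp (l + s * Complex.I) * z))) (ball y₀ ρ) := by fun_prop
    exact ((h1.add_const _).mul h2).const_mul _
  · rw [ae_restrict_iff' measurableSet_Iic]
    refine Eventually.of_forall fun l hl z hz => ?_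
    have hl' : l ≤ 0 := hl
    have hzb := ball_subset_closedBall hz
    have hzM : ‖z‖ ≤ M := by
      have h1 : ‖z - y₀‖ ≤ ρ := by
        rw [← dist_eq_norm]; exact hzb
      have h2 : z = y₀ + (z - y₀) := by ring
      rw [h2]
      exact (norm_add_le _ _).trans (by linarith)
    have b1 := hC z hzb l hl'
    rw [← exp_two hs] at b1
    have b2 := norm_exp2 (s := s) hl' hzM
    have b3 : ‖(l : ℂ) + s * Complex.I‖ ≤ |l| + π / 2 := by
      refine (norm_add_le _ _).trans ?_
      rw [norm_mul, Complex.norm_I, mul_one, Complex.norm_real, Complex.norm_real,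
        Real.norm_eq_abs, Real.norm_eq_abs, hs1]
    have b4 : Real.exp s ≤ Real.exp (π / 2) := Real.exp_le_exp.2 (by
      rw [← hs1]; exact le_abs_self s)
    have b5 : |l| ≤ Real.exp (-l) := by
      rw [abs_of_nonpos hl']
      have := Real.add_one_le_exp (-l)
      linarith
    have b6 : Real.exp (2 * l) * (C + |l| + π / 2) ≤ Real.exp l * (C + 1 + π / 2) := by
      have e1 : Real.exp (2 * l) = Real.exp l * Real.exp l := by
        rw [← Real.exp_add]; congr 1; ring
      have e2 : Real.exp l ≤ 1 := Real.exp_le_one_iff.2 hl'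
      have e3 : Real.exp l * |l| ≤ 1 := by
        calc Real.exp l * |l| ≤ Real.exp l * Real.exp (-l) :=
              mul_le_mul_of_nonneg_left b5 (Real.exp_pos _).le
          _ = 1 := by rw [← Real.exp_add, add_neg_cancel, Real.exp_zero]
      have e4 := Real.exp_pos l
      rw [e1, mul_assoc]
      refine mul_le_mul_of_nonneg_left ?_ e4.le
      calc Real.exp l * (C + |l| + π / 2) = Real.exp l * (C + π / 2) + Real.exp l * |l| := by ring
        _ ≤ 1 * (C + π / 2) + 1 :=
            add_le_add (mul_le_mul_of_nonneg_right e2 (by positivity)) e3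
        _ = C + 1 + π / 2 := by ring
    rw [norm_mul, norm_exp1]
    unfold phiF
    rw [norm_mul]
    have b7 : ‖PhiL Ψ (Complex.exp (2 * (l + s * Complex.I)) * z) + (l + s * Complex.I)‖ ≤
        C + |l| + π / 2 := by
      refine (norm_add_le _ _).trans ?_
      linarith
    calc Real.exp (2 * l) * Real.exp s *
          (‖PhiL Ψ (Complex.exp (2 * (l + s * Complex.I)) * z) + (l + s * Complex.I)‖ *
            ‖Complex.exp (-(Complex.exp (l + s * Complex.I) * z))‖)
        ≤ Real.exp (2 * l) * Real.exp (π / 2) * ((C + |l| + π / 2) * Real.exp M) := by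
          refine mul_le_mul (mul_le_mul_of_nonneg_left b4 (Real.exp_pos _).le)
            (mul_le_mul b7 b2 (norm_nonneg _) (by positivity)) (by positivity) (by positivity)
      _ = Real.exp (π / 2) * Real.exp M * (Real.exp (2 * l) * (C + |l| + π / 2)) := by ring
      _ ≤ Real.exp (π / 2) * Real.exp M * (Real.exp l * (C + 1 + π / 2)) :=
          mul_le_mul_of_nonneg_left b6 (by positivity)
      _ = K * Real.exp l := by rw [hK]; ring

end EqHalf

open EqHalf in
/-- For `b = π/2` the relation holds on the left half-plane.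

Proof: for `τ = l ± iπ/2` one has `e^{2τ} y = - e^{2l} y` and `e^τ y = ± i e^l y`, so both sides are
`∫_{l ≤ 0} e^{(2-i)(l ± iπ/2)} (PhiL Ψ (- e^{2l} y) + l ± iπ/2) e^{∓ i e^l y} dl`, analytic in `y` on
`{Re y < 0}` (`PhiL Ψ x = Ψ (log x)/x` is analytic for `Re x > 0` and locally bounded up to `0`, by
`strip_bound`; differentiate under the integral sign, dominated by `C e^{2l} (1 + |l|)`). For small
`|y|` (with `series_exists`: `|y| < e^q`) `PhiL Ψ (- e^{2l} y) = Phi γ (- e^{2l} y)` and `eqR_series`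
(with `rad_poly`, `coef_rel`) gives the equation; then the identity theorem. -/
theorem eqR_half {Ψ : ℂ → ℂ} {γ : ℕ → ℂ} (h : BorelA (π / 2) Ψ γ) {y : ℂ} (hy : y.re < 0) :
    EqR (π / 2) (PhiL Ψ) y := by
  have hb : (0 : ℝ) < π / 2 := by positivity
  obtain ⟨q, Λ, hq, hΛ, hqΛ, hγ, hser⟩ := series_exists hb h.borel
  have hexpq := Real.exp_pos q
  -- small arguments
  have hsmall : ∀ z : ℂ, z.re < 0 → ‖z‖ < Real.exp q → EqR (π / 2) (PhiL Ψ) z := by
    intro z hz hzq
    have hsum : Summable fun j : ℕ => ‖γ j‖ * ‖z‖ ^ j := by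
      have h1 : Summable fun j : ℕ => Λ * (1 / 2 : ℝ) ^ j :=
        (summable_geometric_of_lt_one (by norm_num) (by norm_num)).mul_left Λ
      refine Summable.of_nonneg_of_le (fun j => by positivity) (fun j => ?_) h1
      have h2 : Λ * ‖z‖ ≤ 1 / 2 := by
        calc Λ * ‖z‖ ≤ Λ * Real.exp q := mul_le_mul_of_nonneg_left hzq.le (by linarith)
          _ ≤ 1 / 2 := by rw [mul_comm]; exact hqΛ
      calc ‖γ j‖ * ‖z‖ ^ j ≤ Λ ^ (j + 1) * ‖z‖ ^ j :=
            mul_le_mul_of_nonneg_right (hγ j) (by positivity)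
        _ = Λ * (Λ * ‖z‖) ^ j := by rw [mul_pow, pow_succ]; ring
        _ ≤ Λ * (1 / 2 : ℝ) ^ j :=
            mul_le_mul_of_nonneg_left (pow_le_pow_left₀ (by positivity) h2 j) (by linarith)
    have h1 : EqR (π / 2) (Phi γ) z := eqR_series hb (rad_poly hb (coef_rel hb h.borel)) hsum
    have key : ∀ s : ℝ, (s = π / 2 ∨ s = -(π / 2)) →
        Rad s (phiF (PhiL Ψ) z) = Rad s (phiF (Phi γ) z) := by
      intro s hs
      unfold Rad
      refine setIntegral_congr_fun measurableSet_Iic fun l hl => ?_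
      have hl' : l ≤ 0 := hl
      unfold phiF
      congr 3
      rw [exp_two hs]
      set x : ℂ := ((-Real.exp (2 * l) : ℝ) : ℂ) * z with hx
      have hxre : 0 < x.re := re_pos hz
      have hx0 : x ≠ 0 := by
        intro h0
        rw [h0] at hxre
        simp at hxre
      have hxn : 0 < ‖x‖ := norm_pos_iff.2 hx0
      have hxq : ‖x‖ < Real.exp q := by
        rw [hx, norm_mul, Complex.norm_real, Real.norm_eq_abs, abs_neg,
          abs_of_pos (Real.exp_pos _)]
        have h3 : Real.exp (2 * l) ≤ 1 := Real.exp_le_one_iff.2 (by linarith)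
        calc Real.exp (2 * l) * ‖z‖ ≤ 1 * ‖z‖ := mul_le_mul_of_nonneg_right h3 (norm_nonneg _)
          _ < Real.exp q := by rw [one_mul]; exact hzq
      have h4 := hser (Complex.log x) (by
        rw [Complex.log_im]
        exact Complex.abs_arg_lt_pi_div_two_iff.2 (Or.inl hxre)) (by
        rw [Complex.log_re]
        exact (Real.log_lt_iff_lt_exp hxn).2 hxq)
      unfold PhiL
      rw [h4, Complex.exp_log hx0, mul_div_cancel_left₀ _ hx0]
    unfold EqR at h1 ⊢
    rw [key _ (Or.inl rfl), key _ (Or.inr rfl)]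
    exact h1
  -- the identity theorem
  set D : ℂ → ℂ := fun z => Rad (π / 2) (phiF (PhiL Ψ) z) - Rad (-(π / 2)) (phiF (PhiL Ψ) z)
    with hD
  have hopen : IsOpen {z : ℂ | z.re < 0} := isOpen_lt Complex.continuous_re continuous_const
  have hconv : Convex ℝ {z : ℂ | z.re < 0} := convex_halfSpace_re_lt 0
  have hdiff : DifferentiableOn ℂ D {z : ℂ | z.re < 0} := fun z hz =>
    ((differentiableAt_rad h (Or.inl rfl) hz).sub
      (differentiableAt_rad h (Or.inr rfl) hz)).differentiableWithinAt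
  have han : AnalyticOnNhd ℂ D {z : ℂ | z.re < 0} := hdiff.analyticOnNhd hopen
  set z₀ : ℂ := ((-(Real.exp q / 2) : ℝ) : ℂ) with hz₀
  have hz₀1 : z₀.re < 0 := by
    rw [hz₀, Complex.ofReal_re]; linarith
  have hz₀2 : ‖z₀‖ < Real.exp q := by
    rw [hz₀, Complex.norm_real, Real.norm_eq_abs, abs_neg, abs_of_pos (by positivity)]
    linarith
  have hev : ∀ᶠ z in 𝓝 z₀, D z = 0 := by
    have h1 : ∀ᶠ z in 𝓝 z₀, z.re < 0 := hopen.mem_nhds hz₀1
    have h2 : ∀ᶠ z : ℂ in 𝓝 z₀, ‖z‖ < Real.exp q :=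
      (isOpen_lt continuous_norm continuous_const).mem_nhds hz₀2
    filter_upwards [h1, h2] with z a1 a2
    have := hsmall z a1 a2
    unfold EqR at this
    rw [hD]
    simp only
    rw [this, sub_self]
  have hzero := han.eqOn_zero_of_preconnected_of_eventuallyEq_zero hconv.isPreconnected
    hz₀1 hev hy
  unfold EqR
  exact sub_eq_zero.1 hzero

end Pool.Agent.Worm.SB
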