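import Mathlib
import Pool.Agent.WormS.Kern
import Pool.Agent.WormS.Ray1

/-!
# Rotation of the ray (problem MP_3c4b73_an)
-/

open MeasureTheory Set Filter Topology Metric
open scoped Real ENNReal Interval ComplexConjugate

namespace Pool.Agent.Worm.SB

/-- The integrand in logarithmic coordinates. -/
private noncomputable def rotG (Ψ : ℂ → ℂ) (x : ℝ) (τ : ℂ) : ℂ :=
  Ψ τ * Complex.exp (-((x : ℂ) * Complex.exp τ))

private theorem rot_dom : Integrable (fun l : ℝ => Real.exp l * Real.exp (-Real.exp l)) := by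
  have h := integrableOn_image_iff_integrableOn_abs_deriv_smul (s := univ) (f := Real.exp)
    (f' := Real.exp) MeasurableSet.univ (fun x _ => (Real.hasDerivAt_exp x).hasDerivWithinAt)
    (Real.exp_injective.injOn) (fun s => Real.exp (-s))
  rw [image_univ, Real.range_exp] at h
  have h1 : IntegrableOn (fun x : ℝ => Real.exp (-x)) (Ioi 0) := by
    have := integrableOn_exp_neg_Ioi 0
    simpa using this
  have h2 := h.1 h1
  rw [integrableOn_univ] at h2
  refine h2.congr (Eventually.of_forall fun l => ?_)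
  simp [abs_of_pos (Real.exp_pos l)]

private theorem lap_log {Ψ : ℂ → ℂ} {x α : ℝ} (hα : |α| < π) :
    Lap (PhiL Ψ) α (x : ℂ) = ∫ l : ℝ, rotG Ψ x (l + α * Complex.I) := by
  have hαm : α ∈ Ioc (-π) π := by
    rw [abs_lt] at hα
    exact ⟨hα.1, hα.2.le⟩
  unfold Lap
  rw [← Real.range_exp, ← image_univ,
    integral_image_eq_integral_abs_deriv_smul MeasurableSet.univ
    (fun x _ => (Real.hasDerivAt_exp x).hasDerivWithinAt) (Real.exp_injective.injOn),
    setIntegral_univ]
  refine integral_congr_ae (Eventually.of_forall fun l => ?_)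
  simp only [abs_of_pos (Real.exp_pos l), Complex.real_smul]
  have h1 : ((Real.exp l : ℝ) : ℂ) * Complex.exp (α * Complex.I) =
      Complex.exp (l + α * Complex.I) := by
    rw [Complex.ofReal_exp, ← Complex.exp_add]
  have h2 : Complex.log (Complex.exp (l + α * Complex.I)) = l + α * Complex.I := by
    rw [Complex.log_exp]
    · simpa using hαm.1
    · simpa using hαm.2
  unfold PhiL rotG
  rw [h1, h2]
  have h3 : Complex.exp (l + α * Complex.I) ≠ 0 := Complex.exp_ne_zero _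
  have h4 : ((Real.exp l : ℝ) : ℂ) ≠ 0 := by exact_mod_cast (Real.exp_pos l).ne'
  have h5 : Complex.exp (α * Complex.I) ≠ 0 := Complex.exp_ne_zero _
  rw [show ((Real.exp l : ℝ) : ℂ) * (Complex.exp (α * Complex.I) *
    (Ψ (l + α * Complex.I) / Complex.exp (l + α * Complex.I)) *
      Complex.exp (-(↑x * Complex.exp (l + α * Complex.I)))) =
    (((Real.exp l : ℝ) : ℂ) * Complex.exp (α * Complex.I)) *
    (Ψ (l + α * Complex.I) / Complex.exp (l + α * Complex.I)) *
      Complex.exp (-(↑x * Complex.exp (l + α * Complex.I))) by ring, h1]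
  field_simp

private theorem rot_bound {Ψ : ℂ → ℂ} {x C : ℝ} (hx : 4 ≤ x)
    (hC : ∀ τ : ℂ, |τ.im| ≤ π / 4 → ‖Ψ τ‖ ≤ C * Real.exp τ.re * Real.exp (1 * Real.exp τ.re))
    {τ : ℂ} (hτ : |τ.im| ≤ π / 4) :
    ‖rotG Ψ x τ‖ ≤ C * (Real.exp τ.re * Real.exp (-Real.exp τ.re)) := by
  have h1 := hC τ hτ
  have hC0 : 0 ≤ C := by
    have h2 := (norm_nonneg _).trans h1
    rw [mul_assoc] at h2
    exact nonneg_of_mul_nonneg_left h2 (by positivity)
  unfold rotG
  rw [norm_mul, Complex.norm_exp]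
  have h2 : (-((x : ℂ) * Complex.exp τ)).re = -(x * (Real.exp τ.re * Real.cos τ.im)) := by
    rw [Complex.neg_re, Complex.re_ofReal_mul, Complex.exp_re]
  have h3 : Real.sqrt 2 / 2 ≤ Real.cos τ.im := by
    rw [← Real.cos_pi_div_four, ← Real.cos_abs τ.im]
    exact Real.cos_le_cos_of_nonneg_of_le_pi (abs_nonneg _) (by linarith [Real.pi_pos]) hτ
  have h4 : 1 ≤ Real.sqrt 2 := by
    rw [show (1 : ℝ) = Real.sqrt 1 by simp]
    exact Real.sqrt_le_sqrt (by norm_num)
  have h5 : 2 ≤ x * Real.cos τ.im := by nlinarith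
  rw [h2]
  have h6 : Real.exp (1 * Real.exp τ.re) * Real.exp (-(x * (Real.exp τ.re * Real.cos τ.im))) ≤
      Real.exp (-Real.exp τ.re) := by
    rw [← Real.exp_add]
    apply Real.exp_le_exp.2
    have := Real.exp_pos τ.re
    nlinarith
  calc ‖Ψ τ‖ * Real.exp (-(x * (Real.exp τ.re * Real.cos τ.im))) ≤
      (C * Real.exp τ.re * Real.exp (1 * Real.exp τ.re)) *
        Real.exp (-(x * (Real.exp τ.re * Real.cos τ.im))) := by gcongr
    _ = C * (Real.exp τ.re * (Real.exp (1 * Real.exp τ.re) *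
        Real.exp (-(x * (Real.exp τ.re * Real.cos τ.im))))) := by ring
    _ ≤ C * (Real.exp τ.re * Real.exp (-Real.exp τ.re)) := by gcongr

/-- Rotation of the ray of the Laplace transform.

Proof: `G τ = Ψ τ e^{-x e^τ}` is analytic on `|Im τ| < π/2`, and `Lap (PhiL Ψ) α x = ∫_ℝ G(l + iα) dl`
for `|α| ≤ π/4` (substitution `s = e^l`; `PhiL Ψ (e^{l+iα}) e^{l+iα} = Ψ (l + iα)`). By
`strip_bound` with `a = 1`, for `|Im τ| ≤ π/4`, `‖G τ‖ ≤ C e^{Re τ} e^{(1 - x cos(π/4)) e^{Re τ}}`, which is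
`≤ C e^{Re τ} e^{-e^{Re τ}}` for `x ≥ 4`. Cauchy on rectangles. -/
theorem Lap_rot {Ψ : ℂ → ℂ} {γ : ℕ → ℂ} (h : BorelA (π / 2) Ψ γ) {x : ℝ} (hx : 4 ≤ x) :
    Lap (PhiL Ψ) (-(π / 4)) (x : ℂ) = Lap (PhiL Ψ) (π / 4) (x : ℂ) := by
  have hπ := Real.pi_pos
  obtain ⟨C, hC⟩ := strip_bound (by positivity) h (β₀ := π / 4) (by positivity) (by linarith)
    (a := 1) (by norm_num)
  have hbd : ∀ τ : ℂ, |τ.im| ≤ π / 4 →
      ‖rotG Ψ x τ‖ ≤ C * (Real.exp τ.re * Real.exp (-Real.exp τ.re)) :=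
    fun τ hτ => rot_bound hx hC hτ
  have hdiff : DifferentiableOn ℂ (rotG Ψ x) {τ | |τ.im| < π / 2} := by
    unfold rotG
    exact h.borel.hol.mul (by fun_prop)
  have hint : ∀ α : ℝ, |α| ≤ π / 4 → Integrable (fun l : ℝ => rotG Ψ x (l + α * Complex.I)) := by
    intro α hα
    refine (rot_dom.const_mul C).mono' ?_ (Eventually.of_forall fun l => ?_)
    · refine Continuous.aestronglyMeasurable ?_
      refine hdiff.continuousOn.comp_continuous (by fun_prop) ?_
      intro l
      show |((l : ℂ) + α * Complex.I).im| < π / 2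
      simp
      linarith
    · have := hbd (l + α * Complex.I) (by simpa using hα)
      simpa using this
  have h4 : |π / 4| ≤ π / 4 := by rw [abs_of_pos (by positivity)]
  have h4' : |-(π / 4)| ≤ π / 4 := by rw [abs_neg]; exact h4
  rw [lap_log (by rw [abs_neg, abs_of_pos (by positivity)]; linarith),
    lap_log (by rw [abs_of_pos (by positivity)]; linarith)]
  have hrect : ∀ X : ℝ, (∫ y in (-X)..X, rotG Ψ x (y + ((-(π / 4) : ℝ) : ℂ) * Complex.I)) -
      (∫ y in (-X)..X, rotG Ψ x (y + ((π / 4 : ℝ) : ℂ) * Complex.I)) +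
      Complex.I * (∫ y in (-(π / 4))..(π / 4), rotG Ψ x (X + y * Complex.I)) -
      Complex.I * (∫ y in (-(π / 4))..(π / 4), rotG Ψ x (((-X : ℝ) : ℂ) + y * Complex.I)) = 0 := by
    intro X
    have H : DifferentiableOn ℂ (rotG Ψ x)
        ([[(⟨-X, -(π / 4)⟩ : ℂ).re, (⟨X, π / 4⟩ : ℂ).re]] ×ℂ
        [[(⟨-X, -(π / 4)⟩ : ℂ).im, (⟨X, π / 4⟩ : ℂ).im]]) := by
      apply hdiff.mono
      intro z hz
      rw [Complex.mem_reProdIm] at hz
      have h2 := hz.2
      simp only at h2
      rw [uIcc_of_le (by linarith)] at h2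
      show |z.im| < π / 2
      rw [abs_lt]
      constructor <;> linarith [h2.1, h2.2]
    have := Complex.integral_boundary_rect_eq_zero_of_differentiableOn (rotG Ψ x)
      ⟨-X, -(π / 4)⟩ ⟨X, π / 4⟩ H
    simpa using this
  have hl1 := intervalIntegral_tendsto_integral (hint _ h4') tendsto_neg_atTop_atBot tendsto_id
  have hl2 := intervalIntegral_tendsto_integral (hint _ h4) tendsto_neg_atTop_atBot tendsto_id
  have hside : ∀ X : ℝ, ‖∫ y in (-(π / 4))..(π / 4), rotG Ψ x ((X : ℂ) + y * Complex.I)‖ ≤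
      C * (Real.exp X * Real.exp (-Real.exp X)) * |π / 4 - -(π / 4)| := by
    intro X
    apply intervalIntegral.norm_integral_le_of_norm_le_const
    intro y hy
    rw [uIoc_of_le (by linarith)] at hy
    have h3 : |y| ≤ π / 4 := abs_le.2 ⟨hy.1.le, hy.2⟩
    have := hbd (X + y * Complex.I) (by simpa using h3)
    simpa using this
  have hd1 : Tendsto (fun X : ℝ => Real.exp X * Real.exp (-Real.exp X)) atTop (𝓝 0) := by
    have := (Real.tendsto_pow_mul_exp_neg_atTop_nhds_zero 1).comp Real.tendsto_exp_atTop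
    refine this.congr fun X => ?_
    simp
  have hd2 : Tendsto (fun X : ℝ => Real.exp (-X) * Real.exp (-Real.exp (-X))) atTop (𝓝 0) := by
    refine squeeze_zero (fun X => by positivity) (fun X => ?_)
      (Real.tendsto_exp_neg_atTop_nhds_zero)
    have : Real.exp (-Real.exp (-X)) ≤ 1 := Real.exp_le_one_iff.2 (by
      linarith [Real.exp_pos (-X)])
    nlinarith [Real.exp_pos (-X)]
  have hl3 : Tendsto (fun X : ℝ => ∫ y in (-(π / 4))..(π / 4), rotG Ψ x ((X : ℂ) + y * Complex.I))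
      atTop (𝓝 0) := by
    refine squeeze_zero_norm hside ?_
    have := (hd1.const_mul C).mul_const |π / 4 - -(π / 4)|
    simpa using this
  have hl4 : Tendsto (fun X : ℝ => ∫ y in (-(π / 4))..(π / 4),
      rotG Ψ x (((-X : ℝ) : ℂ) + y * Complex.I)) atTop (𝓝 0) := by
    refine squeeze_zero_norm (fun X => hside (-X)) ?_
    have := (hd2.const_mul C).mul_const |π / 4 - -(π / 4)|
    simpa using this
  have hlim := ((hl1.sub hl2).add (hl3.const_mul Complex.I)).sub (hl4.const_mul Complex.I)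
  have hzero : (fun X : ℝ => (∫ y in (-X)..(id X),
      rotG Ψ x (y + ((-(π / 4) : ℝ) : ℂ) * Complex.I)) -
      (∫ y in (-X)..(id X), rotG Ψ x (y + ((π / 4 : ℝ) : ℂ) * Complex.I)) +
      Complex.I * (∫ y in (-(π / 4))..(π / 4), rotG Ψ x (X + y * Complex.I)) -
      Complex.I * (∫ y in (-(π / 4))..(π / 4), rotG Ψ x (((-X : ℝ) : ℂ) + y * Complex.I))) =
      fun _ => 0 := by
    funext X
    exact hrect X
  rw [hzero] at hlim
  have := tendsto_nhds_unique hlim tendsto_const_nhds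
  rw [mul_zero, sub_zero, add_zero] at this
  exact sub_eq_zero.1 this

end Pool.Agent.Worm.SB
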