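import Mathlib
import Pool.Agent.WormS.Kern
import Pool.Agent.WormS.EqHalf
import Pool.Agent.WormS.Rot
import Pool.Agent.WormS.Star
import Pool.Agent.WormS.Touch

/-!
# The case b = π/2 (problem MP_3c4b73_an)
-/

open MeasureTheory Set Filter Topology Metric
open scoped Real ENNReal Interval ComplexConjugate

namespace Pool.Agent.Worm.SB

theorem Ray.congr {Φ : ℂ → ℂ} {α β a : ℝ}
    (he : Complex.exp (α * Complex.I) = Complex.exp (β * Complex.I)) (h : Ray Φ α a) :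
    Ray Φ β a := by
  obtain ⟨h1, h2⟩ := h
  exact ⟨by rw [← he]; exact h1, by rw [← he]; exact h2⟩

theorem EqR.symm {b : ℝ} {Φ : ℂ → ℂ} {y : ℂ} (h : EqR b Φ y) : EqR (-b) Φ y := by
  unfold EqR at h ⊢
  rw [neg_neg]
  exact Eq.symm h

theorem cos_qq {σ : ℝ} (hσ : σ = 1 ∨ σ = -1) (x : ℝ) : Real.cos (σ * x) = Real.cos x := by
  rcases hσ with rfl | rfl
  · rw [one_mul]
  · rw [neg_one_mul, Real.cos_neg]

/-- The bounded side. -/
theorem side_bounded {b ψ H H' : ℝ} (h0 : 0 ≤ H) (hε : ht ψ (ep b) ≤ H) (hH : H < H') {g : ℂ → ℂ}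
    (hg : DifferentiableOn ℂ g (hp ψ H)) (hgb : ∀ h > H, HB ψ h g) :
    ∃ C : ℝ, ∀ P ∈ hp ψ H', ‖LL b g P / sg b 0 P + src b P‖ ≤ C := by
  have hok : Ok b ψ H := ⟨hε, by
    rcases le_total 0 (ht ψ (ep b)) with h | h <;> linarith⟩
  obtain ⟨C1, h1⟩ := norm_LL_le hok hg hgb hH
  obtain ⟨C2, h2⟩ := norm_src_le (β := b) h0 hε hH
  refine ⟨C1 / (2 * (H' - H)) + C2, fun P hP => ?_⟩
  have hP' : H' < ht ψ P := hP
  refine (norm_add_le _ _).trans (add_le_add ?_ ?_)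
  · rw [norm_div]
    have h3 := norm_sg_ge hok le_rfl P
    rw [Real.exp_zero] at h3
    apply div_le_div₀ ((norm_nonneg _).trans (h1 P hP)) (h1 P hP) (by linarith)
    linarith
  · have h4 := h2 P hP
    have h5 := norm_nonneg (src b P)
    have h6 := norm_nonneg P
    nlinarith

theorem half_side {Ψ : ℂ → ℂ} {γ : ℕ → ℂ} (h : BorelA (π / 2) Ψ γ) {σ : ℝ}
    (hσ : σ = 1 ∨ σ = -1) : ∃ F : ℂ → ℂ, DifferentiableOn ℂ F (hp (-(σ * (π / 4))) 0) ∧
      EqOn F (Lap (PhiL Ψ) (-(σ * (π / 4)))) (hp (-(σ * (π / 4))) 6) ∧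
      ∃ C : ℝ, ∀ P ∈ hp (-(σ * (π / 4))) 0, ‖P‖ ≤ 1 →
        ‖F P + ((σ * (π / 2) : ℝ) : ℂ) * Complex.I / P‖ ≤
          C * (1 + |Real.log (ht (-(σ * (π / 4))) P)|) := by
  have hpi := Real.pi_pos
  set b : ℝ := σ * (π / 2) with hb
  set ψ : ℝ := -(σ * (π / 4)) with hψ
  have hσ1 : |σ| = 1 := by rcases hσ with rfl | rfl <;> simp
  have habs : |ψ| = π / 4 := by
    rw [hψ, abs_neg, abs_mul, hσ1, one_mul, abs_of_pos (by positivity)]
  have hsq : Real.cos (π / 4) = √2 / 2 := Real.cos_pi_div_four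
  have hs2 : (1.4 : ℝ) < √2 := by
    rw [Real.lt_sqrt (by norm_num)]
    norm_num
  have hs3 : √2 < (1.5 : ℝ) := by
    rw [Real.sqrt_lt' (by norm_num)]
    norm_num
  -- the cosines
  have c1 : Real.cos (ψ - b) = -(√2 / 2) := by
    have e : ψ - b = σ * (π / 4 - π) := by rw [hψ, hb]; ring
    rw [e, cos_qq hσ, Real.cos_sub_pi, hsq]
  have c2 : Real.cos (ψ - 3 * b) = √2 / 2 := by
    have e : ψ - 3 * b = σ * (π / 4 - 2 * π) := by rw [hψ, hb]; ring
    rw [e, cos_qq hσ, Real.cos_sub_two_pi, hsq]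
  have c3 : Real.cos (ψ - 2 * b) = -(√2 / 2) := by
    have e : ψ - 2 * b = σ * (-(π / 4) - π) := by rw [hψ, hb]; ring
    rw [e, cos_qq hσ, Real.cos_sub_pi, Real.cos_neg, hsq]
  have he : Complex.exp (ψ * Complex.I) = Complex.exp (((ψ - 4 * b : ℝ) : ℂ) * Complex.I) := by
    rw [Complex.exp_eq_exp_iff_exists_int]
    rcases hσ with hs | hs
    · refine ⟨1, ?_⟩
      rw [hb, hs]
      push_cast
      ring
    · refine ⟨-1, ?_⟩
      rw [hb, hs]
      push_cast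
      ring
  have hR1 : Ray (PhiL Ψ) ψ (3 / 4) := ray_PhiL (by positivity) h (by rw [habs]; linarith)
    (by rw [habs]; linarith) (by norm_num)
  have hR2 : Ray (PhiL Ψ) (ψ - 4 * b) (3 / 4) := hR1.congr he
  have heqR : ∀ s : ℝ, 0 < s →
      EqR b (PhiL Ψ) (s * Complex.exp (((ψ - 2 * b : ℝ) : ℂ) * Complex.I)) := by
    intro s hs
    have hre : (s * Complex.exp (((ψ - 2 * b : ℝ) : ℂ) * Complex.I)).re < 0 := by
      rw [Complex.re_ofReal_mul, Complex.exp_ofReal_mul_I_re, c3]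
      have : 0 < √2 / 2 := by positivity
      nlinarith
    have h1 := eqR_half h hre
    have key : ∀ y : ℂ, EqR (π / 2) (PhiL Ψ) y → EqR b (PhiL Ψ) y := by
      intro y hy
      rcases hσ with hs' | hs'
      · have e : b = π / 2 := by rw [hb, hs']; ring
        rw [e]
        exact hy
      · have e : b = -(π / 2) := by rw [hb, hs']; ring
        rw [e]
        exact hy.symm
    exact key _ h1
  have hfar : ∀ P ∈ hp ψ 6, Eqn b (Lap (PhiL Ψ) ψ) (Lap (PhiL Ψ) (ψ - 4 * b)) P := fun P hP =>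
    eqn_lap (by norm_num) hR1 hR2 heqR (hp_mono (by norm_num) hP)
  have hε : ht ψ (ep b) < 0 := by
    rw [ep_mul_dir, c1]
    have : 0 < √2 / 2 := by positivity
    linarith
  have hε' : ht (ψ - 4 * b) (ep (-b)) ≤ 1 := by
    rw [ep_mul_dir, show ψ - 4 * b - -b = ψ - 3 * b by ring, c2]
    linarith
  have hgd : DifferentiableOn ℂ (Lap (PhiL Ψ) (ψ - 4 * b)) (hp (ψ - 4 * b) 1) :=
    (differentiableOn_Lap hR2).mono (hp_mono (by norm_num))
  have hgb : ∀ h > 1, HB (ψ - 4 * b) h (Lap (PhiL Ψ) (ψ - 4 * b)) := fun h hh =>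
    HB_Lap hR2 (by linarith)
  obtain ⟨F, hF1, hF2, hF3, hF4⟩ := transfer (b := b) (ψ := ψ) (H := 0) (H' := 1) (H₀ := 6)
    le_rfl hε.le zero_le_one hε' (by rw [c1, c2]; linarith) (by norm_num)
    ((differentiableOn_Lap hR1).mono (hp_mono (by norm_num))) (HB_Lap hR1 (by norm_num))
    hgd hgb hfar
  refine ⟨F, hF1, hF3, ?_⟩
  obtain ⟨C, hC⟩ := side_bounded (H' := 1.2) zero_le_one hε' (by norm_num) hgd hgb
  set κ : ℂ := Complex.exp (-b + 2 * b * Complex.I) * (Complex.exp (b - 2 * b * Complex.I))⁻¹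
    with hκ
  refine base_lemma (β := b) (G := fun P => κ * (LL (-b) (Lap (PhiL Ψ) (ψ - 4 * b)) (Tm b P) /
    sg (-b) 0 (Tm b P) + src (-b) (Tm b P))) hε hF1 hF2 ⟨‖κ‖ * C, fun P hP => ?_⟩ fun P hP => ?_
  · rw [norm_mul]
    apply mul_le_mul_of_nonneg_left _ (norm_nonneg _)
    apply hC
    show 1.2 < ht (ψ - 4 * b) (Tm b P)
    have hP' : 0 < ht ψ P := hP
    rw [ht_Tm, c1, c2]
    linarith
  · have h1 := hF4 P hP
    unfold Eqn at h1
    rw [hκ, mul_comm (Complex.exp (-b + 2 * b * Complex.I)), mul_assoc, ← h1,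
      inv_mul_cancel_left₀ (Complex.exp_ne_zero _)]

theorem no_half {Ψ : ℂ → ℂ} {γ : ℕ → ℂ} (h : BorelA (π / 2) Ψ γ) : False := by
  have hpi := Real.pi_pos
  obtain ⟨F1, hd1, he1, C1, hC1⟩ := half_side h (σ := 1) (Or.inl rfl)
  obtain ⟨F2, hd2, he2, C2, hC2⟩ := half_side h (σ := -1) (Or.inr rfl)
  rw [one_mul] at hd1 he1 hC1
  rw [neg_one_mul, neg_neg] at hd2 he2 hC2
  have hsq : Real.cos (π / 4) = √2 / 2 := Real.cos_pi_div_four
  have hs2 : (1.4 : ℝ) < √2 := by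
    rw [Real.lt_sqrt (by norm_num)]
    norm_num
  have hr1 : ∀ x : ℝ, ht (-(π / 4)) (x : ℂ) = √2 / 2 * x := by
    intro x
    unfold ht
    rw [mul_comm, Complex.re_ofReal_mul, Complex.exp_ofReal_mul_I_re, Real.cos_neg, hsq]
    ring
  have hr2 : ∀ x : ℝ, ht (π / 4) (x : ℂ) = √2 / 2 * x := by
    intro x
    unfold ht
    rw [mul_comm, Complex.re_ofReal_mul, Complex.exp_ofReal_mul_I_re, hsq]
    ring
  set V : Set ℂ := hp (-(π / 4)) 0 ∩ hp (π / 4) 0 with hV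
  have hVo : IsOpen V := (isOpen_hp _ _).inter (isOpen_hp _ _)
  have hVc : Convex ℝ V := (convex_hp _ _).inter (convex_hp _ _)
  have hVr : ∀ x : ℝ, 0 < x → (x : ℂ) ∈ V := by
    intro x hx
    refine ⟨?_, ?_⟩
    · show 0 < ht (-(π / 4)) (x : ℂ)
      rw [hr1]; positivity
    · show 0 < ht (π / 4) (x : ℂ)
      rw [hr2]; positivity
  have hz : EqOn (fun P => F1 P - F2 P) 0 V := by
    have hana : AnalyticOnNhd ℂ (fun P => F1 P - F2 P) V :=
      ((hd1.mono inter_subset_left).sub (hd2.mono inter_subset_right)).analyticOnNhd hVo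
    refine hana.eqOn_zero_of_preconnected_of_frequently_eq_zero hVc.isPreconnected
      (hVr 20 (by norm_num)) ?_
    have htend : Tendsto (fun x : ℝ => (x : ℂ)) (𝓝[≠] 20) (𝓝[≠] (((20 : ℝ)) : ℂ)) := by
      apply tendsto_nhdsWithin_of_tendsto_nhds_of_eventually_within
      · exact (Complex.continuous_ofReal.tendsto _).mono_left nhdsWithin_le_nhds
      · filter_upwards [self_mem_nhdsWithin] with x hx
        intro hc
        apply hx
        have : (x : ℂ) = ((20 : ℝ) : ℂ) := hc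
        exact_mod_cast this
    apply htend.frequently
    apply Eventually.frequently
    have : Ioi (15 : ℝ) ∈ 𝓝[≠] (20 : ℝ) := mem_nhdsWithin_of_mem_nhds (Ioi_mem_nhds (by norm_num))
    filter_upwards [this] with x hx
    have hx' : (15 : ℝ) < x := hx
    have h1 : F1 (x : ℂ) = Lap (PhiL Ψ) (-(π / 4)) x := he1 (by
      show 6 < ht (-(π / 4)) (x : ℂ)
      rw [hr1]
      nlinarith)
    have h2 : F2 (x : ℂ) = Lap (PhiL Ψ) (π / 4) x := he2 (by
      show 6 < ht (π / 4) (x : ℂ)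
      rw [hr2]
      nlinarith)
    rw [h1, h2, Lap_rot h (by linarith), sub_self]
  set L0 : ℝ := |Real.log (√2 / 2)| with hL0
  have hlog : ∀ r : ℝ, 0 < r → 1 + |Real.log (√2 / 2 * r)| ≤ (1 + L0) * (1 + |Real.log r|) := by
    intro r hr
    rw [Real.log_mul (by positivity) hr.ne']
    have h1 := abs_add_le (Real.log (√2 / 2)) (Real.log r)
    have h2 : 0 ≤ L0 := abs_nonneg _
    have h3 := abs_nonneg (Real.log r)
    rw [← hL0] at h1
    nlinarith
  refine log_contra (β := π) (C := (|C1| + |C2|) * (1 + L0)) hpi ?_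
  intro r hr hr1'
  have hm := hVr r hr
  have hn : ‖(r : ℂ)‖ ≤ 1 := by rw [Complex.norm_real, Real.norm_of_nonneg hr.le]; exact hr1'
  have h3 := hC1 r hm.1 hn
  have h4 := hC2 r hm.2 hn
  have h5 : F1 (r : ℂ) = F2 r := by
    have := hz hm
    simp only [Pi.zero_apply] at this
    exact sub_eq_zero.1 this
  rw [hr1] at h3
  rw [hr2, ← h5] at h4
  have h6 := norm_sub_le (F1 (r : ℂ) + ((1 * (π / 2) : ℝ) : ℂ) * Complex.I / r)
    (F1 (r : ℂ) + ((-1 * (π / 2) : ℝ) : ℂ) * Complex.I / r)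
  have h7 : (F1 (r : ℂ) + ((1 * (π / 2) : ℝ) : ℂ) * Complex.I / r) -
      (F1 (r : ℂ) + ((-1 * (π / 2) : ℝ) : ℂ) * Complex.I / r) =
      ((π : ℝ) : ℂ) * Complex.I / (r : ℂ) := by
    push_cast
    ring
  rw [h7, norm_div, norm_mul, Complex.norm_I, mul_one, Complex.norm_real, Complex.norm_real,
    Real.norm_of_nonneg hpi.le, Real.norm_of_nonneg hr.le] at h6
  have h8 := hlog r hr
  have h9 : C1 * (1 + |Real.log (√2 / 2 * r)|) ≤ |C1| * ((1 + L0) * (1 + |Real.log r|)) := by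
    refine (mul_le_mul_of_nonneg_right (le_abs_self C1) (by positivity)).trans ?_
    exact mul_le_mul_of_nonneg_left h8 (abs_nonneg _)
  have h10 : C2 * (1 + |Real.log (√2 / 2 * r)|) ≤ |C2| * ((1 + L0) * (1 + |Real.log r|)) := by
    refine (mul_le_mul_of_nonneg_right (le_abs_self C2) (by positivity)).trans ?_
    exact mul_le_mul_of_nonneg_left h8 (abs_nonneg _)
  calc π / r ≤ _ := h6
    _ ≤ |C1| * ((1 + L0) * (1 + |Real.log r|)) + |C2| * ((1 + L0) * (1 + |Real.log r|)) :=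
        add_le_add (h3.trans h9) (h4.trans h10)
    _ = _ := by ring

end Pool.Agent.Worm.SB
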