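import Mathlib
import Pool.Agent.WormS.Kern
import Pool.Agent.WormS.Coe
import Pool.Agent.WormS.RadP
import Pool.Agent.WormS.Grow
import Pool.Agent.WormS.Ent
import Pool.Agent.Worm.Borel

/-!
# The case b = π (problem MP_3c4b73_an)
-/

open MeasureTheory Set Filter Topology Metric
open scoped Real ENNReal Interval ComplexConjugate

namespace Pool.Agent.Worm.SB

namespace PiC

/-- The integrand, for `σ = e - I`. -/
noncomputable def G (Ψ : ℂ → ℂ) (e : ℝ) (p : ℝ × ℝ) : ℂ :=
  (Ψ (p.2 + p.1 * Complex.I) + p.1 * Complex.I * Complex.exp (p.2 + p.1 * Complex.I)) *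
    Complex.exp (e * (p.2 - p.1 * Complex.I)) * Complex.exp (-(Complex.I * p.2)) *
      Real.exp (-Real.exp p.2)

theorem G_eq (Ψ : ℂ → ℂ) (e t l : ℝ) :
    (Ψ (l + t * Complex.I) + t * Complex.I * Complex.exp (l + t * Complex.I)) *
        Complex.exp (((e : ℂ) - Complex.I) * (l - t * Complex.I)) * Real.exp t *
          Real.exp (-Real.exp l) = G Ψ e (t, l) := by
  have h1 : Complex.exp (((e : ℂ) - Complex.I) * (l - t * Complex.I)) * (Real.exp t : ℂ) =
      Complex.exp (e * (l - t * Complex.I)) * Complex.exp (-(Complex.I * l)) := by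
    rw [Complex.ofReal_exp, ← Complex.exp_add, ← Complex.exp_add]
    congr 1
    have hI : Complex.I * Complex.I = -1 := Complex.I_mul_I
    linear_combination (t : ℂ) * hI
  unfold G
  simp only
  calc _ = (Ψ (l + t * Complex.I) + t * Complex.I * Complex.exp (l + t * Complex.I)) *
      (Complex.exp (((e : ℂ) - Complex.I) * (l - t * Complex.I)) * (Real.exp t : ℂ)) *
          Real.exp (-Real.exp l) := by ring
    _ = _ := by rw [h1]; ring

/-- The mean of an entire function with value `0` at `0`. -/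
theorem mean_zero {f : ℂ → ℂ} (hf : Differentiable ℂ f) (h0 : f 0 = 0) (l : ℝ) :
    ∫ t in Ioo (-π) π, f (Complex.exp (l + t * Complex.I)) = 0 := by
  have hcl : DiffContOnCl ℂ f (ball 0 |Real.exp l|) := hf.diffContOnCl
  have h := hcl.circleAverage
  rw [Real.circleAverage_def] at h
  have hper : Function.Periodic (fun θ => f (circleMap 0 (Real.exp l) θ)) (2 * π) := by
    intro θ
    simp only [(periodic_circleMap 0 (Real.exp l)) θ]
  have h2 := hper.intervalIntegral_add_eq 0 (-π)
  rw [zero_add, show -π + 2 * π = π by ring] at h2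
  rw [h2, intervalIntegral.integral_of_le (by linarith [Real.pi_pos]),
    integral_Ioc_eq_integral_Ioo, h0] at h
  have h3 : ∫ θ in Ioo (-π) π, f (circleMap 0 (Real.exp l) θ) = 0 := by
    rcases smul_eq_zero.1 h with h4 | h4
    · exfalso
      have : (2 * π : ℝ)⁻¹ ≠ 0 := by positivity
      exact this h4
    · exact h4
  rw [← h3]
  congr 1
  ext t
  rw [circleMap, Complex.exp_add, Complex.ofReal_exp, zero_add]

theorem int_te (l : ℝ) : ∫ t in Ioo (-π) π, (t : ℂ) * Complex.I *
    Complex.exp (l + t * Complex.I) = -(2 * π) * Complex.exp l := by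
  have hle : -π ≤ π := by linarith [Real.pi_pos]
  have hd : ∀ t : ℝ, HasDerivAt (fun t : ℝ => ((t : ℂ) + Complex.I) *
      Complex.exp (l + t * Complex.I)) ((t : ℂ) * Complex.I *
        Complex.exp (l + t * Complex.I)) t := by
    intro t
    have h1 : HasDerivAt (fun t : ℝ => ((t : ℝ) : ℂ)) 1 t := Complex.ofRealCLM.hasDerivAt
    have h2 : HasDerivAt (fun t : ℝ => (t : ℂ) + Complex.I) 1 t := h1.add_const _
    have h3 : HasDerivAt (fun t : ℝ => (l : ℂ) + t * Complex.I) (1 * Complex.I) t :=
      (h1.mul_const Complex.I).const_add _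
    refine (h2.mul h3.cexp).congr_deriv ?_
    have hI : Complex.I * Complex.I = -1 := Complex.I_mul_I
    linear_combination Complex.exp (l + t * Complex.I) * hI
  have hc : Continuous fun t : ℝ => (t : ℂ) * Complex.I * Complex.exp (l + t * Complex.I) := by
    fun_prop
  have h := intervalIntegral.integral_eq_sub_of_hasDerivAt (fun t _ => hd t)
    (hc.intervalIntegrable (-π) π)
  rw [intervalIntegral.integral_of_le hle, integral_Ioc_eq_integral_Ioo] at h
  rw [h]
  have e1 : Complex.exp (l + (π : ℝ) * Complex.I) = -Complex.exp l := by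
    rw [Complex.exp_add, Complex.exp_pi_mul_I]
    ring
  have e2 : Complex.exp (l + ((-π : ℝ) : ℂ) * Complex.I) = -Complex.exp l := by
    rw [Complex.exp_add, Complex.ofReal_neg, neg_mul, Complex.exp_neg, Complex.exp_pi_mul_I]
    norm_num
  rw [e1, e2]
  push_cast
  ring

theorem integrable_k : Integrable fun l : ℝ => Real.exp l * Real.exp (-(Real.exp l / 4)) := by
  have h1 : IntegrableOn (fun x : ℝ => Real.exp (-(1 / 4) * x)) (Ioi 0) :=
    exp_neg_integrableOn_Ioi 0 (by norm_num)
  have h2 := integrableOn_image_iff_integrableOn_abs_deriv_smul (s := univ) (f := Real.exp)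
    (f' := Real.exp) MeasurableSet.univ (fun x _ => (Real.hasDerivAt_exp x).hasDerivWithinAt)
    Real.exp_injective.injOn (fun x : ℝ => Real.exp (-(1 / 4) * x))
  rw [image_univ, Real.range_exp, integrableOn_univ] at h2
  refine (h2.1 h1).congr (Eventually.of_forall fun l => ?_)
  simp only [smul_eq_mul]
  rw [abs_of_pos (Real.exp_pos l)]
  congr 2
  ring

theorem exp_bound {e l : ℝ} (he0 : 0 ≤ e) (he : e ≤ 1) :
    Real.exp l * Real.exp (e * l) * Real.exp (-Real.exp l) ≤
      Real.exp l * Real.exp (-(Real.exp l / 4)) := by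
  rw [mul_assoc]
  refine mul_le_mul_of_nonneg_left ?_ (Real.exp_pos l).le
  rw [← Real.exp_add]
  refine Real.exp_le_exp.2 ?_
  rcases le_or_gt l 0 with h | h
  · have h1 : e * l ≤ 0 := mul_nonpos_of_nonneg_of_nonpos he0 h
    linarith [Real.exp_pos l]
  · have h1 : e * l ≤ l := by nlinarith
    have h2 : l / 2 + 1 ≤ Real.exp (l / 2) := Real.add_one_le_exp _
    have h3 : Real.exp l = Real.exp (l / 2) ^ 2 := by
      rw [← Real.exp_nat_mul]
      congr 1
      push_cast
      ring
    have h4 : l ≤ 3 / 4 * Real.exp l := by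
      have h5 := mul_self_le_mul_self (by linarith) h2
      rw [h3]
      nlinarith [sq_nonneg (l - 2 / 3)]
    linarith

theorem norm_G_le {Ψ : ℂ → ℂ} {C m e t l : ℝ} (ht : |t| ≤ π) (he0 : 0 ≤ e) (he : e ≤ 1)
    (hm : 0 ≤ m) (hC : 0 ≤ C) (h1 : l ≤ 0 → ‖Ψ (l + t * Complex.I)‖ ≤ C * Real.exp l)
    (h2 : ‖Ψ (l + t * Complex.I)‖ ≤ Real.exp (3 / 4 * Real.exp l) * m) :
    ‖G Ψ e (t, l)‖ ≤ (3 * C + m + π) * (Real.exp l * Real.exp (-(Real.exp l / 4))) := by
  have n1 : ‖Complex.exp (e * (l - t * Complex.I))‖ = Real.exp (e * l) := by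
    rw [Complex.norm_exp]
    congr 1
    simp
  have n2 : ‖Complex.exp (-(Complex.I * l))‖ = 1 := by
    rw [Complex.norm_exp]
    simp
  have n3 : ‖((Real.exp (-Real.exp l) : ℝ) : ℂ)‖ = Real.exp (-Real.exp l) := by
    rw [Complex.norm_real, Real.norm_eq_abs, abs_of_pos (Real.exp_pos _)]
  have n4 : ‖(t : ℂ) * Complex.I * Complex.exp (l + t * Complex.I)‖ ≤ π * Real.exp l := by
    rw [norm_mul, norm_mul, Complex.norm_I, mul_one, Complex.norm_real, Real.norm_eq_abs,
      Complex.norm_exp]
    have : (l + t * Complex.I : ℂ).re = l := by simp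
    rw [this]
    gcongr
  have hG : ‖G Ψ e (t, l)‖ ≤ (‖Ψ (l + t * Complex.I)‖ + π * Real.exp l) * Real.exp (e * l) *
      Real.exp (-Real.exp l) := by
    unfold G
    simp only
    rw [norm_mul, norm_mul, norm_mul, n1, n2, n3, mul_one]
    gcongr
    exact (norm_add_le _ _).trans (by gcongr)
  refine hG.trans ?_
  have hb := exp_bound (l := l) he0 he
  have hpos : 0 ≤ Real.exp l * Real.exp (-(Real.exp l / 4)) := by positivity
  have hS : ‖Ψ (l + t * Complex.I)‖ * Real.exp (e * l) * Real.exp (-Real.exp l) ≤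
      (3 * C + m) * (Real.exp l * Real.exp (-(Real.exp l / 4))) := by
    rcases le_or_gt l 0 with h | h
    · calc ‖Ψ (l + t * Complex.I)‖ * Real.exp (e * l) * Real.exp (-Real.exp l)
          ≤ (C * Real.exp l) * Real.exp (e * l) * Real.exp (-Real.exp l) := by
            gcongr
            exact h1 h
        _ = C * (Real.exp l * Real.exp (e * l) * Real.exp (-Real.exp l)) := by ring
        _ ≤ C * (Real.exp l * Real.exp (-(Real.exp l / 4))) := by gcongr
        _ ≤ _ := by
            refine mul_le_mul_of_nonneg_right ?_ hpos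
            linarith
    · have he1 : Real.exp (e * l) ≤ Real.exp l := Real.exp_le_exp.2 (by nlinarith)
      calc ‖Ψ (l + t * Complex.I)‖ * Real.exp (e * l) * Real.exp (-Real.exp l)
          ≤ (Real.exp (3 / 4 * Real.exp l) * m) * Real.exp l * Real.exp (-Real.exp l) := by
            gcongr
        _ = m * (Real.exp l * Real.exp (-(Real.exp l / 4))) := by
            have : Real.exp (-(Real.exp l / 4)) =
                Real.exp (3 / 4 * Real.exp l) * Real.exp (-Real.exp l) := by
              rw [← Real.exp_add]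
              congr 1
              ring
            rw [this]
            ring
        _ ≤ _ := by
            refine mul_le_mul_of_nonneg_right ?_ hpos
            linarith
  calc _ = ‖Ψ (l + t * Complex.I)‖ * Real.exp (e * l) * Real.exp (-Real.exp l) +
      π * (Real.exp l * Real.exp (e * l) * Real.exp (-Real.exp l)) := by ring
    _ ≤ (3 * C + m) * (Real.exp l * Real.exp (-(Real.exp l / 4))) +
      π * (Real.exp l * Real.exp (-(Real.exp l / 4))) := by
        have := Real.pi_pos
        gcongr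
    _ = _ := by ring

end PiC

/-- The case `b = π`.

Proof: `coef_rel`, `rad_poly`, `growth_aa` (`cos π = -1`) and `Psi_eq`: `Ψ τ = e^τ Phi γ (e^τ)` with `Phi γ`
entire, so `∫_{-π}^{π} Ψ(l + it) dt = 0` for every `l` (mean value of `x Phi γ x` over circles,
`B2.circle_mean`), and `‖Ψ τ‖ ≤ C e^{Re τ}` for `Re τ ≤ 0`. In `h.borel.rel` let `σ = e - I`, `e ↓ 0`:
`e^{σ(l - it)} e^t → e^{-il}`; dominated convergence (for `l ≤ 0` by `C e^l`, for `l ≥ 0` by
`(n(t) + π) e^{(3/4) e^l} e^{2l} e^{-e^l}`, with `h.borel.large`). Interchange the integrals in the limit and use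
`∫_{-π}^{π} i t e^{it} dt = -2π`: the limit is `-2π ∫ e^{(1-i) l} e^{-e^l} dl = -2π Γ(1-i) ≠ 0`
(`Br.gamma_exp` in Worm/Borel, `Complex.Gamma_ne_zero_of_re_pos`). -/
theorem no_pi {Ψ : ℂ → ℂ} {γ : ℕ → ℂ} (h : BorelA π Ψ γ) : False := by
  have hpi := Real.pi_pos
  have hc : Real.cos π ≠ 0 := by rw [Real.cos_pi]; norm_num
  have hrad : ∀ p : Polynomial ℂ, Rad π (polyF γ p) = Rad (-π) (polyF γ p) :=
    rad_poly hpi (coef_rel hpi h.borel)
  obtain ⟨A, Λ, hA0, hΛ, hA⟩ := growth_aa hpi hc hrad
  obtain ⟨n, hn0, hnm, hn2, hn⟩ := h.borel.large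
  set C : ℝ := A * Real.exp Λ with hC
  have hC0 : 0 ≤ C := by positivity
  have hΨ : ∀ t l : ℝ, |t| < π → Ψ (l + t * Complex.I) =
      Complex.exp (l + t * Complex.I) * Phi γ (Complex.exp (l + t * Complex.I)) := by
    intro t l ht
    refine Psi_eq hpi h.borel hΛ hA ?_
    simpa using ht
  have hΨ1 : ∀ t l : ℝ, |t| < π → l ≤ 0 → ‖Ψ (l + t * Complex.I)‖ ≤ C * Real.exp l := by
    intro t l ht hl
    have e1 : ‖Complex.exp (l + t * Complex.I)‖ = Real.exp l := by
      rw [Complex.norm_exp]
      congr 1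
      simp
    rw [hΨ t l ht, norm_mul, e1, mul_comm]
    refine mul_le_mul_of_nonneg_right ?_ (Real.exp_pos l).le
    refine (norm_Phi_le hΛ hA _).trans ?_
    rw [hC, e1]
    have : Real.exp l ≤ 1 := Real.exp_le_one_iff.2 hl
    gcongr
    nlinarith
  have hmem : ∀ t ∈ Ioo (-π) π, |t| < π := fun t ht => abs_lt.2 ⟨ht.1, ht.2⟩
  -- the dominating function
  have hn1 : IntegrableOn n (Ioo (-π) π) := by
    refine Integrable.mono' (g := fun t => 1 + n t ^ 2) ?_ hnm.aestronglyMeasurable ?_
    · exact (integrable_const _).add hn2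
    · refine Eventually.of_forall fun t => ?_
      rw [Real.norm_eq_abs, abs_of_nonneg (hn0 t)]
      nlinarith [sq_nonneg (n t - 1), hn0 t]
  set μ : Measure ℝ := volume.restrict (Ioo (-π) π) with hμ
  set B : ℝ × ℝ → ℝ := fun p => (3 * C + n p.1 + π) *
    (Real.exp p.2 * Real.exp (-(Real.exp p.2 / 4))) with hB
  have hBi : Integrable B (μ.prod volume) := by
    have h1 : Integrable (fun t => 3 * C + n t + π) μ :=
      ((integrable_const _).add hn1).add (integrable_const _)
    exact h1.mul_prod PiC.integrable_k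
  have hGm : ∀ e : ℝ, AEStronglyMeasurable (PiC.G Ψ e) (μ.prod volume) := by
    intro e
    have h1 : μ.prod volume = (volume : Measure (ℝ × ℝ)).restrict (Ioo (-π) π ×ˢ univ) := by
      rw [hμ]
      conv_lhs => rw [← Measure.restrict_univ (μ := (volume : Measure ℝ))]
      rw [Measure.restrict_restrict measurableSet_Ioo, inter_univ, Measure.prod_restrict]
      rfl
    rw [h1]
    refine ContinuousOn.aestronglyMeasurable ?_ (measurableSet_Ioo.prod MeasurableSet.univ)
    have h2 : ContinuousOn (fun p : ℝ × ℝ => Ψ (p.2 + p.1 * Complex.I))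
        (Ioo (-π) π ×ˢ univ) := by
      refine h.borel.hol.continuousOn.comp (by fun_prop) ?_
      intro p hp
      have := hmem p.1 hp.1
      simpa using this
    unfold PiC.G
    refine (((h2.add ?_).mul ?_).mul ?_).mul ?_
    all_goals
      apply Continuous.continuousOn
      fun_prop
  have hGb : ∀ e : ℝ, 0 ≤ e → e ≤ 1 → ∀ᵐ p ∂(μ.prod volume), ‖PiC.G Ψ e p‖ ≤ B p := by
    intro e he0 he
    have h1 : ∀ᵐ t ∂μ, ∀ l : ℝ, ‖PiC.G Ψ e (t, l)‖ ≤ B (t, l) := by
      filter_upwards [hn, ae_restrict_mem measurableSet_Ioo] with t ht htm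
      intro l
      exact PiC.norm_G_le (hmem t htm).le he0 he (hn0 t) hC0 (hΨ1 t l (hmem t htm)) (ht l)
    have h2 := (Measure.quasiMeasurePreserving_fst (μ := μ) (ν := (volume : Measure ℝ))).ae h1
    filter_upwards [h2] with p hp
    exact hp p.2
  have hGi : ∀ e : ℝ, 0 ≤ e → e ≤ 1 → Integrable (PiC.G Ψ e) (μ.prod volume) := fun e he0 he =>
    hBi.mono' (hGm e) (hGb e he0 he)
  have hz : ∀ e : ℝ, 0 < e → e ≤ 1 → ∫ p, PiC.G Ψ e p ∂(μ.prod volume) = 0 := by
    intro e he0 he
    rw [integral_prod _ (hGi e he0.le he), ← h.borel.rel ((e : ℂ) - Complex.I) (by simpa using he0)]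
    refine integral_congr_ae (Eventually.of_forall fun t => ?_)
    simp only
    refine integral_congr_ae (Eventually.of_forall fun l => ?_)
    simp only
    exact (PiC.G_eq Ψ e t l).symm
  -- the limit
  have hz0 : ∫ p, PiC.G Ψ 0 p ∂(μ.prod volume) = 0 := by
    have ht : Tendsto (fun k : ℕ => ∫ p, PiC.G Ψ (1 / ((k : ℝ) + 1)) p ∂(μ.prod volume)) atTop
        (𝓝 (∫ p, PiC.G Ψ 0 p ∂(μ.prod volume))) := by
      refine tendsto_integral_of_dominated_convergence B (fun k => hGm _) hBi (fun k => ?_) ?_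
      · refine hGb _ (by positivity) ?_
        rw [div_le_one (by positivity)]
        linarith [(Nat.cast_nonneg k : (0 : ℝ) ≤ k)]
      · refine Eventually.of_forall fun p => ?_
        have hcont : Continuous fun e : ℝ => PiC.G Ψ e p := by
          unfold PiC.G
          fun_prop
        exact (hcont.tendsto 0).comp tendsto_one_div_add_atTop_nhds_zero_nat
    refine tendsto_nhds_unique ht ?_
    refine tendsto_const_nhds.congr fun k => ?_
    symm
    refine hz _ (by positivity) ?_
    rw [div_le_one (by positivity)]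
    linarith [(Nat.cast_nonneg k : (0 : ℝ) ≤ k)]
  rw [integral_prod_symm _ (hGi 0 le_rfl zero_le_one)] at hz0
  have hin : ∀ l : ℝ, ∫ t, PiC.G Ψ 0 (t, l) ∂μ =
      -(2 * π) * (Complex.exp ((1 - Complex.I) * l) * ((Real.exp (-Real.exp l) : ℝ) : ℂ)) := by
    intro l
    have h1 : ∀ t : ℝ, PiC.G Ψ 0 (t, l) = (Ψ (l + t * Complex.I) +
        t * Complex.I * Complex.exp (l + t * Complex.I)) *
          (Complex.exp (-(Complex.I * l)) * ((Real.exp (-Real.exp l) : ℝ) : ℂ)) := by
      intro t
      unfold PiC.G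
      simp only [Complex.ofReal_zero, zero_mul, Complex.exp_zero, mul_one]
      ring
    simp only [h1]
    rw [integral_mul_const]
    have hPd : Differentiable ℂ (fun z => z * Phi γ z) :=
      differentiable_id.mul (differentiable_Phi hΛ hA)
    have h2 : ∫ t, Ψ (l + t * Complex.I) ∂μ = 0 := by
      rw [← PiC.mean_zero hPd (by simp) l]
      exact setIntegral_congr_fun measurableSet_Ioo fun t ht => hΨ t l (hmem t ht)
    have hi1 : Integrable (fun t : ℝ => Ψ (l + t * Complex.I)) μ := by
      have h3 : Continuous fun t : ℝ => Complex.exp (l + t * Complex.I) *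
          Phi γ (Complex.exp (l + t * Complex.I)) := by
        have := (differentiable_Phi hΛ hA).continuous
        fun_prop
      have h4 : IntegrableOn (fun t : ℝ => Complex.exp (l + t * Complex.I) *
          Phi γ (Complex.exp (l + t * Complex.I))) (Ioo (-π) π) :=
        (h3.integrableOn_Icc (a := -π) (b := π)).mono_set Ioo_subset_Icc_self
      refine h4.congr_fun (fun t ht => ?_) measurableSet_Ioo
      simp only
      rw [hΨ t l (hmem t ht)]
    have hi2 : Integrable (fun t : ℝ => (t : ℂ) * Complex.I *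
        Complex.exp (l + t * Complex.I)) μ := by
      have h3 : Continuous fun t : ℝ => (t : ℂ) * Complex.I *
        Complex.exp (l + t * Complex.I) := by fun_prop
      exact (h3.integrableOn_Icc (a := -π) (b := π)).mono_set Ioo_subset_Icc_self
    rw [integral_add hi1 hi2, h2, zero_add, PiC.int_te]
    have h5 : Complex.exp ((1 - Complex.I) * l) = Complex.exp l *
        Complex.exp (-(Complex.I * l)) := by
      rw [← Complex.exp_add]
      congr 1
      ring
    rw [h5]
    ring
  simp only [hin] at hz0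
  rw [integral_const_mul, (Br.gamma_exp (σ := 1 - Complex.I) (by simp)).2] at hz0
  rcases mul_eq_zero.1 hz0 with h1 | h1
  · rw [neg_eq_zero] at h1
    have : (2 * π : ℂ) ≠ 0 := by
      exact_mod_cast (by positivity : (2 * π : ℝ) ≠ 0)
    exact this h1
  · exact Complex.Gamma_ne_zero_of_re_pos (by simp) h1

end Pool.Agent.Worm.SB
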