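import Mathlib
import Pool.Agent.Worm.Main
import Pool.Agent.WormS.Gen
import Pool.Agent.WormS.PiC
import Pool.Agent.WormS.Half
import Pool.Agent.WormS.ExDat

/-!
# Bergman projection of `log (conj z₁)` on smooth worm domains, all angles (problem MP_3c4b73_an)
-/

open MeasureTheory Set Metric Filter Topology
open scoped Real ENNReal ComplexConjugate

namespace Pool.Agent.Worm.SB

/-- There is no solution of the limit problem on the truncated worm. -/
theorem no_limS {b : ℝ} (hb : 0 < b) {F : ℂ → ℂ} {c : ℕ → ℂ} (h : Lim b F c) : False := by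
  rcases lt_trichotomy b π with h1 | h1 | h1
  · obtain ⟨Ψ, γ, hΨ⟩ := borelA_exists h
    by_cases hc : Real.cos b = 0
    · have hb2 : b = π / 2 := by
        rcases lt_trichotomy b (π / 2) with h2 | h2 | h2
        · exact absurd hc (Real.cos_pos_of_mem_Ioo ⟨by linarith, h2⟩).ne'
        · exact h2
        · exact absurd hc (Real.cos_neg_of_pi_div_two_lt_of_lt h2 (by linarith [Real.pi_pos])).ne
      subst hb2
      exact no_half hΨ
    · exact no_compact hb h1 hc hΨ
  · subst h1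
    obtain ⟨Ψ, γ, hΨ⟩ := borelA_exists h
    exact no_pi hΨ
  · exact no_lim h1 h

/-- For short caps the one-dimensional reduction is not smooth at the singular point. -/
theorem main1S {b : ℝ} (hb : 0 < b) : ∃ δ > 0, ∀ η F, Cap b δ η → Sol η F → False := by
  by_contra hcon
  push Not at hcon
  obtain ⟨F, c, hF⟩ : ∃ F c, Lim b F c := by
    refine lim_exists hb ?_
    intro δ hδ
    obtain ⟨η, F, h1, h2, -⟩ := hcon δ hδ
    exact ⟨η, F, h1, h2⟩
  exact no_limS hb hF

theorem main2S (β : ℝ) (hβ : π / 2 < β) : ∃ δ > 0,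
    (∃ η, Profile β η ∧ ∀ t, β - π / 2 + δ ≤ |t| → 1 < η t) ∧
    (∀ η, Profile β η → ∃ K₀ : ℝ, ∀ K ≥ K₀, Profile β (fun t => K * η t) ∧
      ∀ t, β - π / 2 + δ ≤ |t| → 1 < K * η t) ∧
    ∀ η, Profile β η → (∀ t, β - π / 2 + δ ≤ |t| → 1 < η t) →
      Admissible β η ∧ (∃ L, IsLogBranch η L) ∧ ∀ L, IsLogBranch η L →
        DifferentiableOn ℂ L (worm η) ∧
        MemLp (fun z => conj (L z)) 2 (volume.restrict (worm η)) ∧
        (∃ f, IsBergmanProjection (worm η) (fun z => conj (L z)) f) ∧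
        ∀ f, IsBergmanProjection (worm η) (fun z => conj (L z)) f →
          ¬ BoundedDerivs (worm η) f ∧ ¬ SmoothUpTo (worm η) f := by
  have hb : 0 < β - π / 2 := by linarith
  obtain ⟨δ, hδ, h1⟩ := main1S hb
  refine ⟨δ, hδ, exists_profile β hβ δ hδ, fun η hη => profile_mul hβ hδ hη, ?_⟩
  intro η hη hcap
  have hcap' : Cap (β - π / 2) δ η := cap_of_profile hβ hδ hη hcap
  refine ⟨⟨hη, isOpen_worm hη.smooth.continuous, isConnected_worm hβ hη, isBounded_worm hβ hη,
    smoothPseudoconvex_worm hβ hη⟩, ⟨_, isLogBranch_wc hη.nonneg⟩, ?_⟩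
  intro L hL
  obtain ⟨h2, h3⟩ := reduction hβ hη hL
  refine ⟨(logBranch_props hβ hη hL).1, (logBranch_props hβ hη hL).2, h2, ?_⟩
  intro f hf
  have key : ¬ BoundedDerivs (worm η) f := by
    intro hbd
    obtain ⟨F, hF⟩ := h3 f hf hbd
    exact h1 η F hcap' hF
  exact ⟨key, fun hs => key (boundedDerivs_of_smoothUpTo hβ hη hf.1 hs)⟩

end Pool.Agent.Worm.SB
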